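import Pool.Agent.Lib.P325L.Defs

/-!
Module ARec (1.2h). Recursions for the weighted trail sums.
PROOF. nt_mono: induction on l, nt (l+1) H' v = ∑ over the edges of H' at v of nt l (H'.erase e) ..,
H'.erase e ⊆ H.erase e. asum_rec: with Asum = α ∑_{l<|H|} Q^l nt (l+1) H v, nt (l+1) H v =
∑_e nt l (H.erase e) (oth e v); l = 0 gives ∑_e 1, and for e in H, |H.erase e| = |H| - 1:
∑_{1<=l<|H|} Q^l nt l (H.erase e) u = Q ∑_{l<|H|-1} Q^l nt (l+1) (H.erase e) u. If no edge of H meets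
v the left-hand side is 0 and the right-hand side is >= 0. csum_rec: similarly Csum w H v =
∑_{l<|H|} Q^(l+1) ∑_e nw w l (H.erase e) (oth e v); l = 0 gives Q [oth e v = w], the rest is
Q * Csum w (H.erase e) (oth e v), nonnegative, and may be dropped when oth e v = w.
-/

open scoped BigOperators

namespace Pool.Agent.Lib.P325L

variable {V ι : Type} [DecidableEq V] [DecidableEq ι]

theorem nt_mono (G : Gr V ι) (l : ℕ) (H' H : Finset ι) (h : H' ⊆ H) (v : V) :
    G.nt l H' v ≤ G.nt l H v := by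
  induction l generalizing H' H v with
  | zero => simp [Gr.nt]
  | succ l ih =>
    simp only [Gr.nt]
    calc ∑ e ∈ H'.filter (fun e => G.Inc e v), G.nt l (H'.erase e) (G.oth e v)
        ≤ ∑ e ∈ H'.filter (fun e => G.Inc e v), G.nt l (H.erase e) (G.oth e v) :=
          Finset.sum_le_sum fun e _ => ih _ _ (Finset.erase_subset_erase _ h) _
      _ ≤ ∑ e ∈ H.filter (fun e => G.Inc e v), G.nt l (H.erase e) (G.oth e v) :=
          Finset.sum_le_sum_of_subset (Finset.filter_subset_filter _ h)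

theorem asum_nonneg (G : Gr V ι) (α Q : ℝ) (hα : 0 ≤ α) (hQ : 0 ≤ Q) (H : Finset ι) (v : V) :
    0 ≤ G.Asum α Q H v := by
  unfold Gr.Asum
  exact mul_nonneg hα (Finset.sum_nonneg fun l _ => mul_nonneg (pow_nonneg hQ _)
    (Nat.cast_nonneg _))

theorem csum_nonneg (G : Gr V ι) (Q : ℝ) (hQ : 0 ≤ Q) (w : V) (H : Finset ι) (v : V) :
    0 ≤ G.Csum Q w H v := by
  unfold Gr.Csum
  exact Finset.sum_nonneg fun l _ => mul_nonneg (pow_nonneg hQ _) (Nat.cast_nonneg _)

theorem asum_mono (G : Gr V ι) (α Q : ℝ) (hα : 0 ≤ α) (hQ : 0 ≤ Q) (H' H : Finset ι)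
    (h : H' ⊆ H) (v : V) : G.Asum α Q H' v ≤ G.Asum α Q H v := by
  unfold Gr.Asum
  refine mul_le_mul_of_nonneg_left ?_ hα
  calc ∑ l ∈ Finset.range H'.card, Q ^ l * (G.nt (l + 1) H' v : ℝ)
      ≤ ∑ l ∈ Finset.range H'.card, Q ^ l * (G.nt (l + 1) H v : ℝ) :=
        Finset.sum_le_sum fun l _ => mul_le_mul_of_nonneg_left
          (by exact_mod_cast nt_mono G (l + 1) H' H h v) (pow_nonneg hQ _)
    _ ≤ ∑ l ∈ Finset.range H.card, Q ^ l * (G.nt (l + 1) H v : ℝ) :=
        Finset.sum_le_sum_of_subset_of_nonneg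
          (Finset.range_subset_range.2 (Finset.card_le_card h))
          fun l _ _ => mul_nonneg (pow_nonneg hQ _) (Nat.cast_nonneg _)

theorem asum_rec (G : Gr V ι) (α Q : ℝ) (hα : 0 ≤ α) (hQ : 0 ≤ Q) (H : Finset ι) (v : V) :
    ∑ e ∈ H.filter (fun e => G.Inc e v), (α + Q * G.Asum α Q (H.erase e) (G.oth e v)) ≤
      G.Asum α Q H v := by
  have key : G.Asum α Q H v = ∑ e ∈ H.filter (fun e => G.Inc e v),
      α * ∑ l ∈ Finset.range H.card, Q ^ l * (G.nt l (H.erase e) (G.oth e v) : ℝ) := by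
    unfold Gr.Asum
    rw [← Finset.mul_sum]
    congr 1
    rw [Finset.sum_comm]
    refine Finset.sum_congr rfl fun l _ => ?_
    rw [← Finset.mul_sum]
    congr 1
    simp only [Gr.nt]
    push_cast
    rfl
  rw [key]
  refine Finset.sum_le_sum fun e he => ?_
  have heH : e ∈ H := (Finset.mem_filter.1 he).1
  have hc : H.card = (H.erase e).card + 1 := (Finset.card_erase_add_one heH).symm
  rw [hc, Finset.sum_range_succ']
  unfold Gr.Asum
  have h1 : ∑ l ∈ Finset.range (H.erase e).card,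
      Q ^ (l + 1) * (G.nt (l + 1) (H.erase e) (G.oth e v) : ℝ) =
      Q * ∑ l ∈ Finset.range (H.erase e).card,
        Q ^ l * (G.nt (l + 1) (H.erase e) (G.oth e v) : ℝ) := by
    rw [Finset.mul_sum]
    refine Finset.sum_congr rfl fun l _ => ?_
    ring
  rw [h1]
  have h0 : (G.nt 0 (H.erase e) (G.oth e v) : ℝ) = 1 := by simp [Gr.nt]
  rw [h0]
  apply le_of_eq
  ring

theorem csum_rec (G : Gr V ι) (Q : ℝ) (hQ : 0 ≤ Q) (w : V) (H : Finset ι) (v : V) :
    ∑ e ∈ H.filter (fun e => G.Inc e v), Q * (if G.oth e v = w then 1 else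
      G.Csum Q w (H.erase e) (G.oth e v)) ≤ G.Csum Q w H v := by
  have key : G.Csum Q w H v = ∑ e ∈ H.filter (fun e => G.Inc e v),
      ∑ l ∈ Finset.range H.card, Q ^ (l + 1) * (G.nw w l (H.erase e) (G.oth e v) : ℝ) := by
    unfold Gr.Csum
    rw [Finset.sum_comm]
    refine Finset.sum_congr rfl fun l _ => ?_
    rw [← Finset.mul_sum]
    congr 1
    simp only [Gr.nw]
    push_cast
    rfl
  rw [key]
  refine Finset.sum_le_sum fun e he => ?_
  have heH : e ∈ H := (Finset.mem_filter.1 he).1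
  have hc : H.card = (H.erase e).card + 1 := (Finset.card_erase_add_one heH).symm
  rw [hc, Finset.sum_range_succ']
  have h1 : ∑ l ∈ Finset.range (H.erase e).card,
      Q ^ (l + 1 + 1) * (G.nw w (l + 1) (H.erase e) (G.oth e v) : ℝ) =
      Q * G.Csum Q w (H.erase e) (G.oth e v) := by
    unfold Gr.Csum
    rw [Finset.mul_sum]
    refine Finset.sum_congr rfl fun l _ => ?_
    ring
  rw [h1]
  have hn := mul_nonneg hQ (csum_nonneg G Q hQ w (H.erase e) (G.oth e v))
  by_cases hw : G.oth e v = w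
  · have h0 : (G.nw w 0 (H.erase e) (G.oth e v) : ℝ) = 1 := by simp [Gr.nw, hw]
    rw [if_pos hw, h0]
    simp only [zero_add, pow_one, mul_one]
    linarith
  · have h0 : (G.nw w 0 (H.erase e) (G.oth e v) : ℝ) = 0 := by simp [Gr.nw, hw]
    rw [if_neg hw, h0]
    simp

end Pool.Agent.Lib.P325L
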