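import Pool.Agent.Lib.P325L.Defs

/-!
Module CSum (1h). For fixed 0 < t < 1 the sums of c j * t^j are small for large m.
PROOF. c j <= 1/(m+1-j). For j <= m/2 (2 j <= m) this is <= 2/(m+2), total <= (2/(m+2))/(1-t);
for 2 j > m use c j <= 1 (m + 1 - j >= 1) and t^j <= t^((m+1)/2) (natural division), total
<= t^((m+1)/2)/(1-t). Both tend to 0 as m → ∞. (Sums of t^j over any set of j are <= 1/(1-t).)
-/

open scoped BigOperators

namespace Pool.Agent.Lib.P325L

theorem csum (t ε : ℝ) (ht0 : 0 < t) (ht1 : t < 1) (hε : 0 < ε) : ∃ m0 : ℕ, ∀ m ≥ m0,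
    ∀ c : ℕ → ℝ, (∀ j, 0 ≤ c j) → (∀ j ≤ m, c j * ((m : ℝ) + 1 - j) ≤ 1) →
      ∑ j ∈ Finset.range (m + 1), c j * t ^ j ≤ ε := by
  -- the tail
  have hT : Filter.Tendsto (fun K : ℕ => 2 * ((K : ℝ) * t ^ K) + t ^ K) Filter.atTop
      (nhds (2 * 0 + 0)) :=
    ((tendsto_self_mul_const_pow_of_lt_one ht0.le ht1).const_mul 2).add
      (tendsto_pow_atTop_nhds_zero_of_lt_one ht0.le ht1)
  have hT' : ∀ᶠ K : ℕ in Filter.atTop, 2 * ((K : ℝ) * t ^ K) + t ^ K < ε / 2 := by
    refine hT.eventually (gt_mem_nhds ?_)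
    simp only [mul_zero, add_zero]
    positivity
  obtain ⟨K0, hK0⟩ := Filter.eventually_atTop.1 hT'
  -- the head
  have h1t : 0 < 1 - t := by linarith
  obtain ⟨M, hM⟩ := exists_nat_gt (4 / ((1 - t) * ε))
  refine ⟨max (2 * K0) M, fun m hm c hc hcm => ?_⟩
  have hm1 : 2 * K0 ≤ m := le_trans (le_max_left _ _) hm
  have hm2 : M ≤ m := le_trans (le_max_right _ _) hm
  set K : ℕ := (m + 1) / 2 with hK
  have hKK : K0 ≤ K := by omega
  have hmK : m + 1 ≤ 2 * K + 1 := by omega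
  have hgeo : ∑ j ∈ Finset.range (m + 1), t ^ j ≤ 1 / (1 - t) := by
    rw [le_div_iff₀ h1t]
    have := mul_neg_geom_sum t (m + 1)
    have hp : 0 ≤ t ^ (m + 1) := pow_nonneg ht0.le _
    nlinarith
  have hterm : ∀ j ∈ Finset.range (m + 1), c j * t ^ j ≤ (2 / ((m : ℝ) + 2)) * t ^ j + t ^ K := by
    intro j hj
    have hjm : j ≤ m := by
      have := Finset.mem_range.1 hj
      omega
    have hcj := hcm j hjm
    have htj : 0 < t ^ j := pow_pos ht0 _
    have htK : 0 < t ^ K := pow_pos ht0 _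
    have hmp : (0 : ℝ) < (m : ℝ) + 2 := by positivity
    by_cases h2 : 2 * j ≤ m
    · have h2' : 2 * (j : ℝ) ≤ m := by exact_mod_cast h2
      have hb : c j ≤ 2 / ((m : ℝ) + 2) := by
        rw [le_div_iff₀ hmp]
        have h3 : ((m : ℝ) + 2) ≤ 2 * ((m : ℝ) + 1 - j) := by linarith
        have := mul_le_mul_of_nonneg_left h3 (hc j)
        nlinarith
      have := mul_le_mul_of_nonneg_right hb htj.le
      linarith
    · have hb : c j ≤ 1 := by
        have hj1 : (j : ℝ) ≤ m := by exact_mod_cast hjm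
        have h3 : (1 : ℝ) ≤ (m : ℝ) + 1 - j := by linarith
        have := mul_le_mul_of_nonneg_left h3 (hc j)
        linarith
      have hjK : K ≤ j := by omega
      have h4 : t ^ j ≤ t ^ K := pow_le_pow_of_le_one ht0.le ht1.le hjK
      have h5 : c j * t ^ j ≤ t ^ j := by
        have := mul_le_mul_of_nonneg_right hb htj.le
        linarith
      have h6 : 0 ≤ (2 / ((m : ℝ) + 2)) * t ^ j := by positivity
      linarith
  calc ∑ j ∈ Finset.range (m + 1), c j * t ^ j
      ≤ ∑ j ∈ Finset.range (m + 1), ((2 / ((m : ℝ) + 2)) * t ^ j + t ^ K) :=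
        Finset.sum_le_sum hterm
    _ = (2 / ((m : ℝ) + 2)) * ∑ j ∈ Finset.range (m + 1), t ^ j + ((m : ℝ) + 1) * t ^ K := by
        rw [Finset.sum_add_distrib, ← Finset.mul_sum, Finset.sum_const, Finset.card_range,
          nsmul_eq_mul]
        push_cast
        ring
    _ ≤ (2 / ((m : ℝ) + 2)) * (1 / (1 - t)) + (2 * (K : ℝ) + 1) * t ^ K := by
        have h7 : ((m : ℝ) + 1) ≤ 2 * (K : ℝ) + 1 := by exact_mod_cast hmK
        have htK : 0 ≤ t ^ K := pow_nonneg ht0.le _
        have h8 : 0 ≤ 2 / ((m : ℝ) + 2) := by positivity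
        exact add_le_add (mul_le_mul_of_nonneg_left hgeo h8)
          (mul_le_mul_of_nonneg_right h7 htK)
    _ ≤ ε / 2 + ε / 2 := by
        have h9 := (hK0 K hKK).le
        have h10 : (2 / ((m : ℝ) + 2)) * (1 / (1 - t)) ≤ ε / 2 := by
          have hmM : (M : ℝ) ≤ m := by exact_mod_cast hm2
          have hmp : (0 : ℝ) < (m : ℝ) + 2 := by positivity
          rw [div_mul_div_comm, mul_one, div_le_div_iff₀ (mul_pos hmp h1t) two_pos]
          rw [div_lt_iff₀ (mul_pos h1t hε)] at hM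
          have h11 : 0 < (1 - t) * ε := mul_pos h1t hε
          have h12 : (M : ℝ) * ((1 - t) * ε) ≤ ((m : ℝ) + 2) * ((1 - t) * ε) :=
            mul_le_mul_of_nonneg_right (by linarith) h11.le
          nlinarith
        have h13 : (2 * (K : ℝ) + 1) * t ^ K = 2 * ((K : ℝ) * t ^ K) + t ^ K := by ring
        rw [h13]
        linarith
    _ = ε := by ring

end Pool.Agent.Lib.P325L
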