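import Pool.Agent.Lib.P325L.Defs

/-!
The basic binomial estimate.
-/

open scoped BigOperators

namespace Pool.Agent.Lib.P325L

namespace ChBdAux

theorem choose_le (N k : ℕ) : (N.choose k : ℝ) * (k : ℝ) ^ k ≤ Real.exp k * (N : ℝ) ^ k := by
  have h1 : (N.choose k : ℝ) ≤ (N : ℝ) ^ k / (k.factorial : ℝ) := Nat.choose_le_pow_div k N
  have h2 := Real.pow_div_factorial_le_exp (k : ℝ) (Nat.cast_nonneg k) k
  have hf : (0 : ℝ) < (k.factorial : ℝ) := by exact_mod_cast k.factorial_pos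
  have hN : (0 : ℝ) ≤ (N : ℝ) ^ k := by positivity
  calc (N.choose k : ℝ) * (k : ℝ) ^ k ≤ (N : ℝ) ^ k / (k.factorial : ℝ) * (k : ℝ) ^ k :=
        mul_le_mul_of_nonneg_right h1 (by positivity)
    _ = (N : ℝ) ^ k * ((k : ℝ) ^ k / (k.factorial : ℝ)) := by ring
    _ ≤ (N : ℝ) ^ k * Real.exp k := mul_le_mul_of_nonneg_left h2 hN
    _ = Real.exp k * (N : ℝ) ^ k := mul_comm _ _

theorem exp_two_lt : Real.exp 2 ≤ 9 := by
  have h := Real.exp_one_lt_d9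
  have h2 : Real.exp 2 = Real.exp 1 * Real.exp 1 := by
    rw [← Real.exp_add]
    norm_num
  rw [h2]
  have h0 := Real.exp_pos 1
  nlinarith

end ChBdAux

open ChBdAux

theorem ch_bd (n Δ a b m : ℕ) (hn : 1 ≤ n) (ha : 1 ≤ a) (hb : 1 ≤ b) (hab : a + b ≤ m) :
    (n.choose a : ℝ) * (n.choose b : ℝ) * ((a * Δ).choose m : ℝ) * ((b : ℝ) / n) ^ m ≤
      (9 * (Δ : ℝ)) ^ m * ((m : ℝ) / n) ^ (m - (a + b)) := by
  obtain ⟨r, hr⟩ := Nat.exists_eq_add_of_le hab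
  have hm : 1 ≤ m := by omega
  have e1 : m - (a + b) = r := by omega
  rw [e1]
  have hn0 : (0 : ℝ) < n := by exact_mod_cast hn
  have ha0 : (0 : ℝ) < a := by exact_mod_cast ha
  have hb0 : (0 : ℝ) < b := by exact_mod_cast hb
  have hm0 : (0 : ℝ) < m := by exact_mod_cast hm
  have h1 := choose_le n a
  have h2 := choose_le n b
  have h3 := choose_le (a * Δ) m
  push_cast at h3
  have hprod : ((n.choose a : ℝ) * (a : ℝ) ^ a) * ((n.choose b : ℝ) * (b : ℝ) ^ b) *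
      (((a * Δ).choose m : ℝ) * (m : ℝ) ^ m) ≤
      (Real.exp a * (n : ℝ) ^ a) * (Real.exp b * (n : ℝ) ^ b) *
        (Real.exp m * ((a : ℝ) * Δ) ^ m) := by
    apply mul_le_mul (mul_le_mul h1 h2 (by positivity) (by positivity)) h3 (by positivity)
      (by positivity)
  have hexp : Real.exp a * Real.exp b * Real.exp m ≤ 9 ^ m := by
    rw [← Real.exp_add, ← Real.exp_add]
    have h4 : (a : ℝ) + b + m ≤ (m : ℝ) * 2 := by
      have : (a : ℝ) + b ≤ m := by exact_mod_cast hab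
      linarith
    have h5 : Real.exp ((m : ℝ) * 2) = Real.exp 2 ^ m := by
      rw [← Real.exp_nat_mul]
    refine (Real.exp_le_exp.2 h4).trans ?_
    rw [h5]
    exact pow_le_pow_left₀ (Real.exp_pos 2).le exp_two_lt m
  have hpow : (a : ℝ) ^ (b + r) * (b : ℝ) ^ (a + r) ≤ (m : ℝ) ^ m * (m : ℝ) ^ r := by
    have h6 : (a : ℝ) ≤ m := by exact_mod_cast (by omega : a ≤ m)
    have h7 : (b : ℝ) ≤ m := by exact_mod_cast (by omega : b ≤ m)
    have h8 : (m : ℝ) ^ m * (m : ℝ) ^ r = (m : ℝ) ^ (b + r) * (m : ℝ) ^ (a + r) := by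
      rw [← pow_add, ← pow_add]
      congr 1
      omega
    rw [h8]
    exact mul_le_mul (pow_le_pow_left₀ ha0.le h6 _) (pow_le_pow_left₀ hb0.le h7 _)
      (by positivity) (by positivity)
  have hX : 0 < (a : ℝ) ^ a * (b : ℝ) ^ b * (m : ℝ) ^ m * (n : ℝ) ^ m := by positivity
  rw [mul_pow, div_pow, div_pow]
  rw [← mul_le_mul_iff_left₀ hX]
  have eL : (n.choose a : ℝ) * (n.choose b : ℝ) * ((a * Δ).choose m : ℝ) *
      ((b : ℝ) ^ m / (n : ℝ) ^ m) * ((a : ℝ) ^ a * (b : ℝ) ^ b * (m : ℝ) ^ m * (n : ℝ) ^ m) =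
      ((n.choose a : ℝ) * (a : ℝ) ^ a) * ((n.choose b : ℝ) * (b : ℝ) ^ b) *
      (((a * Δ).choose m : ℝ) * (m : ℝ) ^ m) * (b : ℝ) ^ m := by
    field_simp
  have eR : 9 ^ m * (Δ : ℝ) ^ m * ((m : ℝ) ^ r / (n : ℝ) ^ r) *
      ((a : ℝ) ^ a * (b : ℝ) ^ b * (m : ℝ) ^ m * (n : ℝ) ^ m) =
      9 ^ m * (Δ : ℝ) ^ m * ((a : ℝ) ^ a * (b : ℝ) ^ b * (n : ℝ) ^ (a + b)) *
        ((m : ℝ) ^ m * (m : ℝ) ^ r) := by
    have : (n : ℝ) ^ m = (n : ℝ) ^ (a + b) * (n : ℝ) ^ r := by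
      rw [← pow_add, ← hr]
    rw [this]
    field_simp
  rw [eL, eR]
  calc ((n.choose a : ℝ) * (a : ℝ) ^ a) * ((n.choose b : ℝ) * (b : ℝ) ^ b) *
      (((a * Δ).choose m : ℝ) * (m : ℝ) ^ m) * (b : ℝ) ^ m
      ≤ (Real.exp a * (n : ℝ) ^ a) * (Real.exp b * (n : ℝ) ^ b) *
        (Real.exp m * ((a : ℝ) * Δ) ^ m) * (b : ℝ) ^ m :=
        mul_le_mul_of_nonneg_right hprod (by positivity)
    _ = (Real.exp a * Real.exp b * Real.exp m) * ((Δ : ℝ) ^ m *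
        ((a : ℝ) ^ a * (b : ℝ) ^ b * (n : ℝ) ^ (a + b)) *
          ((a : ℝ) ^ (b + r) * (b : ℝ) ^ (a + r))) := by
        have h9 : (a : ℝ) ^ m = (a : ℝ) ^ a * (a : ℝ) ^ (b + r) := by
          rw [← pow_add]
          congr 1
          omega
        have h10 : (b : ℝ) ^ m = (b : ℝ) ^ b * (b : ℝ) ^ (a + r) := by
          rw [← pow_add]
          congr 1
          omega
        rw [mul_pow, h9, h10, pow_add (n : ℝ) a b]
        ring
    _ ≤ 9 ^ m * ((Δ : ℝ) ^ m * ((a : ℝ) ^ a * (b : ℝ) ^ b * (n : ℝ) ^ (a + b)) *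
          ((m : ℝ) ^ m * (m : ℝ) ^ r)) := by
        apply mul_le_mul hexp _ (by positivity) (by positivity)
        exact mul_le_mul_of_nonneg_left hpow (by positivity)
    _ = _ := by ring

end Pool.Agent.Lib.P325L
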