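import Pool.Agent.Lib.P325L.Defs

/-!
Module Walk2 (2.8h). Vertices of degree two outside S are few in irreducible edge sets.
Let T2 = {v ∈ verts H : v ∉ S, deg H v = 2}. CLAIM 2 |T2| <= n * (2 |H| - 2 |T2|), stated additively.
PROOF. ∑_v deg H v = 2 |H| over v ∈ verts H (double counting, src e ≠ tgt e), so the number of pairs
(e, v) with e ∈ H, Inc e v and v ∉ T2 is 2 |H| - 2 |T2|. Darts: pairs (e, v), e ∈ H, Inc e v.
If u ∈ T2 and Inc e u, e ∈ H, there is exactly one other edge e' ≠ e of H at u. For a dart (e, v)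
put u = oth e v; if u ∈ T2 let nxt (e, v) = (e', u), e' the other edge at u. For a dart (e', u) with
u ∈ T2 let prv (e', u) = (e, oth e u), e the other edge at u. Then prv (nxt (e,v)) = (e,v) whenever
oth e v ∈ T2.
Let (e, v) be a dart with v ∈ T2. CLAIM: there is j < n such that the vertices v, oth.. of
(e,v), nxt(e,v), …, nxt^j(e,v) are defined, i.e. oth of the first j darts lie in T2, and oth of
nxt^j (e,v) is not in T2. Otherwise the darts (e_i, q_i) = nxt^i (e,v), i < n, and q_n = oth e_(n-1)
q_(n-1) are all defined with q_0, …, q_n ∈ T2 (at least q_0..q_(n-1) inner in T2), joins hold,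
consecutive edges are different. The vertices q_0..q_n are distinct: take i < j <= n with q_i = q_j
and j - i minimal; then q_i..q_(j-1) are distinct, and e_i, …, e_(j-1) are distinct: if e_a = e_b,
i <= a < b < j, then {q_a, q_(a+1)} = {q_b, q_(b+1)}, q_a ≠ q_b, so q_(a+1) = q_b, hence a + 1 = b
(if a+1 <= j-1, distinctness), but consecutive edges differ. So F = {e_i..e_(j-1)} has j - i
elements, 1 <= j - i <= n <= g, and touches only q_i..q_(j-1): contradiction to Girth. So we have a
bare path with n edges (Gr.Bare n S H q e; extend q, e arbitrarily), contradicting Irr.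
Map (e,v) ↦ ((e_j, oth e_j q_j), j) with this j: the first component is a dart (e*, u*) with
u* ∉ T2, and (e, v) = prv^j (e*, oth e* u*), so the map is injective. The number of darts (e, v) with
v ∈ T2 is 2 |T2|; hence 2 |T2| <= n * (2|H| - 2|T2|).
-/

open scoped BigOperators

namespace Pool.Agent.Lib.P325L

variable {V ι : Type} [DecidableEq V] [DecidableEq ι]

namespace Walk2Aux

omit [DecidableEq ι] in
/-- the two ends of an edge -/
private theorem inc_oth (G : Gr V ι) {e : ι} {v : V} : G.Inc e (G.oth e v) := by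
  unfold Gr.oth
  unfold Gr.Inc at *
  split_ifs <;> simp

omit [DecidableEq ι] in
private theorem oth_oth (G : Gr V ι) {e : ι} {v : V} (h : G.Inc e v) :
    G.oth e (G.oth e v) = v := by
  have hne := G.ne e
  unfold Gr.oth
  rcases h with h | h
  · rw [if_pos h, if_neg (by rw [← h] at *; exact hne), h]
  · have h1 : G.src e ≠ v := by rw [← h]; exact hne
    rw [if_neg h1, if_pos rfl, h]

omit [DecidableEq ι] in
private theorem ends (G : Gr V ι) {e : ι} {v : V} (h : G.Inc e v) :
    (G.src e = v ∧ G.tgt e = G.oth e v) ∨ (G.tgt e = v ∧ G.src e = G.oth e v) := by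
  unfold Gr.oth
  rcases h with h | h
  · left; rw [if_pos h]; exact ⟨h, rfl⟩
  · right
    have h1 : G.src e ≠ v := by rw [← h]; exact G.ne e
    rw [if_neg h1]; exact ⟨h, rfl⟩

omit [DecidableEq ι] in
private theorem mem_verts (G : Gr V ι) {H : Finset ι} {e : ι} {v : V} (he : e ∈ H)
    (h : G.Inc e v) : v ∈ G.verts H := by
  unfold Gr.verts
  rw [Finset.mem_union, Finset.mem_image, Finset.mem_image]
  rcases h with h | h
  · exact Or.inl ⟨e, he, h⟩
  · exact Or.inr ⟨e, he, h⟩

omit [DecidableEq ι] in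
private theorem card_inc (G : Gr V ι) (H : Finset ι) {e : ι} (he : e ∈ H) :
    ((G.verts H).filter (fun v => G.Inc e v)).card = 2 := by
  have : (G.verts H).filter (fun v => G.Inc e v) = {G.src e, G.tgt e} := by
    ext v
    rw [Finset.mem_filter, Finset.mem_insert, Finset.mem_singleton]
    constructor
    · rintro ⟨_, h | h⟩
      · exact Or.inl h.symm
      · exact Or.inr h.symm
    · intro h
      have h' : G.Inc e v := by
        rcases h with h | h
        · exact Or.inl h.symm
        · exact Or.inr h.symm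
      exact ⟨mem_verts G he h', h'⟩
  rw [this, Finset.card_pair (G.ne e)]

end Walk2Aux

theorem sum_deg (G : Gr V ι) (H : Finset ι) : ∑ v ∈ G.verts H, G.deg H v = 2 * H.card := by
  have h : ∀ v ∈ G.verts H, G.deg H v = ∑ e ∈ H, if G.Inc e v then 1 else 0 := by
    intro v _
    unfold Gr.deg
    rw [Finset.card_filter]
  rw [Finset.sum_congr rfl h, Finset.sum_comm]
  have h2 : ∀ e ∈ H, (∑ v ∈ G.verts H, if G.Inc e v then 1 else 0) = 2 := by
    intro e he
    rw [← Finset.card_filter]
    exact Walk2Aux.card_inc G H he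
  rw [Finset.sum_congr rfl h2, Finset.sum_const, smul_eq_mul, mul_comm]

namespace Walk2Aux

/-- darts -/
private def D (G : Gr V ι) (H : Finset ι) : Finset (ι × V) :=
  (H ×ˢ G.verts H).filter (fun d => G.Inc d.1 d.2)

omit [DecidableEq ι] in
private theorem mem_D (G : Gr V ι) {H : Finset ι} {d : ι × V} :
    d ∈ D G H ↔ d.1 ∈ H ∧ G.Inc d.1 d.2 := by
  unfold D
  rw [Finset.mem_filter, Finset.mem_product]
  constructor
  · rintro ⟨⟨h, _⟩, h2⟩; exact ⟨h, h2⟩
  · rintro ⟨h, h2⟩; exact ⟨⟨h, mem_verts G h h2⟩, h2⟩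

omit [DecidableEq ι] in
private theorem card_D_filter (G : Gr V ι) (H : Finset ι) (T : Finset V) :
    ((D G H).filter (fun d => d.2 ∈ T)).card = ∑ v ∈ T, G.deg H v := by
  rw [Finset.card_eq_sum_card_fiberwise (f := fun d : ι × V => d.2) (t := T)]
  · refine Finset.sum_congr rfl fun v hv => ?_
    unfold Gr.deg
    refine Finset.card_bij' (fun d _ => d.1) (fun e _ => (e, v)) ?_ ?_ ?_ ?_
    · intro d hd
      rw [Finset.mem_filter, Finset.mem_filter, mem_D] at hd
      obtain ⟨⟨⟨h1, h2⟩, _⟩, h3⟩ := hd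
      rw [Finset.mem_filter]
      exact ⟨h1, h3 ▸ h2⟩
    · intro e he
      rw [Finset.mem_filter] at he
      rw [Finset.mem_filter, Finset.mem_filter, mem_D]
      exact ⟨⟨he, hv⟩, rfl⟩
    · intro d hd
      rw [Finset.mem_filter] at hd
      exact Prod.ext rfl hd.2.symm
    · intro e _
      rfl
  · intro d hd
    exact (Finset.mem_filter.1 hd).2

/-- go to the other end -/
private def fl (G : Gr V ι) (d : ι × V) : ι × V :=
  if G.Inc d.1 d.2 then (d.1, G.oth d.1 d.2) else d

omit [DecidableEq ι] in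
private theorem fl_fl (G : Gr V ι) (d : ι × V) : fl G (fl G d) = d := by
  by_cases h : G.Inc d.1 d.2
  · have h1 : fl G d = (d.1, G.oth d.1 d.2) := if_pos h
    have h2 : G.Inc (fl G d).1 (fl G d).2 := by rw [h1]; exact inc_oth G
    have h3 : fl G (fl G d) = ((fl G d).1, G.oth (fl G d).1 (fl G d).2) := if_pos h2
    rw [h3, h1]
    exact Prod.ext rfl (oth_oth G h)
  · have h1 : fl G d = d := if_neg h
    rw [h1, h1]

omit [DecidableEq ι] in
private theorem fl_mem (G : Gr V ι) {H : Finset ι} {d : ι × V} (h : d ∈ D G H) :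
    fl G d ∈ D G H := by
  rw [mem_D] at h ⊢
  have h1 : fl G d = (d.1, G.oth d.1 d.2) := if_pos h.2
  rw [h1]
  exact ⟨h.1, inc_oth G⟩

/-- the other edge at a vertex -/
private noncomputable def oe (G : Gr V ι) (H : Finset ι) (e : ι) (v : V) : ι :=
  open Classical in
  if h : ∃ e' ∈ H, G.Inc e' v ∧ e' ≠ e then h.choose else e

private theorem oe_spec (G : Gr V ι) {H : Finset ι} {e : ι} {v : V} (he : e ∈ H)
    (h : G.Inc e v) (h2 : G.deg H v = 2) :
    oe G H e v ∈ H ∧ G.Inc (oe G H e v) v ∧ oe G H e v ≠ e ∧ oe G H (oe G H e v) v = e := by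
  unfold Gr.deg at h2
  obtain ⟨a, b, hab, hs⟩ := Finset.card_eq_two.1 h2
  have key : ∀ x, x ∈ H → G.Inc x v → x = a ∨ x = b := by
    intro x hx hx2
    have : x ∈ H.filter (fun e => G.Inc e v) := Finset.mem_filter.2 ⟨hx, hx2⟩
    rw [hs, Finset.mem_insert, Finset.mem_singleton] at this
    exact this
  have ha : a ∈ H ∧ G.Inc a v := by
    have : a ∈ H.filter (fun e => G.Inc e v) := by rw [hs]; simp
    exact Finset.mem_filter.1 this
  have hb : b ∈ H ∧ G.Inc b v := by
    have : b ∈ H.filter (fun e => G.Inc e v) := by rw [hs]; simp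
    exact Finset.mem_filter.1 this
  have ex : ∀ x, x ∈ H → G.Inc x v → ∃ e' ∈ H, G.Inc e' v ∧ e' ≠ x := by
    intro x hx hx2
    rcases key x hx hx2 with rfl | rfl
    · exact ⟨b, hb.1, hb.2, hab.symm⟩
    · exact ⟨a, ha.1, ha.2, hab⟩
  have sp : ∀ x, x ∈ H → G.Inc x v →
      oe G H x v ∈ H ∧ G.Inc (oe G H x v) v ∧ oe G H x v ≠ x := by
    intro x hx hx2
    have h1 : oe G H x v = (ex x hx hx2).choose := dif_pos (ex x hx hx2)
    rw [h1]
    exact (ex x hx hx2).choose_spec
  obtain ⟨s1, s2, s3⟩ := sp e he h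
  obtain ⟨t1, t2, t3⟩ := sp _ s1 s2
  refine ⟨s1, s2, s3, ?_⟩
  have c1 := key _ he h
  have c2 := key _ s1 s2
  have c3 := key _ t1 t2
  rcases c1 with c1 | c1 <;> rcases c2 with c2 | c2 <;> rcases c3 with c3 | c3 <;>
    first
    | (exact absurd (c2.trans c1.symm) s3)
    | (exact absurd (c3.trans c2.symm) t3)
    | (exact c3.trans c1.symm)

/-- change to the other edge at a vertex of degree two -/
private noncomputable def sp (G : Gr V ι) (H : Finset ι) (T : Finset V) (d : ι × V) : ι × V :=
  if d.1 ∈ H ∧ G.Inc d.1 d.2 ∧ d.2 ∈ T then (oe G H d.1 d.2, d.2) else d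

private theorem sp_pos (G : Gr V ι) {H : Finset ι} {T : Finset V} {d : ι × V} (h : d ∈ D G H)
    (h2 : d.2 ∈ T) : sp G H T d = (oe G H d.1 d.2, d.2) := by
  rw [mem_D] at h
  exact if_pos ⟨h.1, h.2, h2⟩

private theorem sp_sp (G : Gr V ι) {H : Finset ι} {T : Finset V}
    (hT : ∀ v ∈ T, G.deg H v = 2) (d : ι × V) : sp G H T (sp G H T d) = d := by
  by_cases h : d.1 ∈ H ∧ G.Inc d.1 d.2 ∧ d.2 ∈ T
  · have h1 : sp G H T d = (oe G H d.1 d.2, d.2) := if_pos h
    obtain ⟨s1, s2, s3, s4⟩ := oe_spec G h.1 h.2.1 (hT _ h.2.2)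
    have h2 : (sp G H T d) ∈ D G H := by rw [h1, mem_D]; exact ⟨s1, s2⟩
    have h3 : (sp G H T d).2 ∈ T := by rw [h1]; exact h.2.2
    rw [sp_pos G h2 h3, h1]
    exact Prod.ext s4 rfl
  · have h1 : sp G H T d = d := if_neg h
    rw [h1, h1]

private theorem sp_mem (G : Gr V ι) {H : Finset ι} {T : Finset V}
    (hT : ∀ v ∈ T, G.deg H v = 2) {d : ι × V} (h : d ∈ D G H) : sp G H T d ∈ D G H := by
  by_cases h2 : d.2 ∈ T
  · rw [sp_pos G h h2, mem_D]
    rw [mem_D] at h
    obtain ⟨s1, s2, s3, s4⟩ := oe_spec G h.1 h.2 (hT _ h2)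
    exact ⟨s1, s2⟩
  · have h1 : sp G H T d = d := if_neg fun h' => h2 h'.2.2
    rw [h1]; exact h

/-- one step of the walk -/
private noncomputable def nx (G : Gr V ι) (H : Finset ι) (T : Finset V) (d : ι × V) : ι × V :=
  sp G H T (fl G d)

private theorem nx_inj (G : Gr V ι) {H : Finset ι} {T : Finset V}
    (hT : ∀ v ∈ T, G.deg H v = 2) : Function.Injective (nx G H T) := by
  intro a b h
  have h1 := congrArg (sp G H T) h
  unfold nx at h1
  rw [sp_sp G hT, sp_sp G hT] at h1
  have h2 := congrArg (fl G) h1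
  rwa [fl_fl, fl_fl] at h2

private theorem nx_mem (G : Gr V ι) {H : Finset ι} {T : Finset V}
    (hT : ∀ v ∈ T, G.deg H v = 2) {d : ι × V} (h : d ∈ D G H) (j : ℕ) :
    (nx G H T)^[j] d ∈ D G H := by
  induction j with
  | zero => exact h
  | succ j ih =>
    rw [Function.iterate_succ_apply']
    exact sp_mem G hT (fl_mem G ih)

/-- the walk leaves `T` after fewer than `n` steps -/
private theorem exit (G : Gr V ι) {g n : ℕ} (hG : G.Girth g) (hn : n ≤ g) {S : Finset V}
    {H : Finset ι} (hi : G.Irr n S H) {T : Finset V} (hT : ∀ v ∈ T, G.deg H v = 2)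
    (hTS : ∀ v ∈ T, v ∉ S) {d : ι × V} (h : d ∈ D G H) (h2 : d.2 ∈ T) :
    ∃ j, j < n ∧ (fl G ((nx G H T)^[j] d)).2 ∉ T := by
  by_contra hcon
  push Not at hcon
  set e : ℕ → ι := fun j => ((nx G H T)^[j] d).1 with hedef
  set q : ℕ → V := fun j => ((nx G H T)^[j] d).2 with hqdef
  have hmem : ∀ j, e j ∈ H ∧ G.Inc (e j) (q j) := fun j => (mem_D G).1 (nx_mem G hT h j)
  have hfl : ∀ j, fl G ((nx G H T)^[j] d) = (e j, G.oth (e j) (q j)) := fun j =>
    if_pos (hmem j).2
  have hstep : ∀ j < n, (nx G H T)^[j + 1] d =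
      (oe G H (e j) (G.oth (e j) (q j)), G.oth (e j) (q j)) := by
    intro j hj
    rw [Function.iterate_succ_apply']
    have h3 := hcon j hj
    have h4 : fl G ((nx G H T)^[j] d) ∈ D G H := fl_mem G (nx_mem G hT h j)
    change sp G H T (fl G ((nx G H T)^[j] d)) = _
    rw [sp_pos G h4 h3, hfl j]
  have hq : ∀ j < n, q (j + 1) = G.oth (e j) (q j) := fun j hj => by
    change ((nx G H T)^[j + 1] d).2 = _
    rw [hstep j hj]
  have he : ∀ j < n, e (j + 1) ≠ e j := by
    intro j hj
    have h3 := hcon j hj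
    rw [hfl j] at h3
    have h5 : e (j + 1) = oe G H (e j) (G.oth (e j) (q j)) := by
      change ((nx G H T)^[j + 1] d).1 = _
      rw [hstep j hj]
    rw [h5]
    exact (oe_spec G (hmem j).1 (inc_oth G) (hT _ h3)).2.2.1
  have hqT : ∀ j ≤ n, q j ∈ T := by
    intro j hj
    rcases j with _ | j
    · exact h2
    · rw [hq j (by omega)]
      have h3 := hcon j (by omega)
      rwa [hfl j] at h3
  have hends : ∀ j < n, (G.src (e j) = q j ∧ G.tgt (e j) = q (j + 1)) ∨
      (G.tgt (e j) = q j ∧ G.src (e j) = q (j + 1)) := by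
    intro j hj
    rw [hq j hj]
    exact ends G (hmem j).2
  -- distinctness
  have hdist : ∀ k i, 1 ≤ k → i + k ≤ n → q i ≠ q (i + k) := by
    intro k
    induction k using Nat.strong_induction_on with
    | _ k ih =>
      intro i hk hik hqq
      have hdq : ∀ a b, i ≤ a → a < b → b < i + k → q a ≠ q b := by
        intro a b ha hab hb
        have := ih (b - a) (by omega) a (by omega) (by omega)
        rwa [show a + (b - a) = b by omega] at this
      have hde : ∀ a b, i ≤ a → a < b → b < i + k → e a ≠ e b := by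
        intro a b ha hab hb hee
        have h5 : q b = q a ∨ q b = q (a + 1) := by
          have hb' := hends b (by omega)
          have ha' := hends a (by omega)
          rw [← hee] at hb'
          rcases ha' with ⟨x1, x2⟩ | ⟨x1, x2⟩ <;> rcases hb' with ⟨y1, y2⟩ | ⟨y1, y2⟩
          · exact Or.inl (y1.symm.trans x1)
          · exact Or.inr (y1.symm.trans x2)
          · exact Or.inr (y1.symm.trans x2)
          · exact Or.inl (y1.symm.trans x1)
        rcases h5 with h5 | h5
        · exact hdq a b ha hab hb h5.symm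
        · rcases Nat.lt_or_ge (a + 1) b with h6 | h6
          · exact hdq (a + 1) b (by omega) h6 hb h5.symm
          · have : a + 1 = b := by omega
            rw [← this] at hee
            exact he a (by omega) hee.symm
      set F : Finset ι := (Finset.Ico i (i + k)).image e with hF
      have hcF : F.card = k := by
        rw [hF, Finset.card_image_of_injOn, Nat.card_Ico]
        · omega
        · intro a ha b hb hab
          rw [Finset.mem_coe, Finset.mem_Ico] at ha hb
          rcases lt_trichotomy a b with h6 | h6 | h6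
          · exact absurd hab (hde a b ha.1 h6 hb.2)
          · exact h6
          · exact absurd hab.symm (hde b a hb.1 h6 ha.2)
      have hne : F.Nonempty := by
        rw [← Finset.card_pos, hcF]; omega
      have h6 := hG F hne (by rw [hcF]; omega)
      have h7 : G.verts F ⊆ (Finset.Ico i (i + k)).image q := by
        intro v hv
        have hcl : ∀ a, i ≤ a → a < i + k → q (a + 1) ∈ (Finset.Ico i (i + k)).image q := by
          intro a ha hb
          rcases Nat.lt_or_ge (a + 1) (i + k) with h8 | h8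
          · exact Finset.mem_image.2 ⟨a + 1, Finset.mem_Ico.2 ⟨by omega, h8⟩, rfl⟩
          · refine Finset.mem_image.2 ⟨i, Finset.mem_Ico.2 ⟨le_rfl, by omega⟩, ?_⟩
            rw [show a + 1 = i + k by omega]
            exact hqq
        have hcl0 : ∀ a, i ≤ a → a < i + k → q a ∈ (Finset.Ico i (i + k)).image q :=
          fun a ha hb => Finset.mem_image.2 ⟨a, Finset.mem_Ico.2 ⟨ha, hb⟩, rfl⟩
        unfold Gr.verts at hv
        rw [Finset.mem_union, Finset.mem_image, Finset.mem_image] at hv
        rcases hv with ⟨x, hx, rfl⟩ | ⟨x, hx, rfl⟩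
        · obtain ⟨a, ha, rfl⟩ := Finset.mem_image.1 hx
          rw [Finset.mem_Ico] at ha
          rcases hends a (by omega) with ⟨x1, _⟩ | ⟨_, x2⟩
          · rw [x1]; exact hcl0 a ha.1 ha.2
          · rw [x2]; exact hcl a ha.1 ha.2
        · obtain ⟨a, ha, rfl⟩ := Finset.mem_image.1 hx
          rw [Finset.mem_Ico] at ha
          rcases hends a (by omega) with ⟨_, x2⟩ | ⟨x1, _⟩
          · rw [x2]; exact hcl a ha.1 ha.2
          · rw [x1]; exact hcl0 a ha.1 ha.2
      have h8 := Finset.card_le_card h7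
      have h9 : ((Finset.Ico i (i + k)).image q).card ≤ k := by
        refine Finset.card_image_le.trans ?_
        rw [Nat.card_Ico]; omega
      omega
  refine hi.2 q e ⟨fun j _ => (hmem j).1, hends, ?_, ?_, ?_⟩
  · intro i j hin hjn hij
    rcases lt_trichotomy i j with h6 | h6 | h6
    · have := hdist (j - i) i (by omega) (by omega)
      rw [show i + (j - i) = j by omega] at this
      exact absurd hij this
    · exact h6
    · have := hdist (i - j) j (by omega) (by omega)
      rw [show j + (i - j) = i by omega] at this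
      exact absurd hij.symm this
  · exact fun i _ hin => hTS _ (hqT i hin.le)
  · exact fun i _ hin => hT _ (hqT i hin.le)

end Walk2Aux

open Walk2Aux in
theorem walk_two (G : Gr V ι) (g n : ℕ) (hG : G.Girth g) (hn : n ≤ g) (S : Finset V)
    (H : Finset ι) (hi : G.Irr n S H) :
    2 * ((G.verts H).filter (fun v => v ∉ S ∧ G.deg H v = 2)).card * (n + 1) ≤
      2 * n * H.card := by
  classical
  set T := (G.verts H).filter (fun v => v ∉ S ∧ G.deg H v = 2) with hTdef
  have hT : ∀ v ∈ T, G.deg H v = 2 := fun v hv => (Finset.mem_filter.1 hv).2.2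
  have hTS : ∀ v ∈ T, v ∉ S := fun v hv => (Finset.mem_filter.1 hv).2.1
  have c1 : ((D G H).filter (fun d => d.2 ∈ T)).card = 2 * T.card := by
    rw [card_D_filter G H T, Finset.sum_congr rfl hT, Finset.sum_const, smul_eq_mul, mul_comm]
  have c2 : (D G H).card = 2 * H.card := by
    have h1 : (D G H).filter (fun d => d.2 ∈ G.verts H) = D G H := by
      refine Finset.filter_true_of_mem fun d hd => ?_
      rw [mem_D] at hd
      exact mem_verts G hd.1 hd.2
    rw [← h1, card_D_filter G H _, sum_deg]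
  have c3 : ((D G H).filter (fun d => d.2 ∈ T)).card +
      ((D G H).filter (fun d => d.2 ∉ T)).card = (D G H).card :=
    Finset.card_filter_add_card_filter_not _
  have hex : ∀ d ∈ (D G H).filter (fun d => d.2 ∈ T),
      ∃ j, j < n ∧ (fl G ((nx G H T)^[j] d)).2 ∉ T := by
    intro d hd
    rw [Finset.mem_filter] at hd
    exact exit G hG hn hi hT hTS hd.1 hd.2
  choose! J hJ using hex
  have c4 : ((D G H).filter (fun d => d.2 ∈ T)).card ≤
      (((D G H).filter (fun d => d.2 ∉ T)) ×ˢ Finset.range n).card := by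
    refine Finset.card_le_card_of_injOn (fun d => (fl G ((nx G H T)^[J d] d), J d)) ?_ ?_
    · intro d hd
      have hd' : d ∈ (D G H).filter (fun d => d.2 ∈ T) := hd
      have hdD := (Finset.mem_filter.1 hd').1
      rw [Finset.mem_coe, Finset.mem_product, Finset.mem_filter, Finset.mem_range]
      exact ⟨⟨fl_mem G (nx_mem G hT hdD _), (hJ d hd').2⟩, (hJ d hd').1⟩
    · intro a _ b _ hab
      have h1 : fl G ((nx G H T)^[J a] a) = fl G ((nx G H T)^[J b] b) := (Prod.ext_iff.1 hab).1
      have h2 : J a = J b := (Prod.ext_iff.1 hab).2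
      have h3 := congrArg (fl G) h1
      rw [fl_fl, fl_fl, h2] at h3
      exact (nx_inj G hT).iterate _ h3
  rw [Finset.card_product, Finset.card_range] at c4
  rw [c1] at c3 c4
  rw [c2] at c3
  have e : ((D G H).filter (fun d => d.2 ∉ T)).card = 2 * H.card - 2 * T.card := by omega
  have hle : 2 * T.card ≤ 2 * H.card := by omega
  rw [e] at c4
  zify [hle] at c4 ⊢
  nlinarith [c4]

end Pool.Agent.Lib.P325L
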