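import Pool.Agent.Lib.P325L.Defs
import Pool.Agent.Lib.P325L.Walk2

/-!
Module SizeB (1.5h; uses sum_deg, walk_two). The size of irreducible edge sets.
PROOF. In W = verts H let s = |W ∩ S|, t2 = number of v ∈ W \ S of degree 2, t3 = number of v ∈ W \ S
of degree >= 3; vertices of W have degree >= 1 and those outside S have degree ≠ 1, so
|W| = s + t2 + t3 and sum_deg gives 2E >= s + 2 t2 + 3 t3, E = |H|. walk_two: t2 (n+1) <= n E, i.e.
t2 <= n (E - t2). Sparse: N E <= (N+1)(s + t2 + t3). Put b = E - t2 >= 0: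
N b <= (N+1)(s+t3) + t2 <= (N+1)(s+t3) + n b, so (N - n) b <= (N+1)(s+t3); N >= 20 n >= 20 gives
b <= (20/19)(21/20)(s+t3) = (21/19)(s+t3). From 2b >= s + 3 t3: 19 (s + 3 t3) <= 42 (s + t3), 15 t3 <= 23 s;
b <= (21/19)(38/15) s = 2.8 s, t2 <= 2.8 n s, total <= s + (23/15) s + 2.8 n s <= 6 n s <= 6 n |S|
(n >= 1). Work in ℝ or ℚ with linarith/nlinarith.
-/

open scoped BigOperators

namespace Pool.Agent.Lib.P325L

variable {V ι : Type} [DecidableEq V] [DecidableEq ι]

namespace SizeBAux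

theorem deg_pos (G : Gr V ι) (H : Finset ι) {v : V} (hv : v ∈ G.verts H) : 1 ≤ G.deg H v := by
  unfold Gr.verts at hv
  unfold Gr.deg
  rw [Finset.mem_union, Finset.mem_image, Finset.mem_image] at hv
  rw [Nat.succ_le_iff, Finset.card_pos]
  rcases hv with ⟨e, he, h⟩ | ⟨e, he, h⟩
  · exact ⟨e, Finset.mem_filter.2 ⟨he, Or.inl h⟩⟩
  · exact ⟨e, Finset.mem_filter.2 ⟨he, Or.inr h⟩⟩

theorem arith {s t2 t3 w E n N σ : ℕ} (h1 : s + t2 + t3 = w) (h2 : s + 2 * t2 + 3 * t3 ≤ 2 * E)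
    (h3 : 2 * t2 * (n + 1) ≤ 2 * n * E) (h4 : N * E ≤ (N + 1) * w) (hn : 1 ≤ n)
    (hN : 20 * n ≤ N) (hs : s ≤ σ) : w ≤ 6 * n * σ := by
  subst h1
  have hE : t2 ≤ E := by
    by_contra hc
    push Not at hc
    nlinarith [Nat.mul_le_mul_left n hc.le]
  obtain ⟨b, rfl⟩ := Nat.exists_eq_add_of_le hE
  have k1 : t2 ≤ n * b := by nlinarith
  have k2 : N * b ≤ (N + 1) * (s + t3) + n * b := by nlinarith
  have k3 : 19 * b ≤ 21 * (s + t3) := by
    have hN0 : 0 < N := by omega
    have e1 : 20 * (N * b) ≤ 20 * ((N + 1) * (s + t3)) + N * b := by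
      have : 20 * (n * b) ≤ N * b := by
        have := Nat.mul_le_mul_right b hN
        linarith
      linarith
    have e2 : 20 * ((N + 1) * (s + t3)) ≤ 21 * (N * (s + t3)) := by
      have : 20 * (s + t3) ≤ N * (s + t3) := Nat.mul_le_mul_right _ (by omega)
      linarith
    have e3 : N * (19 * b) ≤ N * (21 * (s + t3)) := by linarith
    exact Nat.le_of_mul_le_mul_left e3 hN0
  have k4 : 15 * t3 ≤ 23 * s := by omega
  have k5 : 5 * b ≤ 14 * s := by omega
  have k6 : 5 * t2 ≤ 14 * (n * s) := by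
    have := Nat.mul_le_mul_left n k5
    nlinarith
  have k7 : s ≤ n * s := Nat.le_mul_of_pos_left s (by omega)
  have k8 : s + t2 + t3 ≤ 6 * (n * s) := by omega
  calc s + t2 + t3 ≤ 6 * (n * s) := k8
    _ ≤ 6 * (n * σ) := by gcongr
    _ = 6 * n * σ := by ring

end SizeBAux

theorem size_b (G : Gr V ι) (g n R N : ℕ) (hG : G.Girth g) (hn : n ≤ g) (hn1 : 1 ≤ n)
    (hS : G.Sparse R N) (hN : 20 * n ≤ N) (S : Finset V) (H : Finset ι) (hi : G.Irr n S H)
    (hR : (G.verts H).card ≤ R) : (G.verts H).card ≤ 6 * n * S.card := by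
  classical
  have h3 := walk_two G g n hG hn S H hi
  have h4 := hS H hR
  have hsd := sum_deg G H
  have hcls : ∀ v ∈ G.verts H, (if v ∈ S then 1 else 0) +
      (if v ∉ S ∧ G.deg H v = 2 then 1 else 0) + (if v ∉ S ∧ 3 ≤ G.deg H v then 1 else 0) = 1 ∧
      (if v ∈ S then 1 else 0) + 2 * (if v ∉ S ∧ G.deg H v = 2 then 1 else 0) +
        3 * (if v ∉ S ∧ 3 ≤ G.deg H v then 1 else 0) ≤ G.deg H v := by
    intro v hv
    have hp := SizeBAux.deg_pos G H hv
    by_cases hvS : v ∈ S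
    · simp [hvS]; exact hp
    · have h1 := hi.1 v hvS
      rcases Nat.lt_or_ge (G.deg H v) 3 with h | h
      · have h2 : G.deg H v = 2 := by omega
        simp [hvS, h2]
      · have h2 : G.deg H v ≠ 2 := by omega
        simp [hvS, h2, h]
  have h1 : ((G.verts H).filter (fun v => v ∈ S)).card +
      ((G.verts H).filter (fun v => v ∉ S ∧ G.deg H v = 2)).card +
      ((G.verts H).filter (fun v => v ∉ S ∧ 3 ≤ G.deg H v)).card = (G.verts H).card := by
    rw [Finset.card_filter, Finset.card_filter, Finset.card_filter, ← Finset.sum_add_distrib,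
      ← Finset.sum_add_distrib, Finset.card_eq_sum_ones]
    exact Finset.sum_congr rfl fun v hv => (hcls v hv).1
  have h2 : ((G.verts H).filter (fun v => v ∈ S)).card +
      2 * ((G.verts H).filter (fun v => v ∉ S ∧ G.deg H v = 2)).card +
      3 * ((G.verts H).filter (fun v => v ∉ S ∧ 3 ≤ G.deg H v)).card ≤ 2 * H.card := by
    rw [Finset.card_filter, Finset.card_filter, Finset.card_filter, Finset.mul_sum,
      Finset.mul_sum, ← Finset.sum_add_distrib, ← Finset.sum_add_distrib, ← hsd]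
    exact Finset.sum_le_sum fun v hv => (hcls v hv).2
  have hs : ((G.verts H).filter (fun v => v ∈ S)).card ≤ S.card :=
    Finset.card_le_card fun v hv => (Finset.mem_filter.1 hv).2
  exact SizeBAux.arith h1 h2 h3 h4 hn1 hN hs

end Pool.Agent.Lib.P325L
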