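import Pool.Agent.Lib.P325L.Defs

/-!
Module UnI (1.5h). Irreducible edge sets are closed under union, and reductions keep irreducible
subsets.
PROOF. irr_mono: clear (S ⊆ S': vertices outside S' are outside S; a bare path for S' is one for S).
sub_bare: let H0 ⊆ H, Irr n S H0, Bare n S H q e. Suppose e i ∈ H0 for some i < n. For an inner vertex
q j (0 < j < n) the two edges of H at q j are exactly e (j-1), e j (they are distinct: q injective),
deg H0 (q j) <= 2 and ≠ 1; so e (j-1) ∈ H0 iff e j ∈ H0. Hence all e j ∈ H0 and deg H0 (q j) = 2, so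
Bare n S H0 q e holds, contradicting Irr. So no e i lies in H0 (n arbitrary).
leaf_keep: if v ∉ S, deg H v = 1, e ∈ H, Inc e v, H0 ⊆ H with Irr n S H0, then e ∉ H0 (otherwise
deg H0 v = 1). irr_union: if v ∉ S has degree 1 in H1 ∪ H2, its edge is in H1 or in H2 and v has degree
1 there. If Bare n S (H1 ∪ H2) q e with n >= 1 then e 0 ∈ H1 or e 0 ∈ H2, contradicting sub_bare with
H0 = H1 or H2.
-/

open scoped BigOperators

namespace Pool.Agent.Lib.P325L

variable {V ι : Type} [DecidableEq V] [DecidableEq ι]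

theorem irr_mono (G : Gr V ι) (n : ℕ) (S S' : Finset V) (h : S ⊆ S') (H : Finset ι)
    (hH : G.Irr n S H) : G.Irr n S' H := by
  refine ⟨fun v hv => hH.1 v fun h' => hv (h h'), fun q e hb => hH.2 q e ?_⟩
  exact ⟨hb.mem, hb.join, hb.inj, fun i h1 h2 h3 => hb.out i h1 h2 (h h3), hb.deg⟩

namespace UnIAux

private theorem inc_right {G : Gr V ι} {n : ℕ} {S : Finset V} {H : Finset ι} {q : ℕ → V}
    {e : ℕ → ι} (hb : G.Bare n S H q e) {j : ℕ} (hj : j < n) : G.Inc (e j) (q (j + 1)) := by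
  rcases hb.join j hj with h | h
  · exact Or.inr h.2
  · exact Or.inl h.2

private theorem inc_left {G : Gr V ι} {n : ℕ} {S : Finset V} {H : Finset ι} {q : ℕ → V}
    {e : ℕ → ι} (hb : G.Bare n S H q e) {j : ℕ} (hj : j < n) : G.Inc (e j) (q j) := by
  rcases hb.join j hj with h | h
  · exact Or.inl h.1
  · exact Or.inr h.1

private theorem ne_succ {G : Gr V ι} {n : ℕ} {S : Finset V} {H : Finset ι} {q : ℕ → V}
    {e : ℕ → ι} (hb : G.Bare n S H q e) {j : ℕ} (hj : j + 1 < n) : e j ≠ e (j + 1) := by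
  intro he
  have h1 := hb.join j (by omega)
  have h2 := hb.join (j + 1) hj
  rw [← he] at h2
  have h3 : q j = q (j + 2) := by
    have hne := G.ne (e j)
    rcases h1 with ⟨a1, a2⟩ | ⟨a1, a2⟩ <;> rcases h2 with ⟨b1, b2⟩ | ⟨b1, b2⟩
    · exact absurd (b1.trans a2.symm) hne
    · rw [← a1, ← b2]
    · rw [← a1, ← b2]
    · exact absurd (a2.trans b1.symm) hne
  have := hb.inj j (j + 2) (by omega) (by omega) h3
  omega

private theorem filt_eq {G : Gr V ι} {n : ℕ} {S : Finset V} {H : Finset ι} {q : ℕ → V}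
    {e : ℕ → ι} (hb : G.Bare n S H q e) {j : ℕ} (hj : j + 1 < n) :
    H.filter (fun f => G.Inc f (q (j + 1))) = {e j, e (j + 1)} := by
  symm
  apply Finset.eq_of_subset_of_card_le
  · intro f hf
    rw [Finset.mem_insert, Finset.mem_singleton] at hf
    rw [Finset.mem_filter]
    rcases hf with rfl | rfl
    · exact ⟨hb.mem j (by omega), inc_right hb (by omega)⟩
    · exact ⟨hb.mem (j + 1) hj, inc_left hb hj⟩
  · rw [Finset.card_pair (ne_succ hb hj)]
    exact (hb.deg (j + 1) (by omega) hj).le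

private theorem filt_sub {G : Gr V ι} {n : ℕ} {S : Finset V} {H H0 : Finset ι} (h : H0 ⊆ H)
    {q : ℕ → V} {e : ℕ → ι} (hb : G.Bare n S H q e) {j : ℕ} (hj : j + 1 < n) :
    H0.filter (fun f => G.Inc f (q (j + 1))) =
      ({e j, e (j + 1)} : Finset ι).filter (fun f => f ∈ H0) := by
  rw [← filt_eq hb hj]
  ext f
  simp only [Finset.mem_filter]
  constructor
  · rintro ⟨h1, h2⟩
    exact ⟨⟨h h1, h2⟩, h1⟩
  · rintro ⟨⟨_, h2⟩, h3⟩
    exact ⟨h3, h2⟩

private theorem iff_succ {G : Gr V ι} {n : ℕ} {S : Finset V} {H H0 : Finset ι} (h : H0 ⊆ H)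
    (hi : G.Irr n S H0) {q : ℕ → V} {e : ℕ → ι} (hb : G.Bare n S H q e) {j : ℕ}
    (hj : j + 1 < n) : e j ∈ H0 ↔ e (j + 1) ∈ H0 := by
  have h1 := hi.1 (q (j + 1)) (hb.out (j + 1) (by omega) hj)
  unfold Gr.deg at h1
  rw [filt_sub h hb hj, Finset.filter_insert, Finset.filter_singleton] at h1
  have hne := ne_succ hb hj
  by_cases ha : e j ∈ H0 <;> by_cases hc : e (j + 1) ∈ H0
  · simp [ha, hc]
  · simp [ha, hc] at h1
  · simp [ha, hc] at h1
  · simp [ha, hc]

end UnIAux

open UnIAux in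
theorem sub_bare (G : Gr V ι) (n : ℕ) (S : Finset V) (H H0 : Finset ι) (h : H0 ⊆ H)
    (hi : G.Irr n S H0) (q : ℕ → V) (e : ℕ → ι) (hb : G.Bare n S H q e) :
    ∀ i < n, e i ∉ H0 := by
  intro i hin hmem
  have h0 : ∀ j, j ≤ i → e (i - j) ∈ H0 := by
    intro j
    induction j with
    | zero => intro _; exact hmem
    | succ j ih =>
      intro hj
      have h1 := ih (by omega)
      have h2 := (iff_succ h hi hb (j := i - (j + 1)) (by omega)).2
      have h3 : i - (j + 1) + 1 = i - j := by omega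
      rw [h3] at h2
      exact h2 h1
  have h00 : e 0 ∈ H0 := by
    have := h0 i le_rfl
    rwa [Nat.sub_self] at this
  have hall : ∀ j, j < n → e j ∈ H0 := by
    intro j
    induction j with
    | zero => intro _; exact h00
    | succ j ih =>
      intro hj
      exact (iff_succ h hi hb hj).1 (ih (by omega))
  refine hi.2 q e ⟨hall, hb.join, hb.inj, hb.out, fun j hj0 hjn => ?_⟩
  obtain ⟨k, rfl⟩ : ∃ k, j = k + 1 := ⟨j - 1, by omega⟩
  unfold Gr.deg
  rw [filt_sub h hb hjn, Finset.filter_insert, Finset.filter_singleton,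
    if_pos (hall k (by omega)), if_pos (hall (k + 1) hjn)]
  exact Finset.card_pair (ne_succ hb hjn)

theorem leaf_keep (G : Gr V ι) (n : ℕ) (S : Finset V) (H H0 : Finset ι) (h : H0 ⊆ H)
    (hi : G.Irr n S H0) (v : V) (hv : v ∉ S) (hd : G.deg H v = 1) (e : ι) (he : e ∈ H)
    (hev : G.Inc e v) : e ∉ H0 := by
  intro h0
  apply hi.1 v hv
  have _ := he
  apply le_antisymm
  · rw [← hd]
    exact Finset.card_le_card (Finset.filter_subset_filter _ h)
  · exact Finset.card_pos.2 ⟨e, Finset.mem_filter.2 ⟨h0, hev⟩⟩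

theorem irr_union (G : Gr V ι) (n : ℕ) (hn : 1 ≤ n) (S : Finset V) (H1 H2 : Finset ι)
    (h1 : G.Irr n S H1) (h2 : G.Irr n S H2) : G.Irr n S (H1 ∪ H2) := by
  constructor
  · intro v hv hd
    have h3 : 0 < G.deg (H1 ∪ H2) v := by omega
    obtain ⟨e, he⟩ := Finset.card_pos.1 h3
    rw [Finset.mem_filter] at he
    rcases Finset.mem_union.1 he.1 with h | h
    · exact leaf_keep G n S (H1 ∪ H2) H1 Finset.subset_union_left h1 v hv hd e he.1 he.2 h
    · exact leaf_keep G n S (H1 ∪ H2) H2 Finset.subset_union_right h2 v hv hd e he.1 he.2 h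
  · intro q e hb
    rcases Finset.mem_union.1 (hb.mem 0 (by omega)) with h | h
    · exact sub_bare G n S (H1 ∪ H2) H1 Finset.subset_union_left h1 q e hb 0 (by omega) h
    · exact sub_bare G n S (H1 ∪ H2) H2 Finset.subset_union_right h2 q e hb 0 (by omega) h

end Pool.Agent.Lib.P325L
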