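import Pool.Agent.Lib.P325L.Defs
import Pool.Agent.Lib.P325L.UnI
import Pool.Agent.Lib.P325L.SizeB

/-!
Module Clo (1.2h; uses irr_union, size_b). The largest small irreducible edge set.
PROOF. Fix S with 12 n |S| <= R. Let F be the (finite, decidable classically) family of edge sets H
with Irr n S H and |verts H| <= R; ∅ ∈ F. If H1, H2 ∈ F then verts (H1 ∪ H2) = verts H1 ∪ verts H2
has at most 12 n |S| <= R elements by size_b, and H1 ∪ H2 is irreducible: H1 ∪ H2 ∈ F. So the union
of all members of F (Finset.sup / induction, starting from ∅) is in F. Choose it for every S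
(and ∅ for S with 12 n |S| > R).
-/

open scoped BigOperators

namespace Pool.Agent.Lib.P325L

variable {V ι : Type} [DecidableEq V] [DecidableEq ι] [Fintype ι]

namespace CloAux

theorem verts_union (G : Gr V ι) (H1 H2 : Finset ι) :
    G.verts (H1 ∪ H2) = G.verts H1 ∪ G.verts H2 := by
  unfold Gr.verts
  rw [Finset.image_union, Finset.image_union, Finset.union_union_union_comm]

theorem irr_empty (G : Gr V ι) (n : ℕ) (hn1 : 1 ≤ n) (S : Finset V) :
    G.Irr n S (∅ : Finset ι) := by
  refine ⟨fun v _ => ?_, fun q e hb => ?_⟩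
  · unfold Gr.deg
    simp
  · exact absurd (hb.mem 0 (by omega)) (Finset.notMem_empty _)

end CloAux

theorem clo (G : Gr V ι) (g n R N : ℕ) (hG : G.Girth g) (hn : n ≤ g) (hn1 : 1 ≤ n)
    (hS : G.Sparse R N) (hN : 20 * n ≤ N) : ∃ Hc : Finset V → Finset ι, ∀ S : Finset V,
      12 * n * S.card ≤ R → G.Irr n S (Hc S) ∧ (G.verts (Hc S)).card ≤ 6 * n * S.card ∧
        ∀ H : Finset ι, G.Irr n S H → (G.verts H).card ≤ R → H ⊆ Hc S := by
  classical
  have main : ∀ S : Finset V, ∃ K : Finset ι, 12 * n * S.card ≤ R → G.Irr n S K ∧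
      (G.verts K).card ≤ 6 * n * S.card ∧
        ∀ H : Finset ι, G.Irr n S H → (G.verts H).card ≤ R → H ⊆ K := by
    intro S
    by_cases hR : 12 * n * S.card ≤ R
    · let F : Finset (Finset ι) :=
        Finset.univ.filter (fun H => G.Irr n S H ∧ (G.verts H).card ≤ R)
      have hF : G.Irr n S (F.sup id) ∧ (G.verts (F.sup id)).card ≤ R := by
        refine Finset.sup_induction
          (p := fun H : Finset ι => G.Irr n S H ∧ (G.verts H).card ≤ R) ?_ ?_ ?_
        · refine ⟨CloAux.irr_empty G n hn1 S, ?_⟩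
          have h0 : G.verts (∅ : Finset ι) = ∅ := by
            unfold Gr.verts
            simp
          change (G.verts (∅ : Finset ι)).card ≤ R
          rw [h0, Finset.card_empty]
          exact Nat.zero_le _
        · rintro H1 ⟨h1, h1'⟩ H2 ⟨h2, h2'⟩
          refine ⟨irr_union G n hn1 S H1 H2 h1 h2, ?_⟩
          have b1 := size_b G g n R N hG hn hn1 hS hN S H1 h1 h1'
          have b2 := size_b G g n R N hG hn hn1 hS hN S H2 h2 h2'
          change (G.verts (H1 ∪ H2)).card ≤ R
          rw [CloAux.verts_union]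
          have h3 := Finset.card_union_le (G.verts H1) (G.verts H2)
          have h4 : 6 * n * S.card + 6 * n * S.card = 12 * n * S.card := by ring
          omega
        · intro H hH
          exact (Finset.mem_filter.1 hH).2
      refine ⟨F.sup id, fun _ => ⟨hF.1, ?_, ?_⟩⟩
      · exact size_b G g n R N hG hn hn1 hS hN S _ hF.1 hF.2
      · intro H hH hH'
        exact Finset.le_sup (f := id) (Finset.mem_filter.2 ⟨Finset.mem_univ H, hH, hH'⟩)
    · exact ⟨∅, fun h => absurd h hR⟩
  choose Hc hHc using main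
  exact ⟨Hc, hHc⟩
end Pool.Agent.Lib.P325L
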