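import Pool.Agent.Lib.P325L.Defs
import Pool.Agent.Lib.P325L.ChBd

/-!
Module Cnt (1.8h; uses ch_bd). Counting dense triples over all maps f : Fin n × Fin Δ → Fin n.
PROOF. Exchange sums: for fixed A, B, C with C ⊆ A ×ˢ univ, |C| = m, the number of f with f e ∈ B for all
e ∈ C is b^m n^(nΔ - m) (product over e ∈ C resp. e ∉ C; Fintype.piFinset), and m <= nΔ. The number of
(A, C): choose n a times choose (aΔ) m (if m > aΔ it is zero), B: choose n b. So the sum is
choose n a * choose n b * choose (aΔ) m * b^m * n^(nΔ-m) = n^(nΔ) * choose.. * (b/n)^m; ch_bd.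
-/

open scoped BigOperators

namespace Pool.Agent.Lib.P325L

/-- The triples `(A, B, C)` with `|A| = a`, `|B| = b`, `|C| = m`, `C ⊆ A × univ` and `f C ⊆ B`. -/
def triples (n Δ a b m : ℕ) (f : Fin n × Fin Δ → Fin n) :
    Finset (Finset (Fin n) × Finset (Fin n) × Finset (Fin n × Fin Δ)) :=
  Finset.univ.filter (fun T => T.1.card = a ∧ T.2.1.card = b ∧ T.2.2.card = m ∧
    (∀ e ∈ T.2.2, e.1 ∈ T.1) ∧ ∀ e ∈ T.2.2, f e ∈ T.2.1)

private theorem card_f (n Δ : ℕ) (B : Finset (Fin n)) (C : Finset (Fin n × Fin Δ)) :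
    (Finset.univ.filter (fun f : Fin n × Fin Δ → Fin n => ∀ e ∈ C, f e ∈ B)).card =
      B.card ^ C.card * n ^ (n * Δ - C.card) := by
  classical
  have h1 : (Finset.univ.filter (fun f : Fin n × Fin Δ → Fin n => ∀ e ∈ C, f e ∈ B)) =
      Fintype.piFinset (fun e => if e ∈ C then B else Finset.univ) := by
    ext f
    rw [Finset.mem_filter, Fintype.mem_piFinset]
    constructor
    · rintro ⟨-, h⟩ e
      by_cases he : e ∈ C
      · rw [if_pos he]
        exact h e he
      · rw [if_neg he]
        exact Finset.mem_univ _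
    · intro h
      refine ⟨Finset.mem_univ _, fun e he => ?_⟩
      have := h e
      rwa [if_pos he] at this
  rw [h1, Fintype.card_piFinset]
  have h2 : ∀ e : Fin n × Fin Δ, (if e ∈ C then B else Finset.univ).card =
      if e ∈ C then B.card else n := by
    intro e
    split_ifs
    · rfl
    · simp
  simp_rw [h2]
  rw [Finset.prod_ite, Finset.prod_const, Finset.prod_const]
  have h3 : (Finset.univ.filter (fun e => e ∈ C)) = C := by ext; simp
  have h4 : (Finset.univ.filter (fun e => ¬ e ∈ C)) = Cᶜ := by ext; simp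
  rw [h3, h4, Finset.card_compl]
  simp

private theorem filter_card (α : Type) [Fintype α] [DecidableEq α] (b : ℕ) :
    (Finset.univ.filter (fun B : Finset α => B.card = b)).card = (Fintype.card α).choose b := by
  have h : (Finset.univ.filter (fun B : Finset α => B.card = b)) =
      Finset.powersetCard b Finset.univ := by
    ext B
    simp [Finset.mem_powersetCard]
  rw [h, Finset.card_powersetCard, Finset.card_univ]

private theorem filter_C (n Δ m : ℕ) (A : Finset (Fin n)) :
    (Finset.univ.filter (fun C : Finset (Fin n × Fin Δ) => C.card = m ∧ ∀ e ∈ C, e.1 ∈ A)).card =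
      (A.card * Δ).choose m := by
  classical
  have h : (Finset.univ.filter
      (fun C : Finset (Fin n × Fin Δ) => C.card = m ∧ ∀ e ∈ C, e.1 ∈ A)) =
      Finset.powersetCard m (A ×ˢ (Finset.univ : Finset (Fin Δ))) := by
    ext C
    rw [Finset.mem_filter, Finset.mem_powersetCard]
    constructor
    · rintro ⟨-, h1, h2⟩
      exact ⟨fun e he => Finset.mem_product.2 ⟨h2 e he, Finset.mem_univ _⟩, h1⟩
    · rintro ⟨h1, h2⟩
      exact ⟨Finset.mem_univ _, h2, fun e he => (Finset.mem_product.1 (h1 he)).1⟩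
  rw [h, Finset.card_powersetCard, Finset.card_product]
  simp

private theorem cnt_nat (n Δ a b m : ℕ) :
    ∑ f : Fin n × Fin Δ → Fin n, (triples n Δ a b m f).card =
      n.choose a * (n.choose b * ((a * Δ).choose m * (b ^ m * n ^ (n * Δ - m)))) := by
  classical
  unfold triples
  simp_rw [Finset.card_filter]
  rw [Finset.sum_comm]
  have key : ∀ T : Finset (Fin n) × Finset (Fin n) × Finset (Fin n × Fin Δ),
      (∑ f : Fin n × Fin Δ → Fin n, if (T.1.card = a ∧ T.2.1.card = b ∧ T.2.2.card = m ∧
        (∀ e ∈ T.2.2, e.1 ∈ T.1) ∧ ∀ e ∈ T.2.2, f e ∈ T.2.1) then 1 else 0) =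
      if T.1.card = a then (if T.2.1.card = b then
        (if (T.2.2.card = m ∧ ∀ e ∈ T.2.2, e.1 ∈ T.1) then b ^ m * n ^ (n * Δ - m) else 0)
        else 0) else 0 := by
    rintro ⟨A, B, C⟩
    by_cases hA : A.card = a
    · by_cases hB : B.card = b
      · by_cases hC : C.card = m ∧ ∀ e ∈ C, e.1 ∈ A
        · rw [if_pos hA, if_pos hB, if_pos hC]
          have h1 := card_f n Δ B C
          rw [Finset.card_filter, hB, hC.1] at h1
          rw [← h1]
          refine Finset.sum_congr rfl fun f _ => ?_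
          by_cases hf : ∀ e ∈ C, f e ∈ B
          · rw [if_pos hf, if_pos ⟨hA, hB, hC.1, hC.2, hf⟩]
          · rw [if_neg hf, if_neg (fun h => hf h.2.2.2.2)]
        · rw [if_pos hA, if_pos hB, if_neg hC]
          refine Finset.sum_eq_zero fun f _ => ?_
          rw [if_neg (fun h => hC ⟨h.2.2.1, h.2.2.2.1⟩)]
      · rw [if_pos hA, if_neg hB]
        refine Finset.sum_eq_zero fun f _ => ?_
        rw [if_neg (fun h => hB h.2.1)]
    · rw [if_neg hA]
      refine Finset.sum_eq_zero fun f _ => ?_
      rw [if_neg (fun h => hA h.1)]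
  rw [Finset.sum_congr rfl fun T _ => key T, Fintype.sum_prod_type]
  simp_rw [Fintype.sum_prod_type]
  have hBsum : ∀ A : Finset (Fin n), (∑ B : Finset (Fin n), ∑ C : Finset (Fin n × Fin Δ),
      if A.card = a then (if B.card = b then
        (if (C.card = m ∧ ∀ e ∈ C, e.1 ∈ A) then b ^ m * n ^ (n * Δ - m) else 0)
        else 0) else 0) = if A.card = a then
        n.choose b * ((a * Δ).choose m * (b ^ m * n ^ (n * Δ - m))) else 0 := by
    intro A
    by_cases hA : A.card = a
    · rw [if_pos hA]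
      have h1 : ∀ B : Finset (Fin n), (∑ C : Finset (Fin n × Fin Δ),
          if A.card = a then (if B.card = b then
          (if (C.card = m ∧ ∀ e ∈ C, e.1 ∈ A) then b ^ m * n ^ (n * Δ - m) else 0)
          else 0) else 0) = if B.card = b then
            (a * Δ).choose m * (b ^ m * n ^ (n * Δ - m)) else 0 := by
        intro B
        by_cases hB : B.card = b
        · have hK : ∀ K : ℕ, (A.card * Δ).choose m * K = ∑ C : Finset (Fin n × Fin Δ),
              if (C.card = m ∧ ∀ e ∈ C, e.1 ∈ A) then K else 0 := by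
            intro K
            rw [← Finset.sum_filter, Finset.sum_const, filter_C, smul_eq_mul]
          rw [if_pos hB, ← hA, hK]
          refine Finset.sum_congr rfl fun C _ => ?_
          rw [if_pos rfl, if_pos hB]
        · rw [if_neg hB]
          refine Finset.sum_eq_zero fun C _ => ?_
          rw [if_neg hB, ite_self]
      rw [Finset.sum_congr rfl fun B _ => h1 B, ← Finset.sum_filter, Finset.sum_const,
        filter_card, Fintype.card_fin, smul_eq_mul]
    · rw [if_neg hA]
      refine Finset.sum_eq_zero fun B _ => Finset.sum_eq_zero fun C _ => ?_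
      rw [if_neg hA]
  rw [Finset.sum_congr rfl fun A _ => hBsum A, ← Finset.sum_filter, Finset.sum_const,
    filter_card, Fintype.card_fin, smul_eq_mul]

theorem cnt (n Δ a b m : ℕ) (hn : 1 ≤ n) (ha : 1 ≤ a) (hb : 1 ≤ b) (hab : a + b ≤ m) :
    (∑ f : Fin n × Fin Δ → Fin n, ((triples n Δ a b m f).card : ℝ)) ≤
      (n : ℝ) ^ (n * Δ) * ((9 * (Δ : ℝ)) ^ m * ((m : ℝ) / n) ^ (m - (a + b))) := by
  have hn0 : (0 : ℝ) < n := by exact_mod_cast hn
  rw [← Nat.cast_sum, cnt_nat]
  by_cases hmΔ : m ≤ a * Δ
  swap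
  · rw [Nat.choose_eq_zero_of_lt (not_le.1 hmΔ)]
    simp only [zero_mul, mul_zero, Nat.cast_zero]
    positivity
  by_cases han : a ≤ n
  swap
  · rw [Nat.choose_eq_zero_of_lt (not_le.1 han)]
    simp only [zero_mul, Nat.cast_zero]
    positivity
  have hle : m ≤ n * Δ := hmΔ.trans (Nat.mul_le_mul_right Δ han)
  have h := ch_bd n Δ a b m hn ha hb hab
  refine le_trans (le_of_eq ?_) (mul_le_mul_of_nonneg_left h (by positivity))
  have e : (n : ℝ) ^ (n * Δ) = (n : ℝ) ^ (n * Δ - m) * (n : ℝ) ^ m := by
    rw [← pow_add]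
    congr 1
    omega
  push_cast
  rw [div_pow, e]
  field_simp

end Pool.Agent.Lib.P325L
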