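import Pool.Agent.Lib.P325L.Defs

/-!
Module Kal (1.2h). Kaluza's lemma for the sequence (M+1)/(M+1-j), continued geometrically.
PROOF. Put s j = (M+1)/(M+1-j) for j <= M and s j = (M+1) * 2^(j-M) for j > M (so s 0 = 1, all
s j > 0, and the ratios r j = s (j+1) / s j are nondecreasing: for j < M the ratio is
(M+1-j)/(M-j) = 1 + 1/(M-j), increasing up to 2 at j = M-1, and it is 2 for j >= M).
Define d by d 0 = 0 and, by strong recursion, d j = s j - sum_{1 <= i < j} d i * s (j-i) (j >= 1),
so that sum_{i=1..j} d i * s (j-i) = s j for all j >= 1.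
Claim d j >= 0 by strong induction: d 1 = s 1 >= 0; for j >= 1,
  sum_{i=1..j} d i * s (j+1-i) <= (s (j+1) / s j) * sum_{i=1..j} d i * s (j-i) = s (j+1)
because s (j+1-i) / s (j-i) <= s (j+1) / s j and d i >= 0. Hence d (j+1) >= 0.
In terms of power series S = mk s, Dd = mk d: S * (1 - Dd) = 1. Put
L = X * Dd' * S (i.e. L j = sum_{a+b=j} a * d a * s b), so L 0 = 0 and L j >= 0. Differentiating
S (1 - Dd) = 1: S' (1 - Dd) = S Dd', multiply by X S: X S' = X Dd' S * S = L * S.
Coefficient j: j * s j = sum_{i<=j} L i * s (j-i).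
-/

open scoped BigOperators

namespace Pool.Agent.Lib.P325L

namespace KalAux

/-- the sequence `(M+1)/(M+1-j)`, continued geometrically -/
noncomputable def ss (M j : ℕ) : ℝ :=
  if j ≤ M then ((M : ℝ) + 1) / ((M : ℝ) + 1 - j) else ((M : ℝ) + 1) * 2 ^ (j - M)

/-- the ratios -/
noncomputable def rr (M j : ℕ) : ℝ :=
  if j < M then 1 + 1 / ((M : ℝ) - j) else 2

theorem ss_zero (M : ℕ) : ss M 0 = 1 := by
  unfold ss
  rw [if_pos (Nat.zero_le _)]
  have : (M : ℝ) + 1 ≠ 0 := by positivity
  simp only [Nat.cast_zero, sub_zero]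
  exact div_self this

theorem ss_pos (M j : ℕ) : 0 < ss M j := by
  unfold ss
  split_ifs with h
  · have : (j : ℝ) ≤ M := by exact_mod_cast h
    have h1 : (0 : ℝ) ≤ M := Nat.cast_nonneg _
    apply div_pos <;> linarith
  · positivity

theorem ss_succ (M j : ℕ) : ss M (j + 1) = rr M j * ss M j := by
  unfold ss rr
  rcases lt_trichotomy j M with h | h | h
  · have e1 : j + 1 ≤ M := h
    rw [if_pos e1, if_pos h, if_pos h.le]
    have h1 : (j : ℝ) + 1 ≤ M := by exact_mod_cast h
    have h2 : (M : ℝ) - j ≠ 0 := by intro h3; linarith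
    have h4 : (M : ℝ) + 1 - j ≠ 0 := by intro h3; linarith
    have h5 : (M : ℝ) + 1 - (j + 1) ≠ 0 := by intro h3; linarith
    push_cast
    have h6 : (M : ℝ) + 1 - (j + 1) = M - j := by ring
    rw [h6]
    field_simp
    ring
  · subst h
    have e1 : ¬ j + 1 ≤ j := by omega
    rw [if_neg e1, if_neg (lt_irrefl j), if_pos le_rfl]
    have e2 : j + 1 - j = 1 := by omega
    have e3 : (j : ℝ) + 1 - j = 1 := by ring
    rw [e2, e3, div_one, pow_one]
    ring
  · have e1 : ¬ j + 1 ≤ M := by omega
    have e2 : ¬ j < M := by omega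
    have e3 : ¬ j ≤ M := by omega
    rw [if_neg e1, if_neg e2, if_neg e3]
    have : j + 1 - M = (j - M) + 1 := by omega
    rw [this, pow_succ]
    ring

theorem rr_mono (M : ℕ) {i j : ℕ} (h : i ≤ j) : rr M i ≤ rr M j := by
  unfold rr
  by_cases hj : j < M
  · rw [if_pos hj, if_pos (by omega)]
    have h1 : (j : ℝ) + 1 ≤ M := by exact_mod_cast hj
    have h2 : (i : ℝ) ≤ j := by exact_mod_cast h
    have h3 : (0 : ℝ) < M - j := by linarith
    have h4 : 1 / ((M : ℝ) - i) ≤ 1 / ((M : ℝ) - j) :=
      one_div_le_one_div_of_le h3 (by linarith)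
    linarith
  · rw [if_neg hj]
    split_ifs with hi
    · have h1 : (i : ℝ) + 1 ≤ M := by exact_mod_cast hi
      have h4 : 1 / ((M : ℝ) - i) ≤ 1 / 1 :=
        one_div_le_one_div_of_le one_pos (by linarith)
      rw [div_one] at h4
      linarith
    · exact le_rfl

theorem ss_conv (M : ℕ) {i j : ℕ} (h : i ≤ j) :
    ss M (i + 1) * ss M j ≤ ss M (j + 1) * ss M i := by
  rw [ss_succ, ss_succ]
  have h1 := rr_mono M h
  have h2 := ss_pos M i
  have h3 := ss_pos M j
  have h4 : 0 ≤ (rr M j - rr M i) * (ss M i * ss M j) :=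
    mul_nonneg (by linarith) (by positivity)
  linarith

/-- the series -/
noncomputable def SS (M : ℕ) : PowerSeries ℝ := PowerSeries.mk (ss M)

/-- the inverse deficit -/
noncomputable def DD (M : ℕ) : PowerSeries ℝ := 1 - (SS M)⁻¹

theorem SS_const (M : ℕ) : PowerSeries.constantCoeff (SS M) ≠ 0 := by
  rw [← PowerSeries.coeff_zero_eq_constantCoeff_apply, SS, PowerSeries.coeff_mk, ss_zero]
  exact one_ne_zero

theorem SD (M : ℕ) : SS M * (1 - DD M) = 1 := by
  unfold DD
  rw [sub_sub_cancel, PowerSeries.mul_inv_cancel _ (SS_const M)]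

theorem SD' (M : ℕ) : DD M * SS M = SS M - 1 := by
  have := SD M
  linear_combination -this

theorem DD_zero (M : ℕ) : PowerSeries.coeff 0 (DD M) = 0 := by
  have h := congrArg PowerSeries.constantCoeff (SD' M)
  have h1 : PowerSeries.constantCoeff (SS M) = 1 := by
    rw [← PowerSeries.coeff_zero_eq_constantCoeff_apply, SS, PowerSeries.coeff_mk, ss_zero]
  rw [map_mul, map_sub, h1, map_one, mul_one, sub_self] at h
  rw [PowerSeries.coeff_zero_eq_constantCoeff_apply, h]

theorem rec' (M j : ℕ) : ss M (j + 1) =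
    ∑ i ∈ Finset.range (j + 2), PowerSeries.coeff i (DD M) * ss M (j + 1 - i) := by
  have h := congrArg (PowerSeries.coeff (j + 1)) (SD' M)
  rw [PowerSeries.coeff_mul, Finset.Nat.sum_antidiagonal_eq_sum_range_succ_mk] at h
  simp only [SS, map_sub, PowerSeries.coeff_mk, PowerSeries.coeff_one] at h
  rw [if_neg (by omega), sub_zero] at h
  exact h.symm

theorem DD_nonneg (M j : ℕ) : 0 ≤ PowerSeries.coeff j (DD M) := by
  induction j using Nat.strong_induction_on with
  | _ j ih =>
    rcases j with _ | j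
    · rw [DD_zero]
    rcases j with _ | j
    · have h := rec' M 0
      simp only [Finset.sum_range_succ, Finset.range_zero, Finset.sum_empty, DD_zero, zero_mul,
        zero_add, Nat.sub_self, ss_zero, mul_one] at h
      rw [zero_add, ← h]
      exact (ss_pos M _).le
    · have h1 := rec' M (j + 1)
      have h2 := rec' M j
      rw [Finset.sum_range_succ, Nat.sub_self, ss_zero, mul_one] at h1
      have h3 : (∑ i ∈ Finset.range (j + 2), PowerSeries.coeff i (DD M) * ss M (j + 1 + 1 - i)) *
          ss M (j + 1) ≤ ss M (j + 1 + 1) * ss M (j + 1) := by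
        have h10 : ss M (j + 1 + 1) * ss M (j + 1) = ss M (j + 1 + 1) *
            ∑ i ∈ Finset.range (j + 2), PowerSeries.coeff i (DD M) * ss M (j + 1 - i) := by
          rw [← h2]
        rw [h10, Finset.sum_mul, Finset.mul_sum]
        refine Finset.sum_le_sum fun i hi => ?_
        have hi' : i < j + 2 := Finset.mem_range.1 hi
        have h4 := ih i (by omega)
        have h5 := ss_conv M (i := j + 1 - i) (j := j + 1) (by omega)
        have h6 : j + 1 - i + 1 = j + 1 + 1 - i := by omega
        rw [h6] at h5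
        have h7 := mul_le_mul_of_nonneg_left h5 h4
        linarith
      have h8 := ss_pos M (j + 1)
      have h9 := le_of_mul_le_mul_right h3 h8
      linarith

end KalAux

open KalAux in
theorem kal (M : ℕ) (hM : 1 ≤ M) : ∃ s L : ℕ → ℝ, s 0 = 1 ∧
    (∀ j ≤ M, s j * ((M : ℝ) + 1 - j) = M + 1) ∧ L 0 = 0 ∧ (∀ j, 0 ≤ L j) ∧
    ∀ j : ℕ, (j : ℝ) * s j = ∑ i ∈ Finset.range (j + 1), L i * s (j - i) := by
  refine ⟨ss M, fun j => PowerSeries.coeff j
    (PowerSeries.X * PowerSeries.derivative ℝ (DD M) * SS M), ss_zero M, ?_, ?_, ?_, ?_⟩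
  · intro j hj
    unfold ss
    rw [if_pos hj]
    have h : (j : ℝ) ≤ M := by exact_mod_cast hj
    exact div_mul_cancel₀ _ (by intro h3; linarith)
  · show PowerSeries.coeff 0 (PowerSeries.X * PowerSeries.derivative ℝ (DD M) * SS M) = 0
    rw [mul_assoc, PowerSeries.coeff_zero_X_mul]
  · intro j
    show 0 ≤ PowerSeries.coeff j (PowerSeries.X * PowerSeries.derivative ℝ (DD M) * SS M)
    rw [PowerSeries.coeff_mul]
    refine Finset.sum_nonneg fun x _ => mul_nonneg ?_ ?_
    · rcases x.1 with _ | n
      · rw [PowerSeries.coeff_zero_X_mul]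
      · rw [PowerSeries.coeff_succ_X_mul, PowerSeries.coeff_derivative]
        exact mul_nonneg (DD_nonneg M _) (by positivity)
    · rw [SS, PowerSeries.coeff_mk]
      exact (ss_pos M _).le
  · intro j
    have h1 : PowerSeries.derivative ℝ (DD M) * SS M +
        DD M * PowerSeries.derivative ℝ (SS M) = PowerSeries.derivative ℝ (SS M) := by
      have h := congrArg (PowerSeries.derivative ℝ) (SD' M)
      rw [map_sub, PowerSeries.derivative_one, sub_zero, Derivation.leibniz] at h
      simp only [smul_eq_mul] at h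
      linear_combination h
    have h2 : PowerSeries.X * PowerSeries.derivative ℝ (SS M) =
        (PowerSeries.X * PowerSeries.derivative ℝ (DD M) * SS M) * SS M := by
      have h3 := SD M
      linear_combination (PowerSeries.X * SS M) * h1 * (-1 : PowerSeries ℝ) +
        (-(PowerSeries.X * PowerSeries.derivative ℝ (SS M))) * h3
    have h4 := congrArg (PowerSeries.coeff j) h2
    rw [PowerSeries.coeff_mul (n := j) (φ := PowerSeries.X * PowerSeries.derivative ℝ (DD M) * SS M),
      Finset.Nat.sum_antidiagonal_eq_sum_range_succ_mk] at h4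
    have h5 : PowerSeries.coeff j (PowerSeries.X * PowerSeries.derivative ℝ (SS M)) =
        (j : ℝ) * ss M j := by
      rcases j with _ | n
      · rw [PowerSeries.coeff_zero_X_mul]
        simp
      · rw [PowerSeries.coeff_succ_X_mul, PowerSeries.coeff_derivative, SS, PowerSeries.coeff_mk]
        push_cast
        ring
    rw [← h5, h4]
    refine Finset.sum_congr rfl fun i _ => ?_
    simp only [SS, PowerSeries.coeff_mk]

end Pool.Agent.Lib.P325L
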