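import Pool.Agent.Lib.P325L.Defs

/-!
Module LagrA (2h). Expansion in powers of W = X / U and its coefficients (Lagrange inversion).
Mathlib: power series over the field ℝ have inverses, U * U⁻¹ = 1 if the constant coefficient is not
zero (PowerSeries.mul_inv_cancel); the derivative is PowerSeries.derivative (d⁄dX ℝ), or
`PowerSeries.derivativeFun`.
Let G = 1 - X * U' * U⁻¹.
(F1) For t >= 1: coeff j (U^t * G) = (1 - j/t) * coeff j (U^t). Indeed t * U^t * G = t U^t - X (U^t)'
  since (U^t)' = t U^(t-1) U'. In particular coeff t (U^t * G) = 0 for t >= 1, and coeff 0 G = 1,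
  coeff 1 G = - coeff 1 U.
(F2) Existence of h with X^n ∣ H - sum_{j<n} h_j W^j by induction on n: if H - sum = X^n * R put
  h_n = coeff 0 R; as W^n = X^n * (U⁻¹)^n and (U⁻¹)^n has constant coefficient 1,
  X^n R - h_n W^n = X^n (R - h_n (U⁻¹)^n) is divisible by X^(n+1).
(F3) For j < n: coeff j (H U^j G) = sum_{i<n} h_i coeff j (W^i U^j G) (the remainder is divisible by
  X^n, n > j). For i <= j, W^i U^j G = X^i U^(j-i) G has j-th coefficient coeff (j-i) (U^(j-i) G),
  which is 0 for i < j by (F1) and 1 for i = j; for i > j it is divisible by X^i, coefficient 0.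
  So h_j = coeff j (H U^j G).
-/

open scoped BigOperators

set_option linter.deprecated false

namespace Pool.Agent.Lib.P325L

namespace LagrAAux

open PowerSeries

theorem hc0 (U : PowerSeries ℝ) (hU : PowerSeries.coeff 0 U = 1) : U * U⁻¹ = 1 := by
  apply PowerSeries.mul_inv_cancel
  rw [← PowerSeries.coeff_zero_eq_constantCoeff_apply, hU]
  exact one_ne_zero

set_option linter.deprecated false in
theorem key (U : PowerSeries ℝ) (hU : PowerSeries.coeff 0 U = 1) (s : ℕ) :
    ((s + 1 : ℕ) : PowerSeries ℝ) *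
      (U ^ (s + 1) * (1 - PowerSeries.X * PowerSeries.derivativeFun U * U⁻¹)) =
      ((s + 1 : ℕ) : PowerSeries ℝ) * U ^ (s + 1) -
        PowerSeries.X * PowerSeries.derivative ℝ (U ^ (s + 1)) := by
  have hd : PowerSeries.derivativeFun U = PowerSeries.derivative ℝ U := rfl
  have h1 : U * U⁻¹ = 1 := hc0 U hU
  rw [PowerSeries.derivative_pow, hd, Nat.add_sub_cancel]
  have h2 : U ^ (s + 1) * U⁻¹ = U ^ s := by rw [pow_succ, mul_assoc, h1, mul_one]
  linear_combination (-((s + 1 : ℕ) : PowerSeries ℝ)) * PowerSeries.X *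
    PowerSeries.derivative ℝ U * h2

theorem coeff_X_d (F : PowerSeries ℝ) (j : ℕ) :
    PowerSeries.coeff j (PowerSeries.X * PowerSeries.derivative ℝ F) =
      (j : ℝ) * PowerSeries.coeff j F := by
  cases j with
  | zero => simp
  | succ j =>
    rw [PowerSeries.coeff_succ_X_mul, PowerSeries.coeff_derivative]
    push_cast
    ring

theorem coeff_nat_mul (t : ℕ) (F : PowerSeries ℝ) (j : ℕ) :
    PowerSeries.coeff j ((t : PowerSeries ℝ) * F) = (t : ℝ) * PowerSeries.coeff j F := by
  have h : (t : PowerSeries ℝ) = PowerSeries.C (t : ℝ) := by simp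
  rw [h, PowerSeries.coeff_C_mul]

end LagrAAux

theorem lagr_coeff (U : PowerSeries ℝ) (hU : PowerSeries.coeff 0 U = 1) (t : ℕ) (ht : 1 ≤ t)
    (j : ℕ) :
    PowerSeries.coeff j (U ^ t * (1 - PowerSeries.X * PowerSeries.derivativeFun U * U⁻¹)) =
      (1 - (j : ℝ) / t) * PowerSeries.coeff j (U ^ t) := by
  obtain ⟨s, rfl⟩ : ∃ s, t = s + 1 := ⟨t - 1, by omega⟩
  have h := congrArg (PowerSeries.coeff j) (LagrAAux.key U hU s)
  rw [map_sub, LagrAAux.coeff_nat_mul, LagrAAux.coeff_nat_mul, LagrAAux.coeff_X_d] at h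
  have hs : ((s + 1 : ℕ) : ℝ) ≠ 0 := by positivity
  field_simp
  linarith

namespace LagrAAux

theorem coeff_zero_G (U : PowerSeries ℝ) :
    PowerSeries.coeff 0 (1 - PowerSeries.X * PowerSeries.derivativeFun U * U⁻¹) = 1 := by
  rw [mul_assoc, map_sub, PowerSeries.coeff_zero_X_mul]
  simp

theorem term (U : PowerSeries ℝ) (hU : PowerSeries.coeff 0 U = 1) (i j : ℕ) :
    PowerSeries.coeff j ((PowerSeries.X * U⁻¹) ^ i * U ^ j *
      (1 - PowerSeries.X * PowerSeries.derivativeFun U * U⁻¹)) = if i = j then 1 else 0 := by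
  by_cases hij : i ≤ j
  · obtain ⟨d, rfl⟩ : ∃ d, j = i + d := ⟨j - i, by omega⟩
    have h1 : U * U⁻¹ = 1 := hc0 U hU
    have h2 : (PowerSeries.X * U⁻¹) ^ i * U ^ (i + d) *
        (1 - PowerSeries.X * PowerSeries.derivativeFun U * U⁻¹) =
        PowerSeries.X ^ i * (U ^ d *
          (1 - PowerSeries.X * PowerSeries.derivativeFun U * U⁻¹)) := by
      have h3 : (PowerSeries.X * U⁻¹) ^ i * U ^ (i + d) = PowerSeries.X ^ i * U ^ d := by
        calc (PowerSeries.X * U⁻¹) ^ i * U ^ (i + d)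
            = PowerSeries.X ^ i * U ^ d * (U * U⁻¹) ^ i := by
              rw [mul_pow, mul_pow, pow_add]; ring
          _ = PowerSeries.X ^ i * U ^ d := by rw [h1, one_pow, mul_one]
      rw [h3, mul_assoc]
    rw [h2, PowerSeries.coeff_X_pow_mul', if_pos hij, Nat.add_sub_cancel_left]
    rcases Nat.eq_zero_or_pos d with hd | hd
    · subst hd
      rw [pow_zero, one_mul, coeff_zero_G, if_pos (by omega)]
    · rw [lagr_coeff U hU d hd d, if_neg (by omega)]
      have : (d : ℝ) ≠ 0 := by positivity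
      rw [div_self this, sub_self, zero_mul]
  · have h2 : (PowerSeries.X * U⁻¹) ^ i * U ^ j *
        (1 - PowerSeries.X * PowerSeries.derivativeFun U * U⁻¹) =
        PowerSeries.X ^ i * (U⁻¹ ^ i * U ^ j *
          (1 - PowerSeries.X * PowerSeries.derivativeFun U * U⁻¹)) := by
      rw [mul_pow]; ring
    rw [h2, PowerSeries.coeff_X_pow_mul', if_neg hij, if_neg (by omega)]

theorem exist (U : PowerSeries ℝ) (hU : PowerSeries.coeff 0 U = 1) (H : PowerSeries ℝ)
    (n : ℕ) : ∃ h : ℕ → ℝ, PowerSeries.X ^ n ∣ H - ∑ j ∈ Finset.range n,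
        PowerSeries.C (h j) * (PowerSeries.X * U⁻¹) ^ j := by
  induction n with
  | zero => exact ⟨fun _ => 0, by simp⟩
  | succ n ih =>
    obtain ⟨h, R, hR⟩ := ih
    refine ⟨fun j => if j < n then h j else PowerSeries.coeff 0 R, ?_⟩
    have hsum : ∑ j ∈ Finset.range n, PowerSeries.C (if j < n then h j else
        PowerSeries.coeff 0 R) * (PowerSeries.X * U⁻¹) ^ j =
        ∑ j ∈ Finset.range n, PowerSeries.C (h j) * (PowerSeries.X * U⁻¹) ^ j := by
      apply Finset.sum_congr rfl
      intro j hj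
      rw [if_pos (Finset.mem_range.1 hj)]
    have hn : (fun j => if j < n then h j else PowerSeries.coeff 0 R) n =
        PowerSeries.coeff 0 R := if_neg (lt_irrefl n)
    rw [Finset.sum_range_succ, hsum, hn, ← sub_sub, hR, mul_pow]
    have h1 : PowerSeries.X ^ n * R - PowerSeries.C (PowerSeries.coeff 0 R) *
        (PowerSeries.X ^ n * U⁻¹ ^ n) = PowerSeries.X ^ n *
        (R - PowerSeries.C (PowerSeries.coeff 0 R) * U⁻¹ ^ n) := by ring
    rw [h1, pow_succ]
    apply mul_dvd_mul_left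
    rw [PowerSeries.X_dvd_iff]
    have h2 : PowerSeries.constantCoeff U⁻¹ = 1 := by
      have h3 := congrArg PowerSeries.constantCoeff (hc0 U hU)
      rw [map_mul, map_one, ← PowerSeries.coeff_zero_eq_constantCoeff_apply U, hU, one_mul] at h3
      exact h3
    rw [map_sub, map_mul, map_pow, h2]
    simp

end LagrAAux

theorem lagr_exp (U : PowerSeries ℝ) (hU : PowerSeries.coeff 0 U = 1) (H : PowerSeries ℝ)
    (n : ℕ) : ∃ h : ℕ → ℝ,
      PowerSeries.X ^ n ∣ H - ∑ j ∈ Finset.range n,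
        PowerSeries.C (h j) * (PowerSeries.X * U⁻¹) ^ j ∧
      ∀ j < n, h j = PowerSeries.coeff j
        (H * U ^ j * (1 - PowerSeries.X * PowerSeries.derivativeFun U * U⁻¹)) := by
  obtain ⟨h, hh⟩ := LagrAAux.exist U hU H n
  refine ⟨h, hh, ?_⟩
  intro j hj
  obtain ⟨R, hR⟩ := hh
  have hH : H = ∑ i ∈ Finset.range n, PowerSeries.C (h i) * (PowerSeries.X * U⁻¹) ^ i +
      PowerSeries.X ^ n * R := by
    rw [← hR]; ring
  have h1 : H * U ^ j * (1 - PowerSeries.X * PowerSeries.derivativeFun U * U⁻¹) =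
      ∑ i ∈ Finset.range n, PowerSeries.C (h i) * ((PowerSeries.X * U⁻¹) ^ i * U ^ j *
        (1 - PowerSeries.X * PowerSeries.derivativeFun U * U⁻¹)) +
      PowerSeries.X ^ n * (R * U ^ j *
        (1 - PowerSeries.X * PowerSeries.derivativeFun U * U⁻¹)) := by
    conv_lhs => rw [hH]
    rw [add_mul, add_mul, Finset.sum_mul, Finset.sum_mul]
    congr 1
    · apply Finset.sum_congr rfl
      intro i _
      ring
    · ring
  rw [h1, map_add, map_sum, PowerSeries.coeff_X_pow_mul', if_neg (by omega), add_zero]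
  have h2 : ∀ i ∈ Finset.range n, PowerSeries.coeff j (PowerSeries.C (h i) *
      ((PowerSeries.X * U⁻¹) ^ i * U ^ j *
        (1 - PowerSeries.X * PowerSeries.derivativeFun U * U⁻¹))) =
      if i = j then h i else 0 := by
    intro i _
    rw [PowerSeries.coeff_C_mul, LagrAAux.term U hU i j]
    split_ifs <;> simp
  rw [Finset.sum_congr rfl h2, Finset.sum_ite_eq', if_pos (Finset.mem_range.2 hj)]

end Pool.Agent.Lib.P325L
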