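import Pool.Agent.Lib.P325L.Defs
import Pool.Agent.Lib.P325L.LagrA

/-!
Module LagrB (1.5h; uses the black boxes lagr_coeff, lagr_exp of LagrA). The convolution identity
  lagA U J i = lagA U (J-1) i + sum_{l < i} lagF U (l+1) * lagA U (J-1-l) (i-1-l)   (1 <= J, i <= J).
PROOF. Let W = X U⁻¹, G = 1 - X U' U⁻¹, V = 1 - U⁻¹. Apply lagr_exp to H = V, n = i + 1: h with
X^(i+1) ∣ V - sum_{j<=i} h_j W^j and h_j = coeff j (V U^j G) for j <= i.
h_0 = coeff 0 (V * G) = 0. For j >= 1: V U^j G = U^j G - U^(j-1) G, and coeff j (U^j G) = 0 by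
lagr_coeff. For j = 1: h_1 = - coeff 1 G = coeff 1 U (coeff 1 (X U' U⁻¹) = coeff 0 (U' U⁻¹) =
coeff 1 U). For j >= 2: h_j = - (1 - j/(j-1)) coeff j (U^(j-1)) = coeff j (U^(j-1)) / (j-1).
So h_j = lagF U j for 1 <= j <= i.
Now take coefficient i of V * U^(J+1) * G in two ways.
(a) V U^(J+1) G = U^(J+1) G - U^J G; by lagr_coeff (J >= 1) coefficient i is
  (1 - i/(J+1)) coeff i (U^(J+1)) - (1 - i/J) coeff i (U^J) = lagA U J i - lagA U (J-1) i.
(b) It is sum_{j=0..i} h_j coeff i (W^j U^(J+1) G) and W^j U^(J+1) G = X^j U^(J+1-j) G for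
  j <= i <= J, with coefficient i equal to coeff (i-j) (U^(J+1-j) G) =
  (1 - (i-j)/(J+1-j)) coeff (i-j) (U^(J+1-j)) = lagA U (J-j) (i-j)   (J+1-j >= 1).
With j = l + 1 this is the claim (h_0 = 0).
-/

open scoped BigOperators

namespace Pool.Agent.Lib.P325L

namespace LagrBAux

open PowerSeries

theorem U_inv (U : PowerSeries ℝ) (hU : PowerSeries.coeff 0 U = 1) : U * U⁻¹ = 1 := by
  apply PowerSeries.mul_inv_cancel
  rw [← PowerSeries.coeff_zero_eq_constantCoeff_apply, hU]
  exact one_ne_zero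

theorem V_mul (U G : PowerSeries ℝ) (hU : PowerSeries.coeff 0 U = 1) (j : ℕ) :
    (1 - U⁻¹) * U ^ (j + 1) * G = U ^ (j + 1) * G - U ^ j * G := by
  have h := U_inv U hU
  have h2 : U⁻¹ * U = 1 := by rw [mul_comm]; exact h
  calc (1 - U⁻¹) * U ^ (j + 1) * G = U ^ (j + 1) * G - (U⁻¹ * U) * U ^ j * G := by ring
    _ = U ^ (j + 1) * G - U ^ j * G := by rw [h2, one_mul]

theorem coeff_inv_zero (U : PowerSeries ℝ) (hU : PowerSeries.coeff 0 U = 1) :
    PowerSeries.coeff 0 (U⁻¹) = 1 := by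
  have h := congrArg (PowerSeries.coeff 0) (U_inv U hU)
  rw [PowerSeries.coeff_zero_eq_constantCoeff_apply, PowerSeries.coeff_zero_eq_constantCoeff_apply,
    map_mul, map_one, ← PowerSeries.coeff_zero_eq_constantCoeff_apply, hU, one_mul] at h
  rw [PowerSeries.coeff_zero_eq_constantCoeff_apply]
  exact h

theorem W_mul (U G : PowerSeries ℝ) (hU : PowerSeries.coeff 0 U = 1) (j J : ℕ) (h : j ≤ J) :
    (X * U⁻¹) ^ j * (U ^ (J + 1) * G) = X ^ j * (U ^ (J + 1 - j) * G) := by
  have h1 := U_inv U hU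
  have h2 : U ^ (J + 1) = U ^ j * U ^ (J + 1 - j) := by
    rw [← pow_add]; congr 1; omega
  rw [h2, mul_pow]
  calc (X ^ j * U⁻¹ ^ j) * (U ^ j * U ^ (J + 1 - j) * G)
      = X ^ j * ((U * U⁻¹) ^ j * (U ^ (J + 1 - j) * G)) := by rw [mul_pow]; ring
    _ = _ := by rw [h1, one_pow, one_mul]

theorem h_zero (U G : PowerSeries ℝ) (hU : PowerSeries.coeff 0 U = 1) :
    PowerSeries.coeff 0 ((1 - U⁻¹) * U ^ 0 * G) = 0 := by
  have h := coeff_inv_zero U hU
  rw [PowerSeries.coeff_zero_eq_constantCoeff_apply] at h ⊢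
  simp only [map_mul, map_sub, map_one, pow_zero, mul_one, h, sub_self, zero_mul]

theorem coeff_one_G (U : PowerSeries ℝ) (hU : PowerSeries.coeff 0 U = 1) :
    PowerSeries.coeff 1 (1 - X * PowerSeries.derivativeFun U * U⁻¹) = - PowerSeries.coeff 1 U := by
  have h0 := coeff_inv_zero U hU
  have : X * PowerSeries.derivativeFun U * U⁻¹ = (PowerSeries.derivativeFun U * U⁻¹) * X := by ring
  rw [map_sub, this]
  have e : PowerSeries.coeff 1 (PowerSeries.derivativeFun U * U⁻¹ * X) =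
      PowerSeries.coeff 0 (PowerSeries.derivativeFun U * U⁻¹) :=
    PowerSeries.coeff_succ_mul_X 0 _
  rw [e, PowerSeries.coeff_one, if_neg one_ne_zero]
  rw [PowerSeries.coeff_zero_eq_constantCoeff_apply, map_mul,
    ← PowerSeries.coeff_zero_eq_constantCoeff_apply, ← PowerSeries.coeff_zero_eq_constantCoeff_apply,
    h0]
  have hd : PowerSeries.coeff 0 (PowerSeries.derivativeFun U) = PowerSeries.coeff 1 U := by
    have h3 := PowerSeries.coeff_derivative U 0
    rw [show PowerSeries.derivativeFun U = (PowerSeries.derivative ℝ) U from rfl, h3]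
    simp
  rw [hd]
  ring

end LagrBAux

open LagrBAux PowerSeries in
theorem lagr_conv (U : PowerSeries ℝ) (hU : PowerSeries.coeff 0 U = 1) (J i : ℕ) (hJ : 1 ≤ J)
    (hi : i ≤ J) :
    lagA U J i = lagA U (J - 1) i +
      ∑ l ∈ Finset.range i, lagF U (l + 1) * lagA U (J - 1 - l) (i - 1 - l) := by
  obtain ⟨h, hdiv, hcoef⟩ := lagr_exp U hU (1 - U⁻¹) (i + 1)
  obtain ⟨R, hR⟩ := hdiv
  set G : PowerSeries ℝ := 1 - X * PowerSeries.derivativeFun U * U⁻¹ with hG
  have h0 : h 0 = 0 := by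
    rw [hcoef 0 (Nat.succ_pos i)]
    exact h_zero U G hU
  have hj : ∀ l < i, h (l + 1) = lagF U (l + 1) := by
    intro l hl
    rw [hcoef (l + 1) (by omega), V_mul U G hU l, map_sub,
      lagr_coeff U hU (l + 1) (by omega) (l + 1)]
    have hl1 : ((l + 1 : ℕ) : ℝ) ≠ 0 := by positivity
    rw [div_self hl1, sub_self, zero_mul, zero_sub]
    unfold lagF
    rcases Nat.eq_zero_or_pos l with hl0 | hl0
    · subst hl0
      rw [if_pos rfl, pow_zero, one_mul]
      have := coeff_one_G U hU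
      rw [← hG] at this
      rw [this, neg_neg]
    · rw [if_neg (by omega), lagr_coeff U hU l hl0 (l + 1)]
      have hl2 : (l : ℝ) ≠ 0 := by positivity
      have e1 : l + 1 - 1 = l := by omega
      rw [e1]
      push_cast
      have e2 : (l : ℝ) + 1 - 1 = l := by ring
      rw [e2]
      field_simp
      ring
  have key : PowerSeries.coeff i ((1 - U⁻¹) * U ^ (J + 1) * G) = lagA U J i - lagA U (J - 1) i := by
    rw [V_mul U G hU J, map_sub, lagr_coeff U hU (J + 1) (by omega) i, lagr_coeff U hU J hJ i]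
    unfold lagA
    obtain ⟨K, rfl⟩ : ∃ K, J = K + 1 := ⟨J - 1, by omega⟩
    have e1 : K + 1 - 1 = K := by omega
    rw [e1]
    have h1 : ((K : ℝ) + 1) ≠ 0 := by positivity
    have h2 : ((K : ℝ) + 1 + 1) ≠ 0 := by positivity
    push_cast
    rw [sub_div, sub_div, div_self h1, div_self h2]
  have key2 : PowerSeries.coeff i ((1 - U⁻¹) * U ^ (J + 1) * G) =
      ∑ j ∈ Finset.range (i + 1), h j * lagA U (J - j) (i - j) := by
    have hV : (1 - U⁻¹) = ∑ j ∈ Finset.range (i + 1), C (h j) * (X * U⁻¹) ^ j +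
        X ^ (i + 1) * R := by
      rw [← hR]; ring
    rw [hV, mul_assoc, add_mul, map_add, Finset.sum_mul, map_sum]
    have hz : PowerSeries.coeff i (X ^ (i + 1) * R * (U ^ (J + 1) * G)) = 0 := by
      rw [mul_assoc, PowerSeries.coeff_X_pow_mul', if_neg (by omega)]
    rw [hz, add_zero]
    apply Finset.sum_congr rfl
    intro j hj'
    have hji : j ≤ i := by
      have := Finset.mem_range.mp hj'
      omega
    rw [mul_assoc, W_mul U G hU j J (hji.trans hi), PowerSeries.coeff_C_mul,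
      PowerSeries.coeff_X_pow_mul', if_pos hji, lagr_coeff U hU (J + 1 - j) (by omega) (i - j)]
    unfold lagA
    have e1 : J - j + 1 = J + 1 - j := by omega
    rw [e1]
    have e2 : ((J - j : ℕ) : ℝ) + 1 = ((J + 1 - j : ℕ) : ℝ) := by
      rw [← e1]; push_cast; ring
    rw [e2]
    have h1 : ((J + 1 - j : ℕ) : ℝ) ≠ 0 := by
      have : 0 < J + 1 - j := by omega
      exact_mod_cast this.ne'
    rw [sub_div, div_self h1]
  rw [key, Finset.sum_range_succ', h0, zero_mul, add_zero] at key2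
  have : ∑ k ∈ Finset.range i, h (k + 1) * lagA U (J - (k + 1)) (i - (k + 1)) =
      ∑ l ∈ Finset.range i, lagF U (l + 1) * lagA U (J - 1 - l) (i - 1 - l) := by
    apply Finset.sum_congr rfl
    intro l hl
    rw [hj l (Finset.mem_range.mp hl)]
    have e1 : J - (l + 1) = J - 1 - l := by omega
    have e2 : i - (l + 1) = i - 1 - l := by omega
    rw [e1, e2]
  rw [this] at key2
  linarith

end Pool.Agent.Lib.P325L
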