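import Pool.Agent.Lib.P325L.Defs

/-!
Module Root (1.5h). The (M+1)-th root of the power series S = mk s, where X S' = L S and L >= 0.
PROOF. Define U_0 = 1 and, by strong recursion, j * U_j = (1/(M+1)) * sum_{i=1..j} L i * U_{j-i}
(j >= 1). Then U_j >= 0 by strong induction, hence all powers U^n have nonnegative coefficients
(induction on n, PowerSeries.coeff_mul). By construction X U' = (1/(M+1)) L U (as power series, with
L = mk L, L 0 = 0), so Y := U^(M+1) satisfies X Y' = (M+1) U^M X U' = L Y and Y_0 = 1. The sequence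
s satisfies the same recursion j s_j = sum_{i=1..j} L i s_{j-i} (as L 0 = 0), s 0 = 1; so
coeff j Y = s j by strong induction (for j >= 1 divide by j; in sum_{i<=j} L i * y (j-i) the term
i = 0 vanishes and the others only involve y (j-i) with j-i < j).
-/

open scoped BigOperators

namespace Pool.Agent.Lib.P325L

namespace RootAux

/-- the coefficients of the root -/
noncomputable def rs (M : ℕ) (L : ℕ → ℝ) : ℕ → ℝ
  | 0 => 1
  | j + 1 => (1 / (((M : ℝ) + 1) * ((j : ℝ) + 1))) *
      ∑ i : Fin (j + 1), L (i.1 + 1) * rs M L (j - i.1)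
  termination_by j => j

theorem rs_rec (M : ℕ) (L : ℕ → ℝ) (hL0 : L 0 = 0) (j : ℕ) :
    (j : ℝ) * rs M L j = (1 / ((M : ℝ) + 1)) *
      ∑ i ∈ Finset.range (j + 1), L i * rs M L (j - i) := by
  cases j with
  | zero => simp [hL0]
  | succ j =>
    rw [Finset.sum_range_succ', hL0, zero_mul, add_zero, rs]
    rw [Finset.sum_range (fun k => L (k + 1) * rs M L (j + 1 - (k + 1)))]
    have hM : (M : ℝ) + 1 ≠ 0 := by positivity
    have hj : (j : ℝ) + 1 ≠ 0 := by positivity
    have he : ∀ i : Fin (j + 1), L (i.1 + 1) * rs M L (j + 1 - (i.1 + 1)) =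
        L (i.1 + 1) * rs M L (j - i.1) := by
      intro i
      rw [Nat.add_sub_add_right]
    simp_rw [he]
    push_cast
    field_simp

theorem rs_nonneg (M : ℕ) (L : ℕ → ℝ) (hL : ∀ j, 0 ≤ L j) (j : ℕ) : 0 ≤ rs M L j := by
  induction j using Nat.strong_induction_on with
  | _ j ih =>
    cases j with
    | zero => rw [rs]; norm_num
    | succ j =>
      rw [rs]
      refine mul_nonneg (by positivity) (Finset.sum_nonneg fun i _ => ?_)
      exact mul_nonneg (hL _) (ih _ (by omega))

end RootAux

open RootAux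

theorem root (M : ℕ) (s L : ℕ → ℝ) (hs : s 0 = 1) (hL0 : L 0 = 0) (hL : ∀ j, 0 ≤ L j)
    (hrec : ∀ j : ℕ, (j : ℝ) * s j = ∑ i ∈ Finset.range (j + 1), L i * s (j - i)) :
    ∃ U : PowerSeries ℝ, PowerSeries.coeff 0 U = 1 ∧
      (∀ n j, 0 ≤ PowerSeries.coeff j (U ^ n)) ∧
      ∀ j, PowerSeries.coeff j (U ^ (M + 1)) = s j := by
  set U : PowerSeries ℝ := PowerSeries.mk (rs M L) with hU
  set Lp : PowerSeries ℝ := PowerSeries.mk L with hLp
  have hM : (M : ℝ) + 1 ≠ 0 := by positivity
  have hcoefX : ∀ (f : PowerSeries ℝ) (j : ℕ),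
      PowerSeries.coeff j (PowerSeries.X * PowerSeries.derivative ℝ f) =
        (j : ℝ) * PowerSeries.coeff j f := by
    intro f j
    cases j with
    | zero => simp
    | succ j =>
      rw [PowerSeries.coeff_succ_X_mul, PowerSeries.coeff_derivative]
      push_cast
      ring
  have hLmul : ∀ (f : PowerSeries ℝ) (j : ℕ),
      PowerSeries.coeff j (Lp * f) =
        ∑ i ∈ Finset.range (j + 1), L i * PowerSeries.coeff (j - i) f := by
    intro f j
    rw [PowerSeries.coeff_mul, Finset.Nat.sum_antidiagonal_eq_sum_range_succ_mk]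
    refine Finset.sum_congr rfl fun i _ => ?_
    simp [hLp]
  have h0 : PowerSeries.coeff 0 U = 1 := by
    rw [hU, PowerSeries.coeff_mk, rs]
  have hDU : PowerSeries.X * PowerSeries.derivative ℝ U =
      PowerSeries.C (1 / ((M : ℝ) + 1)) * (Lp * U) := by
    ext j
    rw [hcoefX, PowerSeries.coeff_C_mul, hLmul]
    simp only [hU, PowerSeries.coeff_mk]
    exact rs_rec M L hL0 j
  have hDY : PowerSeries.X * PowerSeries.derivative ℝ (U ^ (M + 1)) = Lp * U ^ (M + 1) := by
    rw [Derivation.leibniz_pow, Nat.add_sub_cancel, smul_eq_mul, nsmul_eq_mul]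
    calc PowerSeries.X * (((M + 1 : ℕ) : PowerSeries ℝ) * (U ^ M * PowerSeries.derivative ℝ U))
        = ((M + 1 : ℕ) : PowerSeries ℝ) * U ^ M * (PowerSeries.X * PowerSeries.derivative ℝ U) := by
          ring
      _ = (((M + 1 : ℕ) : PowerSeries ℝ) * PowerSeries.C (1 / ((M : ℝ) + 1))) *
            (Lp * U ^ (M + 1)) := by
          rw [hDU]; ring
      _ = Lp * U ^ (M + 1) := by
          have : ((M + 1 : ℕ) : PowerSeries ℝ) * PowerSeries.C (1 / ((M : ℝ) + 1)) = 1 := by
            have h1 : ((M + 1 : ℕ) : PowerSeries ℝ) = PowerSeries.C ((M : ℝ) + 1) := by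
              push_cast
              simp
            rw [h1, ← map_mul, mul_one_div_cancel hM, map_one]
          rw [this, one_mul]
  refine ⟨U, h0, ?_, ?_⟩
  · intro n
    induction n with
    | zero =>
      intro j
      rw [pow_zero, PowerSeries.coeff_one]
      split_ifs <;> norm_num
    | succ n ih =>
      intro j
      rw [pow_succ, PowerSeries.coeff_mul]
      refine Finset.sum_nonneg fun p _ => mul_nonneg (ih _) ?_
      rw [hU, PowerSeries.coeff_mk]
      exact rs_nonneg M L hL _
  · intro j
    induction j using Nat.strong_induction_on with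
    | _ j ih =>
      cases j with
      | zero =>
        rw [hs, PowerSeries.coeff_zero_eq_constantCoeff, map_pow,
          ← PowerSeries.coeff_zero_eq_constantCoeff, h0, one_pow]
      | succ j =>
        have e1 := congrArg (PowerSeries.coeff (j + 1)) hDY
        rw [hcoefX, hLmul] at e1
        have e2 := hrec (j + 1)
        rw [Finset.sum_range_succ', hL0, zero_mul, add_zero] at e1 e2
        have e3 : ∑ k ∈ Finset.range (j + 1), L (k + 1) *
            PowerSeries.coeff (j + 1 - (k + 1)) (U ^ (M + 1)) =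
            ∑ k ∈ Finset.range (j + 1), L (k + 1) * s (j + 1 - (k + 1)) := by
          refine Finset.sum_congr rfl fun k _ => ?_
          rw [ih _ (by omega)]
        rw [e3, ← e2] at e1
        have hj : ((j + 1 : ℕ) : ℝ) ≠ 0 := by positivity
        exact mul_left_cancel₀ hj e1

end Pool.Agent.Lib.P325L
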