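import Pool.Agent.Lib.P325L.Defs
import Pool.Agent.Lib.P325L.Kal
import Pool.Agent.Lib.P325L.Root
import Pool.Agent.Lib.P325L.LagrB

/-!
Module Coef (2h; uses kal, root, lagr_conv as black boxes). Existence of good coefficients.
PROOF. Apply kal and root with M = m + 1: U with nonnegative coefficients of all powers and
coeff j (U^(m+2)) = s j, s j * (m + 2 - j) = m + 2 for j <= m + 1. Put c l = lagF U (l+1)
and p J = sum_{i <= J} C (lagA U J i) * X^(J-i).
* c l >= 0: lagF U 1 = coeff 1 U >= 0 and lagF U j = coeff j (U^(j-1))/(j-1) >= 0 for j >= 2.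
* lagA U J i >= 0 for i <= J + 1, lagA U J 0 = 1 (constant coefficient 1), so p J is monic of degree
  J; p 0 = 1; lagA U J (J+1) = 0.
* last: lagA U (m+1) i = ((m+2-i)/(m+2)) * s i = 1 for i <= m + 1, so p (m+1) = sum X^i.
* succ: coefficient of X^(J+1-i) (0 <= i <= J+1) in X p J + sum_{r<=J} C (c (J-r)) p r: the first
  gives lagA U J i (for i = J+1 it is 0 = lagA U J (J+1), fine); with l = J - r the second gives
  sum_l c l * [coefficient of X^(J+1-i) in p (J-l)] = sum_{l < i} c l * lagA U (J-l) (i-1-l)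
  (need J - l >= J+1-i, i.e. l <= i-1, and l <= J). By lagr_conv with J+1 in place of J this is
  lagA U (J+1) i, the coefficient of X^(J+1-i) in p (J+1).
* le: claim: for all J >= j + 1, coeff (J-(j+1)) (p J) >= (J - j) * c j. Induction on J from j+1:
  by succ at J-1, coeff (J-(j+1)) (p J) = coeff of X * p (J-1) there, which is
  coeff ((J-1)-(j+1)) (p (J-1)) >= (J-1-j) c j if J - 1 >= j + 1 (and >= 0 if J = j+1), plus a sum of
  nonnegative terms among which r = J-1-j gives c j * coeff (J-1-j) (p (J-1-j)) = c j (monic).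
  At J = m+1: coeff (m-j) (p (m+1)) = 1 >= (m+1-j) c j.
  (Or do this directly on lagA.)
-/

open scoped BigOperators

namespace Pool.Agent.Lib.P325L

namespace CoefAux

/-- the polynomials -/
noncomputable def pp (U : PowerSeries ℝ) (J : ℕ) : Polynomial ℝ :=
  ∑ k ∈ Finset.range (J + 1), Polynomial.C (lagA U J (J - k)) * Polynomial.X ^ k

theorem coeff_pp (U : PowerSeries ℝ) (J n : ℕ) :
    (pp U J).coeff n = if n < J + 1 then lagA U J (J - n) else 0 := by
  unfold pp
  rw [Polynomial.finsetSum_coeff]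
  simp only [Polynomial.coeff_C_mul, Polynomial.coeff_X_pow]
  simp only [mul_ite, mul_one, mul_zero]
  rw [Finset.sum_ite_eq]
  simp only [Finset.mem_range]

theorem lagA_zero (U : PowerSeries ℝ) (hU : PowerSeries.coeff 0 U = 1) (J : ℕ) :
    lagA U J 0 = 1 := by
  unfold lagA
  have h1 : PowerSeries.coeff 0 (U ^ (J + 1)) = 1 := by
    rw [PowerSeries.coeff_zero_eq_constantCoeff_apply] at hU ⊢
    rw [map_pow, hU, one_pow]
  rw [h1]
  have : ((J : ℝ) + 1) ≠ 0 := by positivity
  field_simp
  simp

theorem lagA_top (U : PowerSeries ℝ) (J : ℕ) : lagA U J (J + 1) = 0 := by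
  unfold lagA
  push_cast
  simp

theorem lagA_nonneg (U : PowerSeries ℝ) (hp : ∀ n j, 0 ≤ PowerSeries.coeff j (U ^ n)) (J i : ℕ)
    (hi : i ≤ J + 1) : 0 ≤ lagA U J i := by
  unfold lagA
  have h1 : (i : ℝ) ≤ (J : ℝ) + 1 := by exact_mod_cast hi
  exact mul_nonneg (div_nonneg (by linarith) (by positivity)) (hp _ _)

theorem lagF_nonneg (U : PowerSeries ℝ) (hp : ∀ n j, 0 ≤ PowerSeries.coeff j (U ^ n)) (l : ℕ) :
    0 ≤ lagF U (l + 1) := by
  unfold lagF
  split_ifs with h
  · have := hp 1 1
    rwa [pow_one] at this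
  · refine div_nonneg (hp _ _) ?_
    push_cast
    have : (0 : ℝ) ≤ l := by positivity
    linarith

theorem natDegree_pp_le (U : PowerSeries ℝ) (J : ℕ) : (pp U J).natDegree ≤ J := by
  rw [Polynomial.natDegree_le_iff_coeff_eq_zero]
  intro N hN
  rw [coeff_pp, if_neg (by omega)]

theorem coeff_pp_self (U : PowerSeries ℝ) (hU : PowerSeries.coeff 0 U = 1) (J : ℕ) :
    (pp U J).coeff J = 1 := by
  rw [coeff_pp, if_pos (by omega), Nat.sub_self, lagA_zero U hU]

theorem grow (U : PowerSeries ℝ) (hU : PowerSeries.coeff 0 U = 1)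
    (hp : ∀ n j, 0 ≤ PowerSeries.coeff j (U ^ n)) (j d : ℕ) :
    (d : ℝ) * lagF U (j + 1) ≤ lagA U (j + d) (j + 1) := by
  induction d with
  | zero => rw [Nat.add_zero, lagA_top]; simp
  | succ d ih =>
    have h1 := lagr_conv U hU (j + (d + 1)) (j + 1) (by omega) (by omega)
    have e1 : j + (d + 1) - 1 = j + d := by omega
    rw [e1] at h1
    rw [h1]
    have h2 : lagF U (j + 1) ≤
        ∑ l ∈ Finset.range (j + 1), lagF U (l + 1) * lagA U (j + d - l) (j + 1 - 1 - l) := by
      have h3 := Finset.single_le_sum (s := Finset.range (j + 1))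
        (f := fun l => lagF U (l + 1) * lagA U (j + d - l) (j + 1 - 1 - l))
        (fun l hl => mul_nonneg (lagF_nonneg U hp l)
          (lagA_nonneg U hp _ _ (by rw [Finset.mem_range] at hl; omega)))
        (Finset.mem_range.2 (Nat.lt_succ_self j))
      have e2 : lagA U (j + d - j) (j + 1 - 1 - j) = 1 := by
        have : j + 1 - 1 - j = 0 := by omega
        rw [this, lagA_zero U hU]
      have h4 : lagF U (j + 1) * lagA U (j + d - j) (j + 1 - 1 - j) ≤
        ∑ l ∈ Finset.range (j + 1), lagF U (l + 1) * lagA U (j + d - l) (j + 1 - 1 - l) := h3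
      rw [e2, mul_one] at h4
      exact h4
    have h5 : ((d + 1 : ℕ) : ℝ) * lagF U (j + 1) = (d : ℝ) * lagF U (j + 1) + lagF U (j + 1) := by
      push_cast
      ring
    rw [h5]
    exact add_le_add ih h2

theorem succ_pp (U : PowerSeries ℝ) (hU : PowerSeries.coeff 0 U = 1) (j : ℕ) :
    pp U (j + 1) = Polynomial.X * pp U j +
      ∑ i ∈ Finset.range (j + 1), Polynomial.C (lagF U (j - i + 1)) * pp U i := by
  ext n
  rw [Polynomial.coeff_add, Polynomial.finsetSum_coeff, coeff_pp]
  simp only [Polynomial.coeff_C_mul, coeff_pp]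
  have hX : (Polynomial.X * pp U j).coeff n =
      if n < j + 2 then lagA U j (j + 1 - n) else 0 := by
    cases n with
    | zero =>
      rw [if_pos (by omega), Nat.sub_zero, lagA_top]
      simp
    | succ n =>
      rw [Polynomial.coeff_X_mul, coeff_pp]
      by_cases h : n < j + 1
      · rw [if_pos h, if_pos (by omega)]
        congr 1
        omega
      · rw [if_neg h, if_neg (by omega)]
  rw [hX]
  by_cases hn : n < j + 2
  · rw [if_pos (by omega), if_pos hn]
    have h1 := lagr_conv U hU (j + 1) (j + 1 - n) (by omega) (by omega)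
    rw [Nat.add_sub_cancel] at h1
    rw [h1]
    congr 1
    rw [← Finset.sum_range_reflect (fun r => lagF U (j - r + 1) *
      (if n < r + 1 then lagA U r (r - n) else 0)) (j + 1)]
    have e : ∀ l ∈ Finset.range (j + 1),
        lagF U (j - (j + 1 - 1 - l) + 1) *
          (if n < j + 1 - 1 - l + 1 then lagA U (j + 1 - 1 - l) (j + 1 - 1 - l - n) else 0) =
        if l < j + 1 - n then lagF U (l + 1) * lagA U (j - l) (j + 1 - n - 1 - l) else 0 := by
      intro l hl
      rw [Finset.mem_range] at hl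
      have a1 : j - (j + 1 - 1 - l) + 1 = l + 1 := by omega
      have a2 : j + 1 - 1 - l = j - l := by omega
      rw [a1, a2]
      by_cases h : l < j + 1 - n
      · rw [if_pos (by omega), if_pos h]
        congr 2
        omega
      · rw [if_neg (by omega), if_neg h, mul_zero]
    rw [Finset.sum_congr rfl e, ← Finset.sum_filter]
    apply Finset.sum_congr _ (fun _ _ => rfl)
    ext l
    simp only [Finset.mem_range, Finset.mem_filter]
    omega
  · rw [if_neg (by omega), if_neg hn, zero_add]
    symm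
    apply Finset.sum_eq_zero
    intro i hi
    rw [Finset.mem_range] at hi
    rw [if_neg (by omega), mul_zero]

end CoefAux

open CoefAux in
theorem coef (m : ℕ) : ∃ (c : ℕ → ℝ) (p : ℕ → Polynomial ℝ), GoodCoef m c p := by
  obtain ⟨s, L, hs0, hs, hL0, hL, hrec⟩ := kal (m + 1) (by omega)
  obtain ⟨U, hU, hp, hUs⟩ := root (m + 1) s L hs0 hL0 hL hrec
  have hone : ∀ i ≤ m + 1, lagA U (m + 1) i = 1 := by
    intro i hi
    unfold lagA
    rw [hUs i]
    have h1 := hs i hi
    have h2 : (((m + 1 : ℕ) : ℝ) + 1) ≠ 0 := by positivity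
    rw [div_mul_eq_mul_div, div_eq_one_iff_eq h2, mul_comm]
    exact h1
  refine ⟨fun l => lagF U (l + 1), pp U, ?_, ?_, ?_, ?_, ?_, ?_, ?_⟩
  · exact fun j => lagF_nonneg U hp j
  · intro j hj
    have h1 := grow U hU hp j (m + 1 - j)
    have e1 : j + (m + 1 - j) = m + 1 := by omega
    rw [e1, hone (j + 1) (by omega), Nat.cast_sub (by omega)] at h1
    push_cast at h1
    linarith
  · unfold pp
    simp [lagA_zero U hU]
  · exact fun j _ => succ_pp U hU j
  · ext n
    rw [coeff_pp, Polynomial.finsetSum_coeff]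
    simp only [Polynomial.coeff_X_pow]
    rw [Finset.sum_ite_eq]
    simp only [Finset.mem_range]
    by_cases h : n < m + 1 + 1
    · rw [if_pos h, if_pos h, hone _ (by omega)]
    · rw [if_neg h, if_neg h]
  · intro j _
    exact Polynomial.natDegree_eq_of_le_of_coeff_ne_zero (natDegree_pp_le U j)
      (by rw [coeff_pp_self U hU]; exact one_ne_zero)
  · intro j _
    exact Polynomial.monic_of_natDegree_le_of_coeff_eq_one j (natDegree_pp_le U j)
      (coeff_pp_self U hU j)

end Pool.Agent.Lib.P325L
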