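import Pool.Agent.Lib.P325L.Defs

/-!
Module Comp (2.5h). Composition of edge kernels: integrating out a middle spin.
PROOF. k = card Γ. From hD.w1 with n = 0: ∑ μ T i a = 0 (empty sum), and with n = 1, p = 0 and
q 0 = indicator of (j, a'): ∑ μ T i a T j a' = gg m i j * sg (a - a'). hD.one: ∑ μ = 1, hD.lab:
∑_a T i a τ = 0. Facts on sg: ∑_y sg (y - a) = 0, sg (-z) = sg z,
∑_y sg (y - a) * f y = k * f a - ∑_y f y, so (1/k) ∑_y sg (y - u) sg (z - y) = sg (z - u).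
Write y = (v, τ); the sum over τ of μ τ times a product of two affine functions of the tags at τ:
(A0 + A1)(B0 + B1) with A0, B0 free of tags: gives A0 B0 + <A1, B1>.
A0 = 1 + P.phi sg(v - x.1 - b) + ∑ P.lam i T i (v - b) x.2,
A1 = ∑ P.rho i T i (x.1 + b) τ + (1/k) ∑_ij ∑_a (P.c i j + P.d i j sg(v-x.1-b)) T i a x.2 T j (a+b) τ,
B0 = 1 + Q.phi sg(z.1 - v - b') + ∑ Q.rho i T i (v + b') z.2,
B1 = ∑ Q.lam i T i (z.1 - b') τ + (1/k) ∑_ij ∑_a (Q.c i j + Q.d i j sg(z.1-v-b')) T i a τ T j (a+b') z.2.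
Average over v ((1/k) ∑_v):
A0 B0: 1 + P.phi Q.phi sg(z.1-x.1-b-b') + Q.phi ∑ P.lam i T i (z.1-b-b') x.2 +
 P.phi ∑ Q.rho i T i (x.1+b+b') z.2 + (1/k) ∑_ij P.lam i Q.rho j ∑_a T i a x.2 T j (a+b+b') z.2
 (the averages of T i (v-b) x.2 over v vanish by lab).
<A1,B1>: rho-lam: ∑ P.rho i gg i j Q.lam j sg(z.1-x.1-b-b'). rho-c: average over v kills Q.d
 (∑_v sg(z.1-v-b') = 0): (1/k) ∑ P.rho i gg i j Q.c j l ∑_a sg(x.1+b-a) T l (a+b') z.2 =
 ∑ P.rho i gg i j Q.c j l T l (x.1+b+b') z.2 (use lab for the -1 part). c-lam: similarly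
 ∑ P.c i j gg j l Q.lam l T i (z.1-b'-b) x.2. c-c: (1/k^2) ∑_{a,a'} (P.c i j Q.c j' l + P.d i j Q.d j' l
 sg(z.1-x.1-b-b')) gg j j' sg(a+b-a') T i a x.2 T l (a'+b') z.2 (the mixed terms c*d average to 0 over
 v, the d*d term averages to sg(z.1-x.1-b-b')), and (1/k) ∑_{a'} sg(a+b-a') T l (a'+b') z.2 =
 T l (a+b+b') z.2.
Collecting gives ker D (P.comp Q) (b+b') x z.
-/

open scoped BigOperators

namespace Pool.Agent.Lib.P325L

variable {Γ : Type} [Fintype Γ] [AddCommGroup Γ] [DecidableEq Γ] {X : Type} [Fintype X] {m : ℕ}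

namespace CompAux

omit [AddCommGroup Γ] in
theorem card_pos' [AddCommGroup Γ] : (0 : ℝ) < (Fintype.card Γ : ℝ) := by
  have : 0 < Fintype.card Γ := Fintype.card_pos_iff.2 ⟨0⟩
  exact_mod_cast this

theorem sg_eq (z : Γ) : sg z = (if z = 0 then (Fintype.card Γ : ℝ) else 0) - 1 := by
  unfold sg
  split_ifs <;> ring

theorem sg_symm (a b : Γ) : sg (a - b) = sg (b - a) := by
  rw [sg_eq, sg_eq]
  have : (a - b = 0) ↔ (b - a = 0) := by
    rw [sub_eq_zero, sub_eq_zero]; exact eq_comm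
  simp only [this]

theorem sum_sg_mul (a : Γ) (f : Γ → ℝ) :
    ∑ v, sg (v - a) * f v = (Fintype.card Γ : ℝ) * f a - ∑ v, f v := by
  simp only [sg_eq, sub_mul, one_mul, Finset.sum_sub_distrib, ite_mul, zero_mul, sub_eq_zero]
  rw [Finset.sum_ite_eq' Finset.univ a (fun v => (Fintype.card Γ : ℝ) * f v)]
  simp

theorem sum_sg_mul' (a : Γ) (f : Γ → ℝ) :
    ∑ v, sg (a - v) * f v = (Fintype.card Γ : ℝ) * f a - ∑ v, f v := by
  rw [← sum_sg_mul a f]
  exact Finset.sum_congr rfl fun v _ => by rw [sg_symm]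

theorem sum_sg (a : Γ) : ∑ v, sg (v - a) = 0 := by
  have h := sum_sg_mul a (fun _ => (1 : ℝ))
  simp only [mul_one] at h
  rw [h]
  simp

theorem sum_sg' (a : Γ) : ∑ v, sg (a - v) = 0 := by
  rw [← sum_sg a]
  exact Finset.sum_congr rfl fun v _ => by rw [sg_symm]

theorem sum_sg_sg (p q : Γ) :
    ∑ v, sg (v - p) * sg (q - v) = (Fintype.card Γ : ℝ) * sg (q - p) := by
  rw [sum_sg_mul p (fun v => sg (q - v)), sum_sg' q, sub_zero]

/-- the average of the tag-free parts -/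
theorem step3 (φ ψ : ℝ) (p q : Γ) (L R : Γ → ℝ) (hL : ∑ v, L v = 0) (hR : ∑ v, R v = 0) :
    ∑ v, (1 + φ * sg (v - p) + L v) * (1 + ψ * sg (q - v) + R v) =
      (Fintype.card Γ : ℝ) * (1 + φ * ψ * sg (q - p) + φ * R p + ψ * L q) + ∑ v, L v * R v := by
  have h : ∀ v, (1 + φ * sg (v - p) + L v) * (1 + ψ * sg (q - v) + R v) =
      1 + ψ * sg (q - v) + R v + φ * sg (v - p) + φ * ψ * (sg (v - p) * sg (q - v)) +
        φ * (sg (v - p) * R v) + L v + ψ * (sg (q - v) * L v) + L v * R v := fun v => by ring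
  simp only [h, Finset.sum_add_distrib, ← Finset.mul_sum, sum_sg, sum_sg', sum_sg_sg, sum_sg_mul,
    sum_sg_mul', hL, hR]
  simp only [Finset.sum_const, Finset.card_univ, nsmul_eq_mul]
  ring

/-- the form of two coefficient functions of tags for a fixed label -/
theorem step4a (ρ l : ℝ) (p q : Γ) (f g : Γ → ℝ) (hf : ∑ a, f a = 0) (hg : ∑ a, g a = 0) :
    ∑ a, ∑ a', sg (a - a') * ((ρ * (if a = p then 1 else 0) + 1 / (Fintype.card Γ : ℝ) * f a) *
      (l * (if a' = q then 1 else 0) + 1 / (Fintype.card Γ : ℝ) * g a')) =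
      ρ * l * sg (q - p) + ρ * g p + l * f q + 1 / (Fintype.card Γ : ℝ) * ∑ a, f a * g a := by
  have hK : (Fintype.card Γ : ℝ) ≠ 0 := (card_pos' (Γ := Γ)).ne'
  have h1 : ∀ a, ∑ a', sg (a - a') * ((ρ * (if a = p then 1 else 0) +
      1 / (Fintype.card Γ : ℝ) * f a) *
      (l * (if a' = q then 1 else 0) + 1 / (Fintype.card Γ : ℝ) * g a')) =
      (ρ * (if a = p then 1 else 0) + 1 / (Fintype.card Γ : ℝ) * f a) *
        (l * sg (a - q) + g a) := by
    intro a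
    have h2 : ∀ a', sg (a - a') * ((ρ * (if a = p then 1 else 0) +
      1 / (Fintype.card Γ : ℝ) * f a) *
      (l * (if a' = q then 1 else 0) + 1 / (Fintype.card Γ : ℝ) * g a')) =
      (ρ * (if a = p then 1 else 0) + 1 / (Fintype.card Γ : ℝ) * f a) *
      (l * (sg (a - a') * (if a' = q then 1 else 0)) +
        1 / (Fintype.card Γ : ℝ) * (sg (a - a') * g a')) := fun a' => by ring
    simp only [h2, ← Finset.mul_sum, Finset.sum_add_distrib, sum_sg_mul', hg, sub_zero]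
    simp only [mul_ite, mul_one, mul_zero, Finset.sum_ite_eq', Finset.mem_univ, if_true]
    congr 2
    · rw [sg_eq]
      simp only [sub_eq_zero]
    · field_simp
  simp only [h1]
  have h3 : ∀ a, (ρ * (if a = p then 1 else 0) + 1 / (Fintype.card Γ : ℝ) * f a) *
        (l * sg (a - q) + g a) = ρ * ((if a = p then 1 else 0) * (l * sg (a - q) + g a)) +
        1 / (Fintype.card Γ : ℝ) * l * (sg (a - q) * f a) +
        1 / (Fintype.card Γ : ℝ) * (f a * g a) := fun a => by ring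
  simp only [h3, Finset.sum_add_distrib, ← Finset.mul_sum, sum_sg_mul, hf, sub_zero]
  simp only [ite_mul, one_mul, zero_mul, Finset.sum_ite_eq', Finset.mem_univ, if_true]
  rw [sg_symm p q]
  field_simp

/-- the average of the form of the coefficient functions -/
theorem step4 (ρ l : ℝ) (p q : Γ) (c d c' d' : Γ → ℝ) (hc : ∑ a, c a = 0) (hd : ∑ a, d a = 0)
    (hc' : ∑ a, c' a = 0) (hd' : ∑ a, d' a = 0) :
    ∑ v, ∑ a, ∑ a', sg (a - a') * ((ρ * (if a = p then 1 else 0) +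
      1 / (Fintype.card Γ : ℝ) * (c a + sg (v - p) * d a)) *
      (l * (if a' = q then 1 else 0) +
        1 / (Fintype.card Γ : ℝ) * (c' a' + sg (q - v) * d' a'))) =
      (Fintype.card Γ : ℝ) * (ρ * l * sg (q - p) + ρ * c' p + l * c q) + ∑ a, c a * c' a +
        sg (q - p) * ∑ a, d a * d' a := by
  have hK : (Fintype.card Γ : ℝ) ≠ 0 := (card_pos' (Γ := Γ)).ne'
  have h1 : ∀ v, ∑ a, ∑ a', sg (a - a') * ((ρ * (if a = p then 1 else 0) +
      1 / (Fintype.card Γ : ℝ) * (c a + sg (v - p) * d a)) *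
      (l * (if a' = q then 1 else 0) +
        1 / (Fintype.card Γ : ℝ) * (c' a' + sg (q - v) * d' a'))) =
      ρ * l * sg (q - p) + ρ * c' p + l * c q + ρ * d' p * sg (q - v) + l * d q * sg (v - p) +
      1 / (Fintype.card Γ : ℝ) * ∑ a, c a * c' a +
      1 / (Fintype.card Γ : ℝ) * (∑ a, c a * d' a) * sg (q - v) +
      1 / (Fintype.card Γ : ℝ) * (∑ a, d a * c' a) * sg (v - p) +
      1 / (Fintype.card Γ : ℝ) * (∑ a, d a * d' a) * (sg (v - p) * sg (q - v)) := by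
    intro v
    rw [step4a ρ l p q (fun a => c a + sg (v - p) * d a) (fun a => c' a + sg (q - v) * d' a)]
    · have h2 : ∀ a, (c a + sg (v - p) * d a) * (c' a + sg (q - v) * d' a) =
          c a * c' a + sg (q - v) * (c a * d' a) + sg (v - p) * (d a * c' a) +
          sg (v - p) * sg (q - v) * (d a * d' a) := fun a => by ring
      simp only [h2, Finset.sum_add_distrib, ← Finset.mul_sum]
      ring
    · simp only [Finset.sum_add_distrib, ← Finset.mul_sum, hc, hd, mul_zero, add_zero]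
    · simp only [Finset.sum_add_distrib, ← Finset.mul_sum, hc', hd', mul_zero, add_zero]
  simp only [h1, Finset.sum_add_distrib, ← Finset.mul_sum, sum_sg, sum_sg', sum_sg_sg]
  simp only [Finset.sum_const, Finset.card_univ, nsmul_eq_mul]
  field_simp
  ring

theorem moment (D : TagSpace m Γ X) (N : ℕ) (hN : 1 ≤ N) (hD : D.Good N) (A B : ℝ)
    (α β : Fin (m + 1) → Γ → ℝ) :
    ∑ τ, D.μ τ * ((A + ∑ j, ∑ a, α j a * D.T j a τ) * (B + ∑ l, ∑ a, β l a * D.T l a τ)) =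
      A * B + ∑ j, ∑ l, gg m j l * ∑ a, ∑ a', sg (a - a') * (α j a * β l a') := by
  have h0 : ∀ i a, ∑ τ, D.μ τ * D.T i a τ = 0 := by
    intro i a
    have := hD.w1 i a 0 (Nat.zero_le _) (fun _ => 0) (fun _ _ _ => 0)
    simpa using this
  have h1 : ∀ i a, ∑ τ, D.μ τ * (D.T i a τ * (B + ∑ l, ∑ b, β l b * D.T l b τ)) =
      ∑ l, ∑ b, β l b * (gg m i l * sg (a - b)) := by
    intro i a
    have := hD.w1 i a 1 hN (fun _ => B) (fun _ => β)
    simpa using this
  have h2 : ∀ τ, D.μ τ * ((A + ∑ j, ∑ a, α j a * D.T j a τ) *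
      (B + ∑ l, ∑ a, β l a * D.T l a τ)) =
      A * B * D.μ τ + A * ∑ l, ∑ a, β l a * (D.μ τ * D.T l a τ) +
      ∑ j, ∑ a, α j a * (D.μ τ * (D.T j a τ * (B + ∑ l, ∑ b, β l b * D.T l b τ))) := by
    intro τ
    have e1 : ∑ l, ∑ a, β l a * (D.μ τ * D.T l a τ) =
        D.μ τ * ∑ l, ∑ a, β l a * D.T l a τ := by
      simp only [Finset.mul_sum]
      exact Finset.sum_congr rfl fun _ _ => Finset.sum_congr rfl fun _ _ => by ring
    have e2 : ∑ j, ∑ a, α j a * (D.μ τ * (D.T j a τ * (B + ∑ l, ∑ b, β l b * D.T l b τ))) =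
        (∑ j, ∑ a, α j a * D.T j a τ) * (D.μ τ * (B + ∑ l, ∑ b, β l b * D.T l b τ)) := by
      simp only [Finset.sum_mul]
      exact Finset.sum_congr rfl fun _ _ => Finset.sum_congr rfl fun _ _ => by ring
    rw [e1, e2]
    ring
  simp only [h2, Finset.sum_add_distrib, ← Finset.mul_sum, hD.one, mul_one]
  have h3 : ∑ τ, ∑ l, ∑ a, β l a * (D.μ τ * D.T l a τ) = 0 := by
    rw [Finset.sum_comm]
    refine Finset.sum_eq_zero fun l _ => ?_
    rw [Finset.sum_comm]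
    refine Finset.sum_eq_zero fun a _ => ?_
    rw [← Finset.mul_sum, h0, mul_zero]
  have h4 : ∑ τ, ∑ j, ∑ a, α j a *
      (D.μ τ * (D.T j a τ * (B + ∑ l, ∑ b, β l b * D.T l b τ))) =
      ∑ j, ∑ l, gg m j l * ∑ a, ∑ a', sg (a - a') * (α j a * β l a') := by
    rw [Finset.sum_comm]
    refine Finset.sum_congr rfl fun j _ => ?_
    rw [Finset.sum_comm]
    simp only [← Finset.mul_sum, h1]
    simp only [Finset.mul_sum]
    rw [Finset.sum_comm]
    refine Finset.sum_congr rfl fun l _ => ?_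
    refine Finset.sum_congr rfl fun a _ => Finset.sum_congr rfl fun a' _ => ?_
    ring
  rw [h3, h4]
  ring

omit [DecidableEq Γ] in
theorem shift (f g : Γ → ℝ) (b : Γ) : ∑ a, f a * g (a + b) = ∑ a, f (a - b) * g a := by
  rw [← Equiv.sum_comp (Equiv.addRight b) (fun a => f (a - b) * g a)]
  simp

omit [DecidableEq Γ] in
theorem shift' (f g : Γ → ℝ) (b : Γ) : ∑ a, f a * g (a + b) = ∑ a, f a * g (a + b) := rfl

theorem sum_sub (D : TagSpace m Γ X) {N : ℕ} (hD : D.Good N) (i : Fin (m + 1)) (b : Γ) (τ : X) :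
    ∑ a, D.T i (a - b) τ = 0 := by
  rw [← hD.lab i τ, ← Equiv.sum_comp (Equiv.subRight b) (fun a => D.T i a τ)]
  rfl

theorem sum_add (D : TagSpace m Γ X) {N : ℕ} (hD : D.Good N) (i : Fin (m + 1)) (b : Γ) (τ : X) :
    ∑ a, D.T i (a + b) τ = 0 := by
  rw [← hD.lab i τ, ← Equiv.sum_comp (Equiv.addRight b) (fun a => D.T i a τ)]
  rfl

/-- zero sums of combinations of tags -/
theorem comb_sub (D : TagSpace m Γ X) {N : ℕ} (hD : D.Good N) (C : Fin (m + 1) → ℝ) (b : Γ)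
    (τ : X) : ∑ a, ∑ i, C i * D.T i (a - b) τ = 0 := by
  rw [Finset.sum_comm]
  refine Finset.sum_eq_zero fun i _ => ?_
  rw [← Finset.mul_sum, sum_sub D hD, mul_zero]

theorem comb_add (D : TagSpace m Γ X) {N : ℕ} (hD : D.Good N) (C : Fin (m + 1) → ℝ) (b : Γ)
    (τ : X) : ∑ a, ∑ i, C i * D.T i (a + b) τ = 0 := by
  rw [Finset.sum_comm]
  refine Finset.sum_eq_zero fun i _ => ?_
  rw [← Finset.mul_sum, sum_add D hD, mul_zero]

theorem ker_left (D : TagSpace m Γ X) (P : KerPar m) (b : Γ) (x : Γ × X) (v : Γ) (τ : X) :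
    ker D P b x (v, τ) =
      (1 + P.phi * sg (v - (x.1 + b)) + ∑ i, P.lam i * D.T i (v - b) x.2) +
      ∑ j, ∑ a, (P.rho j * (if a = x.1 + b then 1 else 0) + 1 / (Fintype.card Γ : ℝ) *
        ((∑ i, P.c i j * D.T i (a - b) x.2) +
          sg (v - (x.1 + b)) * ∑ i, P.d i j * D.T i (a - b) x.2)) * D.T j a τ := by
  unfold ker
  have e1 : v - x.1 - b = v - (x.1 + b) := by abel
  simp only [e1]
  have e2 : ∀ j, ∑ a, (P.rho j * (if a = x.1 + b then 1 else 0) + 1 / (Fintype.card Γ : ℝ) *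
        ((∑ i, P.c i j * D.T i (a - b) x.2) +
          sg (v - (x.1 + b)) * ∑ i, P.d i j * D.T i (a - b) x.2)) * D.T j a τ =
      P.rho j * D.T j (x.1 + b) τ + 1 / (Fintype.card Γ : ℝ) *
        ∑ i, (P.c i j + P.d i j * sg (v - (x.1 + b))) *
          ∑ a, D.T i a x.2 * D.T j (a + b) τ := by
    intro j
    simp only [add_mul, Finset.sum_add_distrib]
    congr 1
    · simp
    · simp only [shift (fun a => D.T _ a x.2) (fun a => D.T j a τ) b]
      simp only [Finset.mul_sum, Finset.sum_mul, mul_add, add_mul, Finset.sum_add_distrib]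
      congr 1
      · rw [Finset.sum_comm]
        exact Finset.sum_congr rfl fun _ _ => Finset.sum_congr rfl fun _ _ => by ring
      · rw [Finset.sum_comm]
        exact Finset.sum_congr rfl fun _ _ => Finset.sum_congr rfl fun _ _ => by ring
  simp only [e2, Finset.sum_add_distrib, ← Finset.mul_sum]
  rw [Finset.sum_comm (f := fun i j => (P.c i j + P.d i j * sg (v - (x.1 + b))) *
          ∑ a, D.T i a x.2 * D.T j (a + b) τ)]
  ring

theorem ker_right (D : TagSpace m Γ X) (Q : KerPar m) (b' : Γ) (z : Γ × X) (v : Γ) (τ : X) :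
    ker D Q b' (v, τ) z =
      (1 + Q.phi * sg ((z.1 - b') - v) + ∑ i, Q.rho i * D.T i (v + b') z.2) +
      ∑ j, ∑ a, (Q.lam j * (if a = z.1 - b' then 1 else 0) + 1 / (Fintype.card Γ : ℝ) *
        ((∑ i, Q.c j i * D.T i (a + b') z.2) +
          sg ((z.1 - b') - v) * ∑ i, Q.d j i * D.T i (a + b') z.2)) * D.T j a τ := by
  unfold ker
  have e1 : z.1 - v - b' = (z.1 - b') - v := by abel
  simp only [e1]
  have e2 : ∀ j, ∑ a, (Q.lam j * (if a = z.1 - b' then 1 else 0) + 1 / (Fintype.card Γ : ℝ) *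
        ((∑ i, Q.c j i * D.T i (a + b') z.2) +
          sg ((z.1 - b') - v) * ∑ i, Q.d j i * D.T i (a + b') z.2)) * D.T j a τ =
      Q.lam j * D.T j (z.1 - b') τ + 1 / (Fintype.card Γ : ℝ) *
        ∑ i, (Q.c j i + Q.d j i * sg ((z.1 - b') - v)) *
          ∑ a, D.T j a τ * D.T i (a + b') z.2 := by
    intro j
    simp only [add_mul, Finset.sum_add_distrib]
    congr 1
    · simp
    · simp only [Finset.mul_sum, Finset.sum_mul, mul_add, add_mul, Finset.sum_add_distrib]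
      congr 1
      · rw [Finset.sum_comm]
        exact Finset.sum_congr rfl fun _ _ => Finset.sum_congr rfl fun _ _ => by ring
      · rw [Finset.sum_comm]
        exact Finset.sum_congr rfl fun _ _ => Finset.sum_congr rfl fun _ _ => by ring
  simp only [e2, Finset.sum_add_distrib, ← Finset.mul_sum]
  ring

omit [Fintype X] in
theorem prodW (D : TagSpace m Γ X) (C C' : Fin (m + 1) → ℝ) (b b' : Γ) (ξ ζ : X) :
    ∑ a, (∑ i, C i * D.T i (a - b) ξ) * (∑ n, C' n * D.T n (a + b') ζ) =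
      ∑ i, ∑ n, C i * C' n * ∑ a, D.T i a ξ * D.T n (a + (b + b')) ζ := by
  have h : ∀ i n, ∑ a, D.T i a ξ * D.T n (a + (b + b')) ζ =
      ∑ a, D.T i (a - b) ξ * D.T n (a + b') ζ := by
    intro i n
    rw [← shift (fun a => D.T i a ξ) (fun a => D.T n (a + b') ζ) b]
    simp only [add_assoc]
  simp only [h, Finset.mul_sum, Finset.sum_mul]
  rw [Finset.sum_comm]
  rw [Finset.sum_comm]
  have h2 : ∑ a, ∑ n, ∑ i, C i * D.T i (a - b) ξ * (C' n * D.T n (a + b') ζ) =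
      ∑ n, ∑ a, ∑ i, C i * D.T i (a - b) ξ * (C' n * D.T n (a + b') ζ) := Finset.sum_comm
  rw [h2, Finset.sum_comm (s := (Finset.univ : Finset (Fin (m + 1))))
    (t := (Finset.univ : Finset (Fin (m + 1))))]
  refine Finset.sum_congr rfl fun n _ => ?_
  rw [Finset.sum_comm]
  exact Finset.sum_congr rfl fun _ _ => Finset.sum_congr rfl fun _ _ => by ring

theorem quad (G C C' W : Fin (m + 1) → Fin (m + 1) → ℝ) :
    ∑ j, ∑ l, G j l * ∑ i, ∑ n, C i j * C' l n * W i n =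
      ∑ i, ∑ n, (∑ j, ∑ l, C i j * G j l * C' l n) * W i n := by
  simp only [Finset.mul_sum, Finset.sum_mul]
  calc ∑ j, ∑ l, ∑ i, ∑ n, G j l * (C i j * C' l n * W i n)
      = ∑ j, ∑ i, ∑ l, ∑ n, G j l * (C i j * C' l n * W i n) :=
        Finset.sum_congr rfl fun _ _ => Finset.sum_comm
    _ = ∑ i, ∑ j, ∑ l, ∑ n, G j l * (C i j * C' l n * W i n) := Finset.sum_comm
    _ = ∑ i, ∑ j, ∑ n, ∑ l, G j l * (C i j * C' l n * W i n) :=
        Finset.sum_congr rfl fun _ _ => Finset.sum_congr rfl fun _ _ => Finset.sum_comm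
    _ = ∑ i, ∑ n, ∑ j, ∑ l, G j l * (C i j * C' l n * W i n) :=
        Finset.sum_congr rfl fun _ _ => Finset.sum_comm
    _ = _ := Finset.sum_congr rfl fun _ _ => Finset.sum_congr rfl fun _ _ =>
        Finset.sum_congr rfl fun _ _ => Finset.sum_congr rfl fun _ _ => by ring

theorem lamp (G C : Fin (m + 1) → Fin (m + 1) → ℝ) (r t : Fin (m + 1) → ℝ) :
    ∑ i, (∑ j, ∑ l, C i j * G j l * r l) * t i =
      ∑ j, ∑ l, G j l * (r l * ∑ i, C i j * t i) := by
  simp only [Finset.mul_sum, Finset.sum_mul]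
  calc ∑ i, ∑ j, ∑ l, C i j * G j l * r l * t i
      = ∑ j, ∑ i, ∑ l, C i j * G j l * r l * t i := Finset.sum_comm
    _ = ∑ j, ∑ l, ∑ i, C i j * G j l * r l * t i :=
        Finset.sum_congr rfl fun _ _ => Finset.sum_comm
    _ = _ := Finset.sum_congr rfl fun _ _ => Finset.sum_congr rfl fun _ _ =>
        Finset.sum_congr rfl fun _ _ => by ring

theorem rhop (G C : Fin (m + 1) → Fin (m + 1) → ℝ) (r t : Fin (m + 1) → ℝ) :
    ∑ i, (∑ j, ∑ l, r j * G j l * C l i) * t i =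
      ∑ j, ∑ l, G j l * (r j * ∑ i, C l i * t i) := by
  simp only [Finset.mul_sum, Finset.sum_mul]
  calc ∑ i, ∑ j, ∑ l, r j * G j l * C l i * t i
      = ∑ j, ∑ i, ∑ l, r j * G j l * C l i * t i := Finset.sum_comm
    _ = ∑ j, ∑ l, ∑ i, r j * G j l * C l i * t i :=
        Finset.sum_congr rfl fun _ _ => Finset.sum_comm
    _ = _ := Finset.sum_congr rfl fun _ _ => Finset.sum_congr rfl fun _ _ =>
        Finset.sum_congr rfl fun _ _ => by ring

end CompAux

open CompAux in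
theorem ker_comp (D : TagSpace m Γ X) (N : ℕ) (hN : 1 ≤ N) (hD : D.Good N) (P Q : KerPar m)
    (b b' : Γ) (x z : Γ × X) :
    ∑ y : Γ × X, (1 / (Fintype.card Γ : ℝ) * D.μ y.2) * (ker D P b x y * ker D Q b' y z) =
      ker D (P.comp Q) (b + b') x z := by
  have hK : (Fintype.card Γ : ℝ) ≠ 0 := (card_pos' (Γ := Γ)).ne'
  rw [Fintype.sum_prod_type]
  have h1 : ∀ v, ∑ τ, (1 / (Fintype.card Γ : ℝ) * D.μ τ) *
      (ker D P b x (v, τ) * ker D Q b' (v, τ) z) =
      1 / (Fintype.card Γ : ℝ) * ((1 + P.phi * sg (v - (x.1 + b)) +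
        ∑ i, P.lam i * D.T i (v - b) x.2) *
        (1 + Q.phi * sg ((z.1 - b') - v) + ∑ i, Q.rho i * D.T i (v + b') z.2) +
      ∑ j, ∑ l, gg m j l * ∑ a, ∑ a', sg (a - a') * ((P.rho j * (if a = x.1 + b then 1 else 0) +
        1 / (Fintype.card Γ : ℝ) * ((∑ i, P.c i j * D.T i (a - b) x.2) +
          sg (v - (x.1 + b)) * ∑ i, P.d i j * D.T i (a - b) x.2)) *
        (Q.lam l * (if a' = z.1 - b' then 1 else 0) + 1 / (Fintype.card Γ : ℝ) *
        ((∑ i, Q.c l i * D.T i (a' + b') z.2) +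
          sg ((z.1 - b') - v) * ∑ i, Q.d l i * D.T i (a' + b') z.2)))) := by
    intro v
    rw [← moment D N hN hD, Finset.mul_sum]
    refine Finset.sum_congr rfl fun τ _ => ?_
    rw [ker_left, ker_right]
    ring
  simp only [h1]
  rw [← Finset.mul_sum, Finset.sum_add_distrib]
  rw [step3 P.phi Q.phi (x.1 + b) (z.1 - b') (fun v => ∑ i, P.lam i * D.T i (v - b) x.2)
    (fun v => ∑ i, Q.rho i * D.T i (v + b') z.2) (comb_sub D hD _ _ _) (comb_add D hD _ _ _)]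
  rw [Finset.sum_comm]
  have h2 : ∀ j, ∑ v, ∑ l, gg m j l * ∑ a, ∑ a', sg (a - a') *
      ((P.rho j * (if a = x.1 + b then 1 else 0) +
        1 / (Fintype.card Γ : ℝ) * ((∑ i, P.c i j * D.T i (a - b) x.2) +
          sg (v - (x.1 + b)) * ∑ i, P.d i j * D.T i (a - b) x.2)) *
        (Q.lam l * (if a' = z.1 - b' then 1 else 0) + 1 / (Fintype.card Γ : ℝ) *
        ((∑ i, Q.c l i * D.T i (a' + b') z.2) +
          sg ((z.1 - b') - v) * ∑ i, Q.d l i * D.T i (a' + b') z.2))) =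
      ∑ l, gg m j l * ((Fintype.card Γ : ℝ) * (P.rho j * Q.lam l * sg (z.1 - b' - (x.1 + b)) +
        P.rho j * (∑ i, Q.c l i * D.T i (x.1 + b + b') z.2) +
        Q.lam l * ∑ i, P.c i j * D.T i (z.1 - b' - b) x.2) +
        (∑ i, ∑ n, P.c i j * Q.c l n * ∑ a, D.T i a x.2 * D.T n (a + (b + b')) z.2) +
        sg (z.1 - b' - (x.1 + b)) *
          ∑ i, ∑ n, P.d i j * Q.d l n * ∑ a, D.T i a x.2 * D.T n (a + (b + b')) z.2) := by
    intro j
    rw [Finset.sum_comm]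
    refine Finset.sum_congr rfl fun l _ => ?_
    rw [← Finset.mul_sum]
    rw [step4 (P.rho j) (Q.lam l) (x.1 + b) (z.1 - b')
      (fun a => ∑ i, P.c i j * D.T i (a - b) x.2) (fun a => ∑ i, P.d i j * D.T i (a - b) x.2)
      (fun a => ∑ i, Q.c l i * D.T i (a + b') z.2) (fun a => ∑ i, Q.d l i * D.T i (a + b') z.2)
      (comb_sub D hD _ _ _) (comb_sub D hD _ _ _) (comb_add D hD _ _ _) (comb_add D hD _ _ _)]
    rw [prodW, prodW]
  simp only [h2]
  rw [prodW]
  have e1 : z.1 - b' - (x.1 + b) = z.1 - x.1 - (b + b') := by abel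
  have e2 : z.1 - b' - b = z.1 - (b + b') := by abel
  have e3 : x.1 + b + b' = x.1 + (b + b') := by abel
  simp only [e1, e2, e3]
  unfold ker KerPar.comp
  simp only
  have h3 : ∑ i, (P.phi * Q.rho i + ∑ j, ∑ l, P.rho j * gg m j l * Q.c l i) *
      D.T i (x.1 + (b + b')) z.2 = P.phi * (∑ i, Q.rho i * D.T i (x.1 + (b + b')) z.2) +
      ∑ j, ∑ l, gg m j l * (P.rho j * ∑ i, Q.c l i * D.T i (x.1 + (b + b')) z.2) := by
    rw [← rhop]
    simp only [add_mul, Finset.sum_add_distrib, Finset.mul_sum, mul_assoc]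
  have h4 : ∑ i, (Q.phi * P.lam i + ∑ j, ∑ l, P.c i j * gg m j l * Q.lam l) *
      D.T i (z.1 - (b + b')) x.2 = Q.phi * (∑ i, P.lam i * D.T i (z.1 - (b + b')) x.2) +
      ∑ j, ∑ l, gg m j l * (Q.lam l * ∑ i, P.c i j * D.T i (z.1 - (b + b')) x.2) := by
    rw [← lamp]
    simp only [add_mul, Finset.sum_add_distrib, Finset.mul_sum, mul_assoc]
  have h5 : ∑ i, ∑ n, (P.lam i * Q.rho n + (∑ j, ∑ l, P.c i j * gg m j l * Q.c l n) +
      (∑ j, ∑ l, P.d i j * gg m j l * Q.d l n) * sg (z.1 - x.1 - (b + b'))) *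
      ∑ a, D.T i a x.2 * D.T n (a + (b + b')) z.2 =
      (∑ i, ∑ n, P.lam i * Q.rho n * ∑ a, D.T i a x.2 * D.T n (a + (b + b')) z.2) +
      (∑ j, ∑ l, gg m j l * ∑ i, ∑ n, P.c i j * Q.c l n *
        ∑ a, D.T i a x.2 * D.T n (a + (b + b')) z.2) +
      sg (z.1 - x.1 - (b + b')) * (∑ j, ∑ l, gg m j l * ∑ i, ∑ n, P.d i j * Q.d l n *
        ∑ a, D.T i a x.2 * D.T n (a + (b + b')) z.2) := by
    rw [quad (gg m) P.c Q.c (fun i n => ∑ a, D.T i a x.2 * D.T n (a + (b + b')) z.2),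
      quad (gg m) P.d Q.d (fun i n => ∑ a, D.T i a x.2 * D.T n (a + (b + b')) z.2)]
    rw [Finset.mul_sum, ← Finset.sum_add_distrib, ← Finset.sum_add_distrib]
    refine Finset.sum_congr rfl fun i _ => ?_
    rw [Finset.mul_sum, ← Finset.sum_add_distrib, ← Finset.sum_add_distrib]
    refine Finset.sum_congr rfl fun n _ => ?_
    ring
  have h6 : ∑ j, ∑ l, gg m j l * ((Fintype.card Γ : ℝ) *
      (P.rho j * Q.lam l * sg (z.1 - x.1 - (b + b')) +
        P.rho j * (∑ i, Q.c l i * D.T i (x.1 + (b + b')) z.2) +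
        Q.lam l * ∑ i, P.c i j * D.T i (z.1 - (b + b')) x.2) +
        (∑ i, ∑ n, P.c i j * Q.c l n * ∑ a, D.T i a x.2 * D.T n (a + (b + b')) z.2) +
        sg (z.1 - x.1 - (b + b')) *
          ∑ i, ∑ n, P.d i j * Q.d l n * ∑ a, D.T i a x.2 * D.T n (a + (b + b')) z.2) =
      (Fintype.card Γ : ℝ) * ((∑ j, ∑ l, P.rho j * gg m j l * Q.lam l) *
          sg (z.1 - x.1 - (b + b')) +
        (∑ j, ∑ l, gg m j l * (P.rho j * ∑ i, Q.c l i * D.T i (x.1 + (b + b')) z.2)) +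
        (∑ j, ∑ l, gg m j l * (Q.lam l * ∑ i, P.c i j * D.T i (z.1 - (b + b')) x.2))) +
      (∑ j, ∑ l, gg m j l * ∑ i, ∑ n, P.c i j * Q.c l n *
        ∑ a, D.T i a x.2 * D.T n (a + (b + b')) z.2) +
      sg (z.1 - x.1 - (b + b')) * (∑ j, ∑ l, gg m j l * ∑ i, ∑ n, P.d i j * Q.d l n *
        ∑ a, D.T i a x.2 * D.T n (a + (b + b')) z.2) := by
    rw [Finset.sum_mul, ← Finset.sum_add_distrib, ← Finset.sum_add_distrib, Finset.mul_sum,
      Finset.mul_sum, ← Finset.sum_add_distrib, ← Finset.sum_add_distrib]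
    refine Finset.sum_congr rfl fun j _ => ?_
    rw [Finset.sum_mul, ← Finset.sum_add_distrib, ← Finset.sum_add_distrib, Finset.mul_sum,
      Finset.mul_sum, ← Finset.sum_add_distrib, ← Finset.sum_add_distrib]
    refine Finset.sum_congr rfl fun l _ => ?_
    ring
  rw [h3, h4, h5, h6]
  field_simp
  ring

end Pool.Agent.Lib.P325L
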