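import Mathlib

/-!
Definitions for the lower bound on the degree of the Sherali-Adams linear programs for unique
games: finite multigraphs, bare paths, irreducible edge sets, the spin model with hidden tags, its
edge kernels and functionals.
-/

open scoped BigOperators

namespace Pool.Agent.Lib.P325L

/-! ### Graphs -/

/-- A multigraph without loops: the edge `e` joins `src e` and `tgt e`. -/
structure Gr (V ι : Type) where
  /-- first end -/
  src : ι → V
  /-- second end -/
  tgt : ι → V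
  /-- no loops -/
  ne : ∀ e, src e ≠ tgt e

section Graph

variable {V ι : Type} [DecidableEq V]

/-- The edge `e` is incident with the vertex `v`. -/
def Gr.Inc (G : Gr V ι) (e : ι) (v : V) : Prop := G.src e = v ∨ G.tgt e = v

instance (G : Gr V ι) (e : ι) (v : V) : Decidable (G.Inc e v) := by
  unfold Gr.Inc; infer_instance

/-- The other end of `e` seen from `v`. -/
def Gr.oth (G : Gr V ι) (e : ι) (v : V) : V := if G.src e = v then G.tgt e else G.src e

/-- The degree of `v` in the edge set `H`. -/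
def Gr.deg (G : Gr V ι) (H : Finset ι) (v : V) : ℕ := (H.filter (fun e => G.Inc e v)).card

/-- The vertices touched by the edge set `H`. -/
def Gr.verts (G : Gr V ι) (H : Finset ι) : Finset V := H.image G.src ∪ H.image G.tgt

/-- Every nonempty set of at most `g` edges is a forest (it touches more vertices than it has
edges). -/
def Gr.Girth (G : Gr V ι) (g : ℕ) : Prop :=
  ∀ H : Finset ι, H.Nonempty → H.card ≤ g → H.card < (G.verts H).card

/-- Edge sets touching at most `R` vertices have at most `(1 + 1 / N)` times as many edges as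
vertices. -/
def Gr.Sparse (G : Gr V ι) (R N : ℕ) : Prop :=
  ∀ H : Finset ι, (G.verts H).card ≤ R → N * H.card ≤ (N + 1) * (G.verts H).card

/-- `e 0, …, e (n - 1)` are the edges of a path `q 0, …, q n` of `H`, whose inner vertices lie
outside `S` and have degree two in `H`. -/
structure Gr.Bare (G : Gr V ι) (n : ℕ) (S : Finset V) (H : Finset ι) (q : ℕ → V) (e : ℕ → ι) :
    Prop where
  mem : ∀ i < n, e i ∈ H
  join : ∀ i < n, (G.src (e i) = q i ∧ G.tgt (e i) = q (i + 1)) ∨
    (G.tgt (e i) = q i ∧ G.src (e i) = q (i + 1))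
  inj : ∀ i j, i ≤ n → j ≤ n → q i = q j → i = j
  out : ∀ i, 0 < i → i < n → q i ∉ S
  deg : ∀ i, 0 < i → i < n → G.deg H (q i) = 2

/-- The edge set `H` is irreducible with respect to `S`: no vertex outside `S` is a leaf and there
is no bare path with `n` edges. -/
def Gr.Irr (G : Gr V ι) (n : ℕ) (S : Finset V) (H : Finset ι) : Prop :=
  (∀ v, v ∉ S → G.deg H v ≠ 1) ∧ ∀ q e, ¬ G.Bare n S H q e

/-- The number of trails with `l` edges in `H` that start at `v`. -/
def Gr.nt [DecidableEq ι] (G : Gr V ι) : ℕ → Finset ι → V → ℕ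
  | 0, _, _ => 1
  | l + 1, H, v => ∑ e ∈ H.filter (fun e => G.Inc e v), G.nt l (H.erase e) (G.oth e v)

/-- The number of trails with `l` edges in `H` from `v` to `w` (see `nt`). -/
def Gr.nw [DecidableEq ι] (G : Gr V ι) (w : V) : ℕ → Finset ι → V → ℕ
  | 0, _, v => if v = w then 1 else 0
  | l + 1, H, v => ∑ e ∈ H.filter (fun e => G.Inc e v), G.nw w l (H.erase e) (G.oth e v)

/-- Weighted number of trails from `v`. -/
noncomputable def Gr.Asum [DecidableEq ι] (G : Gr V ι) (α Q : ℝ) (H : Finset ι) (v : V) : ℝ :=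
  α * ∑ l ∈ Finset.range H.card, Q ^ l * (G.nt (l + 1) H v : ℝ)

/-- Weighted number of trails from `v` to `w`. -/
noncomputable def Gr.Csum [DecidableEq ι] (G : Gr V ι) (Q : ℝ) (w : V) (H : Finset ι) (v : V) :
    ℝ :=
  ∑ l ∈ Finset.range H.card, Q ^ (l + 1) * (G.nw w (l + 1) H v : ℝ)

end Graph

/-! ### Spin models -/

section Spin

variable {V ι Y : Type} [Fintype V] [DecidableEq V] [Fintype Y]

/-- The expectation of `F` over independent spins with the (signed) weight `ν`. -/
noncomputable def Ex (ν : Y → ℝ) (F : (V → Y) → ℝ) : ℝ := ∑ x : V → Y, (∏ v, ν (x v)) * F x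

/-- The product of the edge kernels over the edge set `H`. -/
noncomputable def PK (G : Gr V ι) (κ : ι → Y → Y → ℝ) (H : Finset ι) (x : V → Y) : ℝ :=
  ∏ e ∈ H, κ e (x (G.src e)) (x (G.tgt e))

/-- The kernel of the edge `e` seen from its end `v`: first argument at `v`. -/
noncomputable def kdir (G : Gr V ι) (κ : ι → Y → Y → ℝ) (e : ι) (v : V) (x y : Y) : ℝ :=
  if G.src e = v then κ e x y else κ e y x

/-- The kernels of all paths with `n` edges integrate to one over the inner spins: there are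
composed kernels `K j` of the first `j + 1` edges with `K (n - 1) = 1`. -/
def PathOK (G : Gr V ι) (κ : ι → Y → Y → ℝ) (ν : Y → ℝ) (n : ℕ) : Prop :=
  ∀ (q : ℕ → V) (e : ℕ → ι),
    (∀ i < n, (G.src (e i) = q i ∧ G.tgt (e i) = q (i + 1)) ∨
      (G.tgt (e i) = q i ∧ G.src (e i) = q (i + 1))) →
    ∃ K : ℕ → Y → Y → ℝ, (∀ x y, K 0 x y = kdir G κ (e 0) (q 0) x y) ∧
      (∀ j, j + 1 < n → ∀ x z,
        ∑ y, ν y * (K j x y * kdir G κ (e (j + 1)) (q (j + 1)) y z) = K (j + 1) x z) ∧
      ∀ x z, K (n - 1) x z = 1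

end Spin

/-! ### Tags -/

section Tags

variable {Γ : Type} [Fintype Γ] [AddCommGroup Γ] [DecidableEq Γ]

/-- `card Γ - 1` at `0` and `-1` elsewhere. -/
noncomputable def sg (z : Γ) : ℝ := if z = 0 then (Fintype.card Γ : ℝ) - 1 else -1

/-- The indefinite form on the tag indices `0, …, m`. -/
noncomputable def gg (m : ℕ) (i j : Fin (m + 1)) : ℝ := if i.val + j.val = m then -1 else 0

/-- A finite space of tags with a signed weight `μ`, tag functions `T i a` and a null point. -/
structure TagSpace (m : ℕ) (Γ X : Type) where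
  /-- signed weight -/
  μ : X → ℝ
  /-- tag functions -/
  T : Fin (m + 1) → Γ → X → ℝ
  /-- the null point -/
  pt : X

/-- The moment conditions up to order `N`: total mass one, tags vanish at the null point, the tags
of one index sum to zero, and in products of one or two tags with up to `N` affine functions of
tags only the terms with exactly two tags survive. -/
structure TagSpace.Good {m : ℕ} {X : Type} [Fintype X] (D : TagSpace m Γ X) (N : ℕ) : Prop where
  one : ∑ τ, D.μ τ = 1
  null : ∀ i a, D.T i a D.pt = 0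
  lab : ∀ i τ, ∑ a, D.T i a τ = 0
  w1 : ∀ (i : Fin (m + 1)) (a : Γ) (n : ℕ), n ≤ N → ∀ (p : Fin n → ℝ)
    (q : Fin n → Fin (m + 1) → Γ → ℝ),
    ∑ τ, D.μ τ * (D.T i a τ * ∏ s, (p s + ∑ l, ∑ b, q s l b * D.T l b τ)) =
      ∑ s, (∑ l, ∑ b, q s l b * (gg m i l * sg (a - b))) * ∏ s' ∈ Finset.univ.erase s, p s'
  w2 : ∀ (i : Fin (m + 1)) (a : Γ) (j : Fin (m + 1)) (a' : Γ) (n : ℕ), n ≤ N →
    ∀ (p : Fin n → ℝ) (q : Fin n → Fin (m + 1) → Γ → ℝ),
    ∑ τ, D.μ τ * (D.T i a τ * D.T j a' τ * ∏ s, (p s + ∑ l, ∑ b, q s l b * D.T l b τ)) =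
      gg m i j * sg (a - a') * ∏ s, p s

/-- Parameters of an edge kernel. -/
@[ext]
structure KerPar (m : ℕ) where
  /-- label correlation -/
  phi : ℝ
  /-- tags at the first end -/
  lam : Fin (m + 1) → ℝ
  /-- tags at the second end -/
  rho : Fin (m + 1) → ℝ
  /-- tags at both ends -/
  c : Fin (m + 1) → Fin (m + 1) → ℝ
  /-- tags at both ends, times label correlation -/
  d : Fin (m + 1) → Fin (m + 1) → ℝ

/-- The kernel with parameters `P` and shift `b`. -/
noncomputable def ker {m : ℕ} {X : Type} (D : TagSpace m Γ X) (P : KerPar m) (b : Γ)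
    (x y : Γ × X) : ℝ :=
  1 + P.phi * sg (y.1 - x.1 - b) + ∑ i, P.lam i * D.T i (y.1 - b) x.2 +
    ∑ i, P.rho i * D.T i (x.1 + b) y.2 +
    (1 / (Fintype.card Γ : ℝ)) * ∑ i, ∑ j, (P.c i j + P.d i j * sg (y.1 - x.1 - b)) *
      ∑ a, D.T i a x.2 * D.T j (a + b) y.2

/-- Composition of kernel parameters. -/
noncomputable def KerPar.comp {m : ℕ} (P Q : KerPar m) : KerPar m where
  phi := P.phi * Q.phi + ∑ i, ∑ j, P.rho i * gg m i j * Q.lam j
  lam := fun i => Q.phi * P.lam i + ∑ j, ∑ l, P.c i j * gg m j l * Q.lam l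
  rho := fun i => P.phi * Q.rho i + ∑ j, ∑ l, P.rho j * gg m j l * Q.c l i
  c := fun i n => P.lam i * Q.rho n + ∑ j, ∑ l, P.c i j * gg m j l * Q.c l n
  d := fun i n => ∑ j, ∑ l, P.d i j * gg m j l * Q.d l n

/-- The zero parameters: the kernel is constantly one. -/
def KerPar.zero (m : ℕ) : KerPar m where
  phi := 0
  lam := fun _ => 0
  rho := fun _ => 0
  c := fun _ _ => 0
  d := fun _ _ => 0

/-- Powers: `pw P n` belongs to a path with `n + 1` edges. -/
noncomputable def KerPar.pw {m : ℕ} (P : KerPar m) : ℕ → KerPar m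
  | 0 => P
  | n + 1 => (P.pw n).comp P

/-- The basic edge parameters with label correlation `θ` and the coefficients `c 0, …, c m`. -/
noncomputable def baseP (m : ℕ) (θ : ℝ) (c : ℕ → ℝ) : KerPar m where
  phi := θ
  lam := fun i => if i.val = 0 then θ else 0
  rho := fun i => if i.val = 0 then θ else 0
  c := fun i j => θ * ((if i.val + j.val ≤ m then c (m - (i.val + j.val)) else 0) -
    (if i.val + j.val = m + 1 then 1 else 0))
  d := fun i j => - θ ^ 2 * (if i.val + j.val = m + 1 then 1 else 0)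

/-- The transposed parameters. -/
def KerPar.tr {m : ℕ} (P : KerPar m) : KerPar m where
  phi := P.phi
  lam := P.rho
  rho := P.lam
  c := fun i j => P.c j i
  d := fun i j => P.d j i

/-- The coefficients `c 0, …, c m` used in the construction: nonnegative, `c j ≤ 1 / (m + 1 - j)`,
and the polynomials `p 0 = 1`, `p (j + 1) = X p j + ∑_{i ≤ j} c (j - i) p i` satisfy
`p (m + 1) = 1 + X + ⋯ + X ^ (m + 1)`. -/
structure GoodCoef (m : ℕ) (c : ℕ → ℝ) (p : ℕ → Polynomial ℝ) : Prop where
  nonneg : ∀ j, 0 ≤ c j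
  le : ∀ j ≤ m, c j * ((m : ℝ) + 1 - j) ≤ 1
  zero : p 0 = 1
  succ : ∀ j ≤ m, p (j + 1) = Polynomial.X * p j +
    ∑ i ∈ Finset.range (j + 1), Polynomial.C (c (j - i)) * p i
  last : p (m + 1) = ∑ i ∈ Finset.range (m + 2), Polynomial.X ^ i
  deg : ∀ j ≤ m + 1, (p j).natDegree = j
  monic : ∀ j ≤ m + 1, (p j).Monic

/-- `(J + 1 - i) / (J + 1)` times the `i`-th coefficient of `U ^ (J + 1)`. -/
noncomputable def lagA (U : PowerSeries ℝ) (J i : ℕ) : ℝ :=
  ((J : ℝ) + 1 - i) / (J + 1) * PowerSeries.coeff i (U ^ (J + 1))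

/-- The coefficients of the inverse function type expansion of `1 - 1 / U`. -/
noncomputable def lagF (U : PowerSeries ℝ) (j : ℕ) : ℝ :=
  if j = 1 then PowerSeries.coeff 1 U
  else PowerSeries.coeff j (U ^ (j - 1)) / ((j : ℝ) - 1)

end Tags

/-! ### The relative kernels for fixed labels -/

section Eps

variable {Γ : Type} [Fintype Γ] [AddCommGroup Γ] [DecidableEq Γ] {V ι X : Type} [DecidableEq V]
  [DecidableEq X] {m : ℕ}

/-- `1 + θ σ_e` for the labels `x`. -/
noncomputable def aE (G : Gr V ι) (sh : ι → Γ) (θ : ℝ) (x : V → Γ) (e : ι) : ℝ :=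
  1 + θ * sg (x (G.tgt e) - x (G.src e) - sh e)

/-- The relative coefficient of the tags `i`, `j` at the two ends of `e`. -/
noncomputable def mE (G : Gr V ι) (sh : ι → Γ) (θ : ℝ) (c : ℕ → ℝ) (m : ℕ) (x : V → Γ) (e : ι)
    (i j : Fin (m + 1)) : ℝ :=
  θ / aE G sh θ x e * (if i.val + j.val ≤ m then c (m - (i.val + j.val)) else 0) -
    (if i.val + j.val = m + 1 then θ else 0)

/-- The relative edge kernel is `1 + eps`. -/
noncomputable def eps (D : TagSpace m Γ X) (G : Gr V ι) (sh : ι → Γ) (θ : ℝ) (c : ℕ → ℝ)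
    (x : V → Γ) (e : ι) (τ : V → X) : ℝ :=
  θ / aE G sh θ x e * (D.T 0 (x (G.tgt e) - sh e) (τ (G.src e)) +
    D.T 0 (x (G.src e) + sh e) (τ (G.tgt e))) +
  (1 / (Fintype.card Γ : ℝ)) * ∑ i, ∑ j, mE G sh θ c m x e i j *
    ∑ a, D.T i a (τ (G.src e)) * D.T j (a + sh e) (τ (G.tgt e))

/-- Expectation over the tags, where the vertices in `B` are closed (carry the null point). -/
noncomputable def Ev [Fintype V] [Fintype X] (D : TagSpace m Γ X) (B : Finset V)
    (F : (V → X) → ℝ) : ℝ :=
  ∑ τ : V → X, (∏ v, if v ∈ B then (if τ v = D.pt then 1 else 0) else D.μ (τ v)) * F τ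

/-- The tag with index `i` carrying the label function `f`. -/
noncomputable def ins (D : TagSpace m Γ X) (i : Fin (m + 1)) (f : Γ → ℝ) (τ : X) : ℝ :=
  (1 / (Fintype.card Γ : ℝ)) * ∑ a, f a * D.T i a τ

/-- The label at `v` predicted by the label of the other end of `e`. -/
def lab (G : Gr V ι) (sh : ι → Γ) (x : V → Γ) (e : ι) (v : V) : Γ :=
  if G.src e = v then x (G.tgt e) - sh e else x (G.src e) + sh e

/-- Transport of a label function from `v` to the other end of `e`. -/
def fsh (G : Gr V ι) (sh : ι → Γ) (e : ι) (v : V) (f : Γ → ℝ) : Γ → ℝ :=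
  if G.src e = v then (fun a => f (a - sh e)) else (fun a => f (a + sh e))

/-- The transfer coefficient from tag index `i` to tag index `l` along `e`. -/
noncomputable def trn (G : Gr V ι) (sh : ι → Γ) (θ : ℝ) (c : ℕ → ℝ) (m : ℕ) (x : V → Γ) (e : ι)
    (i l : Fin (m + 1)) : ℝ :=
  (if l.val = i.val + 1 then θ else 0) -
    θ / aE G sh θ x e * (if l.val ≤ i.val then c (i.val - l.val) else 0)

end Eps

end Pool.Agent.Lib.P325L
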