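import Pool.Agent.Lib.P325L.Defs
import Pool.Agent.Lib.P325L.Walk2

/-!
Module EdgeC (1h; uses sum_deg). The irreducible sets for the two ends of an edge.
PROOF. H nonempty (e ∈ H), so |H| < |verts H| by Girth. 2|H| = ∑_{v ∈ verts H} deg H v; the vertices of
verts H have degree >= 1, those different from u = src e, w = tgt e (outside S) have degree ≠ 1, so
>= 2. Hence 2|H| >= 2(|verts H| - 2) + deg u + deg w >= 2|H| + 2 - 4 + deg u + deg w, deg u + deg w <= 2,
so deg H u = deg H w = 1 (both >= 1 because of e). Let H' = H.erase e. If H' is nonempty then it does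
not meet u, w, and every vertex of verts H' has the same degree in H' as in H, >= 2, so
2|H'| = ∑ deg >= 2 |verts H'|, contradicting Girth for H'. So H' = ∅ and H = {e}.
irr_edge: {e} is irreducible for S = {u, w}: every v ∉ S has degree 0; a bare path with n >= 2 edges has
the inner vertex q 1 of degree 2 > 1 = |{e}|. (deg {e} v <= 1.)
-/

open scoped BigOperators

namespace Pool.Agent.Lib.P325L

variable {V ι : Type} [DecidableEq V] [DecidableEq ι]

namespace EdgeCAux

theorem deg_pos (G : Gr V ι) (H : Finset ι) (v : V) (hv : v ∈ G.verts H) : 1 ≤ G.deg H v := by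
  unfold Gr.verts at hv
  rw [Finset.mem_union, Finset.mem_image, Finset.mem_image] at hv
  unfold Gr.deg
  apply Finset.card_pos.2
  rcases hv with ⟨e, he, h⟩ | ⟨e, he, h⟩
  · exact ⟨e, Finset.mem_filter.2 ⟨he, Or.inl h⟩⟩
  · exact ⟨e, Finset.mem_filter.2 ⟨he, Or.inr h⟩⟩

theorem mem_verts (G : Gr V ι) (H : Finset ι) (e : ι) (he : e ∈ H) (v : V) (h : G.Inc e v) :
    v ∈ G.verts H := by
  unfold Gr.verts
  rw [Finset.mem_union, Finset.mem_image, Finset.mem_image]
  rcases h with h | h
  · exact Or.inl ⟨e, he, h⟩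
  · exact Or.inr ⟨e, he, h⟩

end EdgeCAux

open EdgeCAux

theorem edge_c (G : Gr V ι) (g n : ℕ) (hG : G.Girth g) (e : ι) (H : Finset ι)
    (hi : G.Irr n {G.src e, G.tgt e} H) (he : e ∈ H) (hg : H.card ≤ g) : H = {e} := by
  have h1 : H.card < (G.verts H).card := hG H ⟨e, he⟩ hg
  have hu : G.src e ∈ G.verts H := mem_verts G H e he _ (Or.inl rfl)
  have hw : G.tgt e ∈ G.verts H := mem_verts G H e he _ (Or.inr rfl)
  have hne : G.src e ≠ G.tgt e := G.ne e
  have hsum := sum_deg G H
  set W := G.verts H with hW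
  have hw' : G.tgt e ∈ W.erase (G.src e) := Finset.mem_erase.2 ⟨hne.symm, hw⟩
  rw [← Finset.add_sum_erase W _ hu, ← Finset.add_sum_erase _ _ hw'] at hsum
  have h2 : ∀ v ∈ (W.erase (G.src e)).erase (G.tgt e), 2 ≤ G.deg H v := by
    intro v hv
    have hv1 := Finset.mem_erase.1 hv
    have hv2 := Finset.mem_erase.1 hv1.2
    have hp := deg_pos G H v hv2.2
    have hq := hi.1 v (by
      rw [Finset.mem_insert, Finset.mem_singleton]
      push Not
      exact ⟨hv2.1, hv1.1⟩)
    omega
  have h3 : ((W.erase (G.src e)).erase (G.tgt e)).card * 2 ≤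
      ∑ v ∈ (W.erase (G.src e)).erase (G.tgt e), G.deg H v := by
    have := Finset.card_nsmul_le_sum _ _ 2 h2
    simpa using this
  have h4 : ((W.erase (G.src e)).erase (G.tgt e)).card = W.card - 1 - 1 := by
    rw [Finset.card_erase_of_mem hw', Finset.card_erase_of_mem hu]
  rw [h4] at h3
  have hdu := deg_pos G H _ hu
  have hdw := deg_pos G H _ hw
  have hu1 : G.deg H (G.src e) = 1 := by omega
  have hw1 : G.deg H (G.tgt e) = 1 := by omega
  -- the other edges do not meet the ends
  have huniq : ∀ v, G.Inc e v → G.deg H v = 1 → ∀ f ∈ H, G.Inc f v → f = e := by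
    intro v hv hd f hf hfv
    unfold Gr.deg at hd
    obtain ⟨a, ha⟩ := Finset.card_eq_one.1 hd
    have e1 : e ∈ H.filter (fun e => G.Inc e v) := Finset.mem_filter.2 ⟨he, hv⟩
    have f1 : f ∈ H.filter (fun e => G.Inc e v) := Finset.mem_filter.2 ⟨hf, hfv⟩
    rw [ha, Finset.mem_singleton] at e1 f1
    rw [e1, f1]
  by_contra hcon
  have hne' : (H.erase e).Nonempty := by
    rw [Finset.nonempty_iff_ne_empty]
    intro h
    apply hcon
    rw [← Finset.insert_erase he, h]
    simp
  have hcard : (H.erase e).card ≤ g := (Finset.card_le_card (Finset.erase_subset _ _)).trans hg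
  have h5 := hG _ hne' hcard
  have h6 := sum_deg G (H.erase e)
  have h7 : ∀ v ∈ G.verts (H.erase e), 2 ≤ G.deg (H.erase e) v := by
    intro v hv
    have hp := deg_pos G _ v hv
    obtain ⟨f, hf⟩ := Finset.card_pos.1 hp
    rw [Finset.mem_filter, Finset.mem_erase] at hf
    have hve : ¬ G.Inc e v := by
      rintro (h | h)
      · exact hf.1.1 (huniq v (Or.inl h) (h ▸ hu1) f hf.1.2 hf.2)
      · exact hf.1.1 (huniq v (Or.inr h) (h ▸ hw1) f hf.1.2 hf.2)
    have hdeg : G.deg (H.erase e) v = G.deg H v := by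
      unfold Gr.deg
      congr 1
      ext f'
      simp only [Finset.mem_filter, Finset.mem_erase]
      constructor
      · rintro ⟨⟨_, h⟩, h'⟩
        exact ⟨h, h'⟩
      · rintro ⟨h, h'⟩
        refine ⟨⟨?_, h⟩, h'⟩
        rintro rfl
        exact hve h'
    have hq := hi.1 v (by
      rw [Finset.mem_insert, Finset.mem_singleton]
      push Not
      constructor
      · intro h
        exact hve (Or.inl h.symm)
      · intro h
        exact hve (Or.inr h.symm))
    omega
  have h8 := Finset.card_nsmul_le_sum _ _ 2 h7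
  rw [h6] at h8
  simp only [smul_eq_mul] at h8
  omega

theorem irr_edge (G : Gr V ι) (n : ℕ) (hn : 2 ≤ n) (e : ι) :
    G.Irr n {G.src e, G.tgt e} ({e} : Finset ι) := by
  constructor
  · intro v hv h
    unfold Gr.deg at h
    obtain ⟨a, ha⟩ := Finset.card_eq_one.1 h
    have ha' : a ∈ ({e} : Finset ι).filter (fun e => G.Inc e v) := by
      rw [ha]; exact Finset.mem_singleton_self a
    rw [Finset.mem_filter, Finset.mem_singleton] at ha'
    rw [Finset.mem_insert, Finset.mem_singleton] at hv
    push Not at hv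
    rcases ha' with ⟨rfl, h | h⟩
    · exact hv.1 h.symm
    · exact hv.2 h.symm
  · intro q e' hb
    have := hb.deg 1 one_pos (by omega)
    unfold Gr.deg at this
    have h2 : (({e} : Finset ι).filter (fun e => G.Inc e (q 1))).card ≤ 1 := by
      refine (Finset.card_le_card (Finset.filter_subset _ _)).trans ?_
      simp
    omega

end Pool.Agent.Lib.P325L
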