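import Pool.Agent.Lib.P325L.Defs

/-!
Module KerMarg (1.2h). Edge kernels integrate to one over either end; transposition.
PROOF. marg1: sum over y = (v, τ): from hD.w1 with n = 0, ∑_τ μ τ T i a τ = 0, so the rho term and
the c/d terms vanish; ∑ μ = 1; ∑_v sg (v - x.1 - b) = 0; ∑_v T i (v - b) x.2 = 0 by hD.lab. What
remains is (1/k) * ∑_v 1 = 1. marg2: the same with the roles exchanged, or from ker_tr.
ker_tr: sg (-z) = sg z; in the last sum substitute a → a - b. base_tr: baseP is symmetric.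
-/

open scoped BigOperators

namespace Pool.Agent.Lib.P325L

variable {Γ : Type} [Fintype Γ] [AddCommGroup Γ] [DecidableEq Γ] {X : Type} {m : ℕ}

namespace KerMargAux

theorem sg_neg (z : Γ) : sg (-z) = sg z := by
  unfold sg
  simp only [neg_eq_zero]

theorem sum_sg (z : Γ) : ∑ v : Γ, sg (v - z) = 0 := by
  have h1 : ∑ v : Γ, sg (v - z) = ∑ v : Γ, sg v :=
    Fintype.sum_equiv (Equiv.subRight z) _ _ (fun v => rfl)
  rw [h1]
  have h2 : ∀ v : Γ, sg v = (if v = 0 then (Fintype.card Γ : ℝ) else 0) - 1 := by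
    intro v
    unfold sg
    split_ifs <;> simp
  simp only [h2]
  rw [Finset.sum_sub_distrib, Finset.sum_ite_eq']
  simp

theorem mu_T [Fintype X] (D : TagSpace m Γ X) (N : ℕ) (hD : D.Good N) (i : Fin (m + 1)) (a : Γ) :
    ∑ τ, D.μ τ * D.T i a τ = 0 := by
  have h := hD.w1 i a 0 (Nat.zero_le _) Fin.elim0 Fin.elim0
  simpa using h

theorem sum_tau [Fintype X] (D : TagSpace m Γ X) (N : ℕ) (hD : D.Good N) (P : KerPar m) (b : Γ)
    (x : Γ × X) (v : Γ) :
    ∑ τ : X, D.μ τ * ker D P b x (v, τ) =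
      1 + P.phi * sg (v - x.1 - b) + ∑ i, P.lam i * D.T i (v - b) x.2 := by
  unfold ker
  simp only
  have e : ∀ τ : X, D.μ τ * (1 + P.phi * sg (v - x.1 - b) + ∑ i, P.lam i * D.T i (v - b) x.2 +
      ∑ i, P.rho i * D.T i (x.1 + b) τ + (1 / (Fintype.card Γ : ℝ)) * ∑ i, ∑ j,
      (P.c i j + P.d i j * sg (v - x.1 - b)) * ∑ a, D.T i a x.2 * D.T j (a + b) τ) =
      D.μ τ * (1 + P.phi * sg (v - x.1 - b) + ∑ i, P.lam i * D.T i (v - b) x.2) +
      ∑ i, P.rho i * (D.μ τ * D.T i (x.1 + b) τ) + ∑ i, ∑ j, ∑ a,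
      ((1 / (Fintype.card Γ : ℝ)) * (P.c i j + P.d i j * sg (v - x.1 - b)) * D.T i a x.2) *
        (D.μ τ * D.T j (a + b) τ) := by
    intro τ
    rw [mul_add, mul_add]
    congr 1
    · congr 1
      rw [Finset.mul_sum]
      exact Finset.sum_congr rfl (fun i _ => by ring)
    · simp only [Finset.mul_sum]
      refine Finset.sum_congr rfl fun i _ => Finset.sum_congr rfl fun j _ =>
        Finset.sum_congr rfl fun a _ => ?_
      ring
  rw [Finset.sum_congr rfl (fun τ _ => e τ), Finset.sum_add_distrib, Finset.sum_add_distrib]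
  have h1 : ∑ τ : X, D.μ τ * (1 + P.phi * sg (v - x.1 - b) + ∑ i, P.lam i * D.T i (v - b) x.2) =
      1 + P.phi * sg (v - x.1 - b) + ∑ i, P.lam i * D.T i (v - b) x.2 := by
    rw [← Finset.sum_mul, hD.one, one_mul]
  have h2 : ∑ τ : X, ∑ i, P.rho i * (D.μ τ * D.T i (x.1 + b) τ) = 0 := by
    rw [Finset.sum_comm]
    refine Finset.sum_eq_zero fun i _ => ?_
    rw [← Finset.mul_sum, mu_T D N hD, mul_zero]
  have h3 : ∑ τ : X, ∑ i, ∑ j, ∑ a,
      ((1 / (Fintype.card Γ : ℝ)) * (P.c i j + P.d i j * sg (v - x.1 - b)) * D.T i a x.2) *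
        (D.μ τ * D.T j (a + b) τ) = 0 := by
    rw [Finset.sum_comm]
    refine Finset.sum_eq_zero fun i _ => ?_
    rw [Finset.sum_comm]
    refine Finset.sum_eq_zero fun j _ => ?_
    rw [Finset.sum_comm]
    refine Finset.sum_eq_zero fun a _ => ?_
    rw [← Finset.mul_sum, mu_T D N hD, mul_zero]
  rw [h1, h2, h3, add_zero, add_zero]

end KerMargAux

open KerMargAux

theorem ker_tr (D : TagSpace m Γ X) (P : KerPar m) (b : Γ) (x y : Γ × X) :
    ker D P b x y = ker D P.tr (-b) y x := by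
  unfold ker KerPar.tr
  simp only
  have e1 : x.1 - y.1 - -b = -(y.1 - x.1 - b) := by abel
  have e2 : x.1 - -b = x.1 + b := by abel
  have e3 : y.1 + -b = y.1 - b := by abel
  rw [e1, sg_neg, e2, e3]
  have e4 : ∑ i, ∑ j, (P.c i j + P.d i j * sg (y.1 - x.1 - b)) *
      ∑ a, D.T i a x.2 * D.T j (a + b) y.2 =
      ∑ i, ∑ j, (P.c j i + P.d j i * sg (y.1 - x.1 - b)) *
      ∑ a, D.T i a y.2 * D.T j (a + -b) x.2 := by
    rw [Finset.sum_comm]
    refine Finset.sum_congr rfl fun i _ => Finset.sum_congr rfl fun j _ => ?_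
    congr 1
    refine Fintype.sum_equiv (Equiv.addRight b) _ _ fun a => ?_
    simp only [Equiv.coe_addRight]
    rw [add_neg_cancel_right, mul_comm]
  rw [e4]
  ring

theorem base_tr (m : ℕ) (θ : ℝ) (c : ℕ → ℝ) : (baseP m θ c).tr = baseP m θ c := by
  unfold baseP KerPar.tr
  ext i j
  · rfl
  · rfl
  · rfl
  · simp only [add_comm]
  · simp only [add_comm]

theorem ker_zero (D : TagSpace m Γ X) (b : Γ) (x y : Γ × X) :
    ker D (KerPar.zero m) b x y = 1 := by
  unfold ker KerPar.zero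
  simp

theorem ker_marg [Fintype X] (D : TagSpace m Γ X) (N : ℕ) (hD : D.Good N) (P : KerPar m) (b : Γ)
    (x : Γ × X) :
    ∑ y : Γ × X, (1 / (Fintype.card Γ : ℝ) * D.μ y.2) * ker D P b x y = 1 := by
  have hk : (Fintype.card Γ : ℝ) ≠ 0 := by
    have : 0 < Fintype.card Γ := Fintype.card_pos_iff.2 ⟨0⟩
    positivity
  rw [Fintype.sum_prod_type]
  have e : ∀ v : Γ, ∑ τ : X, (1 / (Fintype.card Γ : ℝ) * D.μ τ) * ker D P b x (v, τ) =
      1 / (Fintype.card Γ : ℝ) * (1 + P.phi * sg (v - (x.1 + b)) +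
        ∑ i, P.lam i * D.T i (v - b) x.2) := by
    intro v
    have h := sum_tau D N hD P b x v
    rw [sub_sub] at h
    rw [← h, Finset.mul_sum]
    exact Finset.sum_congr rfl fun τ _ => by ring
  simp only
  rw [Finset.sum_congr rfl (fun v _ => e v), ← Finset.mul_sum, Finset.sum_add_distrib,
    Finset.sum_add_distrib, ← Finset.mul_sum, sum_sg, Finset.sum_comm]
  have h0 : ∑ i, ∑ v : Γ, P.lam i * D.T i (v - b) x.2 = 0 := by
    refine Finset.sum_eq_zero fun i _ => ?_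
    rw [← Finset.mul_sum]
    have h1 : ∑ v : Γ, D.T i (v - b) x.2 = ∑ v : Γ, D.T i v x.2 :=
      Fintype.sum_equiv (Equiv.subRight b) _ _ (fun v => rfl)
    rw [h1, hD.lab, mul_zero]
  rw [h0]
  simp [hk]

theorem ker_marg' [Fintype X] (D : TagSpace m Γ X) (N : ℕ) (hD : D.Good N) (P : KerPar m) (b : Γ)
    (y : Γ × X) :
    ∑ x : Γ × X, (1 / (Fintype.card Γ : ℝ) * D.μ x.2) * ker D P b x y = 1 := by
  refine Eq.trans (Finset.sum_congr rfl fun x _ => ?_) (ker_marg D N hD P.tr (-b) y)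
  rw [ker_tr D P b x y]

end Pool.Agent.Lib.P325L
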