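import Pool.Agent.Lib.P325L.Defs
import Pool.Agent.Lib.P325L.KerMarg

/-!
Module EdgeV (1h). The law of one edge.
PROOF. Only one kernel; the tags integrate out: summing over all spins other than the two ends gives
1 (∑ ν = 1). For the ends u = src e ≠ w = tgt e: (1/k^2) ∑_{a,b} [b = a + sh e] ∑_{τ,τ'} μ μ ker; the
tag terms vanish (∑_τ μ τ T i a τ = 0 by hD.w1 with n = 0: in the c/d term both factors are tags), so
the sum is (1/k^2) ∑_a (1 + P.phi (k-1)) = (1 + P.phi (k-1))/k.
Suggestion: use Fubini or ex_fub-like regrouping, or first prove the value for the product of two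
indicator functions.
-/

open scoped BigOperators

namespace Pool.Agent.Lib.P325L

variable {Γ : Type} [Fintype Γ] [AddCommGroup Γ] [DecidableEq Γ] {V ι X : Type} [DecidableEq V]
  [DecidableEq ι] [DecidableEq X] [Fintype V] [Fintype X] {m : ℕ}

namespace EdgeVAux

theorem ex_ind {Y : Type} [Fintype Y] [DecidableEq Y] (ν : Y → ℝ) (u w : V)
    (p q : Y) :
    ∑ z : V → Y, (∏ v, ν (z v)) * ((if z u = p then 1 else 0) * (if z w = q then 1 else 0)) =
      ∏ v : V, ∑ y : Y, ν y * ((if v = u then (if y = p then 1 else 0) else 1) *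
        (if v = w then (if y = q then 1 else 0) else 1)) := by
  rw [Finset.prod_univ_sum, Fintype.piFinset_univ]
  refine Finset.sum_congr rfl fun z _ => ?_
  rw [Finset.prod_mul_distrib, Finset.prod_mul_distrib]
  congr 1
  congr 1
  · rw [Finset.prod_ite_eq' Finset.univ u (fun v => if z v = p then (1 : ℝ) else 0)]
    simp
  · rw [Finset.prod_ite_eq' Finset.univ w (fun v => if z v = q then (1 : ℝ) else 0)]
    simp

theorem ex_ind' {Y : Type} [Fintype Y] [DecidableEq Y] (ν : Y → ℝ) (hν : ∑ y, ν y = 1) (u w : V)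
    (huw : u ≠ w) (p q : Y) :
    ∑ z : V → Y, (∏ v, ν (z v)) * ((if z u = p then 1 else 0) * (if z w = q then 1 else 0)) =
      ν p * ν q := by
  rw [ex_ind ν u w p q]
  have h : ∀ v : V, ∑ y : Y, ν y * ((if v = u then (if y = p then 1 else 0) else 1) *
        (if v = w then (if y = q then 1 else 0) else 1)) =
      (if v = u then ν p else 1) * (if v = w then ν q else 1) := by
    intro v
    by_cases h1 : v = u
    · have h2 : v ≠ w := fun h => huw (h1.symm.trans h)
      simp [h1, huw]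
    · by_cases h2 : v = w
      · simp [h2, huw.symm]
      · simp [h1, h2, hν]
  rw [Finset.prod_congr rfl (fun v _ => h v), Finset.prod_mul_distrib, Finset.prod_ite_eq',
    Finset.prod_ite_eq']
  simp

theorem ex_two {Y : Type} [Fintype Y] [DecidableEq Y] (ν : Y → ℝ) (hν : ∑ y, ν y = 1) (u w : V)
    (huw : u ≠ w) (g : Y → Y → ℝ) :
    Ex ν (fun z : V → Y => g (z u) (z w)) = ∑ x, ν x * ∑ y, ν y * g x y := by
  unfold Ex
  have h : ∀ z : V → Y, (∏ v, ν (z v)) * g (z u) (z w) =
      ∑ p, ∑ q, ((∏ v, ν (z v)) * ((if z u = p then 1 else 0) * (if z w = q then 1 else 0))) *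
        g p q := by
    intro z
    have h1 : ∀ p, ∑ q, ((∏ v, ν (z v)) * ((if z u = p then 1 else 0) *
        (if z w = q then 1 else 0))) * g p q =
        if z u = p then (∏ v, ν (z v)) * g p (z w) else 0 := by
      intro p
      by_cases hp : z u = p
      · simp [hp, mul_ite, ite_mul, Finset.sum_ite_eq]
      · simp [hp]
    rw [Finset.sum_congr rfl (fun p _ => h1 p)]
    simp
  rw [Finset.sum_congr rfl (fun z _ => h z), Finset.sum_comm]
  refine Finset.sum_congr rfl fun p _ => ?_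
  rw [Finset.sum_comm, Finset.mul_sum]
  refine Finset.sum_congr rfl fun q _ => ?_
  rw [← Finset.sum_mul, ex_ind' ν hν u w huw p q]
  ring

end EdgeVAux

open EdgeVAux KerMargAux in
theorem edge_val (D : TagSpace m Γ X) (N : ℕ) (hN : 1 ≤ N) (hD : D.Good N) (G : Gr V ι)
    (sh : ι → Γ) (P : KerPar m) (e : ι) :
    Ex (V := V) (Y := Γ × X) (fun y => 1 / (Fintype.card Γ : ℝ) * D.μ y.2)
      (fun z => PK G (fun e => ker D P (sh e)) {e} z *
        (if (z (G.tgt e)).1 = (z (G.src e)).1 + sh e then 1 else 0)) =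
      (1 + P.phi * ((Fintype.card Γ : ℝ) - 1)) / (Fintype.card Γ : ℝ) := by
  have hk : (Fintype.card Γ : ℝ) ≠ 0 := by
    have : 0 < Fintype.card Γ := Fintype.card_pos_iff.2 ⟨0⟩
    positivity
  have hν : ∑ y : Γ × X, 1 / (Fintype.card Γ : ℝ) * D.μ y.2 = 1 := by
    rw [Fintype.sum_prod_type]
    have h1 : ∀ v : Γ, ∑ τ : X, 1 / (Fintype.card Γ : ℝ) * D.μ τ = 1 / (Fintype.card Γ : ℝ) := by
      intro v
      rw [← Finset.mul_sum, hD.one, mul_one]
    simp only
    rw [Finset.sum_congr rfl (fun v _ => h1 v)]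
    simp [hk]
  have hF : (fun z : V → Γ × X => PK G (fun e => ker D P (sh e)) {e} z *
        (if (z (G.tgt e)).1 = (z (G.src e)).1 + sh e then (1 : ℝ) else 0)) =
      fun z => (fun x y : Γ × X => ker D P (sh e) x y *
        (if y.1 = x.1 + sh e then (1 : ℝ) else 0)) (z (G.src e)) (z (G.tgt e)) := by
    funext z
    simp [PK]
  rw [hF]
  refine Eq.trans (ex_two (V := V) (fun y : Γ × X => 1 / (Fintype.card Γ : ℝ) * D.μ y.2) hν
    (G.src e) (G.tgt e) (G.ne e) (fun x y : Γ × X => ker D P (sh e) x y *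
        (if y.1 = x.1 + sh e then (1 : ℝ) else 0))) ?_
  have h2 : ∀ x : Γ × X, ∑ y : Γ × X, 1 / (Fintype.card Γ : ℝ) * D.μ y.2 *
      (ker D P (sh e) x y * (if y.1 = x.1 + sh e then (1 : ℝ) else 0)) =
      1 / (Fintype.card Γ : ℝ) * (1 + P.phi * ((Fintype.card Γ : ℝ) - 1) +
        ∑ i, P.lam i * D.T i x.1 x.2) := by
    intro x
    rw [Fintype.sum_prod_type]
    have h3 : ∀ v : Γ, ∑ τ : X, 1 / (Fintype.card Γ : ℝ) * D.μ τ *
        (ker D P (sh e) x (v, τ) * (if v = x.1 + sh e then (1 : ℝ) else 0)) =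
        if v = x.1 + sh e then 1 / (Fintype.card Γ : ℝ) *
          (1 + P.phi * sg (v - x.1 - sh e) + ∑ i, P.lam i * D.T i (v - sh e) x.2) else 0 := by
      intro v
      split_ifs with hv
      · rw [← sum_tau D N hD P (sh e) x v, Finset.mul_sum]
        exact Finset.sum_congr rfl fun τ _ => by ring
      · simp
    simp only
    rw [Finset.sum_congr rfl (fun v _ => h3 v), Finset.sum_ite_eq']
    simp only [Finset.mem_univ, if_true]
    have e1 : x.1 + sh e - x.1 - sh e = 0 := by abel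
    have e2 : x.1 + sh e - sh e = x.1 := by abel
    rw [e1, e2]
    simp [sg]
  rw [Finset.sum_congr rfl (fun x _ => by rw [h2 x])]
  have h4 : ∀ x : Γ × X, 1 / (Fintype.card Γ : ℝ) * D.μ x.2 *
      (1 / (Fintype.card Γ : ℝ) * (1 + P.phi * ((Fintype.card Γ : ℝ) - 1) +
        ∑ i, P.lam i * D.T i x.1 x.2)) =
      (1 / (Fintype.card Γ : ℝ) * D.μ x.2) * (1 / (Fintype.card Γ : ℝ) *
        (1 + P.phi * ((Fintype.card Γ : ℝ) - 1))) +
      ∑ i, (1 / (Fintype.card Γ : ℝ) * (1 / (Fintype.card Γ : ℝ)) * P.lam i) *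
        (D.μ x.2 * D.T i x.1 x.2) := by
    intro x
    rw [mul_add, mul_add]
    congr 1
    rw [Finset.mul_sum, Finset.mul_sum]
    exact Finset.sum_congr rfl fun i _ => by ring
  rw [Finset.sum_congr rfl (fun x _ => h4 x), Finset.sum_add_distrib, ← Finset.sum_mul, hν]
  have h5 : ∑ x : Γ × X, ∑ i, (1 / (Fintype.card Γ : ℝ) * (1 / (Fintype.card Γ : ℝ)) * P.lam i) *
        (D.μ x.2 * D.T i x.1 x.2) = 0 := by
    rw [Finset.sum_comm]
    refine Finset.sum_eq_zero fun i _ => ?_
    rw [← Finset.mul_sum, Fintype.sum_prod_type]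
    have h6 : ∀ a : Γ, ∑ τ : X, D.μ τ * D.T i a τ = 0 := fun a => mu_T D N hD i a
    simp only
    rw [Finset.sum_congr rfl (fun a _ => h6 a)]
    simp
  rw [h5]
  field_simp
  ring


end Pool.Agent.Lib.P325L
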