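import Pool.Agent.Lib.P325L.Defs
import Pool.Agent.Lib.P325h.Defs

/-!
Module ExtL (2h). Gluing consistent local functionals.
PROOF. Fix a label ω0. For T : Finset V let (R T f) x = f (fun v => if v ∈ T then x v else ω0), linear in
f, depends on T only; if f depends on D then R T f = R (T ∩ D) f. For S put
(M S f) = ∑_{T ⊆ S} (-1)^(|S| - |T|) R T f (depends on S only). Möbius inversion:
∑_{S ⊆ D} M S f = R D f (for T ⊆ D, ∑_{T ⊆ S ⊆ D} (-1)^(|S|-|T|) = [T = D]). If f depends on D and S ⊄ D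
then M S f = 0: choose v ∈ S \ D and pair T with T Δ {v} (R T f = R (T ∪ {v}) f as both equal
R (T ∩ D) f, opposite signs). Put E f = ∑_{S, |S| <= r} L S (M S f) (linear). If f depends on D and
|D| <= r then E f = ∑_{S ⊆ D} L S (M S f) = ∑_{S ⊆ D} L D (M S f) (cons: M S f depends on S ⊆ D)
= L D (R D f) = L D f. So E 1 = L ∅ 1 = 1 and E f = L D f >= 0 if f >= 0 depends on D, |D| <= r.
-/

open scoped BigOperators

namespace Pool.Agent.Lib.P325L

namespace ExtLAux

/-- Sum over the subsets of `insert a S` with alternating signs. -/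
private theorem alt_insert {V : Type} [DecidableEq V] {W : Type} [AddCommGroup W] [Module ℝ W]
    (g : Finset V → W) (a : V) (S : Finset V) (ha : a ∉ S) :
    ∑ T ∈ (insert a S).powerset, (-1 : ℝ) ^ ((insert a S).card + T.card) • g T =
      ∑ T ∈ S.powerset, (-1 : ℝ) ^ (S.card + T.card) • (g (insert a T) - g T) := by
  rw [Finset.sum_powerset_insert ha, Finset.card_insert_of_notMem ha]
  rw [← Finset.sum_add_distrib]
  refine Finset.sum_congr rfl fun T hT => ?_
  have haT : a ∉ T := fun h => ha (Finset.mem_powerset.1 hT h)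
  rw [Finset.card_insert_of_notMem haT, smul_sub]
  have h1 : (-1 : ℝ) ^ (S.card + 1 + T.card) = -(-1 : ℝ) ^ (S.card + T.card) := by
    rw [add_right_comm, pow_succ]; ring
  have h2 : (-1 : ℝ) ^ (S.card + 1 + (T.card + 1)) = (-1 : ℝ) ^ (S.card + T.card) := by
    rw [show S.card + 1 + (T.card + 1) = S.card + T.card + 2 by ring, pow_add]; norm_num
  rw [h1, h2, neg_smul]
  abel

/-- Möbius inversion on a finite Boolean lattice. -/
private theorem mob {V : Type} [DecidableEq V] {W : Type} [AddCommGroup W] [Module ℝ W]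
    (D : Finset V) : ∀ g : Finset V → W,
    ∑ S ∈ D.powerset, ∑ T ∈ S.powerset, (-1 : ℝ) ^ (S.card + T.card) • g T = g D := by
  induction D using Finset.induction_on with
  | empty => intro g; simp
  | insert a D ha ih =>
    intro g
    rw [Finset.sum_powerset_insert ha, ih g]
    have h : ∀ S ∈ D.powerset,
        ∑ T ∈ (insert a S).powerset, (-1 : ℝ) ^ ((insert a S).card + T.card) • g T =
        ∑ T ∈ S.powerset, (-1 : ℝ) ^ (S.card + T.card) • (g (insert a T) - g T) := fun S hS =>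
      alt_insert g a S fun h => ha (Finset.mem_powerset.1 hS h)
    rw [Finset.sum_congr rfl h, ih fun T => g (insert a T) - g T]
    abel

/-- The restriction to the coordinates in `T`. -/
private noncomputable def R {V Ω : Type} [DecidableEq V] (ω : Ω) (T : Finset V) :
    ((V → Ω) → ℝ) →ₗ[ℝ] ((V → Ω) → ℝ) :=
  LinearMap.funLeft ℝ ℝ fun (x : V → Ω) v => if v ∈ T then x v else ω

private theorem R_apply {V Ω : Type} [DecidableEq V] (ω : Ω) (T : Finset V) (f : (V → Ω) → ℝ)
    (x : V → Ω) : R ω T f x = f fun v => if v ∈ T then x v else ω := rfl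

/-- The part of a function that belongs to `S`. -/
private noncomputable def M {V Ω : Type} [DecidableEq V] (ω : Ω) (S : Finset V) :
    ((V → Ω) → ℝ) →ₗ[ℝ] ((V → Ω) → ℝ) :=
  ∑ T ∈ S.powerset, (-1 : ℝ) ^ (S.card + T.card) • R ω T

private theorem M_apply {V Ω : Type} [DecidableEq V] (ω : Ω) (S : Finset V) (f : (V → Ω) → ℝ) :
    M ω S f = ∑ T ∈ S.powerset, (-1 : ℝ) ^ (S.card + T.card) • R ω T f := by
  simp [M, LinearMap.sum_apply]

private theorem M_dep {V Ω : Type} [DecidableEq V] (ω : Ω) (S : Finset V) (f : (V → Ω) → ℝ) :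
    DependsOn (M ω S f) (S : Set V) := by
  intro x y hxy
  rw [M_apply, Finset.sum_apply, Finset.sum_apply]
  refine Finset.sum_congr rfl fun T hT => ?_
  rw [Pi.smul_apply, Pi.smul_apply, R_apply, R_apply]
  congr 2
  funext v
  split_ifs with hv
  · exact hxy v (Finset.mem_coe.2 (Finset.mem_powerset.1 hT hv))
  · rfl

private theorem M_zero {V Ω : Type} [DecidableEq V] (ω : Ω) (S D : Finset V) (f : (V → Ω) → ℝ)
    (hf : DependsOn f (D : Set V)) (hSD : ¬ S ⊆ D) : M ω S f = 0 := by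
  obtain ⟨v, hvS, hvD⟩ := Finset.not_subset.1 hSD
  obtain ⟨S', hv, rfl⟩ : ∃ S', v ∉ S' ∧ insert v S' = S :=
    ⟨S.erase v, Finset.notMem_erase v S, Finset.insert_erase hvS⟩
  rw [M_apply, alt_insert (fun T => R ω T f) v S' hv]
  refine Finset.sum_eq_zero fun T _ => ?_
  have h : R ω (insert v T) f = R ω T f := by
    funext x
    rw [R_apply, R_apply]
    refine hf fun i hi => ?_
    have hiv : i ≠ v := fun h => hvD (h ▸ Finset.mem_coe.1 hi)
    simp [Finset.mem_insert, hiv]
  rw [h, sub_self, smul_zero]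

private theorem M_sum {V Ω : Type} [DecidableEq V] (ω : Ω) (D : Finset V) (f : (V → Ω) → ℝ)
    (hf : DependsOn f (D : Set V)) : ∑ S ∈ D.powerset, M ω S f = f := by
  simp only [M_apply]
  rw [mob D fun T => R ω T f]
  funext x
  rw [R_apply]
  refine hf fun i hi => ?_
  simp [Finset.mem_coe.1 hi]

end ExtLAux

theorem ext_local {V Ω : Type} [Fintype V] [DecidableEq V] [Fintype Ω] [Nonempty Ω] (r : ℕ)
    (L : Finset V → ((V → Ω) → ℝ) →ₗ[ℝ] ℝ) (one : L ∅ (fun _ => 1) = 1)
    (nonneg : ∀ (D : Finset V) (f : (V → Ω) → ℝ), D.card ≤ r → DependsOn f (D : Set V) →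
      (∀ x, 0 ≤ f x) → 0 ≤ L D f)
    (cons : ∀ (S D : Finset V) (f : (V → Ω) → ℝ), S ⊆ D → D.card ≤ r →
      DependsOn f (S : Set V) → L D f = L S f) :
    ∃ E : ((V → Ω) → ℝ) →ₗ[ℝ] ℝ, Pool.Agent.Lib.P325h.IsLocalExpectation r E ∧
      ∀ (D : Finset V) (f : (V → Ω) → ℝ), D.card ≤ r → DependsOn f (D : Set V) →
        E f = L D f := by
  classical
  obtain ⟨ω⟩ := ‹Nonempty Ω›
  let E : ((V → Ω) → ℝ) →ₗ[ℝ] ℝ :=
    ∑ S ∈ (Finset.univ : Finset (Finset V)).filter (fun S => S.card ≤ r),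
      (L S) ∘ₗ (ExtLAux.M ω S)
  have hE : ∀ (D : Finset V) (f : (V → Ω) → ℝ), D.card ≤ r → DependsOn f (D : Set V) →
      E f = L D f := by
    intro D f hD hf
    have h1 : E f = ∑ S ∈ (Finset.univ : Finset (Finset V)).filter (fun S => S.card ≤ r),
        L S (ExtLAux.M ω S f) := by
      simp [E, LinearMap.sum_apply]
    have h2 : ∑ S ∈ D.powerset, L S (ExtLAux.M ω S f) =
        ∑ S ∈ (Finset.univ : Finset (Finset V)).filter (fun S => S.card ≤ r),
          L S (ExtLAux.M ω S f) := by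
      refine Finset.sum_subset (fun S hS => ?_) fun S _ hS => ?_
      · rw [Finset.mem_filter]
        exact ⟨Finset.mem_univ S, (Finset.card_le_card (Finset.mem_powerset.1 hS)).trans hD⟩
      · rw [ExtLAux.M_zero ω S D f hf fun h => hS (Finset.mem_powerset.2 h), map_zero]
    rw [h1, ← h2]
    have h3 : ∀ S ∈ D.powerset, L S (ExtLAux.M ω S f) = L D (ExtLAux.M ω S f) := fun S hS =>
      (cons S D _ (Finset.mem_powerset.1 hS) hD (ExtLAux.M_dep ω S f)).symm
    rw [Finset.sum_congr rfl h3, ← map_sum, ExtLAux.M_sum ω D f hf]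
  refine ⟨E, ⟨?_, ?_⟩, hE⟩
  · rw [hE ∅ (fun _ => 1) (by simp) fun _ _ _ => rfl, one]
  · intro f D hD hf hpos
    rw [hE D f hD hf]
    exact nonneg D f hD hf hpos

end Pool.Agent.Lib.P325L
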