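import Pool.Agent.Lib.P325L.Defs

/-!
Module Fub (1h). Integrating out one spin.
PROOF. Ex ν H = ∑ x, (∏ w, ν (x w)) * H x. For fixed v the map (x, y) ↦ update x v y shows, with
∑ ν = 1: ∑_x (∏_w ν (x w)) * A x * ∑_y ν y * F (update x v y); split ∏_w = ν (x v) * ∏_{w≠v} and group
the sum over x by the values off v (e.g. Fintype.sum_equiv with Equiv.funSplitAt v, or
Equiv.piSplitAt): both sides are ∑ over (values off v) of ∏_{w≠v} ν * A * ∑_y ν y F(.., y), since A does
not depend on the value at v and ∑_{x v} ν (x v) = 1.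
-/

open scoped BigOperators

namespace Pool.Agent.Lib.P325L

variable {V Y : Type} [Fintype V] [DecidableEq V] [Fintype Y]

namespace FubAux

/-- exchange the value at `v` with `y` -/
def sw (v : V) : ((V → Y) × Y) ≃ ((V → Y) × Y) where
  toFun p := (Function.update p.1 v p.2, p.1 v)
  invFun p := (Function.update p.1 v p.2, p.1 v)
  left_inv p := by
    rcases p with ⟨x, y⟩
    simp
  right_inv p := by
    rcases p with ⟨x, y⟩
    simp

theorem prod_upd (ν : Y → ℝ) (v : V) (x : V → Y) (y : Y) :
    ν y * ∏ w, ν (x w) = ν (x v) * ∏ w, ν (Function.update x v y w) := by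
  rw [← Finset.mul_prod_erase Finset.univ (fun w => ν (x w)) (Finset.mem_univ v),
    ← Finset.mul_prod_erase Finset.univ (fun w => ν (Function.update x v y w))
      (Finset.mem_univ v)]
  have h : ∏ w ∈ Finset.univ.erase v, ν (Function.update x v y w) =
      ∏ w ∈ Finset.univ.erase v, ν (x w) := by
    refine Finset.prod_congr rfl fun w hw => ?_
    rw [Function.update_of_ne (Finset.ne_of_mem_erase hw)]
  rw [h, Function.update_self]
  ring

end FubAux

open FubAux

theorem ex_fub (ν : Y → ℝ) (hν : ∑ y, ν y = 1) (v : V) (A F : (V → Y) → ℝ)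
    (hA : ∀ x y, A (Function.update x v y) = A x) :
    Ex ν (fun x => A x * F x) =
      Ex ν (fun x => A x * ∑ y, ν y * F (Function.update x v y)) := by
  unfold Ex
  have h1 : ∀ x : V → Y, (∏ w, ν (x w)) * (A x * ∑ y, ν y * F (Function.update x v y)) =
      ∑ y, (ν y * ∏ w, ν (x w)) * (A x * F (Function.update x v y)) := by
    intro x
    rw [Finset.mul_sum, Finset.mul_sum]
    exact Finset.sum_congr rfl fun y _ => by ring
  have h2 : ∀ x : V → Y, (∏ w, ν (x w)) * (A x * F x) =
      ∑ y, (ν y * ∏ w, ν (x w)) * (A x * F x) := by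
    intro x
    rw [← Finset.sum_mul, ← Finset.sum_mul, hν, one_mul]
  rw [Finset.sum_congr rfl fun x _ => h2 x, Finset.sum_congr rfl fun x _ => h1 x,
    ← Fintype.sum_prod_type' (f := fun (x : V → Y) (y : Y) =>
      (ν y * ∏ w, ν (x w)) * (A x * F x)),
    ← Fintype.sum_prod_type' (f := fun (x : V → Y) (y : Y) =>
      (ν y * ∏ w, ν (x w)) * (A x * F (Function.update x v y)))]
  refine (Fintype.sum_equiv (sw v) _ _ fun p => ?_).symm
  rcases p with ⟨x, y⟩
  show (ν y * ∏ w, ν (x w)) * (A x * F (Function.update x v y)) =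
    (ν (x v) * ∏ w, ν (Function.update x v y w)) *
      (A (Function.update x v y) * F (Function.update x v y))
  rw [prod_upd, hA]

theorem ex_one (ν : Y → ℝ) (hν : ∑ y, ν y = 1) : Ex (V := V) ν (fun _ => 1) = 1 := by
  unfold Ex
  simp only [mul_one]
  rw [← Fintype.prod_sum (fun (_ : V) (y : Y) => ν y), hν, Finset.prod_const_one]

end Pool.Agent.Lib.P325L
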