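import Pool.Agent.Lib.P325L.Defs
import Pool.Agent.Lib.P325L.Fub

/-!
Removing a leaf edge.
-/

open scoped BigOperators

namespace Pool.Agent.Lib.P325L

variable {V ι Y : Type} [Fintype V] [DecidableEq V] [DecidableEq ι] [Fintype Y]

theorem leaf_rem (G : Gr V ι) (κ : ι → Y → Y → ℝ) (ν : Y → ℝ) (hν : ∑ y, ν y = 1)
    (h1 : ∀ e x, ∑ y, ν y * κ e x y = 1) (h2 : ∀ e y, ∑ x, ν x * κ e x y = 1)
    (S : Finset V) (H : Finset ι) (v : V) (hv : v ∉ S) (hd : G.deg H v = 1) :
    ∃ e ∈ H, G.Inc e v ∧ ∀ F : (V → Y) → ℝ, DependsOn F (S : Set V) →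
      Ex ν (fun x => PK G κ H x * F x) = Ex ν (fun x => PK G κ (H.erase e) x * F x) := by
  unfold Gr.deg at hd
  obtain ⟨e, he⟩ := Finset.card_eq_one.1 hd
  have heH : e ∈ H ∧ G.Inc e v := by
    have : e ∈ H.filter (fun e => G.Inc e v) := by rw [he]; exact Finset.mem_singleton_self e
    exact Finset.mem_filter.1 this
  refine ⟨e, heH.1, heH.2, fun F hF => ?_⟩
  have hoth : ∀ e' ∈ H.erase e, ¬ G.Inc e' v := by
    intro e' he' hi
    rw [Finset.mem_erase] at he'
    have : e' ∈ H.filter (fun e => G.Inc e v) := Finset.mem_filter.2 ⟨he'.2, hi⟩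
    rw [he, Finset.mem_singleton] at this
    exact he'.1 this
  have hA : ∀ x y, (fun x : V → Y => PK G κ (H.erase e) x * F x) (Function.update x v y) =
      (fun x : V → Y => PK G κ (H.erase e) x * F x) x := by
    intro x y
    have e1 : F (Function.update x v y) = F x := by
      apply hF
      intro i hi
      have hne : i ≠ v := by
        rintro rfl
        exact hv (by exact_mod_cast hi)
      exact Function.update_of_ne hne _ _
    have e2 : PK G κ (H.erase e) (Function.update x v y) = PK G κ (H.erase e) x := by
      unfold PK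
      refine Finset.prod_congr rfl fun e' he' => ?_
      have h3 := hoth e' he'
      have h4 : G.src e' ≠ v := fun h => h3 (Or.inl h)
      have h5 : G.tgt e' ≠ v := fun h => h3 (Or.inr h)
      rw [Function.update_of_ne h4, Function.update_of_ne h5]
    simp only [e1, e2]
  have hfub := ex_fub ν hν v (fun x : V → Y => PK G κ (H.erase e) x * F x)
    (fun x => κ e (x (G.src e)) (x (G.tgt e))) hA
  have hL : (fun x : V → Y => PK G κ H x * F x) =
      (fun x => (fun x : V → Y => PK G κ (H.erase e) x * F x) x *
        (fun x => κ e (x (G.src e)) (x (G.tgt e))) x) := by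
    funext x
    have : PK G κ H x = κ e (x (G.src e)) (x (G.tgt e)) * PK G κ (H.erase e) x := by
      unfold PK
      exact (Finset.mul_prod_erase H (fun e => κ e (x (G.src e)) (x (G.tgt e))) heH.1).symm
    simp only [this]
    ring
  rw [hL, hfub]
  congr 1
  funext x
  have hone : ∑ y, ν y * κ e (Function.update x v y (G.src e))
      (Function.update x v y (G.tgt e)) = 1 := by
    rcases heH.2 with h | h
    · have hne : G.tgt e ≠ v := by
        rw [← h]
        exact (G.ne e).symm
      rw [← h2 e (x (G.tgt e))]
      refine Finset.sum_congr rfl fun y _ => ?_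
      rw [Function.update_of_ne hne, h, Function.update_self]
    · have hne : G.src e ≠ v := by
        rw [← h]
        exact G.ne e
      rw [← h1 e (x (G.src e))]
      refine Finset.sum_congr rfl fun y _ => ?_
      rw [Function.update_of_ne hne, h, Function.update_self]
  simp only [hone, mul_one]

end Pool.Agent.Lib.P325L
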