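import Pool.Agent.Lib.P325L.Defs
import Pool.Agent.Lib.P325L.Fub

/-!
Module PathR (2.2h; uses ex_fub). Removing a bare path with n edges.
PROOF. Let K be given by PathOK for q, e. The edges e 0, …, e (n-1) are distinct: if e i = e j with
i < j then {q i, q (i+1)} = {q j, q (j+1)}, impossible since q is injective on 0..n.
Let H' = H \ {e i : i < n}. An inner vertex q i (0 < i < n) has degree 2 in H and e (i-1), e i are two
distinct edges of H at q i, so no edge of H' meets q i. Let A x = PK H' x * F x: it does not depend on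
x (q i), 0 < i < n (F depends on S only and q i ∉ S).
PK H x = PK H' x * ∏_{i<n} kdir (e i) (q i) (x (q i)) (x (q (i+1))) by the join conditions
(κ e (x src) (x tgt) = kdir e v (x v) (x (oth)); in the reversed case src e ≠ q i).
Claim by induction on j < n: Ex ν (PK H * F) = Ex ν (A x * K j (x (q 0)) (x (q (j+1))) *
∏_{j < i < n} kdir (e i) (q i) (x (q i)) (x (q (i+1)))). j = 0: first property of K. Step j → j+1:
the only factors that depend on x (q (j+1)) are K j (x (q 0)) (x (q (j+1))) and
kdir (e (j+1)) (q (j+1)) (x (q (j+1))) (x (q (j+2))) (q (j+1) differs from q 0, q (j+2) and the later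
vertices); apply ex_fub at v = q (j+1) and the second property of K.
At j = n-1: K = 1 and the product is empty, so the value is Ex ν A.
-/

open scoped BigOperators

namespace Pool.Agent.Lib.P325L

variable {V ι Y : Type} [Fintype V] [DecidableEq V] [DecidableEq ι] [Fintype Y]

namespace PathRAux

theorem kdir_eq (G : Gr V ι) (κ : ι → Y → Y → ℝ) (b : ι) (u v : V) (x : V → Y)
    (h : (G.src b = u ∧ G.tgt b = v) ∨ (G.tgt b = u ∧ G.src b = v)) :
    kdir G κ b u (x u) (x v) = κ b (x (G.src b)) (x (G.tgt b)) := by
  unfold kdir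
  rcases h with ⟨h1, h2⟩ | ⟨h1, h2⟩
  · rw [if_pos h1, h1, h2]
  · have h3 : G.src b ≠ u := by
      intro h4
      exact G.ne b (by rw [h4, h1])
    rw [if_neg h3, h1, h2]

theorem e_inj (G : Gr V ι) (n : ℕ) (S : Finset V) (H : Finset ι) (q : ℕ → V) (e : ℕ → ι)
    (hb : G.Bare n S H q e) (i j : ℕ) (hi : i < n) (hj : j < n) (he : e i = e j) : i = j := by
  have key : ∀ i j, i < n → j < n → e i = e j → i < j → False := by
    intro i j hi hj he hij
    have h1 := hb.join i hi
    have h2 := hb.join j hj
    rw [← he] at h2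
    rcases h1 with ⟨a1, a2⟩ | ⟨a1, a2⟩ <;> rcases h2 with ⟨b1, b2⟩ | ⟨b1, b2⟩
    · have := hb.inj i j (by omega) (by omega) (by rw [← a1, ← b1])
      omega
    · have := hb.inj i (j + 1) (by omega) (by omega) (by rw [← a1, ← b2])
      omega
    · have := hb.inj i (j + 1) (by omega) (by omega) (by rw [← a1, ← b2])
      omega
    · have := hb.inj i j (by omega) (by omega) (by rw [← a1, ← b1])
      omega
  rcases lt_trichotomy i j with h | h | h
  · exact (key i j hi hj he h).elim
  · exact h
  · exact (key j i hj hi he.symm h).elim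

theorem not_inc (G : Gr V ι) (n : ℕ) (S : Finset V) (H : Finset ι) (q : ℕ → V) (e : ℕ → ι)
    (hb : G.Bare n S H q e) (i : ℕ) (h0 : 0 < i) (hi : i < n) (b : ι)
    (hbH : b ∈ H \ (Finset.range n).image e) : ¬ G.Inc b (q i) := by
  intro hinc
  rw [Finset.mem_sdiff] at hbH
  have hd := hb.deg i h0 hi
  unfold Gr.deg at hd
  have hsub : ({e (i - 1), e i, b} : Finset ι) ⊆ H.filter (fun b => G.Inc b (q i)) := by
    intro a ha
    simp only [Finset.mem_insert, Finset.mem_singleton] at ha
    rw [Finset.mem_filter]
    rcases ha with ha | ha | ha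
    · subst ha
      refine ⟨hb.mem _ (by omega), ?_⟩
      have h1 := hb.join (i - 1) (by omega)
      have h2 : i - 1 + 1 = i := by omega
      rw [h2] at h1
      rcases h1 with ⟨_, a2⟩ | ⟨_, a2⟩
      · exact Or.inr a2
      · exact Or.inl a2
    · subst ha
      refine ⟨hb.mem _ hi, ?_⟩
      rcases hb.join i hi with ⟨a1, _⟩ | ⟨a1, _⟩
      · exact Or.inl a1
      · exact Or.inr a1
    · subst ha
      exact ⟨hbH.1, hinc⟩
  have hcard : ({e (i - 1), e i, b} : Finset ι).card = 3 := by
    rw [Finset.card_eq_three]
    refine ⟨e (i - 1), e i, b, ?_, ?_, ?_, rfl⟩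
    · intro h
      have := e_inj G n S H q e hb (i - 1) i (by omega) hi h
      omega
    · intro h
      exact hbH.2 (Finset.mem_image.2 ⟨i - 1, Finset.mem_range.2 (by omega), h⟩)
    · intro h
      exact hbH.2 (Finset.mem_image.2 ⟨i, Finset.mem_range.2 hi, h⟩)
  have := Finset.card_le_card hsub
  omega

theorem pk_update (G : Gr V ι) (κ : ι → Y → Y → ℝ) (H : Finset ι) (v : V)
    (h : ∀ b ∈ H, ¬ G.Inc b v) (x : V → Y) (y : Y) :
    PK G κ H (Function.update x v y) = PK G κ H x := by
  unfold PK
  apply Finset.prod_congr rfl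
  intro b hb
  have h1 := h b hb
  unfold Gr.Inc at h1
  rw [not_or] at h1
  rw [Function.update_of_ne h1.1, Function.update_of_ne h1.2]

end PathRAux

theorem path_rem (G : Gr V ι) (κ : ι → Y → Y → ℝ) (ν : Y → ℝ) (hν : ∑ y, ν y = 1)
    (n : ℕ) (hn : 1 ≤ n) (hP : PathOK G κ ν n) (S : Finset V) (H : Finset ι) (q : ℕ → V)
    (e : ℕ → ι) (hb : G.Bare n S H q e) (F : (V → Y) → ℝ) (hF : DependsOn F (S : Set V)) :
    Ex ν (fun x => PK G κ H x * F x) =
      Ex ν (fun x => PK G κ (H \ (Finset.range n).image e) x * F x) := by
  obtain ⟨K, hK0, hKs, hK1⟩ := hP q e hb.join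
  have hinj : Set.InjOn e (Finset.range n : Set ℕ) := by
    intro i hi j hj hij
    simp only [Finset.coe_range, Set.mem_Iio] at hi hj
    exact PathRAux.e_inj G n S H q e hb i j hi hj hij
  have hsub : (Finset.range n).image e ⊆ H := by
    intro a ha
    obtain ⟨i, hi, rfl⟩ := Finset.mem_image.1 ha
    exact hb.mem i (Finset.mem_range.1 hi)
  set H' : Finset ι := H \ (Finset.range n).image e with hH'
  set A : (V → Y) → ℝ := fun x => PK G κ H' x * F x with hA
  have hPK : ∀ x : V → Y, PK G κ H x * F x =
      A x * ∏ i ∈ Finset.range n, kdir G κ (e i) (q i) (x (q i)) (x (q (i + 1))) := by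
    intro x
    have h1 : PK G κ H x = PK G κ H' x *
        ∏ i ∈ Finset.range n, kdir G κ (e i) (q i) (x (q i)) (x (q (i + 1))) := by
      unfold PK
      rw [← Finset.prod_sdiff hsub, ← hH', Finset.prod_image hinj]
      congr 1
      apply Finset.prod_congr rfl
      intro i hi
      exact (PathRAux.kdir_eq G κ (e i) (q i) (q (i + 1)) x
        (hb.join i (Finset.mem_range.1 hi))).symm
    rw [h1, hA]
    ring
  have hAu : ∀ i, 0 < i → i < n → ∀ (x : V → Y) (y : Y), A (Function.update x (q i) y) = A x := by
    intro i h0 hi x y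
    have h1 : PK G κ H' (Function.update x (q i) y) = PK G κ H' x :=
      PathRAux.pk_update G κ H' (q i)
        (fun b hbb => PathRAux.not_inc G n S H q e hb i h0 hi b hbb) x y
    have h2 : F (Function.update x (q i) y) = F x := by
      apply hF
      intro v hv
      have hne : v ≠ q i := by
        intro h
        exact hb.out i h0 hi (by rw [← h]; exact hv)
      exact Function.update_of_ne hne _ _
    simp only [hA, h1, h2]
  have hclaim : ∀ j, j < n → Ex ν (fun x => PK G κ H x * F x) =
      Ex ν (fun x => A x * (K j (x (q 0)) (x (q (j + 1))) *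
        ∏ i ∈ Finset.Ico (j + 1) n, kdir G κ (e i) (q i) (x (q i)) (x (q (i + 1))))) := by
    intro j
    induction j with
    | zero =>
      intro hj
      congr 1
      funext x
      rw [hPK x, Finset.prod_range_eq_mul_Ico _ hj, hK0]
    | succ j ih =>
      intro hj
      rw [ih (by omega)]
      have h1 : (fun x : V → Y => A x * (K j (x (q 0)) (x (q (j + 1))) *
          ∏ i ∈ Finset.Ico (j + 1) n, kdir G κ (e i) (q i) (x (q i)) (x (q (i + 1))))) =
          fun x => (A x * ∏ i ∈ Finset.Ico (j + 1 + 1) n,
            kdir G κ (e i) (q i) (x (q i)) (x (q (i + 1)))) *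
            (K j (x (q 0)) (x (q (j + 1))) *
              kdir G κ (e (j + 1)) (q (j + 1)) (x (q (j + 1))) (x (q (j + 1 + 1)))) := by
        funext x
        rw [Finset.prod_eq_prod_Ico_succ_bot hj]
        ring
      rw [h1, ex_fub ν hν (q (j + 1))]
      · congr 1
        funext x
        have hq0 : q 0 ≠ q (j + 1) := by
          intro h
          have := hb.inj 0 (j + 1) (by omega) (by omega) h
          omega
        have hq2 : q (j + 1 + 1) ≠ q (j + 1) := by
          intro h
          have := hb.inj (j + 1 + 1) (j + 1) (by omega) (by omega) h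
          omega
        simp only [Function.update_self, Function.update_of_ne hq0, Function.update_of_ne hq2]
        rw [hKs j hj]
        ring
      · intro x y
        rw [hAu (j + 1) (by omega) (by omega) x y]
        congr 1
        apply Finset.prod_congr rfl
        intro i hi
        rw [Finset.mem_Ico] at hi
        have hq1 : q i ≠ q (j + 1) := by
          intro h
          have := hb.inj i (j + 1) (by omega) (by omega) h
          omega
        have hq2 : q (i + 1) ≠ q (j + 1) := by
          intro h
          have := hb.inj (i + 1) (j + 1) (by omega) (by omega) h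
          omega
        rw [Function.update_of_ne hq1, Function.update_of_ne hq2]
  rw [hclaim (n - 1) (by omega)]
  congr 1
  funext x
  have h2 : n - 1 + 1 = n := by omega
  rw [h2, Finset.Ico_self, Finset.prod_empty, hK1]
  ring

end Pool.Agent.Lib.P325L
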