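import Pool.Agent.Lib.P325L.Defs
import Pool.Agent.Lib.P325L.UnI
import Pool.Agent.Lib.P325L.LeafR
import Pool.Agent.Lib.P325L.PathR

/-!
Module InvR (1.5h; uses leaf_rem, path_rem, sub_bare, leaf_keep). Functionals do not change under
reduction to the largest irreducible subset.
PROOF by strong induction on |H|: if Irr n S H then H ⊆ H0 (hmax), so H = H0. Otherwise, either
some v ∉ S has deg H v = 1: leaf_rem gives e, and H0 ⊆ H.erase e by leaf_keep; or there is a bare path
q, e: path_rem, and H0 ⊆ H \ {e i} by sub_bare; e 0 ∈ H is removed as n >= 1, so the set gets smaller.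
The new set H' satisfies verts H' ⊆ verts H. Apply the induction hypothesis.
-/

open scoped BigOperators

namespace Pool.Agent.Lib.P325L

variable {V ι Y : Type} [Fintype V] [DecidableEq V] [DecidableEq ι] [Fintype Y]

theorem inv_red (G : Gr V ι) (κ : ι → Y → Y → ℝ) (ν : Y → ℝ) (hν : ∑ y, ν y = 1)
    (h1 : ∀ e x, ∑ y, ν y * κ e x y = 1) (h2 : ∀ e y, ∑ x, ν x * κ e x y = 1)
    (n : ℕ) (hn : 1 ≤ n) (hP : PathOK G κ ν n) (S : Finset V) (R : ℕ) (H0 : Finset ι)
    (hi : G.Irr n S H0) (hmax : ∀ H : Finset ι, G.Irr n S H → (G.verts H).card ≤ R → H ⊆ H0)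
    (H : Finset ι) (hH : H0 ⊆ H) (hR : (G.verts H).card ≤ R)
    (F : (V → Y) → ℝ) (hF : DependsOn F (S : Set V)) :
    Ex ν (fun x => PK G κ H x * F x) = Ex ν (fun x => PK G κ H0 x * F x) := by
  classical
  induction hc : H.card using Nat.strong_induction_on generalizing H with
  | _ N ih =>
    by_cases hirr : G.Irr n S H
    · have : H = H0 := Finset.Subset.antisymm (hmax H hirr hR) hH
      rw [this]
    · have key : ∃ H' ⊆ H, H' ≠ H ∧ H0 ⊆ H' ∧
          Ex ν (fun x => PK G κ H x * F x) = Ex ν (fun x => PK G κ H' x * F x) := by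
        unfold Gr.Irr at hirr
        by_cases hleaf : ∀ v, v ∉ S → G.deg H v ≠ 1
        · have hb : ∃ q e, G.Bare n S H q e := by
            by_contra hcon
            exact hirr ⟨hleaf, fun q e hqe => hcon ⟨q, e, hqe⟩⟩
          obtain ⟨q, e, hb⟩ := hb
          refine ⟨H \ (Finset.range n).image e, Finset.sdiff_subset, ?_, ?_,
            path_rem G κ ν hν n hn hP S H q e hb F hF⟩
          · intro heq
            have h0 : e 0 ∈ H := hb.mem 0 (by omega)
            have h0' : e 0 ∈ H \ (Finset.range n).image e := by rw [heq]; exact h0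
            rw [Finset.mem_sdiff] at h0'
            exact h0'.2 (Finset.mem_image_of_mem e (Finset.mem_range.2 (by omega)))
          · intro a ha
            rw [Finset.mem_sdiff]
            refine ⟨hH ha, ?_⟩
            intro hcon
            obtain ⟨i, hi', rfl⟩ := Finset.mem_image.1 hcon
            exact sub_bare G n S H H0 hH hi q e hb i (Finset.mem_range.1 hi') ha
        · push Not at hleaf
          obtain ⟨v, hv, hd⟩ := hleaf
          obtain ⟨e, he, hev, heq⟩ := leaf_rem G κ ν hν h1 h2 S H v hv hd
          refine ⟨H.erase e, Finset.erase_subset _ _, ?_, ?_, heq F hF⟩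
          · intro h
            have he' : e ∈ H.erase e := by rw [h]; exact he
            exact (Finset.notMem_erase e H) he'
          · intro a ha
            rw [Finset.mem_erase]
            refine ⟨?_, hH ha⟩
            rintro rfl
            exact leaf_keep G n S H H0 hH hi v hv hd a he hev ha
      obtain ⟨H', hsub, hne, hH0, heq⟩ := key
      rw [heq]
      refine ih H'.card ?_ H' hH0 ?_ rfl
      · rw [← hc]
        exact Finset.card_lt_card (Finset.ssubset_iff_subset_ne.2 ⟨hsub, hne⟩)
      · refine le_trans (Finset.card_le_card ?_) hR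
        unfold Gr.verts
        exact Finset.union_subset_union (Finset.image_subset_image hsub)
          (Finset.image_subset_image hsub)

end Pool.Agent.Lib.P325L
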