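import Pool.Agent.Lib.P325L.Defs

/-!
Module Nilp (2.5h). The base parameters are nilpotent: (baseP m θ c).pw (m+2) = zero.
PROOF. Index set Option (Fin (m+1)); none is the label part. For parameters P let Mt(P) be the
square matrix with entries Mt none none = phi, Mt none (some j) = rho j, Mt (some i) none = lam i,
Mt (some i) (some j) = c i j, and let Gm be the matrix with Gm none none = 1, Gm (some i) (some j) =
gg m i j, 0 otherwise. Then Mt (P.comp Q) = Mt P * Gm * Mt Q (check entry by entry; note
sum_j gg m i j x_j = - x_(m-i)), and for the d-parts d(P.comp Q) = d(P) * gg * d(Q). So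
Mt (P.pw n) = Mt P * (Gm * Mt P)^n and d (P.pw n) = d(P) * (gg * d(P))^n.
(1) d part: for P = baseP, d = -θ^2 * [i+j = m+1], gg * d: (gg*d) i l = θ^2 [ (m-i) + l = m+1 ] =
θ^2 [l = i+1], a strictly upper triangular matrix of size m+1, so its (m+1)-th power vanishes.
(2) main part. P = baseP: Mt P = θ * Qm, where Qm none none = 1, Qm none (some j) = [j=0],
Qm (some i) none = [i=0], Qm (some i) (some j) = [i+j<=m] c(m-i-j) - [i+j=m+1]. Let
Tm = Qm * Gm (square matrix); entries: Tm none none = 1; Tm none (some j) = -[j = m];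
Tm (some i) none = [i=0]; Tm (some i) (some j) = - Qm (some i) (some (m-j)) =
[i = j+1] - [i <= j] c(j-i)   (i + (m-j) <= m iff i <= j, then m-i-(m-j) = j-i; i+(m-j) = m+1 iff
i = j+1).
Claim Tm^(m+2) = 0 (then Mt P (Gm Mt P)^(m+2) = (Mt P Gm)^(m+2) Mt P = θ^(m+3) Tm^(m+2) Qm = 0).
For a vector a : Option (Fin (m+1)) → ℝ put Ψ a = C (a none) - (1 - X) * sum_j C (a (some j)) p j,
a polynomial of degree <= m + 1. Then Ψ (Tm a) = X Ψ a - C (a (some m)) * X^(m+2): by linearity
check it on basis vectors: a = e_none: Tm a = e_none + e_(some 0), Ψ = 1 - (1-X) = X. a = e_(some j),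
j < m: Tm a = e_(some (j+1)) - sum_{i<=j} c(j-i) e_(some i), Ψ = -(1-X)(p (j+1) - sum c(j-i) p i) =
-(1-X) X p j by GoodCoef.succ. a = e_(some m): Tm a = - e_none - sum_{i<=m} c(m-i) e_(some i), Ψ =
-1 + (1-X)(sum_i c(m-i) p i) = -1 + (1-X)(p (m+1) - X p m) and (1-X) p (m+1) = 1 - X^(m+2) by
GoodCoef.last, so Ψ = -X^(m+2) - (1-X) X p m. Hence X^(m+2) ∣ Ψ (Tm a) - X Ψ a and by induction
X^(m+2) ∣ Ψ (Tm^n a) - X^n Ψ a; for n = m+2 we get X^(m+2) ∣ Ψ (Tm^(m+2) a), a polynomial of degree
<= m+1, so it is 0. Ψ is injective: Ψ b = 0, evaluate at 1: b none = 0, then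
sum_j b (some j) p j = 0 and the p j are monic of distinct degrees j, so b = 0.
-/

open scoped BigOperators

namespace Pool.Agent.Lib.P325L

namespace NilpAux

/-- main matrix of kernel parameters -/
noncomputable def Mt {m : ℕ} (P : KerPar m) :
    Matrix (Option (Fin (m + 1))) (Option (Fin (m + 1))) ℝ :=
  fun a b => match a, b with
  | none, none => P.phi
  | none, some j => P.rho j
  | some i, none => P.lam i
  | some i, some j => P.c i j

/-- matrix of the form -/
noncomputable def Gm (m : ℕ) : Matrix (Option (Fin (m + 1))) (Option (Fin (m + 1))) ℝ :=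
  fun a b => match a, b with
  | none, none => 1
  | none, some _ => 0
  | some _, none => 0
  | some i, some j => gg m i j

/-- the part `d` as a matrix -/
def Md {m : ℕ} (P : KerPar m) : Matrix (Fin (m + 1)) (Fin (m + 1)) ℝ := fun i j => P.d i j

/-- the form as a matrix -/
noncomputable def Gd (m : ℕ) : Matrix (Fin (m + 1)) (Fin (m + 1)) ℝ := fun i j => gg m i j

theorem Mt_comp {m : ℕ} (P Q : KerPar m) : Mt (P.comp Q) = Mt P * Gm m * Mt Q := by
  rw [Matrix.mul_assoc]
  ext a b
  cases a with
  | none =>
    cases b with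
    | none =>
      simp only [Mt, Gm, KerPar.comp, Matrix.mul_apply, Fintype.sum_option, Finset.mul_sum,
        one_mul, zero_mul, Finset.sum_const_zero, add_zero, zero_add, mul_assoc]
    | some j =>
      simp only [Mt, Gm, KerPar.comp, Matrix.mul_apply, Fintype.sum_option, Finset.mul_sum,
        one_mul, zero_mul, Finset.sum_const_zero, add_zero, zero_add, mul_assoc]
  | some i =>
    cases b with
    | none =>
      simp only [Mt, Gm, KerPar.comp, Matrix.mul_apply, Fintype.sum_option, Finset.mul_sum,
        one_mul, zero_mul, Finset.sum_const_zero, add_zero, zero_add, mul_assoc]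
      rw [mul_comm Q.phi]
    | some j =>
      simp only [Mt, Gm, KerPar.comp, Matrix.mul_apply, Fintype.sum_option, Finset.mul_sum,
        one_mul, zero_mul, Finset.sum_const_zero, add_zero, zero_add, mul_assoc]

theorem Md_comp {m : ℕ} (P Q : KerPar m) : Md (P.comp Q) = Md P * Gd m * Md Q := by
  rw [Matrix.mul_assoc]
  ext a b
  simp only [Md, Gd, KerPar.comp, Matrix.mul_apply, Finset.mul_sum, mul_assoc]

theorem Mt_pw {m : ℕ} (P : KerPar m) (n : ℕ) : Mt (P.pw n) = (Mt P * Gm m) ^ n * Mt P := by
  induction n with
  | zero => rw [pow_zero, one_mul]; rfl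
  | succ n ih =>
    change Mt ((P.pw n).comp P) = _
    rw [Mt_comp, ih, pow_succ]
    simp only [Matrix.mul_assoc]

theorem Md_pw {m : ℕ} (P : KerPar m) (n : ℕ) : Md (P.pw n) = (Md P * Gd m) ^ n * Md P := by
  induction n with
  | zero => rw [pow_zero, one_mul]; rfl
  | succ n ih =>
    change Md ((P.pw n).comp P) = _
    rw [Md_comp, ih, pow_succ]
    simp only [Matrix.mul_assoc]

/-- sums against the form -/
theorem sum_gg {m : ℕ} (f : Fin (m + 1) → ℝ) (l : Fin (m + 1)) :
    ∑ j, f j * gg m j l = - f (Fin.rev l) := by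
  rw [Finset.sum_eq_single (Fin.rev l)]
  · have : (Fin.rev l).val + l.val = m := by
      rw [Fin.val_rev]; have := l.2; omega
    simp only [gg, this, if_true]; ring
  · intro j _ hj
    have : ¬ (j.val + l.val = m) := by
      intro h
      apply hj
      apply Fin.ext
      rw [Fin.val_rev]; omega
    simp only [gg, this, if_false, mul_zero]
  · intro h; exact absurd (Finset.mem_univ _) h

theorem d_pow_zero {m : ℕ} (θ : ℝ) (c : ℕ → ℝ) (n : ℕ) (i l : Fin (m + 1))
    (h : ((Md (baseP m θ c) * Gd m) ^ n) i l ≠ 0) : i.val = l.val + n := by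
  induction n generalizing i with
  | zero =>
    rw [pow_zero, Matrix.one_apply] at h
    have : i = l := by
      by_contra hne
      exact h (if_neg hne)
    rw [this, add_zero]
  | succ n ih =>
    rw [pow_succ', Matrix.mul_apply] at h
    obtain ⟨j, -, hj⟩ := Finset.exists_ne_zero_of_sum_ne_zero h
    have h1 := ih j (right_ne_zero_of_mul hj)
    have h2 := left_ne_zero_of_mul hj
    rw [Matrix.mul_apply] at h2
    have h3 : ∑ x, Md (baseP m θ c) i x * gg m x j = - Md (baseP m θ c) i (Fin.rev j) :=
      sum_gg _ _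
    have h4 : Md (baseP m θ c) i (Fin.rev j) ≠ 0 := by
      intro h0
      apply h2
      change ∑ x, Md (baseP m θ c) i x * gg m x j = 0
      rw [h3, h0, neg_zero]
    have h5 : i.val + (Fin.rev j).val = m + 1 := by
      by_contra hne
      apply h4
      simp only [Md, baseP, hne, if_false, mul_zero]
    rw [Fin.val_rev] at h5
    have := j.2
    omega

theorem d_zero {m : ℕ} (θ : ℝ) (c : ℕ → ℝ) : Md ((baseP m θ c).pw (m + 2)) = 0 := by
  rw [Md_pw]
  have h0 : (Md (baseP m θ c) * Gd m) ^ (m + 2) = 0 := by
    ext i l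
    by_contra h
    have := d_pow_zero θ c (m + 2) i l h
    have := i.2
    omega
  rw [h0, Matrix.zero_mul]

/-- the transfer matrix -/
noncomputable def Tm (m : ℕ) (c : ℕ → ℝ) :
    Matrix (Option (Fin (m + 1))) (Option (Fin (m + 1))) ℝ :=
  fun a b => match a, b with
  | none, none => 1
  | none, some j => if j.val = m then -1 else 0
  | some i, none => if i.val = 0 then 1 else 0
  | some i, some j => (if i.val = j.val + 1 then 1 else 0) -
      (if i.val ≤ j.val then c (j.val - i.val) else 0)

theorem Mt_base {m : ℕ} (θ : ℝ) (c : ℕ → ℝ) : Mt (baseP m θ c) * Gm m = θ • Tm m c := by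
  ext a b
  rw [Matrix.smul_apply, Matrix.mul_apply, Fintype.sum_option, smul_eq_mul]
  cases a with
  | none =>
    cases b with
    | none => simp [Mt, Gm, Tm, baseP]
    | some j =>
      change Mt (baseP m θ c) none none * 0 +
        ∑ x, (baseP m θ c).rho x * gg m x j = θ * (if j.val = m then -1 else 0)
      rw [sum_gg, mul_zero, zero_add]
      simp only [baseP, Fin.val_rev]
      have := j.2
      by_cases h : j.val = m
      · simp [h]
      · have h' : ¬ (m + 1 - (j.val + 1) = 0) := by omega
        rw [if_neg h', if_neg h, neg_zero, mul_zero]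
  | some i =>
    cases b with
    | none => simp [Mt, Gm, Tm, baseP]
    | some j =>
      change Mt (baseP m θ c) (some i) none * 0 +
        ∑ x, (baseP m θ c).c i x * gg m x j = θ * ((if i.val = j.val + 1 then 1 else 0) -
          (if i.val ≤ j.val then c (j.val - i.val) else 0))
      rw [sum_gg, mul_zero, zero_add]
      simp only [baseP, Fin.val_rev]
      have hj := j.2
      have hi := i.2
      have e1 : (i.val + (m + 1 - (j.val + 1)) ≤ m) ↔ i.val ≤ j.val := by omega
      have e2 : (i.val + (m + 1 - (j.val + 1)) = m + 1) ↔ i.val = j.val + 1 := by omega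
      simp only [e1, e2]
      by_cases h : i.val ≤ j.val
      · have e3 : m - (i.val + (m + 1 - (j.val + 1))) = j.val - i.val := by omega
        simp only [h, if_true, e3]
        ring
      · simp only [h, if_false]
        ring

open Polynomial in
/-- the polynomial attached to a vector -/
noncomputable def Psi (m : ℕ) (p : ℕ → Polynomial ℝ) (a : Option (Fin (m + 1)) → ℝ) :
    Polynomial ℝ :=
  C (a none) - (1 - X) * ∑ j : Fin (m + 1), C (a (some j)) * p j.val

open Polynomial in
theorem geom (m : ℕ) (c : ℕ → ℝ) (p : ℕ → Polynomial ℝ) (h : GoodCoef m c p) :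
    (1 - X) * p (m + 1) = 1 - X ^ (m + 2) := by
  rw [h.last]
  have := mul_neg_geom_sum (X : Polynomial ℝ) (m + 2)
  exact this

open Polynomial in
theorem inner_eq (m : ℕ) (c : ℕ → ℝ) (p : ℕ → Polynomial ℝ) (h : GoodCoef m c p)
    (j : Fin (m + 1)) :
    ∑ i : Fin (m + 1), C (Tm m c (some i) (some j)) * p i.val =
      X * p j.val - (if j.val = m then p (m + 1) else 0) := by
  have hj := j.2
  have e1 : ∑ i : Fin (m + 1), C (Tm m c (some i) (some j)) * p i.val =
      ∑ i ∈ Finset.range (m + 1), ((if i = j.val + 1 then p i else 0) -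
        (if i ≤ j.val then C (c (j.val - i)) * p i else 0)) := by
    rw [← Fin.sum_univ_eq_sum_range (fun i => ((if i = j.val + 1 then p i else 0) -
        (if i ≤ j.val then C (c (j.val - i)) * p i else 0))) (m + 1)]
    refine Finset.sum_congr rfl fun i _ => ?_
    change C ((if i.val = j.val + 1 then 1 else 0) -
      (if i.val ≤ j.val then c (j.val - i.val) else 0)) * p i.val = _
    by_cases h1 : i.val = j.val + 1
    · have h2 : ¬ (i.val ≤ j.val) := by omega
      simp only [h1, if_true]
      have h3 : ¬ (j.val + 1 ≤ j.val) := by omega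
      simp only [h3, if_false, sub_zero, map_one, one_mul]
    · by_cases h2 : i.val ≤ j.val
      · simp only [h1, h2, if_false, if_true, zero_sub, map_neg, neg_mul]
      · simp only [h1, h2, if_false, sub_zero, map_zero, zero_mul]
  rw [e1, Finset.sum_sub_distrib]
  have e2 : ∑ i ∈ Finset.range (m + 1), (if i ≤ j.val then C (c (j.val - i)) * p i else 0) =
      ∑ i ∈ Finset.range (j.val + 1), C (c (j.val - i)) * p i := by
    rw [← Finset.sum_filter]
    refine Finset.sum_congr ?_ fun _ _ => rfl
    ext i
    simp only [Finset.mem_filter, Finset.mem_range]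
    omega
  have e3 := h.succ j.val (by omega)
  rw [e2]
  by_cases hm : j.val = m
  · have e4 : ∑ i ∈ Finset.range (m + 1), (if i = j.val + 1 then p i else 0) = 0 := by
      refine Finset.sum_eq_zero fun i hi => ?_
      rw [Finset.mem_range] at hi
      have : ¬ (i = j.val + 1) := by omega
      simp only [this, if_false]
    rw [e4, if_pos hm]
    rw [hm] at e3 ⊢
    rw [e3]
    ring
  · have e4 : ∑ i ∈ Finset.range (m + 1), (if i = j.val + 1 then p i else 0) = p (j.val + 1) := by
      rw [Finset.sum_ite_eq' (Finset.range (m + 1)) (j.val + 1)]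
      have : j.val + 1 ∈ Finset.range (m + 1) := by
        rw [Finset.mem_range]; omega
      rw [if_pos this]
    rw [e4, if_neg hm, e3]
    ring

open Polynomial in
theorem Psi_T (m : ℕ) (c : ℕ → ℝ) (p : ℕ → Polynomial ℝ) (h : GoodCoef m c p)
    (a : Option (Fin (m + 1)) → ℝ) :
    Psi m p ((Tm m c).mulVec a) =
      X * Psi m p a - C (a (some (Fin.last m))) * X ^ (m + 2) := by
  have e0 : (Tm m c).mulVec a none = a none - a (some (Fin.last m)) := by
    simp only [Matrix.mulVec, dotProduct, Fintype.sum_option]
    change 1 * a none + ∑ j : Fin (m + 1), (if j.val = m then -1 else 0) * a (some j) = _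
    rw [Finset.sum_eq_single (Fin.last m)]
    · rw [if_pos (Fin.val_last m)]; ring
    · intro j _ hj
      have : ¬ (j.val = m) := fun hh => hj (Fin.ext (by rw [hh, Fin.val_last]))
      rw [if_neg this, zero_mul]
    · intro hh; exact absurd (Finset.mem_univ _) hh
  have e1 : ∑ i : Fin (m + 1), C ((Tm m c).mulVec a (some i)) * p i.val =
      C (a none) + X * ∑ j : Fin (m + 1), C (a (some j)) * p j.val -
        C (a (some (Fin.last m))) * p (m + 1) := by
    have e2 : ∀ i : Fin (m + 1), C ((Tm m c).mulVec a (some i)) * p i.val =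
        C (Tm m c (some i) none) * p i.val * C (a none) +
          ∑ j : Fin (m + 1), C (a (some j)) * (C (Tm m c (some i) (some j)) * p i.val) := by
      intro i
      simp only [Matrix.mulVec, dotProduct, Fintype.sum_option, map_add, map_sum, map_mul,
        add_mul, Finset.sum_mul]
      congr 1
      · ring
      · refine Finset.sum_congr rfl fun j _ => ?_
        ring
    rw [Finset.sum_congr rfl fun i _ => e2 i, Finset.sum_add_distrib, Finset.sum_comm]
    have e3 : ∑ i : Fin (m + 1), C (Tm m c (some i) none) * p i.val * C (a none) =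
        C (a none) := by
      rw [Finset.sum_eq_single (0 : Fin (m + 1))]
      · change C (if (0 : Fin (m + 1)).val = 0 then 1 else 0) * p (0 : Fin (m + 1)).val *
          C (a none) = _
        rw [Fin.val_zero, if_pos rfl, map_one, h.zero]
        ring
      · intro j _ hj
        have : ¬ (j.val = 0) := fun hh => hj (Fin.ext (by rw [hh, Fin.val_zero]))
        change C (if j.val = 0 then 1 else 0) * p j.val * C (a none) = 0
        rw [if_neg this, map_zero, zero_mul, zero_mul]
      · intro hh; exact absurd (Finset.mem_univ _) hh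
    have e4 : ∑ j : Fin (m + 1), ∑ i : Fin (m + 1),
        C (a (some j)) * (C (Tm m c (some i) (some j)) * p i.val) =
        X * ∑ j : Fin (m + 1), C (a (some j)) * p j.val -
          C (a (some (Fin.last m))) * p (m + 1) := by
      have e5 : ∀ j : Fin (m + 1), ∑ i : Fin (m + 1),
          C (a (some j)) * (C (Tm m c (some i) (some j)) * p i.val) =
          X * (C (a (some j)) * p j.val) -
            C (a (some j)) * (if j.val = m then p (m + 1) else 0) := by
        intro j
        rw [← Finset.mul_sum, inner_eq m c p h j]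
        ring
      rw [Finset.sum_congr rfl fun j _ => e5 j, Finset.sum_sub_distrib, ← Finset.mul_sum]
      congr 1
      rw [Finset.sum_eq_single (Fin.last m)]
      · rw [if_pos (Fin.val_last m)]
      · intro j _ hj
        have : ¬ (j.val = m) := fun hh => hj (Fin.ext (by rw [hh, Fin.val_last]))
        rw [if_neg this, mul_zero]
      · intro hh; exact absurd (Finset.mem_univ _) hh
    rw [e3, e4]
    ring
  rw [Psi, e0, e1, Psi, map_sub]
  have hg := geom m c p h
  linear_combination (C (a (some (Fin.last m)))) * hg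

open Polynomial in
theorem Psi_pow (m : ℕ) (c : ℕ → ℝ) (p : ℕ → Polynomial ℝ) (h : GoodCoef m c p) (n : ℕ)
    (a : Option (Fin (m + 1)) → ℝ) :
    (X : Polynomial ℝ) ^ (m + 2) ∣ Psi m p (((Tm m c) ^ n).mulVec a) - X ^ n * Psi m p a := by
  induction n with
  | zero => simp
  | succ n ih =>
    have e : ((Tm m c) ^ (n + 1)).mulVec a = (Tm m c).mulVec (((Tm m c) ^ n).mulVec a) := by
      rw [pow_succ', ← Matrix.mulVec_mulVec]
    rw [e, Psi_T m c p h]
    obtain ⟨q, hq⟩ := ih
    refine ⟨X * q - C (((Tm m c) ^ n).mulVec a (some (Fin.last m))), ?_⟩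
    rw [pow_succ]
    linear_combination X * hq

open Polynomial in
theorem Psi_deg (m : ℕ) (c : ℕ → ℝ) (p : ℕ → Polynomial ℝ) (h : GoodCoef m c p)
    (a : Option (Fin (m + 1)) → ℝ) : (Psi m p a).natDegree ≤ m + 1 := by
  rw [Psi]
  refine (natDegree_sub_le _ _).trans (max_le ?_ ?_)
  · rw [natDegree_C]; exact Nat.zero_le _
  · refine natDegree_mul_le.trans ?_
    have h1 : (1 - X : Polynomial ℝ).natDegree ≤ 1 := by
      refine (natDegree_sub_le _ _).trans (max_le ?_ ?_)
      · rw [natDegree_one]; exact Nat.zero_le _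
      · exact natDegree_X_le
    have h2 : (∑ j : Fin (m + 1), C (a (some j)) * p j.val).natDegree ≤ m := by
      refine natDegree_sum_le_of_forall_le _ _ fun j _ => ?_
      refine (natDegree_C_mul_le _ _).trans ?_
      have := j.2
      rw [h.deg j.val (by omega)]
      omega
    omega

open Polynomial in
theorem Psi_inj (m : ℕ) (c : ℕ → ℝ) (p : ℕ → Polynomial ℝ) (h : GoodCoef m c p)
    (b : Option (Fin (m + 1)) → ℝ) (hb : Psi m p b = 0) : b = 0 := by
  have h0 : b none = 0 := by
    have := congrArg (eval (1 : ℝ)) hb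
    simpa [Psi] using this
  have h1 : ∑ j : Fin (m + 1), C (b (some j)) * p j.val = 0 := by
    rw [Psi, h0, map_zero, zero_sub, neg_eq_zero] at hb
    rcases mul_eq_zero.1 hb with h2 | h2
    · exfalso
      have := congrArg (eval (0 : ℝ)) h2
      simp at this
    · exact h2
  have key : ∀ k : ℕ, ∀ j : Fin (m + 1), m ≤ j.val + k → b (some j) = 0 := by
    intro k
    induction k with
    | zero =>
      intro j hj
      have := j.2
      have hc := congrArg (fun q => coeff q j.val) h1
      simp only [finsetSum_coeff, coeff_C_mul, coeff_zero] at hc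
      rw [Finset.sum_eq_single j] at hc
      · have hm := h.monic j.val (by omega)
        have hd := h.deg j.val (by omega)
        have : (p j.val).coeff j.val = 1 := by
          have := hm.coeff_natDegree
          rwa [hd] at this
        rw [this, mul_one] at hc
        exact hc
      · intro i _ hi
        have hi2 := i.2
        have hne : i.val ≠ j.val := fun hh => hi (Fin.ext hh)
        rw [coeff_eq_zero_of_natDegree_lt, mul_zero]
        rw [h.deg i.val (by omega)]
        omega
      · intro hh; exact absurd (Finset.mem_univ _) hh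
    | succ k ih =>
      intro j hj
      have := j.2
      have hc := congrArg (fun q => coeff q j.val) h1
      simp only [finsetSum_coeff, coeff_C_mul, coeff_zero] at hc
      rw [Finset.sum_eq_single j] at hc
      · have hm := h.monic j.val (by omega)
        have hd := h.deg j.val (by omega)
        have : (p j.val).coeff j.val = 1 := by
          have := hm.coeff_natDegree
          rwa [hd] at this
        rw [this, mul_one] at hc
        exact hc
      · intro i _ hi
        have hi2 := i.2
        have hne : i.val ≠ j.val := fun hh => hi (Fin.ext hh)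
        rcases Nat.lt_or_gt_of_ne hne with hlt | hgt
        · rw [coeff_eq_zero_of_natDegree_lt, mul_zero]
          rw [h.deg i.val (by omega)]
          omega
        · rw [ih i (by omega), zero_mul]
      · intro hh; exact absurd (Finset.mem_univ _) hh
  funext x
  cases x with
  | none => exact h0
  | some j => exact key m j (by omega)

theorem T_pow_zero (m : ℕ) (c : ℕ → ℝ) (p : ℕ → Polynomial ℝ) (h : GoodCoef m c p) :
    (Tm m c) ^ (m + 2) = 0 := by
  have hv : ∀ a : Option (Fin (m + 1)) → ℝ, ((Tm m c) ^ (m + 2)).mulVec a = 0 := by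
    intro a
    apply Psi_inj m c p h
    have h1 := Psi_pow m c p h (m + 2) a
    have h2 : (Polynomial.X : Polynomial ℝ) ^ (m + 2) ∣
        Psi m p (((Tm m c) ^ (m + 2)).mulVec a) :=
      (dvd_sub_left (Dvd.intro _ rfl)).1 h1
    by_contra hne
    have h3 := Polynomial.natDegree_le_of_dvd h2 hne
    rw [Polynomial.natDegree_X_pow] at h3
    have h4 := Psi_deg m c p h (((Tm m c) ^ (m + 2)).mulVec a)
    omega
  apply Matrix.ext_of_mulVec_single
  intro i
  rw [hv, Matrix.zero_mulVec]

theorem main_zero {m : ℕ} (θ : ℝ) (c : ℕ → ℝ) (p : ℕ → Polynomial ℝ) (h : GoodCoef m c p) :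
    Mt ((baseP m θ c).pw (m + 2)) = 0 := by
  rw [Mt_pw, Mt_base, smul_pow, T_pow_zero m c p h, smul_zero, Matrix.zero_mul]

end NilpAux

open NilpAux in
theorem nilp (m : ℕ) (θ : ℝ) (c : ℕ → ℝ) (p : ℕ → Polynomial ℝ) (h : GoodCoef m c p) :
    (baseP m θ c).pw (m + 2) = KerPar.zero m := by
  have h1 := main_zero θ c p h
  have h2 : Md ((baseP m θ c).pw (m + 2)) = 0 := d_zero θ c
  refine KerPar.ext ?_ ?_ ?_ ?_ ?_
  · exact congrFun (congrFun h1 none) none
  · funext i
    exact congrFun (congrFun h1 (some i)) none
  · funext i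
    exact congrFun (congrFun h1 none) (some i)
  · funext i j
    exact congrFun (congrFun h1 (some i)) (some j)
  · funext i j
    exact congrFun (congrFun h2 i) j

end Pool.Agent.Lib.P325L
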