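import Pool.Agent.Lib.P325L.Defs
import Pool.Agent.Lib.P325L.Comp
import Pool.Agent.Lib.P325L.KerMarg
import Pool.Agent.Lib.P325L.Nilp

/-!
Module PathK (1h; uses ker_comp, ker_tr, base_tr, ker_zero, nilp). Paths with m+3 edges integrate to 1.
PROOF. Given q, e with the join conditions put β i = sh (e i) if src (e i) = q i, else - sh (e i).
For i < m+3: kdir G κ (e i) (q i) = ker D P0 (β i) with P0 = baseP m θ c (in the reversed case
ker D P0 (sh e) y x = ker D P0.tr (- sh e) x y = ker D P0 (- sh e) x y by ker_tr and base_tr).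
K j = ker D (P0.pw j) (∑_{i <= j} β i). The recursion is ker_comp (definition of pw), and
K (m+2) = ker D zero _ = 1 by nilp and ker_zero.
-/

open scoped BigOperators

namespace Pool.Agent.Lib.P325L

variable {Γ : Type} [Fintype Γ] [AddCommGroup Γ] [DecidableEq Γ] {X V ι : Type} [Fintype X]
  [Fintype V] [DecidableEq V] {m : ℕ}

theorem path_ok (D : TagSpace m Γ X) (N : ℕ) (hN : 1 ≤ N) (hD : D.Good N) (G : Gr V ι)
    (sh : ι → Γ) (θ : ℝ) (c : ℕ → ℝ) (p : ℕ → Polynomial ℝ) (h : GoodCoef m c p) :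
    PathOK (Y := Γ × X) G (fun e => ker D (baseP m θ c) (sh e))
      (fun y => 1 / (Fintype.card Γ : ℝ) * D.μ y.2) (m + 3) := by
  intro q e _
  let β : ℕ → Γ := fun i => if G.src (e i) = q i then sh (e i) else - sh (e i)
  have hk : ∀ i x y, kdir G (fun e => ker D (baseP m θ c) (sh e)) (e i) (q i) x y =
      ker D (baseP m θ c) (β i) x y := by
    intro i x y
    simp only [kdir, β]
    by_cases hi : G.src (e i) = q i
    · rw [if_pos hi, if_pos hi]
    · rw [if_neg hi, if_neg hi, ker_tr, base_tr]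
  refine ⟨fun j => ker D ((baseP m θ c).pw j) (∑ i ∈ Finset.range (j + 1), β i), ?_, ?_, ?_⟩
  · intro x y
    rw [hk]
    simp [KerPar.pw]
  · intro j _ x z
    have h1 := ker_comp D N hN hD ((baseP m θ c).pw j) (baseP m θ c)
      (∑ i ∈ Finset.range (j + 1), β i) (β (j + 1)) x z
    rw [← Finset.sum_range_succ] at h1
    simp only [hk]
    exact h1
  · intro x z
    change ker D ((baseP m θ c).pw (m + 2)) _ x z = 1
    rw [nilp m θ c p h, ker_zero]

end Pool.Agent.Lib.P325L
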