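import Pool.Agent.Lib.P325L.Defs

/-!
Module KerE (1h). The edge kernel for fixed labels is aE * (1 + eps).
PROOF. Unfold; with P = baseP m θ c: P.c i j + P.d i j sg = θ [i+j<=m] c(m-i-j) - θ (1 + θ sg) [i+j=m+1]
and aE = 1 + θ sg ≠ 0, so it equals aE * mE e i j. The lam and rho sums reduce to the index 0
(θ T 0 ..), and θ = aE * (θ/aE).
-/

open scoped BigOperators

namespace Pool.Agent.Lib.P325L

variable {Γ : Type} [Fintype Γ] [AddCommGroup Γ] [DecidableEq Γ] {V ι X : Type} [DecidableEq V]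
  [DecidableEq ι] [DecidableEq X] [Fintype V] [Fintype X] {m : ℕ}

set_option linter.unusedSectionVars false in
theorem ker_eps (D : TagSpace m Γ X) (G : Gr V ι) (sh : ι → Γ) (θ : ℝ) (c : ℕ → ℝ) (x : V → Γ)
    (e : ι) (h : aE G sh θ x e ≠ 0) (τ : V → X) :
    ker D (baseP m θ c) (sh e) (x (G.src e), τ (G.src e)) (x (G.tgt e), τ (G.tgt e)) =
      aE G sh θ x e * (1 + eps D G sh θ c x e τ) := by
  have h0 : ∀ f : Fin (m + 1) → ℝ,
      ∑ i : Fin (m + 1), (if i.val = 0 then θ else 0) * f i = θ * f 0 := by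
    intro f
    rw [Finset.sum_eq_single (0 : Fin (m + 1))]
    · simp
    · intro i _ hi
      have : i.val ≠ 0 := fun h => hi (Fin.ext h)
      simp [this]
    · simp
  have h1 : ∀ i j : Fin (m + 1), (baseP m θ c).c i j + (baseP m θ c).d i j *
      sg (x (G.tgt e) - x (G.src e) - sh e) = aE G sh θ x e * mE G sh θ c m x e i j := by
    intro i j
    have h2 : aE G sh θ x e * (θ / aE G sh θ x e) = θ := mul_div_cancel₀ θ h
    unfold mE
    rw [mul_sub, ← mul_assoc, h2]
    unfold baseP aE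
    dsimp only
    by_cases h3 : i.val + j.val = m + 1
    · simp only [h3, if_true]
      ring
    · simp only [h3, if_false]
      ring
  unfold ker
  dsimp only
  have hl : (baseP m θ c).lam = fun i => if i.val = 0 then θ else 0 := rfl
  have hr : (baseP m θ c).rho = fun i => if i.val = 0 then θ else 0 := rfl
  have hp : (baseP m θ c).phi = θ := rfl
  rw [hl, hr, hp]
  dsimp only
  rw [h0 (fun i => D.T i (x (G.tgt e) - sh e) (τ (G.src e))),
    h0 (fun i => D.T i (x (G.src e) + sh e) (τ (G.tgt e)))]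
  simp only [h1]
  unfold eps
  rw [mul_add, mul_one, mul_add, ← mul_assoc]
  have h2 : aE G sh θ x e * (θ / aE G sh θ x e) = θ := mul_div_cancel₀ θ h
  rw [h2]
  have h4 : aE G sh θ x e * (1 / (Fintype.card Γ : ℝ) * ∑ i, ∑ j, mE G sh θ c m x e i j *
      ∑ a, D.T i a (τ (G.src e)) * D.T j (a + sh e) (τ (G.tgt e))) =
      1 / (Fintype.card Γ : ℝ) * ∑ i, ∑ j, aE G sh θ x e * mE G sh θ c m x e i j *
      ∑ a, D.T i a (τ (G.src e)) * D.T j (a + sh e) (τ (G.tgt e)) := by
    rw [mul_left_comm, Finset.mul_sum]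
    congr 1
    apply Finset.sum_congr rfl
    intro i _
    rw [Finset.mul_sum]
    apply Finset.sum_congr rfl
    intro j _
    rw [mul_assoc]
  rw [h4]
  unfold aE
  ring

end Pool.Agent.Lib.P325L
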