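import Pool.Agent.Lib.P325L.Defs

/-!
Module TrailU (2.8h). Trails in graphs of large girth: uniqueness.
PROOF. Represent trails by lists of edges: IsTr H v w [] iff v = w; IsTr H v w (e :: l) iff e ∈ H,
Inc e v and IsTr (H.erase e) (oth e v) w l. nw w l H v counts the lists l of length l with IsTr
(prove: nw = card of a finset of lists, or only: nw >= 1 gives a trail and nw >= 2 gives two different
trails, by induction). The edges of a trail are pairwise distinct elements of H.
(P) Parity: if l is a trail from v to w with edge set P then for every z,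
deg P z ≡ [z = v] + [z = w] mod 2 (induction: adding e changes the degrees of its two ends v and
oth e v, which are different).
(E) If F is a nonempty edge set with |F| <= g then some vertex has odd degree in F: otherwise every
vertex of verts F has degree >= 2, 2 |F| = ∑_z deg F z >= 2 |verts F|, contradicting Girth.
So (C): there is no closed trail (v = w) of length between 1 and g.
(U) Two trails a, b from v to w with |a| + |b| <= g are equal. Induction on |a| + |b|. If a = []
then v = w and b = [] by (C); same for b = []. Let a = e :: a', b = e' :: b'. If e = e' use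
induction for a', b' (in H.erase e). If e ≠ e': by (P) the symmetric difference of the edge sets of a
and b has all degrees even (degrees add modulo 2) and at most g elements, so it is empty by (E): the
edge sets coincide, so e' occurs in a' : a = (e :: a1) ++ e' :: a2. Just before e', the trail a is
at an end z of e'. If z = v the prefix e :: a1 is a closed trail of positive length, if
z = oth e' v then (e :: a1) ++ [e'] is a closed trail; both contradict (C) (lengths <= |a| <= g).
So nw_le_one. nw_zero: a trail P from src e to tgt e in E' of length l; P is nonempty (src e ≠ tgt e),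
e ∉ P, and e :: P is a closed trail from tgt e of length l + 1 <= g (or: by (P) P ∪ {e} has all degrees
even), contradiction with (C)/(E).
-/

open scoped BigOperators

namespace Pool.Agent.Lib.P325L

variable {V ι : Type} [DecidableEq V] [DecidableEq ι] [Fintype V]

namespace TrailUAux

omit [Fintype V]

/-- indicator of a vertex, modulo two -/
def ind (a z : V) : ZMod 2 := if z = a then 1 else 0

/-- degree modulo two -/
def par (G : Gr V ι) (P : Finset ι) (z : V) : ZMod 2 :=
  ∑ e ∈ P, (ind (G.src e) z + ind (G.tgt e) z)

omit [DecidableEq ι] in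
theorem ind_oth (G : Gr V ι) {e : ι} {v : V} (h : G.Inc e v) (z : V) :
    ind (G.src e) z + ind (G.tgt e) z = ind v z + ind (G.oth e v) z := by
  unfold Gr.Inc at h
  unfold Gr.oth
  by_cases h1 : G.src e = v
  · rw [if_pos h1, h1]
  · rw [if_neg h1]
    rcases h with h | h
    · exact absurd h h1
    · rw [h, add_comm]

theorem two (x : ZMod 2) : x + x = 0 := CharTwo.add_self_eq_zero x

omit [DecidableEq V] [DecidableEq ι] in
/-- both ends determine the other end -/
theorem eq_oth [DecidableEq V] (G : Gr V ι) {e : ι} {v v' : V} (h : G.Inc e v) (h' : G.Inc e v')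
    (hne : v ≠ v') : G.oth e v' = v := by
  unfold Gr.Inc at h h'
  unfold Gr.oth
  by_cases h1 : G.src e = v'
  · rw [if_pos h1]
    rcases h with h | h
    · exact absurd (h.symm.trans h1) hne
    · exact h
  · rw [if_neg h1]
    rcases h with h | h
    · exact h
    · rcases h' with h' | h'
      · exact absurd h' h1
      · exact absurd (h.symm.trans h') hne

theorem par_insert (G : Gr V ι) {e : ι} {P : Finset ι} (he : e ∉ P) (z : V) :
    par G (insert e P) z = ind (G.src e) z + ind (G.tgt e) z + par G P z := by
  unfold par; rw [Finset.sum_insert he]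

theorem par_sd (G : Gr V ι) (A B : Finset ι) (z : V) :
    par G (symmDiff A B) z = par G A z + par G B z := by
  unfold par
  rw [symmDiff_def, Finset.sup_eq_union, Finset.sum_union disjoint_sdiff_sdiff]
  have h1 := Finset.sum_inter_add_sum_sdiff A B (fun e => ind (G.src e) z + ind (G.tgt e) z)
  have h2 := Finset.sum_inter_add_sum_sdiff B A (fun e => ind (G.src e) z + ind (G.tgt e) z)
  rw [← h1, ← h2, Finset.inter_comm B A]
  have h3 := two (∑ e ∈ A ∩ B, (ind (G.src e) z + ind (G.tgt e) z))
  linear_combination -h3

omit [DecidableEq ι] in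
/-- a nonempty small edge set has a vertex of odd degree -/
theorem odd_vertex (G : Gr V ι) (g : ℕ) (hG : G.Girth g) (F : Finset ι) (hF : F.Nonempty)
    (hc : F.card ≤ g) (h : ∀ z, par G F z = 0) : False := by
  have hlt := hG F hF hc
  let dg : V → ℕ := fun z => ∑ e ∈ F, ((if z = G.src e then 1 else 0) +
    (if z = G.tgt e then 1 else 0))
  have h1 : ∀ z ∈ G.verts F, 2 ≤ dg z := by
    intro z hz
    have hpos : 1 ≤ dg z := by
      unfold Gr.verts at hz
      rw [Finset.mem_union, Finset.mem_image, Finset.mem_image] at hz
      rcases hz with ⟨e, he, hez⟩ | ⟨e, he, hez⟩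
      · have h2 := Finset.single_le_sum (f := fun e => ((if z = G.src e then 1 else 0) +
          (if z = G.tgt e then 1 else 0) : ℕ)) (fun _ _ => Nat.zero_le _) he
        simp only [hez, if_true] at h2
        have : 1 ≤ 1 + (if z = G.tgt e then 1 else 0) := Nat.le_add_right _ _
        exact this.trans h2
      · have h2 := Finset.single_le_sum (f := fun e => ((if z = G.src e then 1 else 0) +
          (if z = G.tgt e then 1 else 0) : ℕ)) (fun _ _ => Nat.zero_le _) he
        simp only [hez, if_true] at h2
        have : 1 ≤ (if z = G.src e then 1 else 0) + 1 := Nat.le_add_left _ _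
        exact this.trans h2
    have hpar : ((dg z : ℕ) : ZMod 2) = 0 := by
      rw [← h z]
      simp only [dg, par, ind]
      push_cast
      rfl
    have heven : 2 ∣ dg z := (ZMod.natCast_eq_zero_iff _ _).mp hpar
    obtain ⟨k, hk⟩ := heven
    omega
  have h2 : ∑ z ∈ G.verts F, dg z = 2 * F.card := by
    simp only [dg]
    rw [Finset.sum_comm]
    rw [Finset.sum_congr rfl (g := fun _ => 2)]
    · rw [Finset.sum_const, smul_eq_mul, mul_comm]
    · intro e he
      have hs : G.src e ∈ G.verts F := by
        unfold Gr.verts
        exact Finset.mem_union_left _ (Finset.mem_image_of_mem _ he)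
      have ht : G.tgt e ∈ G.verts F := by
        unfold Gr.verts
        exact Finset.mem_union_right _ (Finset.mem_image_of_mem _ he)
      rw [Finset.sum_add_distrib, Finset.sum_ite_eq' , Finset.sum_ite_eq', if_pos hs, if_pos ht]
  have h3 : ∑ z ∈ G.verts F, 2 ≤ ∑ z ∈ G.verts F, dg z := Finset.sum_le_sum h1
  rw [h2, Finset.sum_const, smul_eq_mul] at h3
  omega

/-- the edge set of a trail, which does not come back to the start of an earlier piece -/
theorem exP (G : Gr V ι) (g : ℕ) (hG : G.Girth g) (w : V) : ∀ (l : ℕ) (H : Finset ι) (v' : V),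
    G.nw w l H v' ≠ 0 → ∃ P : Finset ι, P ⊆ H ∧ P.card = l ∧
      (∀ z, par G P z = ind v' z + ind w z) ∧
      ∀ (Q : Finset ι) (v : V), Disjoint Q H → Q.Nonempty →
        (∀ z, par G Q z = ind v z + ind v' z) → Q.card + l ≤ g → ∀ f ∈ P, ¬ G.Inc f v := by
  intro l
  induction l with
  | zero =>
    intro H v' h
    have hv : v' = w := by
      by_contra hne
      apply h
      simp [Gr.nw, hne]
    refine ⟨∅, Finset.empty_subset _, rfl, ?_, ?_⟩
    · intro z; rw [hv, two]; simp [par]
    · intro Q v _ _ _ _ f hf; simp at hf
  | succ l ih =>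
    intro H v' h
    rw [Gr.nw] at h
    obtain ⟨f, hf, hne⟩ := Finset.exists_ne_zero_of_sum_ne_zero h
    rw [Finset.mem_filter] at hf
    obtain ⟨hfH, hfv⟩ := hf
    obtain ⟨P0, hP0, hcard, hpar, hQ⟩ := ih (H.erase f) (G.oth f v') hne
    have hfP : f ∉ P0 := fun hh => Finset.notMem_erase f H (hP0 hh)
    refine ⟨insert f P0, ?_, ?_, ?_, ?_⟩
    · exact Finset.insert_subset hfH (hP0.trans (Finset.erase_subset _ _))
    · rw [Finset.card_insert_of_notMem hfP, hcard]
    · intro z
      rw [par_insert G hfP, ind_oth G hfv, hpar z]
      have := two (ind (G.oth f v') z)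
      linear_combination this
    · intro Q v hdis hne' hQpar hQc f' hf'
      have hfQ : f ∉ Q := fun hh => (Finset.disjoint_left.mp hdis hh) hfH
      have hpar' : ∀ z, par G (insert f Q) z = ind v z + ind (G.oth f v') z := by
        intro z
        rw [par_insert G hfQ, ind_oth G hfv, hQpar z]
        have := two (ind v' z)
        linear_combination this
      rw [Finset.mem_insert] at hf'
      rcases hf' with rfl | hf'
      · intro hinc
        by_cases hvv : v = v'
        · refine odd_vertex G g hG Q hne' (by omega) fun z => ?_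
          rw [hQpar z, hvv, two]
        · have ho := eq_oth G hinc hfv hvv
          refine odd_vertex G g hG (insert f' Q) (Finset.insert_nonempty _ _) ?_ fun z => ?_
          · rw [Finset.card_insert_of_notMem hfQ]; omega
          · rw [hpar' z, ho, two]
      · refine hQ (insert f Q) v ?_ (Finset.insert_nonempty _ _) hpar' ?_ f' hf'
        · rw [Finset.disjoint_insert_left]
          exact ⟨Finset.notMem_erase f H, hdis.mono_right (Finset.erase_subset _ _)⟩
        · rw [Finset.card_insert_of_notMem hfQ]; omega

theorem uniq (G : Gr V ι) (g : ℕ) (hG : G.Girth g) (l : ℕ) (hl : 2 * (l + 1) ≤ g) (H : Finset ι)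
    (v w : V) {e e' : ι} (hv : G.Inc e v) (hv' : G.Inc e' v)
    (h : G.nw w l (H.erase e) (G.oth e v) ≠ 0) (h' : G.nw w l (H.erase e') (G.oth e' v) ≠ 0) :
    e = e' := by
  by_contra hne
  obtain ⟨P, hP, hc, hpar, hQ⟩ := exP G g hG w l _ _ h
  obtain ⟨P', hP', hc', hpar', -⟩ := exP G g hG w l _ _ h'
  have heP : e ∉ P := fun hh => Finset.notMem_erase e H (hP hh)
  have heP' : e' ∉ P' := fun hh => Finset.notMem_erase e' H (hP' hh)
  have he' : e' ∉ P := by
    intro hh
    refine hQ {e} v ?_ (Finset.singleton_nonempty _) ?_ ?_ e' hh hv'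
    · rw [Finset.disjoint_singleton_left]; exact Finset.notMem_erase e H
    · intro z; simp only [par, Finset.sum_singleton]; exact ind_oth G hv z
    · rw [Finset.card_singleton]; omega
  have hmem : e' ∈ symmDiff (insert e P) (insert e' P') := by
    rw [Finset.mem_symmDiff]
    right
    refine ⟨Finset.mem_insert_self _ _, ?_⟩
    rw [Finset.mem_insert]
    rintro (h1 | h1)
    · exact hne h1.symm
    · exact he' h1
  refine odd_vertex G g hG (symmDiff (insert e P) (insert e' P')) ⟨e', hmem⟩ ?_ fun z => ?_
  · have hsub : symmDiff (insert e P) (insert e' P') ⊆ insert e P ∪ insert e' P' := by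
      intro x hx
      rw [Finset.mem_symmDiff] at hx
      rw [Finset.mem_union]
      rcases hx with hx | hx
      · exact Or.inl hx.1
      · exact Or.inr hx.1
    have h1 := Finset.card_le_card hsub
    have h2 := Finset.card_union_le (insert e P) (insert e' P')
    rw [Finset.card_insert_of_notMem heP, Finset.card_insert_of_notMem heP', hc, hc'] at h2
    omega
  · rw [par_sd, par_insert G heP, par_insert G heP', ind_oth G hv, ind_oth G hv', hpar, hpar']
    have h1 := two (ind v z)
    have h2 := two (ind (G.oth e v) z)
    have h3 := two (ind (G.oth e' v) z)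
    have h4 := two (ind w z)
    linear_combination h1 + h2 + h3 + h4

end TrailUAux

open TrailUAux

theorem nw_le_one (G : Gr V ι) (g : ℕ) (hG : G.Girth g) (l : ℕ) (hl : 2 * l ≤ g) (H : Finset ι)
    (v w : V) : G.nw w l H v ≤ 1 := by
  induction l generalizing H v with
  | zero => unfold Gr.nw; split_ifs <;> omega
  | succ l ih =>
    rw [Gr.nw]
    by_cases h0 : ∀ e ∈ H.filter (fun e => G.Inc e v), G.nw w l (H.erase e) (G.oth e v) = 0
    · rw [Finset.sum_eq_zero h0]; omega
    · push Not at h0
      obtain ⟨e, he, hne⟩ := h0
      rw [Finset.sum_eq_single e]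
      · exact ih (by omega) _ _
      · intro e' he' hee
        by_contra hne'
        rw [Finset.mem_filter] at he he'
        exact hee (uniq G g hG l hl H v w he'.2 he.2 hne' hne)
      · intro h; exact absurd he h

theorem nw_zero (G : Gr V ι) (g : ℕ) (hG : G.Girth g) (e : ι) (l : ℕ) (hl : l + 1 ≤ g)
    (E : Finset ι) (he : e ∉ E) : G.nw (G.tgt e) l E (G.src e) = 0 := by
  by_contra hne
  obtain ⟨P, hP, hc, hpar, -⟩ := exP G g hG (G.tgt e) l E (G.src e) hne
  have heP : e ∉ P := fun hh => he (hP hh)
  refine odd_vertex G g hG (insert e P) (Finset.insert_nonempty _ _) ?_ fun z => ?_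
  · rw [Finset.card_insert_of_notMem heP, hc]; exact hl
  · rw [par_insert G heP, hpar z, two]

end Pool.Agent.Lib.P325L
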