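import Pool.Agent.Lib.P325L.Defs
import Pool.Agent.Lib.P325L.TrailU
import Pool.Agent.Lib.P325L.ARec

/-!
Module TrailN (2h; uses nw_le_one, nt_mono). The number of trails.
PROOF. (a) nt l H v = ∑_w nw w l H v (induction on l). (b) for 1 <= l, nw w l H v ≠ 0 implies
w ∈ verts H (the last edge of the trail is in H and w is one of its ends; induction on l).
So for 1 <= l, 2 l <= g: nt l H v <= |verts H| <= v0 (verts monotone); and nt 0 = 1 <= v0.
(c) nt (a + b) H v <= nt a H v * C if nt b H' u <= C for all H' ⊆ H and all u (induction on a).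
(d) write l = j * l0 + i with i < l0: nt l H v <= v0 ^ j * v0 by (c) and induction on j, for all
H' ⊆ H and v. (e) u^l <= (u^l0)^j as 0 < u <= 1, and (v0 u^l0)^j <= 1, so nt l H v * u^l <= v0.
nw_le_nt: from (a), or by induction.
-/

open scoped BigOperators

namespace Pool.Agent.Lib.P325L

variable {V ι : Type} [DecidableEq V] [DecidableEq ι] [Fintype V]

namespace TrailNAux

theorem nt_eq_sum (G : Gr V ι) (l : ℕ) : ∀ (H : Finset ι) (v : V),
    G.nt l H v = ∑ w, G.nw w l H v := by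
  induction l with
  | zero =>
    intro H v
    simp [Gr.nt, Gr.nw]
  | succ l ih =>
    intro H v
    simp only [Gr.nt, Gr.nw]
    rw [Finset.sum_comm]
    exact Finset.sum_congr rfl fun e _ => ih _ _

theorem verts_mono (G : Gr V ι) {H' H : Finset ι} (h : H' ⊆ H) : G.verts H' ⊆ G.verts H := by
  unfold Gr.verts
  exact Finset.union_subset_union (Finset.image_subset_image h) (Finset.image_subset_image h)

theorem oth_mem_verts (G : Gr V ι) {H : Finset ι} {e : ι} (he : e ∈ H) (v : V) :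
    G.oth e v ∈ G.verts H := by
  unfold Gr.oth Gr.verts
  split_ifs
  · exact Finset.mem_union_right _ (Finset.mem_image_of_mem _ he)
  · exact Finset.mem_union_left _ (Finset.mem_image_of_mem _ he)

theorem mem_verts_of_nw (G : Gr V ι) (w : V) (l : ℕ) : ∀ (H : Finset ι) (v : V),
    G.nw w (l + 1) H v ≠ 0 → w ∈ G.verts H := by
  induction l with
  | zero =>
    intro H v h
    simp only [Gr.nw] at h
    obtain ⟨e, he, h1⟩ := Finset.exists_ne_zero_of_sum_ne_zero h
    have h2 : G.oth e v = w := by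
      by_contra h3
      exact h1 (if_neg h3)
    rw [← h2]
    exact oth_mem_verts G (Finset.mem_filter.1 he).1 v
  | succ l ih =>
    intro H v h
    rw [Gr.nw] at h
    obtain ⟨e, he, h1⟩ := Finset.exists_ne_zero_of_sum_ne_zero h
    exact verts_mono G (Finset.erase_subset e H) (ih _ _ h1)

theorem nt_le (G : Gr V ι) (g : ℕ) (hG : G.Girth g) (v0 : ℕ) (hv0 : 1 ≤ v0) (l : ℕ)
    (hl : 2 * l ≤ g) (H : Finset ι) (hH : (G.verts H).card ≤ v0) (v : V) :
    G.nt l H v ≤ v0 := by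
  rcases l with _ | l
  · simpa [Gr.nt] using hv0
  · rw [nt_eq_sum]
    calc ∑ w, G.nw w (l + 1) H v = ∑ w ∈ G.verts H, G.nw w (l + 1) H v := by
          symm
          apply Finset.sum_subset (Finset.subset_univ _)
          intro w _ hw
          by_contra h
          exact hw (mem_verts_of_nw G w l H v h)
      _ ≤ ∑ w ∈ G.verts H, 1 :=
          Finset.sum_le_sum fun w _ => nw_le_one G g hG (l + 1) hl H v w
      _ = (G.verts H).card := by simp
      _ ≤ v0 := hH

theorem nt_add_le (G : Gr V ι) (b C : ℕ) (a : ℕ) : ∀ (H : Finset ι) (v : V),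
    (∀ H' ⊆ H, ∀ u, G.nt b H' u ≤ C) → G.nt (a + b) H v ≤ G.nt a H v * C := by
  induction a with
  | zero =>
    intro H v h
    have := h H (Finset.Subset.refl H) v
    simpa [Gr.nt] using this
  | succ a ih =>
    intro H v h
    have e1 : a + 1 + b = (a + b) + 1 := by ring
    rw [e1]
    simp only [Gr.nt]
    rw [Finset.sum_mul]
    refine Finset.sum_le_sum fun e _ => ih _ _ fun H' hH' u => ?_
    exact h H' (hH'.trans (Finset.erase_subset e H)) u

theorem nt_pow (G : Gr V ι) (g : ℕ) (hG : G.Girth g) (l0 v0 : ℕ)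
    (hl : 2 * l0 ≤ g) (hv0 : 1 ≤ v0) (i : ℕ) (hi : i ≤ l0) (j : ℕ) :
    ∀ (H : Finset ι), (G.verts H).card ≤ v0 → ∀ v : V, G.nt (j * l0 + i) H v ≤ v0 ^ (j + 1) := by
  induction j with
  | zero =>
    intro H hH v
    rw [Nat.zero_mul, Nat.zero_add, Nat.zero_add, pow_one]
    exact nt_le G g hG v0 hv0 i (by omega) H hH v
  | succ j ih =>
    intro H hH v
    have e1 : (j + 1) * l0 + i = l0 + (j * l0 + i) := by ring
    rw [e1]
    calc G.nt (l0 + (j * l0 + i)) H v ≤ G.nt l0 H v * v0 ^ (j + 1) := by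
          apply nt_add_le
          intro H' hH' u
          exact ih H' ((Finset.card_le_card (verts_mono G hH')).trans hH) u
      _ ≤ v0 * v0 ^ (j + 1) := Nat.mul_le_mul_right _ (nt_le G g hG v0 hv0 l0 hl H hH v)
      _ = v0 ^ (j + 1 + 1) := by ring

end TrailNAux

theorem nw_le_nt (G : Gr V ι) (l : ℕ) (H : Finset ι) (v w : V) : G.nw w l H v ≤ G.nt l H v := by
  rw [TrailNAux.nt_eq_sum]
  exact Finset.single_le_sum (f := fun w => G.nw w l H v) (fun _ _ => Nat.zero_le _)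
    (Finset.mem_univ w)

theorem nt_bd (G : Gr V ι) (g : ℕ) (hG : G.Girth g) (l0 v0 : ℕ) (hl0 : 1 ≤ l0)
    (hl : 2 * l0 ≤ g) (hv0 : 1 ≤ v0) (u : ℝ) (hu0 : 0 < u) (hu1 : u ≤ 1)
    (hu : (v0 : ℝ) * u ^ l0 ≤ 1) (H : Finset ι) (hH : (G.verts H).card ≤ v0) (l : ℕ) (v : V) :
    (G.nt l H v : ℝ) * u ^ l ≤ v0 := by
  obtain ⟨j, i, hi, rfl⟩ : ∃ j i, i ≤ l0 ∧ l = j * l0 + i :=
    ⟨l / l0, l % l0, (Nat.mod_lt _ (by omega)).le, (Nat.div_add_mod' l l0).symm⟩
  have h1 : (G.nt (j * l0 + i) H v : ℝ) ≤ (v0 : ℝ) ^ (j + 1) := by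
    exact_mod_cast TrailNAux.nt_pow G g hG l0 v0 hl hv0 i hi j H hH v
  have h2 : (0 : ℝ) ≤ (v0 : ℝ) := Nat.cast_nonneg _
  have h3 : u ^ i ≤ 1 := pow_le_one₀ hu0.le hu1
  have h4 : ((v0 : ℝ) * u ^ l0) ^ j ≤ 1 := pow_le_one₀ (by positivity) hu
  calc (G.nt (j * l0 + i) H v : ℝ) * u ^ (j * l0 + i)
      ≤ (v0 : ℝ) ^ (j + 1) * u ^ (j * l0 + i) :=
        mul_le_mul_of_nonneg_right h1 (by positivity)
    _ = (v0 : ℝ) * (((v0 : ℝ) * u ^ l0) ^ j * u ^ i) := by
        rw [pow_add, mul_pow, ← pow_mul, Nat.mul_comm l0 j]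
        ring
    _ ≤ (v0 : ℝ) * (1 * 1) := by
        apply mul_le_mul_of_nonneg_left _ h2
        exact mul_le_mul h4 h3 (by positivity) (by norm_num)
    _ = v0 := by ring

end Pool.Agent.Lib.P325L
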