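import Pool.Agent.Lib.P325L.Defs
import Pool.Agent.Lib.P325L.TrailN

/-!
Module SumB (1.2h; uses nt_bd, nw_zero, nw_le_nt). Bounds for the weighted trail sums with Q = u^2.
PROOF. asum: α ∑_{l<|H|} u^(2l) nt (l+1) H v and nt (l+1) <= v0 / u^(l+1), so each term is
<= v0 u^l / u; geometric series: <= α v0 / (u (1-u)). csum: the terms with l + 2 <= g vanish by
nw_zero (l + 1 edges, (l+1)+1 <= g), the others satisfy l + 1 >= g and
u^(2(l+1)) nw (l+1) <= u^(2(l+1)) nt (l+1) <= v0 u^(l+1); sum over l + 1 >= g: <= v0 u^g/(1-u) (g >= 1).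
-/

open scoped BigOperators

namespace Pool.Agent.Lib.P325L

variable {V ι : Type} [DecidableEq V] [DecidableEq ι] [Fintype V]

namespace SumBAux

private theorem geom_le {u : ℝ} (hu0 : 0 < u) (hu1 : u < 1) (n : ℕ) :
    ∑ l ∈ Finset.range n, u ^ l ≤ 1 / (1 - u) := by
  have h1 : 0 < 1 - u := by linarith
  rw [le_div_iff₀ h1, mul_comm, mul_neg_geom_sum]
  have := pow_nonneg hu0.le n
  linarith

end SumBAux

open SumBAux in
theorem asum_bd (G : Gr V ι) (g : ℕ) (hG : G.Girth g) (l0 v0 : ℕ) (hl0 : 1 ≤ l0)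
    (hl : 2 * l0 ≤ g) (hv0 : 1 ≤ v0) (u : ℝ) (hu0 : 0 < u) (hu1 : u < 1)
    (hu : (v0 : ℝ) * u ^ l0 ≤ 1) (H : Finset ι) (hH : (G.verts H).card ≤ v0) (α : ℝ)
    (hα : 0 ≤ α) (v : V) : G.Asum α (u ^ 2) H v ≤ α * v0 / (u * (1 - u)) := by
  have h1u : 0 < 1 - u := by linarith
  have hv : (0 : ℝ) ≤ v0 := Nat.cast_nonneg _
  have h1 : ∀ l ∈ Finset.range H.card, (u ^ 2) ^ l * (G.nt (l + 1) H v : ℝ) ≤
      (v0 : ℝ) / u * u ^ l := by
    intro l _
    have h2 := nt_bd G g hG l0 v0 hl0 hl hv0 u hu0 hu1.le hu H hH (l + 1) v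
    have h3 : (u ^ 2) ^ l * (G.nt (l + 1) H v : ℝ) =
        ((G.nt (l + 1) H v : ℝ) * u ^ (l + 1)) * (u ^ l / u) := by
      rw [← pow_mul, mul_comm 2 l, pow_mul, pow_succ]
      field_simp
      ring
    have h4 : (v0 : ℝ) / u * u ^ l = v0 * (u ^ l / u) := by ring
    rw [h3, h4]
    exact mul_le_mul_of_nonneg_right h2 (by positivity)
  unfold Gr.Asum
  have h2 : ∑ l ∈ Finset.range H.card, (u ^ 2) ^ l * (G.nt (l + 1) H v : ℝ) ≤
      (v0 : ℝ) / u * (1 / (1 - u)) := by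
    refine (Finset.sum_le_sum h1).trans ?_
    rw [← Finset.mul_sum]
    exact mul_le_mul_of_nonneg_left (geom_le hu0 hu1 _) (by positivity)
  have h3 : α * v0 / (u * (1 - u)) = α * ((v0 : ℝ) / u * (1 / (1 - u))) := by
    field_simp
  rw [h3]
  exact mul_le_mul_of_nonneg_left h2 hα

open SumBAux in
theorem csum_bd (G : Gr V ι) (g : ℕ) (hG : G.Girth g) (l0 v0 : ℕ) (hl0 : 1 ≤ l0)
    (hl : 2 * l0 ≤ g) (hv0 : 1 ≤ v0) (u : ℝ) (hu0 : 0 < u) (hu1 : u < 1)
    (hu : (v0 : ℝ) * u ^ l0 ≤ 1) (E : Finset ι) (hE : (G.verts E).card ≤ v0) (e : ι)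
    (he : e ∉ E) : G.Csum (u ^ 2) (G.tgt e) E (G.src e) ≤ v0 * u ^ g / (1 - u) := by
  have h1u : 0 < 1 - u := by linarith
  have hv : (0 : ℝ) ≤ v0 := Nat.cast_nonneg _
  have h1 : ∀ l ∈ Finset.range E.card,
      (u ^ 2) ^ (l + 1) * (G.nw (G.tgt e) (l + 1) E (G.src e) : ℝ) ≤
      if g ≤ l + 1 then (v0 : ℝ) * u ^ (l + 1) else 0 := by
    intro l _
    split_ifs with h
    · have h2 := nt_bd G g hG l0 v0 hl0 hl hv0 u hu0 hu1.le hu E hE (l + 1) (G.src e)
      have h3 : (G.nw (G.tgt e) (l + 1) E (G.src e) : ℝ) ≤ (G.nt (l + 1) E (G.src e) : ℝ) :=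
        Nat.cast_le.2 (nw_le_nt G (l + 1) E (G.src e) (G.tgt e))
      have h4 : 0 ≤ u ^ (l + 1) := by positivity
      calc (u ^ 2) ^ (l + 1) * (G.nw (G.tgt e) (l + 1) E (G.src e) : ℝ)
          = ((G.nw (G.tgt e) (l + 1) E (G.src e) : ℝ) * u ^ (l + 1)) * u ^ (l + 1) := by ring
        _ ≤ ((G.nt (l + 1) E (G.src e) : ℝ) * u ^ (l + 1)) * u ^ (l + 1) := by gcongr
        _ ≤ (v0 : ℝ) * u ^ (l + 1) := mul_le_mul_of_nonneg_right h2 h4
    · have h2 : G.nw (G.tgt e) (l + 1) E (G.src e) = 0 :=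
        nw_zero G g hG e (l + 1) (by omega) E he
      rw [h2]
      simp
  unfold Gr.Csum
  refine (Finset.sum_le_sum h1).trans ?_
  have h2 : ∑ l ∈ Finset.range E.card, (if g ≤ l + 1 then (v0 : ℝ) * u ^ (l + 1) else 0) ≤
      ∑ l ∈ Finset.range E.card, (v0 : ℝ) * u ^ g * u ^ l := by
    rw [← Finset.sum_filter]
    have h3 : ∑ l ∈ (Finset.range E.card).filter (fun l => g ≤ l + 1), (v0 : ℝ) * u ^ (l + 1) =
        ∑ l ∈ ((Finset.range E.card).filter (fun l => g ≤ l + 1)).image (fun l => l + 1 - g),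
          (v0 : ℝ) * u ^ g * u ^ l := by
      rw [Finset.sum_image]
      · refine Finset.sum_congr rfl fun l hl => ?_
        rw [Finset.mem_filter] at hl
        rw [mul_assoc, ← pow_add]
        congr 2
        omega
      · intro a ha b hb hab
        simp only [Finset.coe_filter, Finset.mem_range, Set.mem_ofPred_eq] at ha hb
        simp only at hab
        omega
    rw [h3]
    refine Finset.sum_le_sum_of_subset_of_nonneg ?_ fun l _ _ => by positivity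
    intro l hl
    rw [Finset.mem_image] at hl
    obtain ⟨a, ha, rfl⟩ := hl
    rw [Finset.mem_filter, Finset.mem_range] at ha
    rw [Finset.mem_range]
    omega
  refine h2.trans ?_
  rw [← Finset.mul_sum]
  have h3 : (v0 : ℝ) * u ^ g / (1 - u) = v0 * u ^ g * (1 / (1 - u)) := by ring
  rw [h3]
  exact mul_le_mul_of_nonneg_left (geom_le hu0 hu1 _) (by positivity)

end Pool.Agent.Lib.P325L
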