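import Pool.Agent.Lib.P325L.Defs

/-!
Module Tails (1.5h). Bounds for the relative coefficients. k = card Γ, sg z >= -1, so
aE >= 1 - θ > 0 and 0 <= θ / aE <= θ/(1-θ) = α.
trn_bd: the term l = i+1 (if i < m) contributes θ t^(m-i-1) = t^(m-i) * t (θ = t^2); the terms l <= i
contribute at most α c(i-l) t^(m-l) = t^(m-i) * α c(i-l) t^(i-l); total
<= t^(m-i) (t + α ∑_{j<=m} c j t^j) <= t^(m-i) Q.
mE_bd1: pairs i + j = m+1 (m of them): θ t^(2m-m-1) = t^(m+1); pairs i + j = m - s (m-s+1 <= m+1 of
them, s >= 0): α c(s) t^(2m-(m-s)) = α t^m c(s) t^s. Total <= (m+1) t^m (t + α ∑ c s t^s).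
mE_bd2: the same with weight t^(m-i) / t^j = t^(m-i-j) (real): i+j = m+1: θ / t = t; i+j = m-s:
α c(s) t^s.
-/

open scoped BigOperators

namespace Pool.Agent.Lib.P325L

variable {Γ : Type} [Fintype Γ] [AddCommGroup Γ] [DecidableEq Γ] {V ι : Type} [DecidableEq V]
  {m : ℕ}

set_option linter.unusedSectionVars false
set_option linter.unusedVariables false

theorem aE_ge (G : Gr V ι) (sh : ι → Γ) (θ : ℝ) (h0 : 0 < θ) (h1 : θ < 1) (x : V → Γ) (e : ι) :
    1 - θ ≤ aE G sh θ x e := by
  have h2 : ∀ z : Γ, (-1 : ℝ) ≤ sg z := by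
    intro z
    unfold sg
    split_ifs with h
    · have : (0 : ℝ) ≤ (Fintype.card Γ : ℝ) := Nat.cast_nonneg _
      linarith
    · exact le_refl _
  unfold aE
  have h3 := h2 (x (G.tgt e) - x (G.src e) - sh e)
  nlinarith

theorem quot_bd (G : Gr V ι) (sh : ι → Γ) (θ : ℝ) (h0 : 0 < θ) (h1 : θ < 1) (x : V → Γ)
    (e : ι) : 0 ≤ θ / aE G sh θ x e ∧ θ / aE G sh θ x e ≤ θ / (1 - θ) := by
  have h2 := aE_ge G sh θ h0 h1 x e
  have h3 : 0 < 1 - θ := by linarith
  have h4 : 0 < aE G sh θ x e := lt_of_lt_of_le h3 h2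
  exact ⟨div_nonneg h0.le h4.le, div_le_div_of_nonneg_left h0.le h3 h2⟩

/-- reflected sums -/
theorem tails_refl (f : ℕ → ℝ) (hf : ∀ s, 0 ≤ f s) (i : ℕ) (hi : i ≤ m) :
    ∑ l : Fin (m + 1), (if l.val ≤ i then f (i - l.val) else 0) ≤
      ∑ s ∈ Finset.range (m + 1), f s := by
  have h1 : ∑ l : Fin (m + 1), (if l.val ≤ i then f (i - l.val) else 0) =
      ∑ l ∈ Finset.range (m + 1), (if l ≤ i then f (i - l) else 0) :=
    (Finset.sum_range (fun l => if l ≤ i then f (i - l) else 0)).symm
  have h2 : ∑ l ∈ Finset.range (m + 1), (if l ≤ i then f (i - l) else 0) =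
      ∑ l ∈ Finset.range (i + 1), f (i - l) := by
    rw [← Finset.sum_filter]
    apply Finset.sum_congr _ (fun _ _ => rfl)
    ext l
    simp only [Finset.mem_filter, Finset.mem_range]
    omega
  have h3 : ∑ l ∈ Finset.range (i + 1), f (i - l) = ∑ l ∈ Finset.range (i + 1), f l := by
    rw [← Finset.sum_range_reflect]
    apply Finset.sum_congr rfl
    intro l hl
    congr 1
    have := Finset.mem_range.1 hl
    omega
  rw [h1, h2, h3]
  apply Finset.sum_le_sum_of_subset_of_nonneg
  · intro l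
    simp only [Finset.mem_range]
    omega
  · intro l _ _
    exact hf l

/-- at most one term -/
theorem tails_one (v : ℝ) (hv : 0 ≤ v) (p : Fin (m + 1) → Prop) [DecidablePred p]
    (hp : ∀ i j, p i → p j → i = j) :
    ∑ l : Fin (m + 1), (if p l then v else 0) ≤ v := by
  by_cases h : ∃ l, p l
  · obtain ⟨l, hl⟩ := h
    rw [Finset.sum_eq_single l]
    · simp [hl]
    · intro b _ hb
      rw [if_neg]
      intro h2
      exact hb (hp b l h2 hl)
    · simp
  · rw [Finset.sum_eq_zero]
    · exact hv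
    · intro l _
      rw [if_neg]
      intro h2
      exact h ⟨l, h2⟩

theorem trn_bd (G : Gr V ι) (sh : ι → Γ) (t Q : ℝ) (h0 : 0 < t) (h1 : t < 1) (c : ℕ → ℝ)
    (hc : ∀ j, 0 ≤ c j)
    (hQ : t + t ^ 2 / (1 - t ^ 2) * ∑ j ∈ Finset.range (m + 1), c j * t ^ j ≤ Q)
    (x : V → Γ) (e : ι) (i : Fin (m + 1)) :
    ∑ l : Fin (m + 1), |trn G sh (t ^ 2) c m x e i l| * t ^ (m - l.val) ≤ Q * t ^ (m - i.val) := by
  have ht2 : t ^ 2 < 1 := by nlinarith
  obtain ⟨hq0, hq1⟩ := quot_bd G sh (t ^ 2) (by positivity) ht2 x e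
  have hi := i.isLt
  have hS : 0 ≤ ∑ j ∈ Finset.range (m + 1), c j * t ^ j :=
    Finset.sum_nonneg (fun j _ => mul_nonneg (hc j) (pow_nonneg h0.le _))
  have h2 : ∀ l : Fin (m + 1), |trn G sh (t ^ 2) c m x e i l| * t ^ (m - l.val) ≤
      (if l.val = i.val + 1 then t * t ^ (m - i.val) else 0) +
      t ^ 2 / aE G sh (t ^ 2) x e * t ^ (m - i.val) *
        (if l.val ≤ i.val then c (i.val - l.val) * t ^ (i.val - l.val) else 0) := by
    intro l
    have hl := l.isLt
    unfold trn
    by_cases h3 : l.val = i.val + 1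
    · have h4 : ¬ l.val ≤ i.val := by omega
      rw [if_pos h3, if_neg h4, if_pos h3, if_neg h4]
      have h5 : m - i.val = (m - l.val) + 1 := by omega
      rw [mul_zero, sub_zero, mul_zero, add_zero, abs_of_nonneg (by positivity), h5]
      apply le_of_eq
      ring
    · rw [if_neg h3, if_neg h3]
      by_cases h4 : l.val ≤ i.val
      · rw [if_pos h4, if_pos h4, zero_sub, abs_neg,
          abs_of_nonneg (mul_nonneg hq0 (hc _)), zero_add]
        have h5 : m - l.val = (m - i.val) + (i.val - l.val) := by omega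
        rw [h5, pow_add]
        apply le_of_eq
        ring
      · rw [if_neg h4, if_neg h4]
        simp
  refine le_trans (Finset.sum_le_sum (fun l _ => h2 l)) ?_
  rw [Finset.sum_add_distrib, ← Finset.mul_sum]
  have h3 := tails_one (m := m) (t * t ^ (m - i.val)) (by positivity)
    (fun l : Fin (m + 1) => l.val = i.val + 1)
    (fun a b ha hb => Fin.ext (by omega))
  have h4 := tails_refl (m := m) (fun s => c s * t ^ s)
    (fun s => mul_nonneg (hc s) (pow_nonneg h0.le _)) i.val (by omega)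
  have h5 : t ^ 2 / aE G sh (t ^ 2) x e * t ^ (m - i.val) *
      ∑ l : Fin (m + 1), (if l.val ≤ i.val then c (i.val - l.val) * t ^ (i.val - l.val) else 0) ≤
      t ^ 2 / (1 - t ^ 2) * t ^ (m - i.val) * ∑ j ∈ Finset.range (m + 1), c j * t ^ j := by
    apply mul_le_mul _ h4 _ _
    · exact mul_le_mul_of_nonneg_right hq1 (by positivity)
    · apply Finset.sum_nonneg
      intro l _
      split_ifs
      · exact mul_nonneg (hc _) (pow_nonneg h0.le _)
      · exact le_refl _
    · exact mul_nonneg (le_trans hq0 hq1) (by positivity)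
  have h6 : t * t ^ (m - i.val) + t ^ 2 / (1 - t ^ 2) * t ^ (m - i.val) *
      ∑ j ∈ Finset.range (m + 1), c j * t ^ j ≤ Q * t ^ (m - i.val) := by
    have h7 := mul_le_mul_of_nonneg_right hQ (pow_nonneg h0.le (m - i.val))
    refine le_trans (le_of_eq ?_) h7
    ring
  exact le_trans (add_le_add h3 h5) h6

theorem mE_bd1 (G : Gr V ι) (sh : ι → Γ) (t Q : ℝ) (h0 : 0 < t) (h1 : t < 1) (c : ℕ → ℝ)
    (hc : ∀ j, 0 ≤ c j)
    (hQ : t + t ^ 2 / (1 - t ^ 2) * ∑ j ∈ Finset.range (m + 1), c j * t ^ j ≤ Q)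
    (x : V → Γ) (e : ι) :
    ∑ i : Fin (m + 1), ∑ j : Fin (m + 1), |mE G sh (t ^ 2) c m x e i j| *
      (t ^ (m - i.val) * t ^ (m - j.val)) ≤ ((m : ℝ) + 1) * Q * t ^ m := by
  have ht2 : t ^ 2 < 1 := by nlinarith
  obtain ⟨hq0, hq1⟩ := quot_bd G sh (t ^ 2) (by positivity) ht2 x e
  have hi : ∀ i : Fin (m + 1), ∑ j : Fin (m + 1), |mE G sh (t ^ 2) c m x e i j| *
      (t ^ (m - i.val) * t ^ (m - j.val)) ≤ Q * t ^ m := by
    intro i
    have hi := i.isLt
    have h2 : ∀ l : Fin (m + 1), |mE G sh (t ^ 2) c m x e i l| *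
        (t ^ (m - i.val) * t ^ (m - l.val)) ≤
        (if i.val + l.val = m + 1 then t * t ^ m else 0) +
        t ^ 2 / aE G sh (t ^ 2) x e * t ^ m *
          (if l.val ≤ m - i.val then c (m - i.val - l.val) * t ^ (m - i.val - l.val) else 0) := by
      intro l
      have hl := l.isLt
      unfold mE
      by_cases h3 : i.val + l.val = m + 1
      · have h4 : ¬ i.val + l.val ≤ m := by omega
        have h4' : ¬ l.val ≤ m - i.val := by omega
        rw [if_pos h3, if_neg h4, if_pos h3, if_neg h4']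
        have h5 : m = (m - i.val) + (m - l.val) + 1 := by omega
        rw [mul_zero, zero_sub, mul_zero, add_zero, abs_neg, abs_of_nonneg (by positivity)]
        have h6 : t ^ m = t ^ (m - i.val) * t ^ (m - l.val) * t := by
          rw [← pow_add, ← pow_succ, ← h5]
        rw [h6]
        apply le_of_eq
        ring
      · rw [if_neg h3, if_neg h3]
        by_cases h4 : i.val + l.val ≤ m
        · have h4' : l.val ≤ m - i.val := by omega
          rw [if_pos h4, if_pos h4', sub_zero, abs_of_nonneg (mul_nonneg hq0 (hc _)), zero_add]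
          have h5 : t ^ (m - i.val) * t ^ (m - l.val) = t ^ m * t ^ (m - i.val - l.val) := by
            rw [← pow_add, ← pow_add]
            congr 1
            omega
          have h6 : m - (i.val + l.val) = m - i.val - l.val := by omega
          rw [h5, h6]
          apply le_of_eq
          ring
        · have h4' : ¬ l.val ≤ m - i.val := by omega
          rw [if_neg h4, if_neg h4']
          simp
    refine le_trans (Finset.sum_le_sum (fun l _ => h2 l)) ?_
    rw [Finset.sum_add_distrib, ← Finset.mul_sum]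
    have h3 := tails_one (m := m) (t * t ^ m) (by positivity)
      (fun l : Fin (m + 1) => i.val + l.val = m + 1)
      (fun a b ha hb => Fin.ext (by omega))
    have h4 := tails_refl (m := m) (fun s => c s * t ^ s)
      (fun s => mul_nonneg (hc s) (pow_nonneg h0.le _)) (m - i.val) (by omega)
    have h5 : t ^ 2 / aE G sh (t ^ 2) x e * t ^ m *
        ∑ l : Fin (m + 1), (if l.val ≤ m - i.val then
          c (m - i.val - l.val) * t ^ (m - i.val - l.val) else 0) ≤
        t ^ 2 / (1 - t ^ 2) * t ^ m * ∑ j ∈ Finset.range (m + 1), c j * t ^ j := by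
      apply mul_le_mul _ h4 _ _
      · exact mul_le_mul_of_nonneg_right hq1 (by positivity)
      · apply Finset.sum_nonneg
        intro l _
        split_ifs
        · exact mul_nonneg (hc _) (pow_nonneg h0.le _)
        · exact le_refl _
      · exact mul_nonneg (le_trans hq0 hq1) (by positivity)
    have h6 : t * t ^ m + t ^ 2 / (1 - t ^ 2) * t ^ m *
        ∑ j ∈ Finset.range (m + 1), c j * t ^ j ≤ Q * t ^ m := by
      have h7 := mul_le_mul_of_nonneg_right hQ (pow_nonneg h0.le m)
      refine le_trans (le_of_eq ?_) h7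
      ring
    exact le_trans (add_le_add h3 h5) h6
  refine le_trans (Finset.sum_le_sum (fun i _ => hi i)) ?_
  rw [Finset.sum_const, Finset.card_univ, Fintype.card_fin, nsmul_eq_mul]
  push_cast
  apply le_of_eq
  ring

theorem mE_bd2 (G : Gr V ι) (sh : ι → Γ) (t Q : ℝ) (h0 : 0 < t) (h1 : t < 1) (c : ℕ → ℝ)
    (hc : ∀ j, 0 ≤ c j)
    (hQ : t + t ^ 2 / (1 - t ^ 2) * ∑ j ∈ Finset.range (m + 1), c j * t ^ j ≤ Q)
    (x : V → Γ) (e : ι) :
    ∑ i : Fin (m + 1), ∑ j : Fin (m + 1), |mE G sh (t ^ 2) c m x e i j| *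
      (t ^ (m - i.val) / t ^ j.val) ≤ ((m : ℝ) + 1) * Q := by
  have ht2 : t ^ 2 < 1 := by nlinarith
  obtain ⟨hq0, hq1⟩ := quot_bd G sh (t ^ 2) (by positivity) ht2 x e
  have hi : ∀ i : Fin (m + 1), ∑ j : Fin (m + 1), |mE G sh (t ^ 2) c m x e i j| *
      (t ^ (m - i.val) / t ^ j.val) ≤ Q := by
    intro i
    have hi := i.isLt
    have h2 : ∀ l : Fin (m + 1), |mE G sh (t ^ 2) c m x e i l| *
        (t ^ (m - i.val) / t ^ l.val) ≤
        (if i.val + l.val = m + 1 then t else 0) +
        t ^ 2 / aE G sh (t ^ 2) x e *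
          (if l.val ≤ m - i.val then c (m - i.val - l.val) * t ^ (m - i.val - l.val) else 0) := by
      intro l
      have hl := l.isLt
      have htl : t ^ l.val ≠ 0 := (pow_pos h0 _).ne'
      unfold mE
      by_cases h3 : i.val + l.val = m + 1
      · have h4 : ¬ i.val + l.val ≤ m := by omega
        have h4' : ¬ l.val ≤ m - i.val := by omega
        rw [if_pos h3, if_neg h4, if_pos h3, if_neg h4']
        have h5 : l.val = (m - i.val) + 1 := by omega
        rw [mul_zero, zero_sub, add_zero, abs_neg, abs_of_nonneg (by positivity)]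
        have h6 : t ^ l.val = t ^ (m - i.val) * t := by
          rw [← pow_succ, ← h5]
        rw [h6]
        have h7 : t ^ (m - i.val) ≠ 0 := (pow_pos h0 _).ne'
        apply le_of_eq
        field_simp
      · rw [if_neg h3, if_neg h3]
        by_cases h4 : i.val + l.val ≤ m
        · have h4' : l.val ≤ m - i.val := by omega
          rw [if_pos h4, if_pos h4', sub_zero, abs_of_nonneg (mul_nonneg hq0 (hc _)), zero_add]
          have h5 : t ^ (m - i.val) / t ^ l.val = t ^ (m - i.val - l.val) := by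
            rw [div_eq_iff htl, ← pow_add]
            congr 1
            omega
          have h6 : m - (i.val + l.val) = m - i.val - l.val := by omega
          rw [h5, h6]
          apply le_of_eq
          ring
        · have h4' : ¬ l.val ≤ m - i.val := by omega
          rw [if_neg h4, if_neg h4']
          simp
    refine le_trans (Finset.sum_le_sum (fun l _ => h2 l)) ?_
    rw [Finset.sum_add_distrib, ← Finset.mul_sum]
    have h3 := tails_one (m := m) t h0.le
      (fun l : Fin (m + 1) => i.val + l.val = m + 1)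
      (fun a b ha hb => Fin.ext (by omega))
    have h4 := tails_refl (m := m) (fun s => c s * t ^ s)
      (fun s => mul_nonneg (hc s) (pow_nonneg h0.le _)) (m - i.val) (by omega)
    have h5 : t ^ 2 / aE G sh (t ^ 2) x e *
        ∑ l : Fin (m + 1), (if l.val ≤ m - i.val then
          c (m - i.val - l.val) * t ^ (m - i.val - l.val) else 0) ≤
        t ^ 2 / (1 - t ^ 2) * ∑ j ∈ Finset.range (m + 1), c j * t ^ j := by
      apply mul_le_mul hq1 h4 _ _
      · apply Finset.sum_nonneg
        intro l _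
        split_ifs
        · exact mul_nonneg (hc _) (pow_nonneg h0.le _)
        · exact le_refl _
      · exact le_trans hq0 hq1
    exact le_trans (add_le_add h3 h5) hQ
  refine le_trans (Finset.sum_le_sum (fun i _ => hi i)) ?_
  rw [Finset.sum_const, Finset.card_univ, Fintype.card_fin, nsmul_eq_mul]
  push_cast
  exact le_refl _

end Pool.Agent.Lib.P325L
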