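import Pool.Agent.Lib.P325L.Defs

/-!
Module OneV (1h). Integrating out the tag of one vertex; closed vertices.
PROOF. ev_one: group the sum over τ : V → X by the values off v (Equiv.funSplitAt / piSplitAt, or
Fintype.sum over update): for v ∉ B the weight at v in Ev D B is μ (τ v); in Ev D (insert v B) it is
the indicator of τ v = pt, whose sum over the value at v picks one value, and the function
τ ↦ ∑_y μ y F (update τ v y) does not depend on τ v. ev_congr: the weight of τ vanishes unless
τ v = pt for all v in B. The other two are linearity.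
-/

open scoped BigOperators

namespace Pool.Agent.Lib.P325L

variable {Γ : Type} [Fintype Γ] [AddCommGroup Γ] [DecidableEq Γ] {V X : Type} [DecidableEq V]
  [DecidableEq X] [Fintype V] [Fintype X] {m : ℕ}

/-- the weight of a tag at a vertex -/
private noncomputable def wgt (D : TagSpace m Γ X) (B : Finset V) (v : V) (y : X) : ℝ :=
  if v ∈ B then (if y = D.pt then 1 else 0) else D.μ y

private theorem ev_eq (D : TagSpace m Γ X) (B : Finset V) (F : (V → X) → ℝ) :
    Ev D B F = ∑ τ : V → X, (∏ v, wgt D B v (τ v)) * F τ := rfl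

private theorem prod_split (D : TagSpace m Γ X) (B : Finset V) (v : V) (τ : V → X) :
    ∏ u, wgt D B u (τ u) = wgt D B v (τ v) * ∏ u ∈ Finset.univ.erase v, wgt D B u (τ u) :=
  (Finset.mul_prod_erase _ _ (Finset.mem_univ v)).symm

theorem ev_one (D : TagSpace m Γ X) (B : Finset V) (v : V) (hv : v ∉ B) (F : (V → X) → ℝ) :
    Ev D B F = Ev D (insert v B) (fun τ => ∑ y, D.μ y * F (Function.update τ v y)) := by
  rw [ev_eq, ev_eq]
  have hP : ∀ τ : V → X, ∏ u ∈ Finset.univ.erase v, wgt D (insert v B) u (τ u) =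
      ∏ u ∈ Finset.univ.erase v, wgt D B u (τ u) := by
    intro τ
    refine Finset.prod_congr rfl fun u hu => ?_
    have hne : u ≠ v := Finset.ne_of_mem_erase hu
    simp [wgt, Finset.mem_insert, hne]
  have hPu : ∀ (τ : V → X) (y : X),
      ∏ u ∈ Finset.univ.erase v, wgt D B u (Function.update τ v y u) =
      ∏ u ∈ Finset.univ.erase v, wgt D B u (τ u) := by
    intro τ y
    refine Finset.prod_congr rfl fun u hu => ?_
    have hne : u ≠ v := Finset.ne_of_mem_erase hu
    rw [Function.update_of_ne hne]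
  set G : (V → X) → ℝ := fun τ =>
    D.μ (τ v) * (∏ u ∈ Finset.univ.erase v, wgt D B u (τ u)) * F τ with hG
  have hL : ∀ τ : V → X, (∏ u, wgt D B u (τ u)) * F τ = G τ := by
    intro τ
    rw [prod_split D B v τ, hG]
    simp [wgt, hv]
  have hR : ∀ τ : V → X, (∏ u, wgt D (insert v B) u (τ u)) *
      ∑ y, D.μ y * F (Function.update τ v y) =
      ∑ y, if τ v = D.pt then G (Function.update τ v y) else 0 := by
    intro τ
    rw [prod_split D (insert v B) v τ, hP]
    have hw : wgt D (insert v B) v (τ v) = if τ v = D.pt then 1 else 0 := by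
      simp [wgt]
    rw [hw]
    by_cases h : τ v = D.pt
    · simp only [if_pos h, one_mul]
      rw [Finset.mul_sum]
      refine Finset.sum_congr rfl fun y _ => ?_
      rw [hG]
      simp only [hPu, Function.update_self]
      ring
    · simp only [if_neg h]
      simp
  rw [Finset.sum_congr rfl (fun τ _ => hL τ), Finset.sum_congr rfl (fun τ _ => hR τ)]
  have h1 : ∑ τ : V → X, ∑ y, (if τ v = D.pt then G (Function.update τ v y) else 0) =
      ∑ p : (V → X) × X, (if p.1 v = D.pt then G (Function.update p.1 v p.2) else 0) :=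
    (Fintype.sum_prod_type (fun p : (V → X) × X =>
      if p.1 v = D.pt then G (Function.update p.1 v p.2) else 0)).symm
  rw [h1, ← Finset.sum_filter]
  symm
  refine Finset.sum_nbij' (fun p => Function.update p.1 v p.2)
    (fun τ => (Function.update τ v D.pt, τ v)) ?_ ?_ ?_ ?_ ?_
  · intro p _; exact Finset.mem_univ _
  · intro τ _; simp
  · rintro ⟨τ, y⟩ hp
    simp only [Finset.mem_filter, Finset.mem_univ, true_and] at hp
    simp only [Function.update_self, Function.update_idem]
    rw [← hp, Function.update_eq_self]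
  · intro τ _; simp
  · intro p _; rfl

theorem ev_congr (D : TagSpace m Γ X) (B : Finset V) (F F' : (V → X) → ℝ)
    (h : ∀ τ : V → X, (∀ v ∈ B, τ v = D.pt) → F τ = F' τ) : Ev D B F = Ev D B F' := by
  rw [ev_eq, ev_eq]
  refine Finset.sum_congr rfl fun τ _ => ?_
  by_cases hτ : ∀ v ∈ B, τ v = D.pt
  · rw [h τ hτ]
  · push Not at hτ
    obtain ⟨v, hv, hne⟩ := hτ
    have h0 : ∏ u, wgt D B u (τ u) = 0 :=
      Finset.prod_eq_zero (Finset.mem_univ v) (by simp [wgt, hv, hne])
    rw [h0, zero_mul, zero_mul]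

theorem ev_add (D : TagSpace m Γ X) (B : Finset V) (F F' : (V → X) → ℝ) :
    Ev D B (fun τ => F τ + F' τ) = Ev D B F + Ev D B F' := by
  rw [ev_eq, ev_eq, ev_eq, ← Finset.sum_add_distrib]
  exact Finset.sum_congr rfl fun τ _ => by ring

theorem ev_smul (D : TagSpace m Γ X) (B : Finset V) (r : ℝ) (F : (V → X) → ℝ) :
    Ev D B (fun τ => r * F τ) = r * Ev D B F := by
  rw [ev_eq, ev_eq, Finset.mul_sum]
  exact Finset.sum_congr rfl fun τ _ => by ring

theorem ev_sum {κ : Type} (D : TagSpace m Γ X) (B : Finset V) (s : Finset κ)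
    (F : κ → (V → X) → ℝ) :
    Ev D B (fun τ => ∑ i ∈ s, F i τ) = ∑ i ∈ s, Ev D B (F i) := by
  simp only [ev_eq]
  rw [Finset.sum_comm]
  exact Finset.sum_congr rfl fun τ _ => Finset.mul_sum _ _ _

theorem ev_const (D : TagSpace m Γ X) (hD : ∑ τ, D.μ τ = 1) (B : Finset V) :
    Ev D B (fun _ => 1) = 1 := by
  simp only [ev_eq, mul_one]
  have h := Finset.prod_univ_sum (fun _ : V => (Finset.univ : Finset X))
    (fun v y => wgt D B v y)
  rw [Fintype.piFinset_univ] at h
  rw [← h]
  refine Finset.prod_eq_one fun v _ => ?_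
  by_cases hv : v ∈ B
  · simp [wgt, hv]
  · simp [wgt, hv, hD]

end Pool.Agent.Lib.P325L
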