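import Pool.Agent.Lib.P325L.Defs
import Pool.Agent.Lib.P325L.OneV

/-!
Module W2Rec (1.5h; uses ev_one, ev_congr, ev_smul). Two tags inserted at the same vertex w.
PROOF. As in YRec: by ev_one at w and ev_congr (on Ev D (insert w B), τ w = pt), every factor
1 + eps e (update τ w y) is affine in the tags at y with constant term 1 + eps e τ; apply hD.w2
(n = E.card <= N) with factor (1/k^2) f a f' a': (1/k^2) ∑_{a,a'} f a f' a' gg m l j sg(a-a') =
gg m l j * (1/k) ∑_{a'} f' a' f a' since (1/k) ∑_a f a sg(a-a') = f a' (∑ f = 0).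
If w ∈ B the left-hand side vanishes: ins D l f pt = 0 (ev_congr) - that is ins_closed; there the
product may be any function.
-/

open scoped BigOperators

namespace Pool.Agent.Lib.P325L

variable {Γ : Type} [Fintype Γ] [AddCommGroup Γ] [DecidableEq Γ] {V ι X : Type} [DecidableEq V]
  [DecidableEq ι] [DecidableEq X] [Fintype V] [Fintype X] {m : ℕ}

namespace W2RecAux

/-- Affine functions of the tags. -/
private def Aff (D : TagSpace m Γ X) (g : X → ℝ) : Prop :=
  ∃ (p : ℝ) (q : Fin (m + 1) → Γ → ℝ), ∀ y, g y = p + ∑ l, ∑ b, q l b * D.T l b y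

private lemma aff_const (D : TagSpace m Γ X) (r : ℝ) : Aff D (fun _ => r) :=
  ⟨r, fun _ _ => 0, fun y => by simp⟩

private lemma aff_T (D : TagSpace m Γ X) (i : Fin (m + 1)) (a : Γ) : Aff D (fun y => D.T i a y) := by
  refine ⟨0, fun l b => if l = i then (if b = a then 1 else 0) else 0, fun y => ?_⟩
  rw [Finset.sum_eq_single i]
  · rw [Finset.sum_eq_single a]
    · simp
    · intro b _ hb; simp [hb]
    · intro h; exact absurd (Finset.mem_univ _) h
  · intro l _ hl; simp [hl]
  · intro h; exact absurd (Finset.mem_univ _) h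

private lemma aff_add (D : TagSpace m Γ X) {g h : X → ℝ} (hg : Aff D g) (hh : Aff D h) :
    Aff D (fun y => g y + h y) := by
  obtain ⟨p, q, h1⟩ := hg
  obtain ⟨p', q', h2⟩ := hh
  refine ⟨p + p', fun l b => q l b + q' l b, fun y => ?_⟩
  show g y + h y = _
  rw [h1, h2]
  simp only [add_mul, Finset.sum_add_distrib]
  ring

private lemma aff_smul (D : TagSpace m Γ X) {g : X → ℝ} (r : ℝ) (hg : Aff D g) :
    Aff D (fun y => r * g y) := by
  obtain ⟨p, q, h1⟩ := hg
  refine ⟨r * p, fun l b => r * q l b, fun y => ?_⟩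
  show r * g y = _
  rw [h1]
  simp only [mul_add, Finset.mul_sum, mul_assoc]

private lemma aff_sum (D : TagSpace m Γ X) {κ : Type} (s : Finset κ) (g : κ → X → ℝ)
    (hg : ∀ i ∈ s, Aff D (g i)) : Aff D (fun y => ∑ i ∈ s, g i y) := by
  classical
  induction s using Finset.induction_on with
  | empty => simpa using aff_const D 0
  | insert a s ha ih =>
    simp only [Finset.sum_insert ha]
    exact aff_add D (hg a (Finset.mem_insert_self _ _))
      (ih fun i hi => hg i (Finset.mem_insert_of_mem hi))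

private lemma aff_upd (D : TagSpace m Γ X) (τ : V → X) (w v : V) (i : Fin (m + 1)) (a : Γ) :
    Aff D (fun y => D.T i a (Function.update τ w y v)) := by
  by_cases h : v = w
  · subst h
    simpa using aff_T D i a
  · simpa [Function.update_of_ne h] using aff_const D (D.T i a (τ v))

private lemma aff_upd2 (D : TagSpace m Γ X) (τ : V → X) (w v v' : V) (hvv : v ≠ v')
    (i j : Fin (m + 1)) (a b : Γ) :
    Aff D (fun y => D.T i a (Function.update τ w y v) * D.T j b (Function.update τ w y v')) := by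
  by_cases h : v = w
  · subst h
    have := aff_smul D (D.T j b (τ v')) (aff_T D i a)
    simpa [Function.update_of_ne (Ne.symm hvv), mul_comm] using this
  · simp only [Function.update_of_ne h]
    exact aff_smul D _ (aff_upd D τ w v' j b)

private lemma aff_eps (D : TagSpace m Γ X) (G : Gr V ι) (sh : ι → Γ) (θ : ℝ)
    (c : ℕ → ℝ) (x : V → Γ) (e : ι) (τ : V → X) (w : V) :
    Aff D (fun y => 1 + eps D G sh θ c x e (Function.update τ w y)) := by
  unfold eps
  refine aff_add D (aff_const D 1) (aff_add D (aff_smul D _ (aff_add D (aff_upd D τ w _ _ _)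
    (aff_upd D τ w _ _ _))) (aff_smul D _ (aff_sum D _ _ fun i _ => aff_sum D _ _ fun j _ =>
      aff_smul D _ (aff_sum D _ _ fun a _ => aff_upd2 D τ w _ _ (G.ne e) _ _ _ _))))

private lemma sum_sg [DecidableEq Γ] (f : Γ → ℝ) (hf : ∑ a, f a = 0) (a' : Γ) :
    ∑ a, f a * sg (a - a') = (Fintype.card Γ : ℝ) * f a' := by
  have h1 : ∀ a, f a * sg (a - a') = (if a = a' then (Fintype.card Γ : ℝ) * f a else 0) - f a := by
    intro a
    unfold sg
    by_cases h : a = a'
    · subst h; simp; ring
    · rw [if_neg (sub_ne_zero.2 h), if_neg h]; ring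
  simp only [h1, Finset.sum_sub_distrib, hf]
  simp

end W2RecAux

open W2RecAux

theorem ins_closed (D : TagSpace m Γ X) (N : ℕ) (hD : D.Good N) (B : Finset V) (w : V)
    (hw : w ∈ B) (l : Fin (m + 1)) (f : Γ → ℝ) (F : (V → X) → ℝ) :
    Ev D B (fun τ => ins D l f (τ w) * F τ) = 0 := by
  have h := ev_congr D B (fun τ => ins D l f (τ w) * F τ) (fun τ => 0 * F τ) (by
    intro τ hτ
    have : τ w = D.pt := hτ w hw
    simp only [this, ins, hD.null]
    simp)
  rw [h, ev_smul, zero_mul]

theorem w2_rec (D : TagSpace m Γ X) (N : ℕ) (hD : D.Good N) (G : Gr V ι) (sh : ι → Γ) (θ : ℝ)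
    (c : ℕ → ℝ) (x : V → Γ) (B : Finset V) (w : V) (hw : w ∉ B) (l j : Fin (m + 1))
    (f f' : Γ → ℝ) (hf : ∑ a, f a = 0) (E : Finset ι) (hE : E.card ≤ N) :
    Ev D B (fun τ => ins D l f (τ w) * ins D j f' (τ w) *
      (∏ e ∈ E, (1 + eps D G sh θ c x e τ))) =
      gg m l j * (1 / (Fintype.card Γ : ℝ) * ∑ a, f a * f' a) *
        Ev D (insert w B) (fun τ => ∏ e ∈ E, (1 + eps D G sh θ c x e τ)) := by
  have hk : (Fintype.card Γ : ℝ) ≠ 0 := by
    have : 0 < Fintype.card Γ := Fintype.card_pos_iff.2 ⟨0⟩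
    positivity
  rw [ev_one D B w hw, ← ev_smul]
  apply ev_congr
  intro τ hτ
  have hw0 : τ w = D.pt := hτ w (Finset.mem_insert_self _ _)
  choose p q hpq using fun e => aff_eps D G sh θ c x e τ w
  have hp : ∀ e, p e = 1 + eps D G sh θ c x e τ := by
    intro e
    have h1 := hpq e D.pt
    simp only [hD.null, mul_zero, Finset.sum_const_zero, add_zero] at h1
    rw [← h1, ← hw0, Function.update_eq_self]
  -- the product as a product over Fin
  have hprod : ∀ g : ι → ℝ, ∏ e ∈ E, g e = ∏ s : Fin E.card, g ((E.equivFin.symm s : E) : ι) := by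
    intro g
    rw [← Finset.prod_coe_sort E g]
    exact (Equiv.prod_comp E.equivFin.symm (fun e : E => g e)).symm
  have hw2 := fun a a' => hD.w2 l a j a' E.card hE (fun s => p ((E.equivFin.symm s : E) : ι))
    (fun s => q ((E.equivFin.symm s : E) : ι))
  simp only [Function.update_self]
  have e1 : ∀ y, ∏ e ∈ E, (1 + eps D G sh θ c x e (Function.update τ w y)) =
      ∏ s : Fin E.card, (p ((E.equivFin.symm s : E) : ι) +
        ∑ l, ∑ b, q ((E.equivFin.symm s : E) : ι) l b * D.T l b y) := by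
    intro y
    rw [hprod]
    exact Finset.prod_congr rfl fun s _ => hpq _ y
  have e2 : ∏ e ∈ E, (1 + eps D G sh θ c x e τ) =
      ∏ s : Fin E.card, p ((E.equivFin.symm s : E) : ι) := by
    rw [hprod]
    exact Finset.prod_congr rfl fun s _ => (hp _).symm
  rw [e2]
  set P0 := ∏ s : Fin E.card, p ((E.equivFin.symm s : E) : ι) with hP0
  simp only [e1]
  set P : X → ℝ := fun y => ∏ s : Fin E.card, (p ((E.equivFin.symm s : E) : ι) +
        ∑ l, ∑ b, q ((E.equivFin.symm s : E) : ι) l b * D.T l b y) with hP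
  have hw2' : ∀ a a', ∑ y, D.μ y * (D.T l a y * D.T j a' y * P y) =
      gg m l j * sg (a - a') * P0 := fun a a' => hw2 a a'
  have e3 : ∑ y, D.μ y * (ins D l f y * ins D j f' y * P y) =
      ∑ a', ∑ a, (1 / (Fintype.card Γ : ℝ)) ^ 2 * f' a' * (f a *
        ∑ y, D.μ y * (D.T l a y * D.T j a' y * P y)) := by
    have : ∀ y, D.μ y * (ins D l f y * ins D j f' y * P y) =
        ∑ a', ∑ a, (1 / (Fintype.card Γ : ℝ)) ^ 2 * f' a' * (f a *
          (D.μ y * (D.T l a y * D.T j a' y * P y))) := by
      intro y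
      unfold ins
      simp only [Finset.mul_sum, Finset.sum_mul]
      refine Finset.sum_congr rfl fun a' _ => Finset.sum_congr rfl fun a _ => ?_
      ring
    simp only [this]
    rw [Finset.sum_comm]
    refine Finset.sum_congr rfl fun a' _ => ?_
    rw [Finset.sum_comm]
    refine Finset.sum_congr rfl fun a _ => ?_
    simp only [Finset.mul_sum]
  have e3' : ∑ y, D.μ y * (ins D l f y * ins D j f' y * P y) =
      gg m l j * (1 / (Fintype.card Γ : ℝ) * ∑ a, f a * f' a) * P0 := by
    rw [e3]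
    simp only [hw2']
    have : ∀ a', ∑ a, (1 / (Fintype.card Γ : ℝ)) ^ 2 * f' a' * (f a * (gg m l j * sg (a - a') * P0))
        = (1 / (Fintype.card Γ : ℝ)) * (gg m l j * P0) * (f a' * f' a') := by
      intro a'
      have h2 : ∀ a, (1 / (Fintype.card Γ : ℝ)) ^ 2 * f' a' *
          (f a * (gg m l j * sg (a - a') * P0)) =
          ((1 / (Fintype.card Γ : ℝ)) ^ 2 * f' a' * (gg m l j * P0)) * (f a * sg (a - a')) := by
        intro a; ring
      simp only [h2]
      rw [← Finset.mul_sum, sum_sg f hf a']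
      field_simp
    simp only [this]
    rw [← Finset.mul_sum]
    ring
  exact e3'

end Pool.Agent.Lib.P325L
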