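import Pool.Agent.Lib.P325L.Defs
import Pool.Agent.Lib.P325L.OneV

/-!
Module YRec (2.8h; uses ev_one, ev_congr, ev_add, ev_smul, ev_sum). Following a tag inserted at v.
PROOF. Let k = card Γ. By ev_one at v and then ev_congr on Ev D (insert v B) (where τ v = pt) it
suffices to show, for τ with τ v = pt, writing τ' = update τ v y:
(*) ∑_y μ y * ins D i f y * ∏_{e∈E}(1 + eps e τ') * R τ' = the integrand of the right-hand side at τ.
R τ' = R τ. For e in E not incident with v: eps e τ' = eps e τ. For e incident with v the factor is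
affine in the tags at v: 1 + eps e τ' = p e + ∑_{l,b'} q e l b' * T l b' y with p e = 1 + eps e τ (its
value at y = pt, where all tags vanish) and
- if src e = v: q e l b' = (θ/aE) [l=0][b' = x(tgt e) - sh e] + (1/k) ∑_j mE e l j T j (b' + sh e) (τ (tgt e)),
- if tgt e = v: q e l b' = (θ/aE) [l=0][b' = x(src e) + sh e] + (1/k) ∑_j mE e j l T j (b' - sh e) (τ (src e)).
(src e ≠ tgt e.) Put q e = 0 for e not incident. Enumerate E by Fin n, n = E.card <= N
(E.equivFin or Finset.prod_equiv), apply hD.w1 for each a with factor (1/k) f a and sum over a: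
the result is ∑_{e∈E} (∑_{l,b'} q e l b' gg m i l * (1/k) ∑_a f a sg(a - b')) * ∏_{e'≠e} p e', and
(1/k) ∑_a f a sg(a-b') = f b' because ∑ f = 0. For e incident with v:
∑_{l,b'} q e l b' gg m i l f b' = (θ/aE) gg m i 0 f(lab e v) + ∑_l (∑_j gg m i j mE e j l)
 * (1/k) ∑_{b'} f b' T l (b' + sh e) (τ (tgt e))     [src e = v; similarly for tgt e = v, mE symmetric]
gg m i 0 = -[i = m]; ∑_j gg m i j mE e j l = - mE e (m-i) l = trn e i l (check: (m-i)+l <= m iff
l <= i and then m-((m-i)+l) = i-l; (m-i)+l = m+1 iff l = i+1); and (1/k) ∑_{b'} f b' T l (b'+sh e) =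
ins D l (fsh e v f) (τ (oth e v)) after substituting a = b' + sh e (resp. b' - sh e).
∏_{e'≠e} p e' = ∏_{E.erase e} (1 + eps e' τ).
-/

open scoped BigOperators

namespace Pool.Agent.Lib.P325L

variable {Γ : Type} [Fintype Γ] [AddCommGroup Γ] [DecidableEq Γ] {V ι X : Type} [DecidableEq V]
  [DecidableEq ι] [DecidableEq X] [Fintype V] [Fintype X] {m : ℕ}

namespace YRecAux

section Pick

omit [DecidableEq V] [DecidableEq ι] [DecidableEq X] [Fintype V] [Fintype X] in
theorem pick (F : Fin (m + 1) → Γ → ℝ) (g0 : Γ) :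
    ∑ l : Fin (m + 1), ∑ b, (if l.val = 0 ∧ b = g0 then (1 : ℝ) else 0) * F l b = F 0 g0 := by
  rw [Finset.sum_eq_single (0 : Fin (m + 1))]
  · rw [Finset.sum_eq_single g0]
    · rw [if_pos ⟨rfl, rfl⟩, one_mul]
    · intro b _ hb
      rw [if_neg (fun h => hb h.2), zero_mul]
    · intro h
      exact absurd (Finset.mem_univ _) h
  · intro l _ hl
    refine Finset.sum_eq_zero fun b _ => ?_
    rw [if_neg (fun h => hl (Fin.ext h.1)), zero_mul]
  · intro h
    exact absurd (Finset.mem_univ _) h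

theorem sg_sum (f : Γ → ℝ) (hf : ∑ a, f a = 0) (b : Γ) :
    (1 / (Fintype.card Γ : ℝ)) * ∑ a, f a * sg (a - b) = f b := by
  have hk : (Fintype.card Γ : ℝ) ≠ 0 := by
    have : 0 < Fintype.card Γ := Fintype.card_pos_iff.2 ⟨b⟩
    positivity
  have h1 : ∀ a, f a * sg (a - b) = (if a = b then (Fintype.card Γ : ℝ) * f a else 0) - f a := by
    intro a
    unfold sg
    by_cases h : a = b
    · rw [if_pos (sub_eq_zero.2 h), if_pos h]
      ring
    · rw [if_neg (fun h' => h (sub_eq_zero.1 h')), if_neg h]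
      ring
  rw [Finset.sum_congr rfl fun a _ => h1 a, Finset.sum_sub_distrib, hf, sub_zero,
    Finset.sum_ite_eq' Finset.univ b]
  rw [if_pos (Finset.mem_univ b)]
  field_simp

end Pick

omit [Fintype Γ] [AddCommGroup Γ] [DecidableEq Γ] [DecidableEq V] [DecidableEq ι] [DecidableEq X]
  [Fintype V] [Fintype X] in
theorem swap_sum [Fintype Γ] (E : Finset ι) (k r : ℝ) (f : Γ → ℝ) (S : Γ → ι → ℝ) (P : ι → ℝ) :
    k * ∑ a, f a * (r * ∑ e ∈ E, S a e * P e) =
      ∑ e ∈ E, (k * ∑ a, f a * S a e) * (P e * r) := by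
  simp only [Finset.mul_sum, Finset.sum_mul]
  rw [Finset.sum_comm]
  refine Finset.sum_congr rfl fun e _ => Finset.sum_congr rfl fun a _ => ?_
  ring

theorem w1_finset {D : TagSpace m Γ X} {N : ℕ} (hD : D.Good N) (i : Fin (m + 1)) (a : Γ)
    (E : Finset ι) (hE : E.card ≤ N) (p : ι → ℝ) (q : ι → Fin (m + 1) → Γ → ℝ) :
    ∑ τ, D.μ τ * (D.T i a τ * ∏ e ∈ E, (p e + ∑ l, ∑ b, q e l b * D.T l b τ)) =
      ∑ e ∈ E, (∑ l, ∑ b, q e l b * (gg m i l * sg (a - b))) * ∏ e' ∈ E.erase e, p e' := by
  obtain ⟨g, hg⟩ : ∃ g : Fin E.card ↪ ι, Finset.univ.map g = E := by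
    refine ⟨E.equivFin.symm.toEmbedding.trans (Function.Embedding.subtype _), ?_⟩
    ext e
    rw [Finset.mem_map]
    constructor
    · rintro ⟨s, _, rfl⟩
      exact (E.equivFin.symm s).2
    · intro he
      refine ⟨E.equivFin ⟨e, he⟩, Finset.mem_univ _, ?_⟩
      show ((E.equivFin.symm (E.equivFin ⟨e, he⟩) : E) : ι) = e
      rw [Equiv.symm_apply_apply]
  have hp : ∀ F : ι → ℝ, ∏ e ∈ E, F e = ∏ s, F (g s) := fun F => by
    rw [← Finset.prod_map Finset.univ g F, hg]
  have hs : ∀ F : ι → ℝ, ∑ e ∈ E, F e = ∑ s, F (g s) := fun F => by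
    rw [← Finset.sum_map Finset.univ g F, hg]
  have he : ∀ (s : Fin E.card) (F : ι → ℝ),
      ∏ e ∈ E.erase (g s), F e = ∏ s' ∈ Finset.univ.erase s, F (g s') := fun s F => by
    rw [← Finset.prod_map _ g F, Finset.map_erase, hg]
  have h := hD.w1 i a E.card hE (fun s => p (g s)) (fun s => q (g s))
  rw [hs]
  simp only [he, hp]
  exact h

/-- the transported label -/
def mv (G : Gr V ι) (sh : ι → Γ) (e : ι) (v : V) (b : Γ) : Γ :=
  if G.src e = v then b + sh e else b - sh e

/-- the coefficients of the tags at `v` -/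
noncomputable def QQ (D : TagSpace m Γ X) (G : Gr V ι) (sh : ι → Γ) (θ : ℝ) (c : ℕ → ℝ)
    (x : V → Γ) (v : V) (τ : V → X) (e : ι) (l : Fin (m + 1)) (b : Γ) : ℝ :=
  if G.Inc e v then
    θ / aE G sh θ x e * (if l.val = 0 ∧ b = lab G sh x e v then 1 else 0) +
      (1 / (Fintype.card Γ : ℝ)) * ∑ j, mE G sh θ c m x e l j * D.T j (mv G sh e v b)
        (τ (G.oth e v))
  else 0

theorem mE_comm (G : Gr V ι) (sh : ι → Γ) (θ : ℝ) (c : ℕ → ℝ) (x : V → Γ) (e : ι)
    (i j : Fin (m + 1)) : mE G sh θ c m x e i j = mE G sh θ c m x e j i := by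
  unfold mE
  rw [Nat.add_comm i.val j.val]

theorem eps_upd {D : TagSpace m Γ X} (h0 : ∀ i a, D.T i a D.pt = 0) (G : Gr V ι) (sh : ι → Γ)
    (θ : ℝ) (c : ℕ → ℝ) (x : V → Γ) (v : V) (τ : V → X) (hτ : τ v = D.pt) (e : ι) (y : X) :
    1 + eps D G sh θ c x e (Function.update τ v y) =
      (1 + eps D G sh θ c x e τ) + ∑ l, ∑ b, QQ D G sh θ c x v τ e l b * D.T l b y := by
  have hexp : ∀ (A : ℝ) (g0 : Γ) (B : Fin (m + 1) → Γ → ℝ),
      ∑ l : Fin (m + 1), ∑ b, (A * (if l.val = 0 ∧ b = g0 then 1 else 0) + B l b) * D.T l b y =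
        A * D.T 0 g0 y + ∑ l, ∑ b, B l b * D.T l b y := by
    intro A g0 B
    have h1 := pick (fun l b => A * D.T l b y) g0
    rw [← h1, ← Finset.sum_add_distrib]
    refine Finset.sum_congr rfl fun l _ => ?_
    rw [← Finset.sum_add_distrib]
    refine Finset.sum_congr rfl fun b _ => ?_
    ring
  by_cases h1 : G.src e = v
  · have h2 : G.tgt e ≠ v := fun h => G.ne e (h1.trans h.symm)
    have hQ : ∀ l b, QQ D G sh θ c x v τ e l b =
        θ / aE G sh θ x e * (if l.val = 0 ∧ b = x (G.tgt e) - sh e then 1 else 0) +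
          (1 / (Fintype.card Γ : ℝ)) * ∑ j, mE G sh θ c m x e l j * D.T j (b + sh e)
            (τ (G.tgt e)) := by
      intro l b
      unfold QQ lab mv Gr.oth
      rw [if_pos (show G.Inc e v from Or.inl h1)]
      simp only [if_pos h1]
    simp only [hQ]
    rw [hexp]
    have e1 : Function.update τ v y (G.src e) = y := by rw [h1, Function.update_self]
    have e2 : Function.update τ v y (G.tgt e) = τ (G.tgt e) := Function.update_of_ne h2 _ _
    have e3 : τ (G.src e) = D.pt := by rw [h1, hτ]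
    unfold eps
    rw [e1, e2, e3]
    simp only [h0, zero_mul, Finset.sum_const_zero, mul_zero, zero_add, add_zero]
    have h3 : ∑ l, ∑ b, (1 / (Fintype.card Γ : ℝ) * ∑ j, mE G sh θ c m x e l j *
        D.T j (b + sh e) (τ (G.tgt e))) * D.T l b y =
        1 / (Fintype.card Γ : ℝ) * ∑ i, ∑ j, mE G sh θ c m x e i j *
          ∑ a, D.T i a y * D.T j (a + sh e) (τ (G.tgt e)) := by
      rw [Finset.mul_sum]
      refine Finset.sum_congr rfl fun l _ => ?_
      rw [Finset.mul_sum]
      simp only [Finset.mul_sum, Finset.sum_mul]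
      rw [Finset.sum_comm]
      refine Finset.sum_congr rfl fun j _ => Finset.sum_congr rfl fun b _ => ?_
      ring
    rw [h3]
    ring
  · by_cases h2 : G.tgt e = v
    · have hQ : ∀ l b, QQ D G sh θ c x v τ e l b =
          θ / aE G sh θ x e * (if l.val = 0 ∧ b = x (G.src e) + sh e then 1 else 0) +
            (1 / (Fintype.card Γ : ℝ)) * ∑ j, mE G sh θ c m x e l j * D.T j (b - sh e)
              (τ (G.src e)) := by
        intro l b
        unfold QQ lab mv Gr.oth
        rw [if_pos (show G.Inc e v from Or.inr h2)]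
        simp only [if_neg h1]
      simp only [hQ]
      rw [hexp]
      have e1 : Function.update τ v y (G.tgt e) = y := by rw [h2, Function.update_self]
      have e2 : Function.update τ v y (G.src e) = τ (G.src e) := Function.update_of_ne h1 _ _
      have e3 : τ (G.tgt e) = D.pt := by rw [h2, hτ]
      unfold eps
      rw [e1, e2, e3]
      simp only [h0, mul_zero, Finset.sum_const_zero, add_zero]
      have h3 : ∑ l, ∑ b, (1 / (Fintype.card Γ : ℝ) * ∑ j, mE G sh θ c m x e l j *
          D.T j (b - sh e) (τ (G.src e))) * D.T l b y =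
          1 / (Fintype.card Γ : ℝ) * ∑ i, ∑ j, mE G sh θ c m x e i j *
            ∑ a, D.T i a (τ (G.src e)) * D.T j (a + sh e) y := by
        have h4 : ∀ i j, ∑ a, D.T i a (τ (G.src e)) * D.T j (a + sh e) y =
            ∑ b, D.T i (b - sh e) (τ (G.src e)) * D.T j b y := by
          intro i j
          refine Fintype.sum_equiv (Equiv.addRight (sh e)) _ _ fun a => ?_
          show _ = D.T i (a + sh e - sh e) _ * D.T j (a + sh e) y
          rw [add_sub_cancel_right]
        simp only [h4]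
        have h5 : ∑ i, ∑ j, mE G sh θ c m x e i j *
            ∑ b, D.T i (b - sh e) (τ (G.src e)) * D.T j b y =
            ∑ j, ∑ i, mE G sh θ c m x e i j *
            ∑ b, D.T i (b - sh e) (τ (G.src e)) * D.T j b y := Finset.sum_comm
        rw [h5, Finset.mul_sum]
        refine Finset.sum_congr rfl fun l _ => ?_
        simp only [Finset.mul_sum, Finset.sum_mul]
        rw [Finset.sum_comm]
        refine Finset.sum_congr rfl fun j _ => Finset.sum_congr rfl fun b _ => ?_
        rw [mE_comm G sh θ c x e l j]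
        ring
      rw [h3]
      ring
    · have hQ : ∀ l b, QQ D G sh θ c x v τ e l b = 0 := by
        intro l b
        unfold QQ
        rw [if_neg]
        rintro (h | h)
        · exact h1 h
        · exact h2 h
      simp only [hQ, zero_mul, Finset.sum_const_zero, add_zero]
      unfold eps
      rw [Function.update_of_ne h1, Function.update_of_ne h2]

theorem gg_mE (G : Gr V ι) (sh : ι → Γ) (θ : ℝ) (c : ℕ → ℝ) (x : V → Γ) (e : ι)
    (i j : Fin (m + 1)) :
    ∑ l, gg m i l * mE G sh θ c m x e l j = trn G sh θ c m x e i j := by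
  have hi := i.2
  have hj := j.2
  rw [Finset.sum_eq_single (⟨m - i.val, by omega⟩ : Fin (m + 1))]
  · unfold gg mE trn
    rw [if_pos (show i.val + (m - i.val) = m by omega)]
    by_cases h1 : j.val ≤ i.val
    · rw [if_pos (show m - i.val + j.val ≤ m by omega), if_pos h1,
        if_neg (show ¬ (m - i.val + j.val = m + 1) by omega),
        if_neg (show ¬ (j.val = i.val + 1) by omega),
        show m - (m - i.val + j.val) = i.val - j.val by omega]
      ring
    · rw [if_neg (show ¬ (m - i.val + j.val ≤ m) by omega), if_neg h1]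
      by_cases h2 : j.val = i.val + 1
      · rw [if_pos (show m - i.val + j.val = m + 1 by omega), if_pos h2]
        ring
      · rw [if_neg (show ¬ (m - i.val + j.val = m + 1) by omega), if_neg h2]
        ring
  · intro l _ hl
    unfold gg
    rw [if_neg, zero_mul]
    intro h
    exact hl (Fin.ext (by show l.val = m - i.val; omega))
  · intro h
    exact absurd (Finset.mem_univ _) h

theorem ins_mv (D : TagSpace m Γ X) (G : Gr V ι) (sh : ι → Γ) (e : ι) (v : V) (f : Γ → ℝ)
    (j : Fin (m + 1)) (z : X) :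
    1 / (Fintype.card Γ : ℝ) * ∑ b, f b * D.T j (mv G sh e v b) z =
      ins D j (fsh G sh e v f) z := by
  unfold ins fsh mv
  by_cases h1 : G.src e = v
  · simp only [if_pos h1]
    congr 1
    refine Fintype.sum_equiv (Equiv.addRight (sh e)) _ _ fun a => ?_
    show _ = f (a + sh e - sh e) * D.T j (a + sh e) z
    rw [add_sub_cancel_right]
  · simp only [if_neg h1]
    congr 1
    refine Fintype.sum_equiv (Equiv.subRight (sh e)) _ _ fun a => ?_
    show _ = f (a - sh e + sh e) * D.T j (a - sh e) z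
    rw [sub_add_cancel]

theorem coef (D : TagSpace m Γ X) (G : Gr V ι) (sh : ι → Γ) (θ : ℝ) (c : ℕ → ℝ) (x : V → Γ)
    (v : V) (τ : V → X) (e : ι) (he : G.Inc e v) (i : Fin (m + 1)) (f : Γ → ℝ) :
    ∑ l, ∑ b, QQ D G sh θ c x v τ e l b * (gg m i l * f b) =
      -(θ / aE G sh θ x e * (if i.val = m then 1 else 0) * f (lab G sh x e v)) +
        ∑ l, trn G sh θ c m x e i l * ins D l (fsh G sh e v f) (τ (G.oth e v)) := by
  have h1 : ∀ l b, QQ D G sh θ c x v τ e l b * (gg m i l * f b) =
      (if l.val = 0 ∧ b = lab G sh x e v then 1 else 0) *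
        (θ / aE G sh θ x e * (gg m i l * f b)) +
      ∑ j, gg m i l * mE G sh θ c m x e l j *
        (1 / (Fintype.card Γ : ℝ) * (f b * D.T j (mv G sh e v b) (τ (G.oth e v)))) := by
    intro l b
    unfold QQ
    rw [if_pos he, add_mul]
    congr 1
    · ring
    · rw [Finset.mul_sum, Finset.sum_mul]
      refine Finset.sum_congr rfl fun j _ => ?_
      ring
  simp only [h1, Finset.sum_add_distrib]
  rw [pick (fun l b => θ / aE G sh θ x e * (gg m i l * f b)) (lab G sh x e v)]
  congr 1
  · unfold gg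
    show θ / aE G sh θ x e * ((if i.val + 0 = m then -1 else 0) * f (lab G sh x e v)) = _
    rw [Nat.add_zero]
    by_cases h : i.val = m
    · rw [if_pos h, if_pos h]
      ring
    · rw [if_neg h, if_neg h]
      ring
  · have h2 : ∀ l : Fin (m + 1), trn G sh θ c m x e i l *
        ins D l (fsh G sh e v f) (τ (G.oth e v)) =
        ∑ l', gg m i l' * mE G sh θ c m x e l' l * (1 / (Fintype.card Γ : ℝ) *
          ∑ b, f b * D.T l (mv G sh e v b) (τ (G.oth e v))) := by
      intro l
      rw [← Finset.sum_mul, gg_mE, ins_mv]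
    simp only [h2]
    calc ∑ l : Fin (m + 1), ∑ b, ∑ j, gg m i l * mE G sh θ c m x e l j *
          (1 / (Fintype.card Γ : ℝ) * (f b * D.T j (mv G sh e v b) (τ (G.oth e v))))
        = ∑ l : Fin (m + 1), ∑ j, ∑ b, gg m i l * mE G sh θ c m x e l j *
          (1 / (Fintype.card Γ : ℝ) * (f b * D.T j (mv G sh e v b) (τ (G.oth e v)))) :=
          Finset.sum_congr rfl fun l _ => Finset.sum_comm
      _ = ∑ j, ∑ l : Fin (m + 1), ∑ b, gg m i l * mE G sh θ c m x e l j *
          (1 / (Fintype.card Γ : ℝ) * (f b * D.T j (mv G sh e v b) (τ (G.oth e v)))) :=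
          Finset.sum_comm
      _ = _ := by
          refine Finset.sum_congr rfl fun j _ => Finset.sum_congr rfl fun l _ => ?_
          rw [← Finset.mul_sum, ← Finset.mul_sum]

end YRecAux

theorem y_rec (D : TagSpace m Γ X) (N : ℕ) (hD : D.Good N) (G : Gr V ι) (sh : ι → Γ) (θ : ℝ)
    (c : ℕ → ℝ) (x : V → Γ) (B : Finset V) (v : V) (hv : v ∉ B) (i : Fin (m + 1)) (f : Γ → ℝ)
    (hf : ∑ a, f a = 0) (R : (V → X) → ℝ) (hR : ∀ τ y, R (Function.update τ v y) = R τ)
    (E : Finset ι) (hE : E.card ≤ N) :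
    Ev D B (fun τ => ins D i f (τ v) * (∏ e ∈ E, (1 + eps D G sh θ c x e τ)) * R τ) =
      ∑ e ∈ E.filter (fun e => G.Inc e v),
        (-(θ / aE G sh θ x e * (if i.val = m then 1 else 0) * f (lab G sh x e v)) *
          Ev D (insert v B) (fun τ => (∏ e' ∈ E.erase e, (1 + eps D G sh θ c x e' τ)) * R τ) +
        ∑ l : Fin (m + 1), trn G sh θ c m x e i l *
          Ev D (insert v B) (fun τ => ins D l (fsh G sh e v f) (τ (G.oth e v)) *
            (∏ e' ∈ E.erase e, (1 + eps D G sh θ c x e' τ)) * R τ)) := by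
  classical
  rw [ev_one D B v hv]
  have hrhs : (∑ e ∈ E.filter (fun e => G.Inc e v),
        (-(θ / aE G sh θ x e * (if i.val = m then 1 else 0) * f (lab G sh x e v)) *
          Ev D (insert v B) (fun τ => (∏ e' ∈ E.erase e, (1 + eps D G sh θ c x e' τ)) * R τ) +
        ∑ l : Fin (m + 1), trn G sh θ c m x e i l *
          Ev D (insert v B) (fun τ => ins D l (fsh G sh e v f) (τ (G.oth e v)) *
            (∏ e' ∈ E.erase e, (1 + eps D G sh θ c x e' τ)) * R τ))) =
      Ev D (insert v B) (fun τ => ∑ e ∈ E.filter (fun e => G.Inc e v),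
        (-(θ / aE G sh θ x e * (if i.val = m then 1 else 0) * f (lab G sh x e v)) *
          ((∏ e' ∈ E.erase e, (1 + eps D G sh θ c x e' τ)) * R τ) +
        ∑ l : Fin (m + 1), trn G sh θ c m x e i l *
          (ins D l (fsh G sh e v f) (τ (G.oth e v)) *
            (∏ e' ∈ E.erase e, (1 + eps D G sh θ c x e' τ)) * R τ))) := by
    rw [ev_sum]
    refine Finset.sum_congr rfl fun e _ => ?_
    rw [ev_add, ev_smul, ev_sum]
    congr 1
    refine Finset.sum_congr rfl fun l _ => ?_
    rw [ev_smul]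
  rw [hrhs]
  refine ev_congr D (insert v B) _ _ fun τ hτ => ?_
  have hτv : τ v = D.pt := hτ v (Finset.mem_insert_self v B)
  have hstep : ∀ y, ins D i f (Function.update τ v y v) *
      (∏ e ∈ E, (1 + eps D G sh θ c x e (Function.update τ v y))) *
        R (Function.update τ v y) =
      (1 / (Fintype.card Γ : ℝ)) * ∑ a, f a * (R τ * (D.T i a y *
        ∏ e ∈ E, ((1 + eps D G sh θ c x e τ) +
          ∑ l, ∑ b, YRecAux.QQ D G sh θ c x v τ e l b * D.T l b y))) := by
    intro y
    rw [Function.update_self, hR]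
    have h1 : ∏ e ∈ E, (1 + eps D G sh θ c x e (Function.update τ v y)) =
        ∏ e ∈ E, ((1 + eps D G sh θ c x e τ) +
          ∑ l, ∑ b, YRecAux.QQ D G sh θ c x v τ e l b * D.T l b y) :=
      Finset.prod_congr rfl fun e _ => YRecAux.eps_upd hD.null G sh θ c x v τ hτv e y
    rw [h1]
    unfold ins
    rw [mul_assoc, mul_assoc, Finset.sum_mul]
    congr 1
    refine Finset.sum_congr rfl fun a _ => ?_
    ring
  have hA : ∑ y, D.μ y * (ins D i f (Function.update τ v y v) *
      (∏ e ∈ E, (1 + eps D G sh θ c x e (Function.update τ v y))) *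
        R (Function.update τ v y)) =
      (1 / (Fintype.card Γ : ℝ)) * ∑ a, f a * (R τ * ∑ y, D.μ y * (D.T i a y *
        ∏ e ∈ E, ((1 + eps D G sh θ c x e τ) +
          ∑ l, ∑ b, YRecAux.QQ D G sh θ c x v τ e l b * D.T l b y))) := by
    simp only [hstep]
    simp only [Finset.mul_sum]
    rw [Finset.sum_comm]
    refine Finset.sum_congr rfl fun a _ => Finset.sum_congr rfl fun y _ => ?_
    ring
  rw [hA]
  simp only [YRecAux.w1_finset hD i _ E hE (fun e => 1 + eps D G sh θ c x e τ)
    (fun e l b => YRecAux.QQ D G sh θ c x v τ e l b)]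
  -- exchange the sums over the labels and the edges
  have hB : (1 / (Fintype.card Γ : ℝ)) * ∑ a, f a * (R τ * ∑ e ∈ E,
      (∑ l, ∑ b, YRecAux.QQ D G sh θ c x v τ e l b * (gg m i l * sg (a - b))) *
        ∏ e' ∈ E.erase e, (1 + eps D G sh θ c x e' τ)) =
      ∑ e ∈ E, (∑ l, ∑ b, YRecAux.QQ D G sh θ c x v τ e l b * (gg m i l * f b)) *
        ((∏ e' ∈ E.erase e, (1 + eps D G sh θ c x e' τ)) * R τ) := by
    have h2 : ∀ e, ∑ l, ∑ b, YRecAux.QQ D G sh θ c x v τ e l b * (gg m i l * f b) =
        (1 / (Fintype.card Γ : ℝ)) * ∑ a, f a * ∑ l, ∑ b,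
          YRecAux.QQ D G sh θ c x v τ e l b * (gg m i l * sg (a - b)) := by
      intro e
      calc ∑ l, ∑ b, YRecAux.QQ D G sh θ c x v τ e l b * (gg m i l * f b)
          = ∑ l, ∑ b, ∑ a, (1 / (Fintype.card Γ : ℝ)) * (f a *
            (YRecAux.QQ D G sh θ c x v τ e l b * (gg m i l * sg (a - b)))) := by
            refine Finset.sum_congr rfl fun l _ => Finset.sum_congr rfl fun b _ => ?_
            conv_lhs => rw [← YRecAux.sg_sum f hf b]
            simp only [Finset.mul_sum]
            refine Finset.sum_congr rfl fun a _ => ?_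
            ring
        _ = ∑ l, ∑ a, ∑ b, (1 / (Fintype.card Γ : ℝ)) * (f a *
            (YRecAux.QQ D G sh θ c x v τ e l b * (gg m i l * sg (a - b)))) :=
            Finset.sum_congr rfl fun l _ => Finset.sum_comm
        _ = ∑ a, ∑ l, ∑ b, (1 / (Fintype.card Γ : ℝ)) * (f a *
            (YRecAux.QQ D G sh θ c x v τ e l b * (gg m i l * sg (a - b)))) := Finset.sum_comm
        _ = _ := by simp only [Finset.mul_sum]
    rw [YRecAux.swap_sum E (1 / (Fintype.card Γ : ℝ)) (R τ) f
      (fun a e => ∑ l, ∑ b, YRecAux.QQ D G sh θ c x v τ e l b * (gg m i l * sg (a - b)))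
      (fun e => ∏ e' ∈ E.erase e, (1 + eps D G sh θ c x e' τ))]
    refine Finset.sum_congr rfl fun e _ => ?_
    rw [h2 e]
  rw [hB, Finset.sum_filter]
  refine Finset.sum_congr rfl fun e _ => ?_
  by_cases he : G.Inc e v
  · rw [if_pos he, YRecAux.coef D G sh θ c x v τ e he i f, add_mul]
    congr 1
    rw [Finset.sum_mul]
    refine Finset.sum_congr rfl fun l _ => ?_
    ring
  · rw [if_neg he]
    have h3 : ∀ l b, YRecAux.QQ D G sh θ c x v τ e l b = 0 := fun l b => if_neg he
    simp only [h3, zero_mul, Finset.sum_const_zero]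

end Pool.Agent.Lib.P325L
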