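import Pool.Agent.Lib.P325L.Defs
import Pool.Agent.Lib.P325L.YRec
import Pool.Agent.Lib.P325L.W2Rec
import Pool.Agent.Lib.P325L.ARec
import Pool.Agent.Lib.P325L.Tails

/-!
Module YA (2h; uses y_rec, ins_closed, asum_rec, asum_nonneg, trn_bd, quot_bd, ev lemmas). Bound for one inserted tag.
NOTATION Z B E = Ev D B (∏_{e∈E} (1 + eps e)), α = t^2/(1-t^2), θ = t^2.
PROOF by strong induction on E.card (for all B, v, i, f, F). If v ∈ B the left side is 0
(ins_closed). If v ∉ B apply y_rec with R = 1: absolute value at most the sum over e ∈ E at v of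
 (θ/aE) [i=m] |f(lab)| |Z (insert v B) (E.erase e)| + ∑_l |trn i l| |Ev (insert v B) (ins l (fsh e v f) ..)|.
|Z ..| <= K (E.erase e ⊆ H, card <= n). fsh e v f is again bounded by F with sum 0 (translate of f),
(E.erase e).card < E.card, so by induction the last factor is <= F t^(m-l) Asum (E.erase e) (oth e v) K.
With θ/aE <= α, [i=m] <= t^(m-i) and trn_bd: total <= F K t^(m-i) ∑_e (α + Q Asum(E.erase e)(oth e v))
<= F K t^(m-i) Asum E v by asum_rec.
-/

open scoped BigOperators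

namespace Pool.Agent.Lib.P325L

variable {Γ : Type} [Fintype Γ] [AddCommGroup Γ] [DecidableEq Γ] {V ι X : Type} [DecidableEq V]
  [DecidableEq ι] [DecidableEq X] [Fintype V] [Fintype X] {m : ℕ}

private theorem fsh_sum (G : Gr V ι) (sh : ι → Γ) (e : ι) (v : V) (f : Γ → ℝ)
    (hf : ∑ a, f a = 0) : ∑ a, fsh G sh e v f a = 0 := by
  unfold fsh
  split_ifs
  · rw [← hf]
    exact Fintype.sum_equiv (Equiv.subRight (sh e)) _ _ (fun _ => rfl)
  · rw [← hf]
    exact Fintype.sum_equiv (Equiv.addRight (sh e)) _ _ (fun _ => rfl)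

private theorem fsh_bd (G : Gr V ι) (sh : ι → Γ) (e : ι) (v : V) (f : Γ → ℝ) (F : ℝ)
    (hF : ∀ a, |f a| ≤ F) (a : Γ) : |fsh G sh e v f a| ≤ F := by
  unfold fsh
  split_ifs
  · exact hF _
  · exact hF _

theorem ya (D : TagSpace m Γ X) (N : ℕ) (hD : D.Good N) (G : Gr V ι) (sh : ι → Γ) (t Q : ℝ)
    (h0 : 0 < t) (h1 : t < 1) (c : ℕ → ℝ) (hc : ∀ j, 0 ≤ c j) (hQ0 : 0 ≤ Q)
    (hQ : t + t ^ 2 / (1 - t ^ 2) * ∑ j ∈ Finset.range (m + 1), c j * t ^ j ≤ Q)
    (x : V → Γ) (H : Finset ι) (hH : H.card ≤ N) (n : ℕ) (K : ℝ) (hK : 0 ≤ K)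
    (hZ : ∀ B : Finset V, ∀ E ⊆ H, E.card ≤ n →
      |Ev D B (fun τ => ∏ e ∈ E, (1 + eps D G sh (t ^ 2) c x e τ))| ≤ K)
    (B : Finset V) (E : Finset ι) (hE : E ⊆ H) (hEn : E.card ≤ n + 1) (v : V)
    (i : Fin (m + 1)) (f : Γ → ℝ) (hf : ∑ a, f a = 0) (F : ℝ) (hF : ∀ a, |f a| ≤ F) :
    |Ev D B (fun τ => ins D i f (τ v) * ∏ e ∈ E, (1 + eps D G sh (t ^ 2) c x e τ))| ≤
      F * t ^ (m - i.val) * G.Asum (t ^ 2 / (1 - t ^ 2)) Q E v * K := by
  classical
  have ht2 : t ^ 2 < 1 := by nlinarith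
  have hα : 0 ≤ t ^ 2 / (1 - t ^ 2) := div_nonneg (by positivity) (by linarith)
  have hF0 : 0 ≤ F := le_trans (abs_nonneg _) (hF 0)
  suffices H0 : ∀ k : ℕ, ∀ (B : Finset V) (E : Finset ι), E ⊆ H → E.card ≤ n + 1 → E.card = k →
      ∀ (v : V) (i : Fin (m + 1)) (f : Γ → ℝ), ∑ a, f a = 0 → (∀ a, |f a| ≤ F) →
      |Ev D B (fun τ => ins D i f (τ v) * ∏ e ∈ E, (1 + eps D G sh (t ^ 2) c x e τ))| ≤
        F * t ^ (m - i.val) * G.Asum (t ^ 2 / (1 - t ^ 2)) Q E v * K from
    H0 E.card B E hE hEn rfl v i f hf hF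
  clear hF hf f i v hEn hE E B
  intro k
  induction k using Nat.strong_induction_on with
  | _ k ih =>
    intro B E hE hEn hk v i f hf hF
    have hA0 := asum_nonneg G (t ^ 2 / (1 - t ^ 2)) Q hα hQ0 E v
    by_cases hv : v ∈ B
    · rw [ins_closed D N hD B v hv i f
        (fun τ => ∏ e ∈ E, (1 + eps D G sh (t ^ 2) c x e τ)), abs_zero]
      positivity
    · have hr := y_rec D N hD G sh (t ^ 2) c x B v hv i f hf (fun _ => 1) (fun _ _ => rfl) E
        (le_trans (Finset.card_le_card hE) hH)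
      simp only [mul_one] at hr
      rw [hr]
      have hterm : ∀ e ∈ E.filter (fun e => G.Inc e v),
          |(-(t ^ 2 / aE G sh (t ^ 2) x e * (if i.val = m then 1 else 0) * f (lab G sh x e v)) *
            Ev D (insert v B) (fun τ => ∏ e' ∈ E.erase e, (1 + eps D G sh (t ^ 2) c x e' τ)) +
          ∑ l : Fin (m + 1), trn G sh (t ^ 2) c m x e i l *
            Ev D (insert v B) (fun τ => ins D l (fsh G sh e v f) (τ (G.oth e v)) *
              ∏ e' ∈ E.erase e, (1 + eps D G sh (t ^ 2) c x e' τ)))| ≤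
          F * K * t ^ (m - i.val) * (t ^ 2 / (1 - t ^ 2) +
            Q * G.Asum (t ^ 2 / (1 - t ^ 2)) Q (E.erase e) (G.oth e v)) := by
        intro e he
        have heE : e ∈ E := (Finset.mem_filter.1 he).1
        have hcard : (E.erase e).card + 1 = E.card := Finset.card_erase_add_one heE
        have hsub : E.erase e ⊆ H := (Finset.erase_subset e E).trans hE
        have hZe := hZ (insert v B) (E.erase e) hsub (by omega)
        have hAe := asum_nonneg G (t ^ 2 / (1 - t ^ 2)) Q hα hQ0 (E.erase e) (G.oth e v)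
        obtain ⟨hq0, hq1⟩ := quot_bd G sh (t ^ 2) (by positivity) ht2 x e
        have hpow : (0 : ℝ) ≤ t ^ (m - i.val) := pow_nonneg h0.le _
        have hone : |(if i.val = m then (1 : ℝ) else 0)| ≤ t ^ (m - i.val) := by
          split_ifs with h
          · rw [h, Nat.sub_self, pow_zero, abs_one]
          · rw [abs_zero]; exact hpow
        have t1 : |(-(t ^ 2 / aE G sh (t ^ 2) x e * (if i.val = m then 1 else 0) *
            f (lab G sh x e v)) *
            Ev D (insert v B) (fun τ => ∏ e' ∈ E.erase e, (1 + eps D G sh (t ^ 2) c x e' τ)))| ≤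
            t ^ 2 / (1 - t ^ 2) * t ^ (m - i.val) * F * K := by
          rw [abs_mul, abs_neg, abs_mul, abs_mul, abs_of_nonneg hq0]
          exact mul_le_mul (mul_le_mul (mul_le_mul hq1 hone (abs_nonneg _) hα) (hF _)
            (abs_nonneg _) (mul_nonneg hα hpow)) hZe (abs_nonneg _)
            (mul_nonneg (mul_nonneg hα hpow) hF0)
        have t2 : |∑ l : Fin (m + 1), trn G sh (t ^ 2) c m x e i l *
            Ev D (insert v B) (fun τ => ins D l (fsh G sh e v f) (τ (G.oth e v)) *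
              ∏ e' ∈ E.erase e, (1 + eps D G sh (t ^ 2) c x e' τ))| ≤
            F * G.Asum (t ^ 2 / (1 - t ^ 2)) Q (E.erase e) (G.oth e v) * K *
              (Q * t ^ (m - i.val)) := by
          have t3 := trn_bd G sh t Q h0 h1 c hc hQ x e i
          refine le_trans ?_ (mul_le_mul_of_nonneg_left t3
            (mul_nonneg (mul_nonneg hF0 hAe) hK))
          rw [Finset.mul_sum]
          refine (Finset.abs_sum_le_sum_abs _ _).trans (Finset.sum_le_sum fun l _ => ?_)
          rw [abs_mul]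
          have h5 := ih (E.erase e).card (by omega) (insert v B) (E.erase e) hsub (by omega) rfl
            (G.oth e v) l (fsh G sh e v f) (fsh_sum G sh e v f hf) (fsh_bd G sh e v f F hF)
          refine (mul_le_mul_of_nonneg_left h5 (abs_nonneg _)).trans (le_of_eq ?_)
          ring
        refine (abs_add_le _ _).trans ((add_le_add t1 t2).trans (le_of_eq ?_))
        ring
      refine (Finset.abs_sum_le_sum_abs _ _).trans ((Finset.sum_le_sum hterm).trans ?_)
      rw [← Finset.mul_sum]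
      have h6 := asum_rec G (t ^ 2 / (1 - t ^ 2)) Q hα hQ0 E v
      have h7 : 0 ≤ F * K * t ^ (m - i.val) :=
        mul_nonneg (mul_nonneg hF0 hK) (pow_nonneg h0.le _)
      refine (mul_le_mul_of_nonneg_left h6 h7).trans (le_of_eq ?_)
      ring

end Pool.Agent.Lib.P325L
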