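import Pool.Agent.Lib.P325L.Defs
import Pool.Agent.Lib.P325L.YA

/-!
Module YB (2.5h; uses y_rec, w2_rec, ins_closed, ya, asum_rec, asum_mono, csum_rec, trn_bd, quot_bd).
Bound for two inserted tags at different vertices.
PROOF by strong induction on E.card. v ∈ B: the left side is 0 (ins_closed). v ∉ B: y_rec with
R τ = ins D j f' (τ w) (independent of τ v as w ≠ v): the left side is the sum over e ∈ E at v of
(1) -(θ/aE)[i=m] f(lab) Ev (insert v B) (∏_{E.erase e} * ins j f' (τ w)): by ya at most
  α [i=m] F * F' t^(m-j) Asum (E.erase e) w K <= α t^(m-i) F F' t^(m-j) Asum E w K  (asum_mono),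
(2) ∑_l trn i l * Ev (insert v B) (ins l f~ (τ u) * ∏ * ins j f' (τ w)), u = oth e v, f~ = fsh e v f:
 - u ≠ w: induction: <= F F' (t^(m-l) t^(m-j) Asum (E.erase e) u * Asum (E.erase e) w +
   t^(m-l) / t^j * Csum w (E.erase e) u) K, and Asum (E.erase e) w <= Asum E w;
 - u = w, w ∉ insert v B: w2_rec: |gg m l j| * |(1/k) ∑ f~ f'| * |Z (insert w (insert v B)) (E.erase e)|
   <= [l+j=m] F F' K <= t^(m-l)/t^j F F' K (if l + j = m then m - l = j); w ∈ insert v B: it is 0
   (ins_closed).
Sum with trn_bd (∑_l |trn i l| t^(m-l) <= Q t^(m-i)):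
 total <= F F' K [ t^(m-i) t^(m-j) Asum E w ∑_e (α + Q Asum (E.erase e) (oth e v)) +
   t^(m-i)/t^j ∑_e Q (if oth e v = w then 1 else Csum w (E.erase e) (oth e v)) ],
then asum_rec and csum_rec. (In the case u = w the first bracket only needs the α term; it is
bounded by adding the nonnegative Q Asum.)
-/

open scoped BigOperators

namespace Pool.Agent.Lib.P325L

variable {Γ : Type} [Fintype Γ] [AddCommGroup Γ] [DecidableEq Γ] {V ι X : Type} [DecidableEq V]
  [DecidableEq ι] [DecidableEq X] [Fintype V] [Fintype X] {m : ℕ}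

namespace YBAux

theorem fsh_sum {ι' : Type} (G : Gr V ι') (sh : ι' → Γ) (e : ι') (v : V) (f : Γ → ℝ)
    (hf : ∑ a, f a = 0) : ∑ a, fsh G sh e v f a = 0 := by
  unfold fsh
  split_ifs
  · rw [← hf]
    exact Fintype.sum_equiv (Equiv.subRight (sh e)) _ _ fun a => rfl
  · rw [← hf]
    exact Fintype.sum_equiv (Equiv.addRight (sh e)) _ _ fun a => rfl

theorem fsh_bd {ι' : Type} (G : Gr V ι') (sh : ι' → Γ) (e : ι') (v : V) (f : Γ → ℝ) (F : ℝ)
    (hF : ∀ a, |f a| ≤ F) (a : Γ) : |fsh G sh e v f a| ≤ F := by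
  unfold fsh
  split_ifs
  · exact hF _
  · exact hF _

omit [DecidableEq Γ] [DecidableEq V] in
theorem avg_bd (f f' : Γ → ℝ) (F F' : ℝ) (hF : ∀ a, |f a| ≤ F) (hF' : ∀ a, |f' a| ≤ F') :
    |1 / (Fintype.card Γ : ℝ) * ∑ a, f a * f' a| ≤ F * F' := by
  have hk : (0 : ℝ) < Fintype.card Γ := by
    have : 0 < Fintype.card Γ := Fintype.card_pos_iff.2 ⟨0⟩
    exact_mod_cast this
  rw [abs_mul, abs_of_pos (by positivity : (0 : ℝ) < 1 / (Fintype.card Γ : ℝ)), one_div,
    inv_mul_le_iff₀ hk]
  calc |∑ a, f a * f' a| ≤ ∑ a, |f a * f' a| := Finset.abs_sum_le_sum_abs _ _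
    _ ≤ ∑ _a : Γ, F * F' := by
        refine Finset.sum_le_sum fun a _ => ?_
        rw [abs_mul]
        exact mul_le_mul (hF a) (hF' a) (abs_nonneg _) ((abs_nonneg _).trans (hF a))
    _ = Fintype.card Γ * (F * F') := by rw [Finset.sum_const, Finset.card_univ, nsmul_eq_mul]

end YBAux

open YBAux in
theorem yb (D : TagSpace m Γ X) (N : ℕ) (hD : D.Good N) (G : Gr V ι) (sh : ι → Γ) (t Q : ℝ)
    (h0 : 0 < t) (h1 : t < 1) (c : ℕ → ℝ) (hc : ∀ j, 0 ≤ c j) (hQ0 : 0 ≤ Q)
    (hQ : t + t ^ 2 / (1 - t ^ 2) * ∑ j ∈ Finset.range (m + 1), c j * t ^ j ≤ Q)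
    (x : V → Γ) (H : Finset ι) (hH : H.card ≤ N) (n : ℕ) (K : ℝ) (hK : 0 ≤ K)
    (hZ : ∀ B : Finset V, ∀ E ⊆ H, E.card ≤ n →
      |Ev D B (fun τ => ∏ e ∈ E, (1 + eps D G sh (t ^ 2) c x e τ))| ≤ K)
    (B : Finset V) (E : Finset ι) (hE : E ⊆ H) (hEn : E.card ≤ n + 1) (v w : V) (hvw : v ≠ w)
    (i j : Fin (m + 1)) (f f' : Γ → ℝ) (hf : ∑ a, f a = 0) (hf' : ∑ a, f' a = 0) (F F' : ℝ)
    (hF : ∀ a, |f a| ≤ F) (hF' : ∀ a, |f' a| ≤ F') :
    |Ev D B (fun τ => ins D i f (τ v) * ins D j f' (τ w) *
        ∏ e ∈ E, (1 + eps D G sh (t ^ 2) c x e τ))| ≤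
      F * F' * (t ^ (m - i.val) * t ^ (m - j.val) *
          (G.Asum (t ^ 2 / (1 - t ^ 2)) Q E v * G.Asum (t ^ 2 / (1 - t ^ 2)) Q E w) +
        t ^ (m - i.val) / t ^ j.val * G.Csum Q w E v) * K := by
  have ht2 : t ^ 2 < 1 := by nlinarith
  have ht2' : 0 < t ^ 2 := by positivity
  have hα : 0 ≤ t ^ 2 / (1 - t ^ 2) := div_nonneg ht2'.le (by linarith)
  have hF'0 : 0 ≤ F' := (abs_nonneg _).trans (hF' 0)
  set α := t ^ 2 / (1 - t ^ 2) with hαdef
  have hcard : ∃ k, E.card = k := ⟨_, rfl⟩
  obtain ⟨k, hk⟩ := hcard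
  induction k using Nat.strong_induction_on generalizing B E v i f F with
  | _ k ih =>
  have hF0 : 0 ≤ F := (abs_nonneg _).trans (hF 0)
  have hAv := asum_nonneg G α Q hα hQ0 E v
  have hAw := asum_nonneg G α Q hα hQ0 E w
  have hCv := csum_nonneg G Q hQ0 w E v
  by_cases hvB : v ∈ B
  · have h0' : Ev D B (fun τ => ins D i f (τ v) * ins D j f' (τ w) *
        ∏ e ∈ E, (1 + eps D G sh (t ^ 2) c x e τ)) = 0 := by
      have := ins_closed D N hD B v hvB i f (fun τ => ins D j f' (τ w) *
        ∏ e ∈ E, (1 + eps D G sh (t ^ 2) c x e τ))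
      rw [← this]
      congr 1
      funext τ
      ring
    rw [h0', abs_zero]
    positivity
  -- the recursion
  have hEN : E.card ≤ N := (Finset.card_le_card hE).trans hH
  have hrec := y_rec D N hD G sh (t ^ 2) c x B v hvB i f hf (fun τ => ins D j f' (τ w))
    (fun τ y => by simp only [Function.update_of_ne (Ne.symm hvw)]) E hEN
  have hcomm : Ev D B (fun τ => ins D i f (τ v) * ins D j f' (τ w) *
        ∏ e ∈ E, (1 + eps D G sh (t ^ 2) c x e τ)) =
      Ev D B (fun τ => ins D i f (τ v) * (∏ e ∈ E, (1 + eps D G sh (t ^ 2) c x e τ)) *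
        ins D j f' (τ w)) := by
    congr 1
    funext τ
    ring
  rw [hcomm, hrec]
  have key : ∀ e ∈ E.filter (fun e => G.Inc e v),
      |(-(t ^ 2 / aE G sh (t ^ 2) x e * (if i.val = m then 1 else 0) * f (lab G sh x e v)) *
          Ev D (insert v B) (fun τ => (∏ e' ∈ E.erase e, (1 + eps D G sh (t ^ 2) c x e' τ)) *
            ins D j f' (τ w)) +
        ∑ l : Fin (m + 1), trn G sh (t ^ 2) c m x e i l *
          Ev D (insert v B) (fun τ => ins D l (fsh G sh e v f) (τ (G.oth e v)) *
            (∏ e' ∈ E.erase e, (1 + eps D G sh (t ^ 2) c x e' τ)) * ins D j f' (τ w)))| ≤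
      F * F' * K * (t ^ (m - i.val) * t ^ (m - j.val) * G.Asum α Q E w) *
          (α + Q * G.Asum α Q (E.erase e) (G.oth e v)) +
        F * F' * K * (t ^ (m - i.val) / t ^ j.val) *
          (Q * (if G.oth e v = w then 1 else G.Csum Q w (E.erase e) (G.oth e v))) := by
    intro e he
    rw [Finset.mem_filter] at he
    obtain ⟨heE, heInc⟩ := he
    have hErase : E.erase e ⊆ H := (Finset.erase_subset _ _).trans hE
    have hcardE : (E.erase e).card < k := by
      rw [Finset.card_erase_of_mem heE, ← hk]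
      have : 0 < E.card := Finset.card_pos.2 ⟨e, heE⟩
      omega
    have hcardn : (E.erase e).card ≤ n := by omega
    have hcardN : (E.erase e).card ≤ N := (Finset.card_le_card hErase).trans hH
    have hAe := asum_nonneg G α Q hα hQ0 (E.erase e) (G.oth e v)
    have hCe := csum_nonneg G Q hQ0 w (E.erase e) (G.oth e v)
    have hAmono : G.Asum α Q (E.erase e) w ≤ G.Asum α Q E w :=
      asum_mono G α Q hα hQ0 _ _ (Finset.erase_subset _ _) w
    have hAew := asum_nonneg G α Q hα hQ0 (E.erase e) w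
    obtain ⟨hq0, hq1⟩ := quot_bd G sh (t ^ 2) ht2' ht2 x e
    -- first part
    have hya := ya D N hD G sh t Q h0 h1 c hc hQ0 hQ x H hH n K hK hZ (insert v B) (E.erase e)
      hErase (by omega) w j f' hf' F' hF'
    have hP1 : |-(t ^ 2 / aE G sh (t ^ 2) x e * (if i.val = m then 1 else 0) *
          f (lab G sh x e v)) *
          Ev D (insert v B) (fun τ => (∏ e' ∈ E.erase e, (1 + eps D G sh (t ^ 2) c x e' τ)) *
            ins D j f' (τ w))| ≤
        (α * t ^ (m - i.val) * F) * (F' * t ^ (m - j.val) * G.Asum α Q E w * K) := by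
      rw [abs_mul]
      refine mul_le_mul ?_ ?_ (abs_nonneg _) (by positivity)
      · rw [abs_neg, abs_mul, abs_mul, abs_of_nonneg hq0]
        have hi : |(if i.val = m then (1 : ℝ) else 0)| ≤ t ^ (m - i.val) := by
          split_ifs with him
          · rw [him, Nat.sub_self]; simp
          · rw [abs_zero]; positivity
        exact mul_le_mul (mul_le_mul hq1 hi (abs_nonneg _) hα) (hF _) (abs_nonneg _) (by positivity)
      · have hc2 : Ev D (insert v B) (fun τ =>
            (∏ e' ∈ E.erase e, (1 + eps D G sh (t ^ 2) c x e' τ)) * ins D j f' (τ w)) =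
            Ev D (insert v B) (fun τ => ins D j f' (τ w) *
              ∏ e' ∈ E.erase e, (1 + eps D G sh (t ^ 2) c x e' τ)) := by
          congr 1
          funext τ
          ring
        rw [hc2]
        refine hya.trans ?_
        gcongr
    -- second part
    set X0 : ℝ := F * F' * K * (t ^ (m - j.val) * G.Asum α Q E w *
      G.Asum α Q (E.erase e) (G.oth e v) + 1 / t ^ j.val *
        (if G.oth e v = w then 1 else G.Csum Q w (E.erase e) (G.oth e v))) with hX0
    have hX00 : 0 ≤ X0 := by
      rw [hX0]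
      split_ifs <;> positivity
    have hP2 : ∀ l : Fin (m + 1),
        |Ev D (insert v B) (fun τ => ins D l (fsh G sh e v f) (τ (G.oth e v)) *
            (∏ e' ∈ E.erase e, (1 + eps D G sh (t ^ 2) c x e' τ)) * ins D j f' (τ w))| ≤
        t ^ (m - l.val) * X0 := by
      intro l
      have hc3 : Ev D (insert v B) (fun τ => ins D l (fsh G sh e v f) (τ (G.oth e v)) *
            (∏ e' ∈ E.erase e, (1 + eps D G sh (t ^ 2) c x e' τ)) * ins D j f' (τ w)) =
          Ev D (insert v B) (fun τ => ins D l (fsh G sh e v f) (τ (G.oth e v)) *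
            ins D j f' (τ w) * ∏ e' ∈ E.erase e, (1 + eps D G sh (t ^ 2) c x e' τ)) := by
        congr 1
        funext τ
        ring
      rw [hc3]
      by_cases huw : G.oth e v = w
      · rw [huw]
        by_cases hwB : w ∈ insert v B
        · have h0' : Ev D (insert v B) (fun τ => ins D l (fsh G sh e v f) (τ w) *
              ins D j f' (τ w) * ∏ e' ∈ E.erase e, (1 + eps D G sh (t ^ 2) c x e' τ)) = 0 := by
            have := ins_closed D N hD (insert v B) w hwB l (fsh G sh e v f)
              (fun τ => ins D j f' (τ w) * ∏ e' ∈ E.erase e, (1 + eps D G sh (t ^ 2) c x e' τ))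
            rw [← this]
            congr 1
            funext τ
            ring
          rw [h0', abs_zero]
          positivity
        · rw [w2_rec D N hD G sh (t ^ 2) c x (insert v B) w hwB l j (fsh G sh e v f) f'
            (fsh_sum G sh e v f hf) (E.erase e) hcardN]
          rw [abs_mul, abs_mul]
          have hz := hZ (insert w (insert v B)) (E.erase e) hErase hcardn
          have hav := avg_bd (fsh G sh e v f) f' F F' (fsh_bd G sh e v f F hF) hF'
          by_cases hlj : l.val + j.val = m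
          · have hg : |gg m l j| = 1 := by
              unfold gg; rw [if_pos hlj]; simp
            rw [hg, one_mul]
            have htt : t ^ (m - l.val) * (1 / t ^ j.val) = 1 := by
              rw [show m - l.val = j.val by omega]
              field_simp
            calc |1 / (Fintype.card Γ : ℝ) * ∑ a, fsh G sh e v f a * f' a| *
                  |Ev D (insert w (insert v B)) fun τ =>
                    ∏ e' ∈ E.erase e, (1 + eps D G sh (t ^ 2) c x e' τ)| ≤ (F * F') * K :=
                  mul_le_mul hav hz (abs_nonneg _) (by positivity)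
              _ = (t ^ (m - l.val) * (1 / t ^ j.val)) * (F * F' * K) := by rw [htt, one_mul]
              _ = t ^ (m - l.val) * (F * F' * K * (0 + 1 / t ^ j.val * 1)) := by ring
              _ ≤ t ^ (m - l.val) * X0 := by
                  rw [hX0, if_pos huw]
                  have : 0 ≤ t ^ (m - j.val) * G.Asum α Q E w *
                    G.Asum α Q (E.erase e) (G.oth e v) := by positivity
                  gcongr
          · have hg : |gg m l j| = 0 := by
              unfold gg; rw [if_neg hlj]; simp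
            rw [hg]
            simp only [zero_mul]
            positivity
      · have hind := ih (E.erase e).card hcardE (insert v B) (E.erase e) hErase (by omega)
          (G.oth e v) huw l (fsh G sh e v f) (fsh_sum G sh e v f hf) F
          (fsh_bd G sh e v f F hF) rfl
        refine hind.trans ?_
        rw [hX0, if_neg huw]
        calc F * F' * (t ^ (m - l.val) * t ^ (m - j.val) *
              (G.Asum α Q (E.erase e) (G.oth e v) * G.Asum α Q (E.erase e) w) +
              t ^ (m - l.val) / t ^ j.val * G.Csum Q w (E.erase e) (G.oth e v)) * K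
            ≤ F * F' * (t ^ (m - l.val) * t ^ (m - j.val) *
              (G.Asum α Q (E.erase e) (G.oth e v) * G.Asum α Q E w) +
              t ^ (m - l.val) / t ^ j.val * G.Csum Q w (E.erase e) (G.oth e v)) * K := by gcongr
          _ = _ := by ring
    have hsum : |∑ l : Fin (m + 1), trn G sh (t ^ 2) c m x e i l *
          Ev D (insert v B) (fun τ => ins D l (fsh G sh e v f) (τ (G.oth e v)) *
            (∏ e' ∈ E.erase e, (1 + eps D G sh (t ^ 2) c x e' τ)) * ins D j f' (τ w))| ≤
        Q * t ^ (m - i.val) * X0 := by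
      calc _ ≤ ∑ l : Fin (m + 1), |trn G sh (t ^ 2) c m x e i l *
          Ev D (insert v B) (fun τ => ins D l (fsh G sh e v f) (τ (G.oth e v)) *
            (∏ e' ∈ E.erase e, (1 + eps D G sh (t ^ 2) c x e' τ)) * ins D j f' (τ w))| :=
            Finset.abs_sum_le_sum_abs _ _
        _ ≤ ∑ l : Fin (m + 1), |trn G sh (t ^ 2) c m x e i l| * t ^ (m - l.val) * X0 := by
            refine Finset.sum_le_sum fun l _ => ?_
            rw [abs_mul, mul_assoc]
            exact mul_le_mul_of_nonneg_left (hP2 l) (abs_nonneg _)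
        _ = (∑ l : Fin (m + 1), |trn G sh (t ^ 2) c m x e i l| * t ^ (m - l.val)) * X0 := by
            rw [Finset.sum_mul]
        _ ≤ Q * t ^ (m - i.val) * X0 :=
            mul_le_mul_of_nonneg_right (trn_bd G sh t Q h0 h1 c hc hQ x e i) hX00
    refine (abs_add_le _ _).trans ((add_le_add hP1 hsum).trans (le_of_eq ?_))
    rw [hX0]
    ring
  calc _ ≤ ∑ e ∈ E.filter (fun e => G.Inc e v), _ := Finset.abs_sum_le_sum_abs _ _
    _ ≤ ∑ e ∈ E.filter (fun e => G.Inc e v),
        (F * F' * K * (t ^ (m - i.val) * t ^ (m - j.val) * G.Asum α Q E w) *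
          (α + Q * G.Asum α Q (E.erase e) (G.oth e v)) +
        F * F' * K * (t ^ (m - i.val) / t ^ j.val) *
          (Q * (if G.oth e v = w then 1 else G.Csum Q w (E.erase e) (G.oth e v)))) :=
        Finset.sum_le_sum key
    _ = F * F' * K * (t ^ (m - i.val) * t ^ (m - j.val) * G.Asum α Q E w) *
          (∑ e ∈ E.filter (fun e => G.Inc e v),
            (α + Q * G.Asum α Q (E.erase e) (G.oth e v))) +
        F * F' * K * (t ^ (m - i.val) / t ^ j.val) *
          (∑ e ∈ E.filter (fun e => G.Inc e v),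
            Q * (if G.oth e v = w then 1 else G.Csum Q w (E.erase e) (G.oth e v))) := by
        rw [Finset.sum_add_distrib, Finset.mul_sum, Finset.mul_sum]
    _ ≤ F * F' * K * (t ^ (m - i.val) * t ^ (m - j.val) * G.Asum α Q E w) * G.Asum α Q E v +
        F * F' * K * (t ^ (m - i.val) / t ^ j.val) * G.Csum Q w E v := by
        gcongr
        · exact asum_rec G α Q hα hQ0 E v
        · exact csum_rec G Q hQ0 w E v
    _ = _ := by ring

end Pool.Agent.Lib.P325L
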