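import Pool.Agent.Lib.P325L.Defs
import Pool.Agent.Lib.P325L.YB

/-!
Module ZB (2h; uses ya, yb, mE_bd1, mE_bd2, quot_bd, ev lemmas). Bound for the partition functions.
NOTATION Z B E = Ev D B (∏_{e∈E} (1 + eps e)), k = card Γ >= 1, α = t^2/(1-t^2).
PROOF. Step: let e ∈ H, E ⊆ H.erase e, |E| = n, and |Z B' E'| <= K for all B' and E' ⊆ H with
|E'| <= n. Then |Z B (insert e E) - Z B E| <= δ K: the difference is Ev D B (eps e * ∏_E).
With f_a a' = sg (a' - a) (∑ = 0, |f_a| <= k) one has ins D i f_a y = T i a y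
((1/k)∑_{a'} sg(a'-a) T i a' = T i a - (1/k) ∑ T = T i a by lab). So with u = src e, w = tgt e (u ≠ w):
 eps e τ = (θ/aE)(ins 0 f_{x w - sh e} (τ u) + ins 0 f_{x u + sh e} (τ w)) +
   (1/k) ∑_{i,j} mE e i j ∑_a ins i f_a (τ u) * ins j f_{a + sh e} (τ w).
ya: the first two terms contribute at most 2 α k t^m Ab K. yb: the last at most
 (1/k) ∑_{i,j} |mE| * k * k * k * (t^(m-i) t^(m-j) Ab^2 + t^(m-i)/t^j Cb) K
 <= k^2 (m+1) Q (t^m Ab^2 + Cb) K by mE_bd1, mE_bd2. (Ab, Cb >= 0: asum_nonneg, csum_nonneg.)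
Hence by induction on n = E.card: |Z B E| <= (1+δ)^n for all B and E ⊆ H (Z B ∅ = 1 by ev_const), since
|Z B (insert e E)| <= (1+δ)^n + δ (1+δ)^n, using K = (1+δ)^n (monotone in n). And
|Z B E - 1| <= (1+δ)^n - 1 by the same induction. (δ >= 0.)
-/

open scoped BigOperators

namespace Pool.Agent.Lib.P325L

variable {Γ : Type} [Fintype Γ] [AddCommGroup Γ] [DecidableEq Γ] {V ι X : Type} [DecidableEq V]
  [DecidableEq ι] [DecidableEq X] [Fintype V] [Fintype X] {m : ℕ}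

private theorem card_ge_one (Γ : Type) [Fintype Γ] [AddCommGroup Γ] :
    (1 : ℝ) ≤ (Fintype.card Γ : ℝ) := by
  have : Nonempty Γ := ⟨0⟩
  have := Fintype.card_pos (α := Γ)
  exact_mod_cast this

private theorem sum_sg (a : Γ) : ∑ b : Γ, sg (b - a) = 0 := by
  have h : ∀ b : Γ, sg (b - a) = (if b = a then (Fintype.card Γ : ℝ) else 0) - 1 := by
    intro b
    unfold sg
    by_cases h : b = a
    · simp [h]
    · have : ¬ (b - a = 0) := fun h' => h (sub_eq_zero.1 h')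
      simp [h, this]
  simp [h]

private theorem abs_sg_le (z : Γ) : |sg z| ≤ (Fintype.card Γ : ℝ) := by
  have hk := card_ge_one Γ
  unfold sg
  split_ifs
  · rw [abs_of_nonneg (by linarith)]; linarith
  · rw [abs_neg, abs_one]; exact hk

omit [DecidableEq X] [Fintype X] in
private theorem ins_sg (D : TagSpace m Γ X) (hl : ∀ i τ, ∑ a, D.T i a τ = 0) (i : Fin (m + 1))
    (a : Γ) (y : X) : ins D i (fun b => sg (b - a)) y = D.T i a y := by
  have hk := card_ge_one Γ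
  have h : ∀ b : Γ, sg (b - a) * D.T i b y =
      (if b = a then (Fintype.card Γ : ℝ) * D.T i a y else 0) - D.T i b y := by
    intro b
    unfold sg
    by_cases h : b = a
    · subst h; simp; ring
    · have : ¬ (b - a = 0) := fun h' => h (sub_eq_zero.1 h')
      simp [h, this]
  unfold ins
  simp only [h, Finset.sum_sub_distrib, hl, Finset.sum_ite_eq', Finset.mem_univ, if_true]
  field_simp
  ring

private theorem step (D : TagSpace m Γ X) (N : ℕ) (hD : D.Good N) (G : Gr V ι) (sh : ι → Γ)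
    (t Q : ℝ) (h0 : 0 < t) (h1 : t < 1) (c : ℕ → ℝ) (hc : ∀ j, 0 ≤ c j) (hQ0 : 0 ≤ Q)
    (hQ : t + t ^ 2 / (1 - t ^ 2) * ∑ j ∈ Finset.range (m + 1), c j * t ^ j ≤ Q)
    (x : V → Γ) (H : Finset ι) (hH : H.card ≤ N) (Ab Cb δ : ℝ)
    (hA : ∀ E ⊆ H, ∀ v, G.Asum (t ^ 2 / (1 - t ^ 2)) Q E v ≤ Ab)
    (hC : ∀ e ∈ H, ∀ E ⊆ H.erase e, G.Csum Q (G.tgt e) E (G.src e) ≤ Cb)
    (hδ : δ = 2 * (t ^ 2 / (1 - t ^ 2)) * (Fintype.card Γ : ℝ) * t ^ m * Ab +
      (Fintype.card Γ : ℝ) ^ 2 * (((m : ℝ) + 1) * Q) * (t ^ m * Ab ^ 2 + Cb))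
    (n : ℕ) (K : ℝ) (hK : 0 ≤ K)
    (hZ : ∀ B : Finset V, ∀ E ⊆ H, E.card ≤ n →
      |Ev D B (fun τ => ∏ e ∈ E, (1 + eps D G sh (t ^ 2) c x e τ))| ≤ K)
    (B : Finset V) (e : ι) (he : e ∈ H) (E : Finset ι) (hE : E ⊆ H.erase e) (hEn : E.card ≤ n) :
    |Ev D B (fun τ => ∏ e ∈ insert e E, (1 + eps D G sh (t ^ 2) c x e τ)) -
      Ev D B (fun τ => ∏ e ∈ E, (1 + eps D G sh (t ^ 2) c x e τ))| ≤ δ * K := by
  have hk := card_ge_one Γ
  set k : ℝ := (Fintype.card Γ : ℝ) with hkdef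
  have hα : 0 ≤ t ^ 2 / (1 - t ^ 2) := by
    have : t ^ 2 < 1 := by nlinarith
    exact div_nonneg (by positivity) (by linarith)
  set α : ℝ := t ^ 2 / (1 - t ^ 2) with hαdef
  have hEH : E ⊆ H := hE.trans (Finset.erase_subset _ _)
  have heE : e ∉ E := fun h => (Finset.notMem_erase e H) (hE h)
  set q : ℝ := t ^ 2 / aE G sh (t ^ 2) x e with hq
  have hqb := quot_bd G sh (t ^ 2) (by positivity) (by nlinarith) x e
  have hq0 : 0 ≤ q := hqb.1
  have hq1 : q ≤ α := hqb.2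
  have hAb : 0 ≤ Ab := (asum_nonneg G α Q hα hQ0 E (G.src e)).trans (hA E hEH _)
  have hCb : 0 ≤ Cb := (csum_nonneg G Q hQ0 (G.tgt e) E (G.src e)).trans (hC e he E hE)
  -- expansion
  have hexp : Ev D B (fun τ => ∏ e ∈ insert e E, (1 + eps D G sh (t ^ 2) c x e τ)) -
      Ev D B (fun τ => ∏ e ∈ E, (1 + eps D G sh (t ^ 2) c x e τ)) =
      q * Ev D B (fun τ => ins D 0 (fun b => sg (b - (x (G.tgt e) - sh e))) (τ (G.src e)) *
        ∏ e ∈ E, (1 + eps D G sh (t ^ 2) c x e τ)) +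
      (q * Ev D B (fun τ => ins D 0 (fun b => sg (b - (x (G.src e) + sh e))) (τ (G.tgt e)) *
        ∏ e ∈ E, (1 + eps D G sh (t ^ 2) c x e τ)) +
      ∑ i : Fin (m + 1), ∑ j : Fin (m + 1), ∑ a : Γ, (1 / k * mE G sh (t ^ 2) c m x e i j) *
        Ev D B (fun τ => ins D i (fun b => sg (b - a)) (τ (G.src e)) *
          ins D j (fun b => sg (b - (a + sh e))) (τ (G.tgt e)) *
          ∏ e ∈ E, (1 + eps D G sh (t ^ 2) c x e τ))) := by
    have hfun : (fun τ : V → X => ∏ e ∈ insert e E, (1 + eps D G sh (t ^ 2) c x e τ)) =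
        fun τ => (∏ e ∈ E, (1 + eps D G sh (t ^ 2) c x e τ)) +
        (q * (ins D 0 (fun b => sg (b - (x (G.tgt e) - sh e))) (τ (G.src e)) *
          ∏ e ∈ E, (1 + eps D G sh (t ^ 2) c x e τ)) +
        (q * (ins D 0 (fun b => sg (b - (x (G.src e) + sh e))) (τ (G.tgt e)) *
          ∏ e ∈ E, (1 + eps D G sh (t ^ 2) c x e τ)) +
        ∑ i : Fin (m + 1), ∑ j : Fin (m + 1), ∑ a : Γ, (1 / k * mE G sh (t ^ 2) c m x e i j) *
          (ins D i (fun b => sg (b - a)) (τ (G.src e)) *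
            ins D j (fun b => sg (b - (a + sh e))) (τ (G.tgt e)) *
            ∏ e ∈ E, (1 + eps D G sh (t ^ 2) c x e τ)))) := by
      funext τ
      rw [Finset.prod_insert heE]
      simp only [ins_sg D hD.lab]
      have h2 : ∑ i : Fin (m + 1), ∑ j : Fin (m + 1), ∑ a : Γ,
          (1 / k * mE G sh (t ^ 2) c m x e i j) *
          (D.T i a (τ (G.src e)) * D.T j (a + sh e) (τ (G.tgt e)) *
            ∏ e ∈ E, (1 + eps D G sh (t ^ 2) c x e τ)) =
          (1 / k * ∑ i : Fin (m + 1), ∑ j : Fin (m + 1), mE G sh (t ^ 2) c m x e i j *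
            ∑ a : Γ, D.T i a (τ (G.src e)) * D.T j (a + sh e) (τ (G.tgt e))) *
            ∏ e ∈ E, (1 + eps D G sh (t ^ 2) c x e τ) := by
        rw [Finset.mul_sum, Finset.sum_mul]
        apply Finset.sum_congr rfl
        intro i _
        rw [Finset.mul_sum, Finset.sum_mul]
        apply Finset.sum_congr rfl
        intro j _
        rw [← mul_assoc, Finset.mul_sum, Finset.sum_mul]
        apply Finset.sum_congr rfl
        intro a _
        ring
      rw [h2]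
      have h3 : eps D G sh (t ^ 2) c x e τ = q * (D.T 0 (x (G.tgt e) - sh e) (τ (G.src e)) +
          D.T 0 (x (G.src e) + sh e) (τ (G.tgt e))) +
          (1 / k * ∑ i : Fin (m + 1), ∑ j : Fin (m + 1), mE G sh (t ^ 2) c m x e i j *
            ∑ a : Γ, D.T i a (τ (G.src e)) * D.T j (a + sh e) (τ (G.tgt e))) := rfl
      rw [h3]
      ring
    rw [hfun, ev_add, ev_add, ev_add, ev_smul, ev_smul, ev_sum]
    simp only [ev_sum, ev_smul]
    ring
  rw [hexp]
  have hA1 := ya D N hD G sh t Q h0 h1 c hc hQ0 hQ x H hH n K hK hZ B E hEH (by omega) (G.src e)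
    0 (fun b => sg (b - (x (G.tgt e) - sh e))) (sum_sg _) k (fun a => abs_sg_le _)
  have hA2 := ya D N hD G sh t Q h0 h1 c hc hQ0 hQ x H hH n K hK hZ B E hEH (by omega) (G.tgt e)
    0 (fun b => sg (b - (x (G.src e) + sh e))) (sum_sg _) k (fun a => abs_sg_le _)
  have hB := fun (i j : Fin (m + 1)) (a : Γ) =>
    yb D N hD G sh t Q h0 h1 c hc hQ0 hQ x H hH n K hK hZ B E hEH (by omega) (G.src e) (G.tgt e)
      (G.ne e) i j (fun b => sg (b - a)) (fun b => sg (b - (a + sh e))) (sum_sg _) (sum_sg _) k k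
      (fun a => abs_sg_le _) (fun a => abs_sg_le _)
  have hAs := hA E hEH (G.src e)
  have hAt := hA E hEH (G.tgt e)
  have hAs0 := asum_nonneg G α Q hα hQ0 E (G.src e)
  have hAt0 := asum_nonneg G α Q hα hQ0 E (G.tgt e)
  have hCs := hC e he E hE
  have htm : (0 : ℝ) ≤ t ^ m := by positivity
  have hk0 : (0 : ℝ) ≤ k := by linarith
  have key1 : |q * Ev D B (fun τ => ins D 0 (fun b => sg (b - (x (G.tgt e) - sh e)))
      (τ (G.src e)) * ∏ e ∈ E, (1 + eps D G sh (t ^ 2) c x e τ))| ≤ α * k * t ^ m * Ab * K := by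
    rw [abs_mul, abs_of_nonneg hq0]
    have h3 : k * t ^ (m - (0 : Fin (m + 1)).val) * G.Asum α Q E (G.src e) * K ≤
        k * t ^ m * Ab * K := by
      simp only [Fin.val_zero, Nat.sub_zero]
      gcongr
    calc q * _ ≤ α * (k * t ^ m * Ab * K) :=
          mul_le_mul hq1 (hA1.trans h3) (abs_nonneg _) hα
      _ = α * k * t ^ m * Ab * K := by ring
  have key2 : |q * Ev D B (fun τ => ins D 0 (fun b => sg (b - (x (G.src e) + sh e)))
      (τ (G.tgt e)) * ∏ e ∈ E, (1 + eps D G sh (t ^ 2) c x e τ))| ≤ α * k * t ^ m * Ab * K := by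
    rw [abs_mul, abs_of_nonneg hq0]
    have h3 : k * t ^ (m - (0 : Fin (m + 1)).val) * G.Asum α Q E (G.tgt e) * K ≤
        k * t ^ m * Ab * K := by
      simp only [Fin.val_zero, Nat.sub_zero]
      gcongr
    calc q * _ ≤ α * (k * t ^ m * Ab * K) :=
          mul_le_mul hq1 (hA2.trans h3) (abs_nonneg _) hα
      _ = α * k * t ^ m * Ab * K := by ring
  have hb1 := mE_bd1 G sh t Q h0 h1 c hc hQ x e
  have hb2 := mE_bd2 G sh t Q h0 h1 c hc hQ x e
  have key3 : |∑ i : Fin (m + 1), ∑ j : Fin (m + 1), ∑ a : Γ,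
      (1 / k * mE G sh (t ^ 2) c m x e i j) *
        Ev D B (fun τ => ins D i (fun b => sg (b - a)) (τ (G.src e)) *
          ins D j (fun b => sg (b - (a + sh e))) (τ (G.tgt e)) *
          ∏ e ∈ E, (1 + eps D G sh (t ^ 2) c x e τ))| ≤
      k ^ 2 * (((m : ℝ) + 1) * Q) * (t ^ m * Ab ^ 2 + Cb) * K := by
    have hterm : ∀ i j : Fin (m + 1), ∀ a : Γ, |(1 / k * mE G sh (t ^ 2) c m x e i j) *
        Ev D B (fun τ => ins D i (fun b => sg (b - a)) (τ (G.src e)) *
          ins D j (fun b => sg (b - (a + sh e))) (τ (G.tgt e)) *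
          ∏ e ∈ E, (1 + eps D G sh (t ^ 2) c x e τ))| ≤
        k * (|mE G sh (t ^ 2) c m x e i j| * (t ^ (m - i.val) * t ^ (m - j.val)) * (Ab ^ 2 * K) +
          |mE G sh (t ^ 2) c m x e i j| * (t ^ (m - i.val) / t ^ j.val) * (Cb * K)) := by
      intro i j a
      have h4 := hB i j a
      have h5 : k * k * (t ^ (m - i.val) * t ^ (m - j.val) *
          (G.Asum α Q E (G.src e) * G.Asum α Q E (G.tgt e)) +
          t ^ (m - i.val) / t ^ j.val * G.Csum Q (G.tgt e) E (G.src e)) * K ≤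
          k * k * (t ^ (m - i.val) * t ^ (m - j.val) * (Ab * Ab) +
            t ^ (m - i.val) / t ^ j.val * Cb) * K := by
        gcongr
      rw [abs_mul, abs_mul, abs_of_nonneg (by positivity : (0 : ℝ) ≤ 1 / k)]
      calc 1 / k * |mE G sh (t ^ 2) c m x e i j| * _
          ≤ 1 / k * |mE G sh (t ^ 2) c m x e i j| *
            (k * k * (t ^ (m - i.val) * t ^ (m - j.val) * (Ab * Ab) +
            t ^ (m - i.val) / t ^ j.val * Cb) * K) := by
              refine mul_le_mul_of_nonneg_left (h4.trans h5) (by positivity)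
        _ = (1 / k * k) * (k * (|mE G sh (t ^ 2) c m x e i j| *
            (t ^ (m - i.val) * t ^ (m - j.val)) * (Ab ^ 2 * K) +
          |mE G sh (t ^ 2) c m x e i j| * (t ^ (m - i.val) / t ^ j.val) * (Cb * K))) := by ring
        _ = _ := by
          rw [one_div, inv_mul_cancel₀ (by linarith : k ≠ 0), one_mul]
    refine (Finset.abs_sum_le_sum_abs _ _).trans ?_
    refine (Finset.sum_le_sum fun i _ => (Finset.abs_sum_le_sum_abs _ _).trans
      (Finset.sum_le_sum fun j _ => (Finset.abs_sum_le_sum_abs _ _).trans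
        (Finset.sum_le_sum fun a _ => hterm i j a))).trans ?_
    simp only [Finset.sum_const, Finset.card_univ, nsmul_eq_mul]
    have h6 : ∑ i : Fin (m + 1), ∑ j : Fin (m + 1), (Fintype.card Γ : ℝ) *
        (k * (|mE G sh (t ^ 2) c m x e i j| * (t ^ (m - i.val) * t ^ (m - j.val)) *
          (Ab ^ 2 * K) +
          |mE G sh (t ^ 2) c m x e i j| * (t ^ (m - i.val) / t ^ j.val) * (Cb * K))) =
        k ^ 2 * ((∑ i : Fin (m + 1), ∑ j : Fin (m + 1), |mE G sh (t ^ 2) c m x e i j| *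
          (t ^ (m - i.val) * t ^ (m - j.val))) * (Ab ^ 2 * K) +
          (∑ i : Fin (m + 1), ∑ j : Fin (m + 1), |mE G sh (t ^ 2) c m x e i j| *
          (t ^ (m - i.val) / t ^ j.val)) * (Cb * K)) := by
      simp only [Finset.sum_mul, ← Finset.sum_add_distrib, Finset.mul_sum]
      apply Finset.sum_congr rfl
      intro i _
      apply Finset.sum_congr rfl
      intro j _
      rw [← hkdef]
      ring
    rw [h6]
    calc k ^ 2 * ((∑ i : Fin (m + 1), ∑ j : Fin (m + 1), |mE G sh (t ^ 2) c m x e i j| *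
          (t ^ (m - i.val) * t ^ (m - j.val))) * (Ab ^ 2 * K) +
          (∑ i : Fin (m + 1), ∑ j : Fin (m + 1), |mE G sh (t ^ 2) c m x e i j| *
          (t ^ (m - i.val) / t ^ j.val)) * (Cb * K))
        ≤ k ^ 2 * ((((m : ℝ) + 1) * Q * t ^ m) * (Ab ^ 2 * K) +
          (((m : ℝ) + 1) * Q) * (Cb * K)) := by
            gcongr
      _ = _ := by ring
  refine (abs_add_le _ _).trans ?_
  refine (add_le_add key1 ((abs_add_le _ _).trans (add_le_add key2 key3))).trans (le_of_eq ?_)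
  rw [hδ]
  ring

theorem zb (D : TagSpace m Γ X) (N : ℕ) (hD : D.Good N) (G : Gr V ι) (sh : ι → Γ) (t Q : ℝ)
    (h0 : 0 < t) (h1 : t < 1) (c : ℕ → ℝ) (hc : ∀ j, 0 ≤ c j) (hQ0 : 0 ≤ Q)
    (hQ : t + t ^ 2 / (1 - t ^ 2) * ∑ j ∈ Finset.range (m + 1), c j * t ^ j ≤ Q)
    (x : V → Γ) (H : Finset ι) (hH : H.card ≤ N) (Ab Cb δ : ℝ)
    (hA : ∀ E ⊆ H, ∀ v, G.Asum (t ^ 2 / (1 - t ^ 2)) Q E v ≤ Ab)
    (hC : ∀ e ∈ H, ∀ E ⊆ H.erase e, G.Csum Q (G.tgt e) E (G.src e) ≤ Cb)
    (hδ : δ = 2 * (t ^ 2 / (1 - t ^ 2)) * (Fintype.card Γ : ℝ) * t ^ m * Ab +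
      (Fintype.card Γ : ℝ) ^ 2 * (((m : ℝ) + 1) * Q) * (t ^ m * Ab ^ 2 + Cb))
    (B : Finset V) :
    |Ev D B (fun τ => ∏ e ∈ H, (1 + eps D G sh (t ^ 2) c x e τ)) - 1| ≤
      (1 + δ) ^ H.card - 1 := by
  have hone : ∀ B : Finset V, Ev D B (fun τ => ∏ e ∈ (∅ : Finset ι),
      (1 + eps D G sh (t ^ 2) c x e τ)) = 1 := by
    intro B
    simp only [Finset.prod_empty]
    exact ev_const D hD.one B
  rcases H.eq_empty_or_nonempty with hHe | ⟨e0, he0⟩
  · subst hHe
    rw [hone]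
    simp
  have hα : 0 ≤ t ^ 2 / (1 - t ^ 2) := by
    have : t ^ 2 < 1 := by nlinarith
    exact div_nonneg (by positivity) (by linarith)
  have hAb : 0 ≤ Ab := (asum_nonneg G _ Q hα hQ0 ∅ (G.src e0)).trans
    (hA ∅ (Finset.empty_subset _) _)
  have hCb : 0 ≤ Cb := (csum_nonneg G Q hQ0 (G.tgt e0) ∅ (G.src e0)).trans
    (hC e0 he0 ∅ (Finset.empty_subset _))
  have hδ0 : 0 ≤ δ := by
    rw [hδ]
    positivity
  have claim1 : ∀ n : ℕ, ∀ B : Finset V, ∀ E ⊆ H, E.card ≤ n →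
      |Ev D B (fun τ => ∏ e ∈ E, (1 + eps D G sh (t ^ 2) c x e τ))| ≤ (1 + δ) ^ n := by
    intro n
    induction n with
    | zero =>
      intro B E _ hEn
      have : E = ∅ := Finset.card_eq_zero.1 (by omega)
      subst this
      rw [hone]
      simp
    | succ n ih =>
      intro B E hE hEn
      rcases E.eq_empty_or_nonempty with hEe | ⟨e, he⟩
      · subst hEe
        rw [hone, abs_one]
        exact one_le_pow₀ (by linarith)
      · have hsub : E.erase e ⊆ H.erase e := Finset.erase_subset_erase e hE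
        have hcard : (E.erase e).card ≤ n := by
          rw [Finset.card_erase_of_mem he]
          omega
        have h2 := step D N hD G sh t Q h0 h1 c hc hQ0 hQ x H hH Ab Cb δ hA hC hδ n
          ((1 + δ) ^ n) (by positivity) ih B e (hE he) (E.erase e) hsub hcard
        rw [Finset.insert_erase he] at h2
        have h3 := ih B (E.erase e) (hsub.trans (Finset.erase_subset _ _)) hcard
        have h4 := abs_sub_abs_le_abs_sub
          (Ev D B (fun τ => ∏ e ∈ E, (1 + eps D G sh (t ^ 2) c x e τ)))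
          (Ev D B (fun τ => ∏ e ∈ E.erase e, (1 + eps D G sh (t ^ 2) c x e τ)))
        rw [pow_succ (1 + δ) n]
        nlinarith
  have claim2 : ∀ E : Finset ι, E ⊆ H →
      |Ev D B (fun τ => ∏ e ∈ E, (1 + eps D G sh (t ^ 2) c x e τ)) - 1| ≤
        (1 + δ) ^ E.card - 1 := by
    intro E
    induction E using Finset.induction_on with
    | empty =>
      intro _
      rw [hone]
      simp
    | insert e E he ih =>
      intro hE
      have heH : e ∈ H := hE (Finset.mem_insert_self e E)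
      have hEH : E ⊆ H := (Finset.subset_insert e E).trans hE
      have hsub : E ⊆ H.erase e := fun a ha =>
        Finset.mem_erase.2 ⟨fun h => he (h ▸ ha), hEH ha⟩
      have h2 := step D N hD G sh t Q h0 h1 c hc hQ0 hQ x H hH Ab Cb δ hA hC hδ E.card
        ((1 + δ) ^ E.card) (by positivity) (claim1 E.card) B e heH E hsub le_rfl
      have h3 := ih hEH
      rw [Finset.card_insert_of_notMem he, pow_succ (1 + δ) E.card]
      have h4 := abs_sub_le
        (Ev D B (fun τ => ∏ e ∈ insert e E, (1 + eps D G sh (t ^ 2) c x e τ)))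
        (Ev D B (fun τ => ∏ e ∈ E, (1 + eps D G sh (t ^ 2) c x e τ))) 1
      linarith
  exact claim2 H (Finset.Subset.refl H)

end Pool.Agent.Lib.P325L
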