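import Pool.Agent.Lib.P325L.Defs
import Pool.Agent.Lib.P325L.ZB
import Pool.Agent.Lib.P325L.SumB
import Pool.Agent.Lib.P325L.KerE
import Pool.Agent.Lib.P325L.Tails
import Pool.Agent.Lib.P325L.KerE

/-!
Module PosF (1.8h; uses zb, asum_bd, csum_bd, ker_eps, aE_ge). Positivity of the local law.
PROOF. t = u^4, θ = u^8 = t^2, Q = u^2, α = t^2/(1-t^2). Ab, Cb from asum_bd, csum_bd (verts of
subsets of H are subsets of verts H; in csum_bd E ⊆ H.erase e, so e ∉ E). By zb with B = ∅,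
Z = Ev D ∅ (∏_{e∈H} (1+eps e)) >= 2 - (1+δ)^|H| >= 0 because (1+δ)^|H| <= exp(δ |H|) <= exp(1/2) < 2
(|H| <= 2 v0, 4 v0 δ <= 1, δ >= 0). Ev D ∅ F = ∑_τ ∏_v μ (τ v) * F τ. By ker_eps the required sum
equals (∏_{e∈H} aE e) * Z >= 0, as aE >= 1 - θ > 0.
Ex over pairs: pos_ex: Ex ν (PK H * (f ∘ labels)) with ν (a, τ) = (1/k) μ τ equals
∑_x (1/k)^|V| f x * (the sum above) (Equiv.arrowProdEquivProdArrow), nonnegative if f >= 0.
-/

open scoped BigOperators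

namespace Pool.Agent.Lib.P325L

variable {Γ : Type} [Fintype Γ] [AddCommGroup Γ] [DecidableEq Γ] {V ι X : Type} [DecidableEq V]
  [DecidableEq ι] [DecidableEq X] [Fintype V] [Fintype X] {m : ℕ}

private theorem exp_half_lt : Real.exp (1 / 2) < 2 := by
  by_contra h
  rw [not_lt] at h
  have h1 : Real.exp (1 / 2) * Real.exp (1 / 2) = Real.exp 1 := by
    rw [← Real.exp_add]; norm_num
  have h2 := Real.exp_one_lt_d9
  nlinarith

private theorem verts_mono (G : Gr V ι) {E H : Finset ι} (h : E ⊆ H) :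
    (G.verts E).card ≤ (G.verts H).card := by
  refine Finset.card_le_card ?_
  unfold Gr.verts
  exact Finset.union_subset_union (Finset.image_subset_image h) (Finset.image_subset_image h)

theorem pos_f (D : TagSpace m Γ X) (N : ℕ) (hD : D.Good N) (G : Gr V ι) (sh : ι → Γ) (c : ℕ → ℝ)
    (hc : ∀ j, 0 ≤ c j) (g : ℕ) (hG : G.Girth g) (l0 v0 : ℕ) (hl0 : 1 ≤ l0) (hl : 2 * l0 ≤ g)
    (hv0 : 1 ≤ v0) (u : ℝ) (hu0 : 0 < u) (hu1 : u < 1) (hu : (v0 : ℝ) * u ^ l0 ≤ 1)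
    (hQ : u ^ 4 + u ^ 8 / (1 - u ^ 8) * ∑ j ∈ Finset.range (m + 1), c j * (u ^ 4) ^ j ≤ u ^ 2)
    (Ab Cb δ : ℝ) (hAb : Ab = u ^ 8 / (1 - u ^ 8) * v0 / (u * (1 - u)))
    (hCb : Cb = v0 * u ^ g / (1 - u))
    (hδ : δ = 2 * (u ^ 8 / (1 - u ^ 8)) * (Fintype.card Γ : ℝ) * (u ^ 4) ^ m * Ab +
      (Fintype.card Γ : ℝ) ^ 2 * (((m : ℝ) + 1) * u ^ 2) * ((u ^ 4) ^ m * Ab ^ 2 + Cb))
    (hsm : 4 * (v0 : ℝ) * δ ≤ 1) (H : Finset ι) (hH : H.card ≤ N) (hHv : (G.verts H).card ≤ v0)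
    (hH2 : H.card ≤ 2 * v0) (x : V → Γ) :
    0 ≤ ∑ τ : V → X, (∏ v, D.μ (τ v)) * ∏ e ∈ H,
      ker D (baseP m (u ^ 8) c) (sh e) (x (G.src e), τ (G.src e)) (x (G.tgt e), τ (G.tgt e)) := by
  have hu8 : u ^ 8 < 1 := pow_lt_one₀ hu0.le hu1 (by norm_num)
  have hu4 : u ^ 4 < 1 := pow_lt_one₀ hu0.le hu1 (by norm_num)
  have h8 : (u ^ 4) ^ 2 = u ^ 8 := by ring
  have h1u8 : 0 < 1 - u ^ 8 := by linarith
  have h1u : 0 < 1 - u := by linarith
  have hα : 0 ≤ u ^ 8 / (1 - u ^ 8) := by positivity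
  have hAb0 : 0 ≤ Ab := by rw [hAb]; positivity
  have hCb0 : 0 ≤ Cb := by rw [hCb]; positivity
  have hδ0 : 0 ≤ δ := by rw [hδ]; positivity
  have hzb := zb D N hD G sh (u ^ 4) (u ^ 2) (by positivity) hu4 c hc (by positivity)
    (by rw [h8]; exact hQ) x H hH Ab Cb δ
    (fun E hE v => by
      rw [h8, hAb]
      exact asum_bd G g hG l0 v0 hl0 hl hv0 u hu0 hu1 hu E ((verts_mono G hE).trans hHv) _ hα v)
    (fun e _ E hE => by
      rw [hCb]
      refine csum_bd G g hG l0 v0 hl0 hl hv0 u hu0 hu1 hu E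
        ((verts_mono G (hE.trans (Finset.erase_subset e H))).trans hHv) e ?_
      intro h
      exact Finset.notMem_erase e H (hE h))
    (by rw [h8]; exact hδ) ∅
  rw [h8] at hzb
  have hpow : (1 + δ) ^ H.card ≤ 2 := by
    have h1 : (1 + δ) ^ H.card ≤ (Real.exp δ) ^ H.card :=
      pow_le_pow_left₀ (by linarith) (by rw [add_comm]; exact Real.add_one_le_exp δ) _
    have h2 : (Real.exp δ) ^ H.card = Real.exp (H.card * δ) := by rw [← Real.exp_nat_mul]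
    have h3 : (H.card : ℝ) * δ ≤ 1 / 2 := by
      have h4 : (H.card : ℝ) ≤ 2 * (v0 : ℝ) := by exact_mod_cast hH2
      have h5 : (H.card : ℝ) * δ ≤ (2 * (v0 : ℝ)) * δ := mul_le_mul_of_nonneg_right h4 hδ0
      linarith
    have h4 : Real.exp (H.card * δ) ≤ Real.exp (1 / 2) := Real.exp_le_exp.mpr h3
    have h5 := exp_half_lt
    rw [h2] at h1
    linarith
  have hZ : 0 ≤ Ev D ∅ (fun τ => ∏ e ∈ H, (1 + eps D G sh (u ^ 8) c x e τ)) := by
    have := (abs_le.mp hzb).1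
    linarith
  have haE : ∀ e, 0 < aE G sh (u ^ 8) x e := fun e => by
    have := aE_ge G sh (u ^ 8) (by positivity) hu8 x e
    linarith
  have hEv : ∑ τ : V → X, (∏ v, D.μ (τ v)) * ∏ e ∈ H,
      ker D (baseP m (u ^ 8) c) (sh e) (x (G.src e), τ (G.src e)) (x (G.tgt e), τ (G.tgt e)) =
      (∏ e ∈ H, aE G sh (u ^ 8) x e) *
        Ev D ∅ (fun τ => ∏ e ∈ H, (1 + eps D G sh (u ^ 8) c x e τ)) := by
    unfold Ev
    rw [Finset.mul_sum]
    refine Finset.sum_congr rfl fun τ _ => ?_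
    have h1 : ∏ e ∈ H, ker D (baseP m (u ^ 8) c) (sh e) (x (G.src e), τ (G.src e))
        (x (G.tgt e), τ (G.tgt e)) =
        (∏ e ∈ H, aE G sh (u ^ 8) x e) * ∏ e ∈ H, (1 + eps D G sh (u ^ 8) c x e τ) := by
      rw [← Finset.prod_mul_distrib]
      exact Finset.prod_congr rfl fun e _ => ker_eps D G sh (u ^ 8) c x e (haE e).ne' τ
    have h2 : (∏ v, if v ∈ (∅ : Finset V) then (if τ v = D.pt then (1 : ℝ) else 0)
        else D.μ (τ v)) = ∏ v, D.μ (τ v) :=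
      Finset.prod_congr rfl fun v _ => if_neg (Finset.notMem_empty v)
    rw [h1, h2]
    ring
  rw [hEv]
  exact mul_nonneg (Finset.prod_nonneg fun e _ => (haE e).le) hZ

theorem pos_ex (D : TagSpace m Γ X) (G : Gr V ι) (sh : ι → Γ) (P : KerPar m) (H : Finset ι)
    (hpos : ∀ x : V → Γ, 0 ≤ ∑ τ : V → X, (∏ v, D.μ (τ v)) * ∏ e ∈ H,
      ker D P (sh e) (x (G.src e), τ (G.src e)) (x (G.tgt e), τ (G.tgt e)))
    (f : (V → Γ) → ℝ) (hf : ∀ x, 0 ≤ f x) :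
    0 ≤ Ex (V := V) (Y := Γ × X) (fun y => 1 / (Fintype.card Γ : ℝ) * D.μ y.2)
      (fun z => PK G (fun e => ker D P (sh e)) H z * f (fun v => (z v).1)) := by
  have key : Ex (V := V) (Y := Γ × X) (fun y => 1 / (Fintype.card Γ : ℝ) * D.μ y.2)
      (fun z => PK G (fun e => ker D P (sh e)) H z * f (fun v => (z v).1)) =
      ∑ x : V → Γ, ((1 / (Fintype.card Γ : ℝ)) ^ (Fintype.card V) * f x) *
        ∑ τ : V → X, (∏ v, D.μ (τ v)) * ∏ e ∈ H,
          ker D P (sh e) (x (G.src e), τ (G.src e)) (x (G.tgt e), τ (G.tgt e)) := by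
    unfold Ex
    have h1 : ∑ z : V → Γ × X, (∏ v, (1 / (Fintype.card Γ : ℝ) * D.μ (z v).2)) *
        (PK G (fun e => ker D P (sh e)) H z * f (fun v => (z v).1)) =
        ∑ p : (V → Γ) × (V → X), (∏ v, (1 / (Fintype.card Γ : ℝ) * D.μ (p.2 v))) *
          (PK G (fun e => ker D P (sh e)) H (fun v => (p.1 v, p.2 v)) * f p.1) := by
      refine Fintype.sum_equiv (Equiv.arrowProdEquivProdArrow V (fun _ => Γ) (fun _ => X)) _ _ ?_
      intro z
      rfl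
    rw [h1, Fintype.sum_prod_type]
    refine Finset.sum_congr rfl fun x _ => ?_
    rw [Finset.mul_sum]
    refine Finset.sum_congr rfl fun τ _ => ?_
    rw [Finset.prod_mul_distrib, Finset.prod_const, Finset.card_univ]
    unfold PK
    ring
  rw [key]
  refine Finset.sum_nonneg fun x _ => mul_nonneg (mul_nonneg (by positivity) (hf x)) (hpos x)

end Pool.Agent.Lib.P325L
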