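import Pool.Agent.Lib.P325L.Defs
import Pool.Agent.Lib.P325L.Clo
import Pool.Agent.Lib.P325L.InvR
import Pool.Agent.Lib.P325L.EdgeC
import Pool.Agent.Lib.P325L.PosF
import Pool.Agent.Lib.P325L.EdgeV
import Pool.Agent.Lib.P325L.PathK
import Pool.Agent.Lib.P325L.Fub
import Pool.Agent.Lib.P325L.KerMarg

/-!
Module Fam (1.8h; black boxes clo, inv_red, irr_mono, edge_c, irr_edge, pos_f, pos_ex, edge_val,
path_ok, ex_one, ker_marg, ker_marg'). The local laws form a consistent family.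
Let Y = Γ × X, ν y = 1/k * μ y.2 (∑ ν = 1), κ e = ker D P0 (sh e), P0 = baseP m (u^8) c, n = m + 3.
From clo (g, n, R, N0) take Hc. L S f = Ex ν (PK κ (Hc S) * (f ∘ labels)), linear in f.
one: L ∅ 1: verts (Hc ∅) has at most 0 elements, so Hc ∅ = ∅, PK = 1, ex_one.
nonneg: |D| <= r: 12 n |D| <= R, so |verts (Hc D)| <= 6 n r = v0; |Hc D| <= 2 |verts| <= 2 v0 by Sparse
(N0 |H| <= (N0+1) |verts H|, N0 >= 1); pos_f and pos_ex.
cons: S ⊆ D, |D| <= r, f depends on S: Hc S is irreducible for D (irr_mono) and small, so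
Hc S ⊆ Hc D; inv_red with H = Hc D, H0 = Hc S, F z = f (labels of z), which depends on S.
edge: S = {src e, tgt e}, |S| <= 2 <= r: {e} ⊆ Hc S by irr_edge and maximality (verts {e} has at most 2
<= R elements), |verts (Hc S)| <= 12 n, |Hc S| <= 24 n <= g, so Hc S = {e} by edge_c; edge_val with
P0.phi = u^8.
-/

open scoped BigOperators

namespace Pool.Agent.Lib.P325L

variable {Γ : Type} [Fintype Γ] [AddCommGroup Γ] [DecidableEq Γ] {V ι X : Type} [DecidableEq V]
  [DecidableEq ι] [DecidableEq X] [Fintype V] [Fintype ι] [Fintype X] {m : ℕ}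

theorem fam (D : TagSpace m Γ X) (hD : D.Good (Fintype.card ι + 1)) (G : Gr V ι) (sh : ι → Γ)
    (c : ℕ → ℝ) (p : ℕ → Polynomial ℝ) (hcp : GoodCoef m c p) (g R N0 r l0 v0 : ℕ)
    (hG : G.Girth g) (hS : G.Sparse R N0) (hN0 : 20 * (m + 3) ≤ N0) (hg : 24 * (m + 3) ≤ g)
    (hr : 2 ≤ r) (hv : v0 = 6 * (m + 3) * r) (hR : R = 2 * v0)
    (hl0 : 1 ≤ l0) (hl : 2 * l0 ≤ g) (u : ℝ) (hu0 : 0 < u) (hu1 : u < 1)
    (hu : (v0 : ℝ) * u ^ l0 ≤ 1)
    (hQ : u ^ 4 + u ^ 8 / (1 - u ^ 8) * ∑ j ∈ Finset.range (m + 1), c j * (u ^ 4) ^ j ≤ u ^ 2)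
    (Ab Cb δ : ℝ) (hAb : Ab = u ^ 8 / (1 - u ^ 8) * v0 / (u * (1 - u)))
    (hCb : Cb = v0 * u ^ g / (1 - u))
    (hδ : δ = 2 * (u ^ 8 / (1 - u ^ 8)) * (Fintype.card Γ : ℝ) * (u ^ 4) ^ m * Ab +
      (Fintype.card Γ : ℝ) ^ 2 * (((m : ℝ) + 1) * u ^ 2) * ((u ^ 4) ^ m * Ab ^ 2 + Cb))
    (hsm : 4 * (v0 : ℝ) * δ ≤ 1) :
    ∃ L : Finset V → ((V → Γ) → ℝ) →ₗ[ℝ] ℝ, L ∅ (fun _ => 1) = 1 ∧
      (∀ (D : Finset V) (f : (V → Γ) → ℝ), D.card ≤ r → DependsOn f (D : Set V) →
        (∀ x, 0 ≤ f x) → 0 ≤ L D f) ∧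
      (∀ (S D : Finset V) (f : (V → Γ) → ℝ), S ⊆ D → D.card ≤ r →
        DependsOn f (S : Set V) → L D f = L S f) ∧
      ∀ e, L {G.src e, G.tgt e} (fun z => if z (G.tgt e) = z (G.src e) + sh e then 1 else 0) =
        (1 + u ^ 8 * ((Fintype.card Γ : ℝ) - 1)) / (Fintype.card Γ : ℝ) := by
  classical
  have hn1 : 1 ≤ m + 3 := by omega
  have hng : m + 3 ≤ g := by omega
  obtain ⟨Hc, hHc⟩ := clo G g (m + 3) R N0 hG hng hn1 hS hN0
  -- the spin weight
  set k : ℝ := (Fintype.card Γ : ℝ) with hk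
  have hk0 : k ≠ 0 := by
    have : 0 < Fintype.card Γ := Fintype.card_pos_iff.2 ⟨0⟩
    rw [hk]; positivity
  have hν : ∑ y : Γ × X, (1 / k * D.μ y.2) = 1 := by
    rw [Fintype.sum_prod_type]
    simp only [← Finset.mul_sum, hD.one, mul_one, Finset.sum_const, Finset.card_univ,
      nsmul_eq_mul]
    rw [← hk]
    field_simp
  -- sizes
  have hsz : ∀ A : Finset V, A.card ≤ r → 12 * (m + 3) * A.card ≤ R := by
    intro A hA
    rw [hR, hv]
    calc 12 * (m + 3) * A.card ≤ 12 * (m + 3) * r := Nat.mul_le_mul_left _ hA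
      _ = 2 * (6 * (m + 3) * r) := by ring
  have hvt : ∀ A : Finset V, A.card ≤ r → (G.verts (Hc A)).card ≤ v0 := by
    intro A hA
    refine ((hHc A (hsz A hA)).2.1).trans ?_
    rw [hv]
    exact Nat.mul_le_mul_left _ hA
  have hv0R : v0 ≤ R := by omega
  have hN1 : 1 ≤ N0 := by omega
  have hcard : ∀ H : Finset ι, (G.verts H).card ≤ R → H.card ≤ 2 * (G.verts H).card := by
    intro H hH
    have h1 := hS H hH
    have h2 : N0 * H.card ≤ N0 * (2 * (G.verts H).card) := by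
      refine h1.trans ?_
      nlinarith [Nat.zero_le (G.verts H).card]
    exact Nat.le_of_mul_le_mul_left h2 (by omega)
  have hv1 : 1 ≤ v0 := by
    rw [hv]
    have h1 : 1 ≤ (m + 3) * r := Nat.one_le_iff_ne_zero.2 (by
      refine Nat.mul_ne_zero (by omega) (by omega))
    nlinarith
  let κ : ι → Γ × X → Γ × X → ℝ := fun e => ker D (baseP m (u ^ 8) c) (sh e)
  let ν : Γ × X → ℝ := fun y => 1 / k * D.μ y.2
  let L : Finset V → ((V → Γ) → ℝ) →ₗ[ℝ] ℝ := fun S =>
    { toFun := fun f => Ex ν (fun z => PK G κ (Hc S) z * f (fun v => (z v).1))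
      map_add' := by
        intro f f'
        unfold Ex
        rw [← Finset.sum_add_distrib]
        refine Finset.sum_congr rfl fun z _ => ?_
        simp only [Pi.add_apply]; ring
      map_smul' := by
        intro a f
        unfold Ex
        rw [RingHom.id_apply, smul_eq_mul, Finset.mul_sum]
        refine Finset.sum_congr rfl fun z _ => ?_
        simp only [Pi.smul_apply, smul_eq_mul]; ring }
  have hL : ∀ S f, L S f = Ex ν (fun z => PK G κ (Hc S) z * f (fun v => (z v).1)) :=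
    fun S f => rfl
  refine ⟨L, ?_, ?_, ?_, ?_⟩
  · -- total mass
    rw [hL]
    have h0 : Hc ∅ = ∅ := by
      have h1 := (hHc ∅ (by simp)).2.1
      rw [Finset.card_empty, Nat.mul_zero, Nat.le_zero, Finset.card_eq_zero] at h1
      by_contra hne
      obtain ⟨e, he⟩ := Finset.nonempty_iff_ne_empty.2 hne
      have h2 : G.src e ∈ G.verts (Hc ∅) := by
        unfold Gr.verts
        exact Finset.mem_union_left _ (Finset.mem_image_of_mem _ he)
      rw [h1] at h2
      exact Finset.notMem_empty _ h2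
    rw [h0]
    have h1 : (fun z : V → Γ × X => PK G κ ∅ z * (fun _ : V → Γ => (1 : ℝ)) (fun v => (z v).1)) =
        fun _ => 1 := by
      funext z
      unfold PK
      rw [Finset.prod_empty, one_mul]
    rw [h1]
    exact ex_one ν hν
  · -- positivity
    intro A f hA _ hf
    rw [hL]
    refine pos_ex D G sh (baseP m (u ^ 8) c) (Hc A) (fun x => ?_) f hf
    have hA1 := hvt A hA
    refine pos_f D (Fintype.card ι + 1) hD G sh c hcp.nonneg g hG l0 v0 hl0 hl hv1 u hu0 hu1 hu hQ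
      Ab Cb δ hAb hCb hδ hsm (Hc A) ?_ hA1 ?_ x
    · exact (Finset.card_le_univ _).trans (Nat.le_succ _)
    · exact (hcard _ (hA1.trans hv0R)).trans (Nat.mul_le_mul_left _ hA1)
  · -- consistency
    intro S A f hSA hA hf
    rw [hL, hL]
    have hSr : S.card ≤ r := (Finset.card_le_card hSA).trans hA
    have hsub : Hc S ⊆ Hc A := by
      refine (hHc A (hsz A hA)).2.2 (Hc S) (irr_mono G (m + 3) S A hSA _ (hHc S (hsz S hSr)).1) ?_
      exact (hvt S hSr).trans hv0R
    refine inv_red G κ ν hν ?_ ?_ (m + 3) hn1 ?_ S R (Hc S) (hHc S (hsz S hSr)).1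
      (hHc S (hsz S hSr)).2.2 (Hc A) hsub ((hvt A hA).trans hv0R)
      (fun z => f (fun v => (z v).1)) ?_
    · intro e x
      exact ker_marg D _ hD _ _ x
    · intro e y
      exact ker_marg' D _ hD _ _ y
    · exact path_ok D (Fintype.card ι + 1) (by omega) hD G sh (u ^ 8) c p hcp
    · intro x y hxy
      exact hf fun i hi => by
        show (x i).1 = (y i).1
        rw [hxy i hi]
  · -- edges
    intro e
    rw [hL]
    have hSc : ({G.src e, G.tgt e} : Finset V).card ≤ 2 := Finset.card_le_two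
    have hSr : ({G.src e, G.tgt e} : Finset V).card ≤ r := hSc.trans hr
    have h1 := hHc _ (hsz _ hSr)
    have hve : (G.verts {e}).card ≤ R := by
      have h2 : (G.verts {e}).card ≤ 2 := by
        unfold Gr.verts
        refine (Finset.card_union_le _ _).trans ?_
        rw [Finset.image_singleton, Finset.image_singleton, Finset.card_singleton,
          Finset.card_singleton]
      have h3 : 2 ≤ R := by omega
      exact h2.trans h3
    have he : e ∈ Hc {G.src e, G.tgt e} :=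
      h1.2.2 {e} (irr_edge G (m + 3) (by omega) e) hve (Finset.mem_singleton_self e)
    have hc24 : (Hc {G.src e, G.tgt e}).card ≤ g := by
      have h2 := hcard _ ((hvt _ hSr).trans hv0R)
      have h3 : 6 * (m + 3) * ({G.src e, G.tgt e} : Finset V).card ≤ 6 * (m + 3) * 2 :=
        Nat.mul_le_mul_left _ hSc
      have h4 := h1.2.1
      omega
    have hHe : Hc {G.src e, G.tgt e} = {e} := edge_c G g (m + 3) hG e _ h1.1 he hc24
    rw [hHe]
    exact edge_val D (Fintype.card ι + 1) (by omega) hD G sh (baseP m (u ^ 8) c) e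

end Pool.Agent.Lib.P325L
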