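import Pool.Agent.Lib.P325L.Defs

/-!
Module LagI (0.7h). The second coefficient of a polynomial of bounded degree as a combination of
finitely many values.
PROOF. Nodes x i = i (i : Fin (N+3)), pairwise distinct. Mathlib's Lagrange interpolation
(Lagrange.eq_interpolate / Lagrange.interpolate, for degree < card of nodes) gives
P = sum_i C (P.eval (x i)) * Lagrange.basis univ x i, so P.coeff 2 = sum_i P.eval (x i) * w i with
w i = (Lagrange.basis univ x i).coeff 2.
-/

open scoped BigOperators

namespace Pool.Agent.Lib.P325L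

theorem lag_two (N : ℕ) : ∃ x w : Fin (N + 3) → ℝ, ∀ P : Polynomial ℝ, P.natDegree ≤ N + 2 →
    ∑ i, w i * P.eval (x i) = P.coeff 2 := by
  refine ⟨fun i => (i.val : ℝ), fun i => (Lagrange.basis Finset.univ (fun i : Fin (N + 3) =>
    (i.val : ℝ)) i).coeff 2, ?_⟩
  intro P hP
  have hinj : Set.InjOn (fun i : Fin (N + 3) => (i.val : ℝ)) (Finset.univ : Finset (Fin (N + 3))) := by
    intro a _ b _ hab
    have : (a.val : ℝ) = b.val := hab
    exact Fin.ext (by exact_mod_cast this)
  have hdeg : P.degree < (Finset.univ : Finset (Fin (N + 3))).card := by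
    rw [Finset.card_univ, Fintype.card_fin]
    refine lt_of_le_of_lt Polynomial.degree_le_natDegree ?_
    exact_mod_cast Nat.lt_of_le_of_lt hP (by omega)
  have h := Lagrange.eq_interpolate hinj hdeg
  conv_rhs => rw [h]
  rw [Lagrange.interpolate_apply, Polynomial.finsetSum_coeff]
  apply Finset.sum_congr rfl
  intro i _
  rw [Polynomial.coeff_C_mul, mul_comm]

end Pool.Agent.Lib.P325L
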