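import Pool.Agent.Lib.P325L.Defs

/-!
Module Par (2.8h). Choice of the parameters. L = log n, D0 = log (1/d) >= log 2, x = log (1/s) / D0 in (0, 1],
u = s^(1/8), Δ = ⌈9/d⌉. The constants a, b0 > 0 are arbitrary (depending on s, d only).
PROOF. Put m = ⌊L/(3000 D0)⌋, N0 = 20 (m+3), g = ⌊L/(20 D0)⌋, l0 = ⌊g/2⌋, r = ⌈(2n)^(x/20000)⌉ + 2,
v0 = 6 (m+3) r. All claims hold for n large (depending on s, d, m0, a, b0):
- m >= m0, g <= n, g >= 1, l0 >= 1, 24 (m+3) <= g: L → ∞ and 24/3000 < 1/20.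
- (2 (9Δ)^3)^(4 N0) <= n: Δ <= 9/d + 1 <= 9.5/d, 9Δ <= 86/d, log (9Δ) <= log 86 + D0 <= 7.5 D0
  (log 86 < 4.46, D0 >= 0.69), log (2 (9Δ)^3) <= D0 + 22.5 D0 = 23.5 D0, and 4 N0 * 23.5 D0 =
  1880 (m+3) D0 <= (1880/3000) L + 5640 D0 <= L for L large.
- 4 g^3 (9Δ)^g <= nΔ: log: log 4 + 3 log g + 7.5 D0 L/(20 D0) = o(L) + 0.375 L <= L.
- 9 (2 v0)^2 <= n: v0 <= 6 (L+3) ((2n)^(1/20000) + 3), so v0^2 is o(n).
- v0 u^l0 <= 1: u^l0 = exp(-(log(1/s)/8) l0), l0 >= g/2 - 1 >= L/(40 D0) - 2, so u^l0 <= C n^(-x/320)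
  and v0 <= C (L+1) n^(x/20000).
- the last inequality (smallness): (u^4)^m = exp(-(log(1/s)/2) m) <= C n^(-x/6000),
  u^g <= C n^(-x/160), v0^3 <= C (L+1)^3 n^(3x/20000) and 3/20000 < 1/6000; the factor (m+1) is <= C (L+1).
  So all three terms v0 (u^4)^m a v0, v0 (m+1) (u^4)^m (v0)^2 and v0 (m+1) v0 u^g tend to 0.
- (2n)^(x/20000) <= r and 2 <= r.
Every polynomial in L is eventually smaller than any positive power of n (isLittleO_log_rpow_atTop).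
-/

open scoped BigOperators

namespace Pool.Agent.Lib.P325L

private theorem evk (C c ε : ℝ) (hc : 0 < c) (hε : 0 < ε) (k : ℕ) :
    ∀ᶠ L : ℝ in Filter.atTop, C * (L + 3) ^ k * Real.exp (-(c * L)) ≤ ε := by
  have h0 : Filter.Tendsto (fun L : ℝ => c * (L + 3)) Filter.atTop Filter.atTop :=
    Filter.Tendsto.const_mul_atTop hc (Filter.tendsto_atTop_add_const_right _ _ Filter.tendsto_id)
  have h1 := (Real.tendsto_pow_mul_exp_neg_atTop_nhds_zero k).comp h0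
  have h2 : Filter.Tendsto (fun L : ℝ => C * Real.exp (3 * c) * (c ^ k)⁻¹ *
      ((c * (L + 3)) ^ k * Real.exp (-(c * (L + 3))))) Filter.atTop (nhds 0) := by
    have := h1.const_mul (C * Real.exp (3 * c) * (c ^ k)⁻¹)
    simpa using this
  have h3 := (tendsto_order.1 h2).2 ε hε
  refine h3.mono fun L hL => ?_
  have e : C * Real.exp (3 * c) * (c ^ k)⁻¹ * ((c * (L + 3)) ^ k * Real.exp (-(c * (L + 3)))) =
      C * (L + 3) ^ k * Real.exp (-(c * L)) := by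
    have e1 : Real.exp (-(c * (L + 3))) = Real.exp (-(c * L)) * Real.exp (-(3 * c)) := by
      rw [← Real.exp_add]; congr 1; ring
    have e2 : Real.exp (3 * c) * Real.exp (-(3 * c)) = 1 := by
      rw [← Real.exp_add]; simp
    have e3 : (c ^ k)⁻¹ * c ^ k = 1 := inv_mul_cancel₀ (by positivity)
    rw [e1, mul_pow]
    calc C * Real.exp (3 * c) * (c ^ k)⁻¹ * (c ^ k * (L + 3) ^ k *
          (Real.exp (-(c * L)) * Real.exp (-(3 * c))))
        = C * (L + 3) ^ k * Real.exp (-(c * L)) * (Real.exp (3 * c) * Real.exp (-(3 * c))) *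
          ((c ^ k)⁻¹ * c ^ k) := by ring
      _ = _ := by rw [e2, e3]; ring
  rw [← e]
  exact hL.le

private theorem delta_bd {d : ℝ} (hd : 0 < d) (hd2 : d ≤ 1 / 2) :
    (1 : ℝ) ≤ ((⌈9 / d⌉₊ : ℕ) : ℝ) ∧
      Real.log (9 * ((⌈9 / d⌉₊ : ℕ) : ℝ)) ≤ 15 / 2 * Real.log (1 / d) := by
  have hd1 : 2 ≤ 1 / d := by rw [le_div_iff₀ hd]; linarith
  have h9 : 9 / d = 9 * (1 / d) := by ring
  have hΔ1 : 9 / d ≤ ((⌈9 / d⌉₊ : ℕ) : ℝ) := Nat.le_ceil _
  have hΔ2 : ((⌈9 / d⌉₊ : ℕ) : ℝ) < 9 / d + 1 := Nat.ceil_lt_add_one (by positivity)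
  set Δ : ℝ := ((⌈9 / d⌉₊ : ℕ) : ℝ) with hΔ
  set y : ℝ := 1 / d with hy
  rw [h9] at hΔ1 hΔ2
  have h1 : 1 ≤ Δ := by linarith
  refine ⟨h1, ?_⟩
  have h2 : 9 * Δ ≤ 86 * y := by linarith
  have h3 : (9 * Δ) ^ 2 ≤ y ^ 15 := by
    have h4 : (9 * Δ) ^ 2 ≤ (86 * y) ^ 2 := pow_le_pow_left₀ (by linarith) h2 2
    have h5 : (2 : ℝ) ^ 13 ≤ y ^ 13 := pow_le_pow_left₀ (by norm_num) hd1 13
    have h6 : (86 * y) ^ 2 ≤ y ^ 13 * y ^ 2 := by
      rw [mul_pow]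
      exact mul_le_mul_of_nonneg_right (by linarith) (by positivity)
    calc (9 * Δ) ^ 2 ≤ (86 * y) ^ 2 := h4
      _ ≤ y ^ 13 * y ^ 2 := h6
      _ = y ^ 15 := by ring
  have h7 := Real.log_le_log (by positivity) h3
  rw [Real.log_pow, Real.log_pow] at h7
  push_cast at h7
  linarith

theorem par (s d a b0 : ℝ) (hd : 0 < d) (hd2 : d ≤ 1 / 2) (hds : d ≤ s) (hs : s < 1)
    (ha : 0 < a) (hb : 0 < b0) (m0 : ℕ) :
    ∃ n0 : ℕ, ∀ n ≥ n0, ∃ m g l0 r v0 : ℕ, 4096 ≤ n ∧ m0 ≤ m ∧ v0 = 6 * (m + 3) * r ∧ 2 ≤ r ∧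
      1 ≤ g ∧ g ≤ n ∧ 1 ≤ l0 ∧ 2 * l0 ≤ g ∧ 24 * (m + 3) ≤ g ∧ 9 * (2 * v0) ^ 2 ≤ n ∧
      (2 * (9 * ((⌈9 / d⌉₊ : ℕ) : ℝ)) ^ 3) ^ (4 * (20 * (m + 3))) ≤ (n : ℝ) ∧
      4 * (g : ℝ) ^ 3 * (9 * ((⌈9 / d⌉₊ : ℕ) : ℝ)) ^ g ≤ (n : ℝ) * ((⌈9 / d⌉₊ : ℕ) : ℝ) ∧
      (v0 : ℝ) * (s ^ (1 / 8 : ℝ)) ^ l0 ≤ 1 ∧
      (v0 : ℝ) * (a * ((s ^ (1 / 8 : ℝ)) ^ 4) ^ m * v0 +
        b0 * ((m : ℝ) + 1) * (((s ^ (1 / 8 : ℝ)) ^ 4) ^ m * (v0 : ℝ) ^ 2 +
          v0 * (s ^ (1 / 8 : ℝ)) ^ g)) ≤ 1 ∧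
      (2 * (n : ℝ)) ^ (Real.log (1 / s) / Real.log (1 / d) / 20000) ≤ r := by
  have hs0 : 0 < s := lt_of_lt_of_le hd hds
  set D0 : ℝ := Real.log (1 / d) with hD0
  set D1 : ℝ := Real.log (1 / s) with hD1
  have hd1 : 2 ≤ 1 / d := by rw [le_div_iff₀ hd]; linarith
  have hD0l : Real.log 2 ≤ D0 := Real.log_le_log (by norm_num) hd1
  have hl2 : 0.69 < Real.log 2 := lt_trans (by norm_num) Real.log_two_gt_d9
  have hl2' : Real.log 2 < 1 := lt_trans Real.log_two_lt_d9 (by norm_num)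
  have hD0p : 0.69 < D0 := lt_of_lt_of_le hl2 hD0l
  have hD1p : 0 < D1 := Real.log_pos (by rw [lt_div_iff₀ hs0]; linarith)
  have hD10 : D1 ≤ D0 := Real.log_le_log (by positivity) (one_div_le_one_div_of_le hd hds)
  set x : ℝ := D1 / D0 with hx
  have hx0 : 0 < x := div_pos hD1p (by linarith)
  have hx1 : x ≤ 1 := (div_le_one (by linarith)).mpr hD10
  have hxD : D1 = x * D0 := by rw [hx]; field_simp
  -- powers of u
  have hu : ∀ k : ℕ, (s ^ (1 / 8 : ℝ)) ^ k = Real.exp (-(D1 / 8 * k)) := by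
    intro k
    have : s ^ (1 / 8 : ℝ) = Real.exp (-(D1 / 8)) := by
      rw [Real.rpow_def_of_pos hs0]
      congr 1
      have e1 : Real.log (1 / s) = - Real.log s := by rw [one_div, Real.log_inv]
      rw [hD1, e1]
      ring
    rw [this, ← Real.exp_nat_mul]
    congr 1; ring
  obtain ⟨hΔ1, hΔ2⟩ := delta_bd hd hd2
  rw [← hD0] at hΔ2
  set Δ : ℝ := ((⌈9 / d⌉₊ : ℕ) : ℝ) with hΔ
  -- eventual inequalities in L
  have E1 := evk (36 * 900) (1 - 2 * (x / 20000)) 1 (by linarith) one_pos 2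
  have E2 := evk 4 (5 / 8) 1 (by norm_num) one_pos 3
  have E3 := evk (30 * Real.exp (D1 / 8)) (x / 320 - x / 20000) 1 (by linarith) one_pos 1
  have E4 := evk (a * Real.exp (D1 / 2) * 900) (x / 6000 - 2 * (x / 20000)) (1 / 3)
    (by linarith) (by norm_num) 2
  have E5 := evk (b0 * Real.exp (D1 / 2) * 27000) (x / 6000 - 3 * (x / 20000)) (1 / 3)
    (by linarith) (by norm_num) 4
  have E6 := evk (b0 * Real.exp (D1 / 8) * 900) (x / 160 - 2 * (x / 20000)) (1 / 3)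
    (by linarith) (by norm_num) 3
  have E7 : ∀ᶠ L : ℝ in Filter.atTop, 3000 * D0 * m0 ≤ L := Filter.eventually_ge_atTop _
  have E8 : ∀ᶠ L : ℝ in Filter.atTop, 20000 * D0 ≤ L := Filter.eventually_ge_atTop _
  have Eall := ((((((E1.and E2).and E3).and E4).and E5).and E6).and E7).and E8
  have hlog : Filter.Tendsto (fun n : ℕ => Real.log (n : ℝ)) Filter.atTop Filter.atTop :=
    Real.tendsto_log_atTop.comp tendsto_natCast_atTop_atTop
  have En := (hlog.eventually Eall).and (Filter.eventually_ge_atTop 4096)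
  obtain ⟨n0, hn0⟩ := Filter.eventually_atTop.mp En
  refine ⟨n0, fun n hn => ?_⟩
  obtain ⟨⟨⟨⟨⟨⟨⟨⟨F1, F2⟩, F3⟩, F4⟩, F5⟩, F6⟩, F7⟩, F8⟩, hn4⟩ := hn0 n hn
  have hnR : (4096 : ℝ) ≤ (n : ℝ) := by exact_mod_cast hn4
  have hn1 : (0 : ℝ) < (n : ℝ) := by linarith
  have hLn : Real.log (n : ℝ) ≤ n := (Real.log_le_sub_one_of_pos hn1).trans (by linarith)
  have hexpL : Real.exp (Real.log (n : ℝ)) = n := Real.exp_log hn1
  set L : ℝ := Real.log (n : ℝ) with hL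
  have hL0 : 0 < L := by linarith
  have hL1 : 13800 ≤ L := by linarith
  -- the parameters
  obtain ⟨m, hm⟩ : ∃ m, m = ⌊L / (3000 * D0)⌋₊ := ⟨_, rfl⟩
  obtain ⟨g, hg⟩ : ∃ g, g = ⌊L / (20 * D0)⌋₊ := ⟨_, rfl⟩
  obtain ⟨r, hr⟩ : ∃ r, r = ⌈(2 * (n : ℝ)) ^ (x / 20000)⌉₊ + 2 := ⟨_, rfl⟩
  have hm1 : (m : ℝ) ≤ L / (3000 * D0) := by rw [hm]; exact Nat.floor_le (by positivity)
  have hm2 : L / (3000 * D0) < m + 1 := by rw [hm]; exact Nat.lt_floor_add_one _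
  have hg1 : (g : ℝ) ≤ L / (20 * D0) := by rw [hg]; exact Nat.floor_le (by positivity)
  have hg2 : L / (20 * D0) < g + 1 := by rw [hg]; exact Nat.lt_floor_add_one _
  have hm1' : (m : ℝ) * (3000 * D0) ≤ L := by rwa [le_div_iff₀ (by positivity)] at hm1
  have hm2' : L < ((m : ℝ) + 1) * (3000 * D0) := by rwa [div_lt_iff₀ (by positivity)] at hm2
  have hg1' : (g : ℝ) * (20 * D0) ≤ L := by rwa [le_div_iff₀ (by positivity)] at hg1
  have hg2' : L < ((g : ℝ) + 1) * (20 * D0) := by rwa [div_lt_iff₀ (by positivity)] at hg2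
  have hD0pos : 0 < D0 := by linarith
  have hmL : (m : ℝ) ≤ L := by
    have : (m : ℝ) * 1 ≤ (m : ℝ) * (3000 * D0) :=
      mul_le_mul_of_nonneg_left (by linarith) (Nat.cast_nonneg _)
    linarith
  have hgL : (g : ℝ) ≤ L := by
    have : (g : ℝ) * 1 ≤ (g : ℝ) * (20 * D0) :=
      mul_le_mul_of_nonneg_left (by linarith) (Nat.cast_nonneg _)
    linarith
  have hm0 : m0 ≤ m := by
    rw [hm]
    apply Nat.le_floor
    rw [le_div_iff₀ (by positivity)]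
    linarith
  have h24R : (24 : ℝ) * (m + 3) ≤ g := by
    have h1 : (24 * ((m : ℝ) + 3)) * (20 * D0) ≤ 24 * (L / 150) + 1440 * D0 := by
      have : (m : ℝ) * D0 ≤ L / 3000 := by linarith
      nlinarith
    have h2 : L - 20 * D0 < (g : ℝ) * (20 * D0) := by linarith
    have h3 : (24 * ((m : ℝ) + 3)) * (20 * D0) < (g : ℝ) * (20 * D0) := by linarith
    exact (lt_of_mul_lt_mul_right h3 (by positivity)).le
  have h24 : 24 * (m + 3) ≤ g := by exact_mod_cast h24R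
  have hl0a : 2 * (g / 2) ≤ g := by omega
  have hl0b : g ≤ 2 * (g / 2) + 1 := by omega
  have hl0R : (g : ℝ) ≤ 2 * ((g / 2 : ℕ) : ℝ) + 1 := by exact_mod_cast hl0b
  have hlog86 : 0 < 9 * Δ := by linarith
  -- bounds for r and v0
  have hE1 : 1 ≤ Real.exp (x / 20000 * L) := Real.one_le_exp (by positivity)
  set E : ℝ := Real.exp (x / 20000 * L) with hE
  have hpow : (2 * (n : ℝ)) ^ (x / 20000) ≤ 2 * E := by
    rw [Real.rpow_def_of_pos (by positivity), Real.log_mul (by norm_num) (by positivity), ← hL]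
    have h1 : (Real.log 2 + L) * (x / 20000) ≤ Real.log 2 + x / 20000 * L := by nlinarith
    calc Real.exp ((Real.log 2 + L) * (x / 20000)) ≤ Real.exp (Real.log 2 + x / 20000 * L) :=
          Real.exp_le_exp.mpr h1
      _ = 2 * E := by rw [Real.exp_add, Real.exp_log (by norm_num)]
  have hr1 : (2 * (n : ℝ)) ^ (x / 20000) ≤ r := by
    rw [hr]; push_cast
    have := Nat.le_ceil ((2 * (n : ℝ)) ^ (x / 20000))
    linarith
  have hr2 : (r : ℝ) ≤ 5 * E := by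
    rw [hr]; push_cast
    have := Nat.ceil_lt_add_one (a := (2 * (n : ℝ)) ^ (x / 20000)) (by positivity)
    linarith
  obtain ⟨v0, hv0⟩ : ∃ v0, v0 = 6 * (m + 3) * r := ⟨_, rfl⟩
  have hvV : (v0 : ℝ) ≤ 30 * (L + 3) * E := by
    rw [hv0]; push_cast
    calc 6 * ((m : ℝ) + 3) * r ≤ 6 * (L + 3) * (5 * E) := by gcongr
      _ = _ := by ring
  have hv00 : (0 : ℝ) ≤ v0 := Nat.cast_nonneg _
  have hL3 : 0 < L + 3 := by linarith
  have hE0 : 0 < E := by linarith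
  refine ⟨m, g, g / 2, r, v0, hn4, hm0, hv0, by rw [hr]; omega, by omega, ?_, by omega, hl0a, h24,
    ?_, ?_, ?_, ?_, ?_, hr1⟩
  · have : (g : ℝ) ≤ n := hgL.trans hLn
    exact_mod_cast this
  · -- 9 (2 v0)^2 <= n
    have h1 : (9 : ℝ) * (2 * v0) ^ 2 ≤ n := by
      have h2 : (9 : ℝ) * (2 * v0) ^ 2 ≤ 9 * (2 * (30 * (L + 3) * E)) ^ 2 := by gcongr
      have h3 : 9 * (2 * (30 * (L + 3) * E)) ^ 2 = (36 * 900 * (L + 3) ^ 2 *
          Real.exp (-((1 - 2 * (x / 20000)) * L))) * Real.exp L := by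
        have : Real.exp (-((1 - 2 * (x / 20000)) * L)) * Real.exp L = E ^ 2 := by
          rw [← Real.exp_add, hE, ← Real.exp_nat_mul]; congr 1; push_cast; ring
        calc 9 * (2 * (30 * (L + 3) * E)) ^ 2 = 36 * 900 * (L + 3) ^ 2 * E ^ 2 := by ring
          _ = _ := by rw [← this]; ring
      rw [h3] at h2
      calc (9 : ℝ) * (2 * v0) ^ 2 ≤ _ := h2
        _ ≤ 1 * Real.exp L := by gcongr
        _ = n := by rw [one_mul, hexpL]
    exact_mod_cast h1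
  · -- (2 (9Δ)^3)^(80 (m+3)) <= n
    have hb : 0 < 2 * (9 * Δ) ^ 3 := by positivity
    have h1 : Real.log (2 * (9 * Δ) ^ 3) ≤ 47 / 2 * D0 := by
      rw [Real.log_mul (by norm_num) (by positivity), Real.log_pow]
      push_cast
      linarith
    have h0 : 0 ≤ Real.log (2 * (9 * Δ) ^ 3) := by
      apply Real.log_nonneg
      have : (1 : ℝ) ≤ (9 * Δ) ^ 3 := one_le_pow₀ (by linarith)
      linarith
    rw [← Real.log_le_log_iff (by positivity) hn1, Real.log_pow, ← hL]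
    push_cast
    calc (4 * (20 * ((m : ℝ) + 3))) * Real.log (2 * (9 * Δ) ^ 3)
        ≤ (4 * (20 * ((m : ℝ) + 3))) * (47 / 2 * D0) := by gcongr
      _ = 47 / 75 * ((m : ℝ) * (3000 * D0)) + 5640 * D0 := by ring
      _ ≤ L := by linarith
  · -- 4 g^3 (9Δ)^g <= n Δ
    have h1 : (9 * Δ) ^ g ≤ Real.exp (3 / 8 * L) := by
      rw [← Real.log_le_iff_le_exp (by positivity), Real.log_pow]
      calc (g : ℝ) * Real.log (9 * Δ) ≤ (g : ℝ) * (15 / 2 * D0) := by gcongr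
        _ = 3 / 8 * ((g : ℝ) * (20 * D0)) := by ring
        _ ≤ 3 / 8 * L := by gcongr
    calc 4 * (g : ℝ) ^ 3 * (9 * Δ) ^ g ≤ 4 * (L + 3) ^ 3 * Real.exp (3 / 8 * L) := by
          gcongr
          linarith
      _ = (4 * (L + 3) ^ 3 * Real.exp (-(5 / 8 * L))) * Real.exp L := by
          rw [mul_assoc (4 * (L + 3) ^ 3), ← Real.exp_add]
          congr 2; ring
      _ ≤ 1 * Real.exp L := by gcongr
      _ = n := by rw [one_mul, hexpL]
      _ ≤ n * Δ := le_mul_of_one_le_right hn1.le hΔ1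
  · -- v0 u^l0 <= 1
    rw [hu]
    have h1 : -(D1 / 8 * ((g / 2 : ℕ) : ℝ)) ≤ D1 / 8 + -(x / 320 * L) := by
      have h2 : L ≤ (2 * ((g / 2 : ℕ) : ℝ) + 2) * (20 * D0) := by
        have : ((g : ℝ) + 1) * (20 * D0) ≤ (2 * ((g / 2 : ℕ) : ℝ) + 2) * (20 * D0) :=
          mul_le_mul_of_nonneg_right (by linarith) (by positivity)
        linarith
      have h3 : x * L ≤ x * ((2 * ((g / 2 : ℕ) : ℝ) + 2) * (20 * D0)) :=
        mul_le_mul_of_nonneg_left h2 hx0.le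
      have h4 : x * ((2 * ((g / 2 : ℕ) : ℝ) + 2) * (20 * D0)) =
          40 * D1 * (((g / 2 : ℕ) : ℝ) + 1) := by rw [hxD]; ring
      linarith
    calc (v0 : ℝ) * Real.exp (-(D1 / 8 * ((g / 2 : ℕ) : ℝ)))
        ≤ (30 * (L + 3) * E) * Real.exp (D1 / 8 + -(x / 320 * L)) := by gcongr
      _ = 30 * Real.exp (D1 / 8) * (L + 3) ^ 1 * Real.exp (-((x / 320 - x / 20000) * L)) := by
          have : Real.exp (-((x / 320 - x / 20000) * L)) = E * Real.exp (-(x / 320 * L)) := by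
            rw [hE, ← Real.exp_add]; congr 1; ring
          rw [this, Real.exp_add]; ring
      _ ≤ 1 := F3
  · -- the last inequality
    have hU : ((s ^ (1 / 8 : ℝ)) ^ 4) ^ m ≤ Real.exp (D1 / 2) * Real.exp (-(x / 6000 * L)) := by
      rw [← pow_mul, hu, ← Real.exp_add]
      apply Real.exp_le_exp.mpr
      push_cast
      have h3 : x * L ≤ x * (((m : ℝ) + 1) * (3000 * D0)) :=
        mul_le_mul_of_nonneg_left hm2'.le hx0.le
      have h4 : x * (((m : ℝ) + 1) * (3000 * D0)) = 3000 * D1 * ((m : ℝ) + 1) := by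
        rw [hxD]; ring
      linarith
    have hG : (s ^ (1 / 8 : ℝ)) ^ g ≤ Real.exp (D1 / 8) * Real.exp (-(x / 160 * L)) := by
      rw [hu, ← Real.exp_add]
      apply Real.exp_le_exp.mpr
      have h3 : x * L ≤ x * (((g : ℝ) + 1) * (20 * D0)) :=
        mul_le_mul_of_nonneg_left hg2'.le hx0.le
      have h4 : x * (((g : ℝ) + 1) * (20 * D0)) = 20 * D1 * ((g : ℝ) + 1) := by
        rw [hxD]; ring
      linarith
    have hU0 : 0 ≤ ((s ^ (1 / 8 : ℝ)) ^ 4) ^ m := by positivity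
    have hG0 : 0 ≤ (s ^ (1 / 8 : ℝ)) ^ g := by positivity
    generalize ((s ^ (1 / 8 : ℝ)) ^ 4) ^ m = U at hU hU0 ⊢
    generalize (s ^ (1 / 8 : ℝ)) ^ g = G at hG hG0 ⊢
    set T1 : ℝ := Real.exp (D1 / 2) * Real.exp (-(x / 6000 * L)) with hT1
    set T2 : ℝ := Real.exp (D1 / 8) * Real.exp (-(x / 160 * L)) with hT2
    have hT10 : 0 ≤ T1 := by positivity
    have hT20 : 0 ≤ T2 := by positivity
    have hm3 : (m : ℝ) + 1 ≤ L + 3 := by linarith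
    set V : ℝ := 30 * (L + 3) * E with hV
    have hV0 : 0 ≤ V := by positivity
    have G1 : a * T1 * V ^ 2 ≤ 1 / 3 := by
      refine le_trans (le_of_eq ?_) F4
      have e : Real.exp (-((x / 6000 - 2 * (x / 20000)) * L)) =
          Real.exp (-(x / 6000 * L)) * E ^ 2 := by
        rw [hE, ← Real.exp_nat_mul, ← Real.exp_add]; congr 1; push_cast; ring
      rw [e, hT1, hV]; ring
    have G2 : b0 * (L + 3) * (T1 * V ^ 3) ≤ 1 / 3 := by
      refine le_trans (le_of_eq ?_) F5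
      have e : Real.exp (-((x / 6000 - 3 * (x / 20000)) * L)) =
          Real.exp (-(x / 6000 * L)) * E ^ 3 := by
        rw [hE, ← Real.exp_nat_mul, ← Real.exp_add]; congr 1; push_cast; ring
      rw [e, hT1, hV]; ring
    have G3 : b0 * (L + 3) * (T2 * V ^ 2) ≤ 1 / 3 := by
      refine le_trans (le_of_eq ?_) F6
      have e : Real.exp (-((x / 160 - 2 * (x / 20000)) * L)) =
          Real.exp (-(x / 160 * L)) * E ^ 2 := by
        rw [hE, ← Real.exp_nat_mul, ← Real.exp_add]; congr 1; push_cast; ring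
      rw [e, hT2, hV]; ring
    calc (v0 : ℝ) * (a * U * v0 + b0 * ((m : ℝ) + 1) * (U * (v0 : ℝ) ^ 2 + v0 * G))
        ≤ V * (a * T1 * V + b0 * (L + 3) * (T1 * V ^ 2 + V * T2)) := by gcongr
      _ = a * T1 * V ^ 2 + b0 * (L + 3) * (T1 * V ^ 3) + b0 * (L + 3) * (T2 * V ^ 2) := by ring
      _ ≤ 1 := by linarith

end Pool.Agent.Lib.P325L
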