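import Pool.Agent.Lib.P325L.Defs

/-!
Module SpSum (1.2h). The sum that controls dense small subgraphs.
PROOF. Let y = v / N (natural division). (3v/n) <= n^(-1/2) as 9 v^2 <= 9 R^2 <= n. So
(3v/n)^(y+1) <= n^(-(y+1)/2), and y + 1 >= max(1, v/N) >= (1 + v/N)/2, so it is
<= n^(-1/4) * n^(-v/(4N)). And n^(1/(4N)) >= 2 (9Δ)^3 (hypothesis hN, N >= 1), so
(9Δ)^(3v) n^(-v/(4N)) <= 2^(-v). The sum is at most n^(-1/4) ∑ v 2^(-v) <= 2 n^(-1/4) <= 1/4 for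
n >= 4096. (If v = 0.. the sum starts at v = 1.) Use Real.rpow.
-/

open scoped BigOperators

namespace Pool.Agent.Lib.P325L

namespace SpSumAux

theorem sum_two (R : ℕ) :
    ∑ v ∈ Finset.Icc 1 R, (v : ℝ) * (1 / 2) ^ v = 2 - ((R : ℝ) + 2) * (1 / 2) ^ R := by
  induction R with
  | zero => norm_num
  | succ R ih =>
    rw [Finset.sum_Icc_succ_top (by omega), ih, pow_succ]
    push_cast
    ring

theorem term (n Δ R N v : ℕ) (hn : 4096 ≤ n) (hN1 : 1 ≤ N) (hR : 9 * R ^ 2 ≤ n)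
    (hN : (2 * (9 * (Δ : ℝ)) ^ 3) ^ (4 * N) ≤ n) (hΔ : 1 ≤ Δ) (hv : v ≤ R) :
    (9 * (Δ : ℝ)) ^ (3 * v) * (3 * (v : ℝ) / n) ^ (v / N + 1) ≤ (1 / 8) * (1 / 2) ^ v := by
  have hn' : (4096 : ℝ) ≤ n := by exact_mod_cast hn
  have hn0 : (0 : ℝ) < n := by linarith
  set r : ℝ := √√(n : ℝ) with hr
  have hr0 : 0 ≤ r := Real.sqrt_nonneg _
  have hr2 : r ^ 2 = √(n : ℝ) := Real.sq_sqrt (Real.sqrt_nonneg _)
  have hr4 : r ^ 4 = n := by
    have : r ^ 4 = (r ^ 2) ^ 2 := by ring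
    rw [this, hr2]; exact Real.sq_sqrt hn0.le
  have hr8 : 8 ≤ r := by
    by_contra h
    rw [not_le] at h
    have : r ^ 4 < 8 ^ 4 := pow_lt_pow_left₀ h hr0 (by norm_num)
    rw [hr4] at this
    norm_num at this
    linarith
  have hrpos : 0 < r := by linarith
  set a : ℝ := (9 * (Δ : ℝ)) ^ 3 with ha
  have hΔ' : (1 : ℝ) ≤ Δ := by exact_mod_cast hΔ
  have ha1 : 1 ≤ a := by
    rw [ha]; exact one_le_pow₀ (by linarith)
  have ha0 : 0 < a := by linarith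
  set y := v / N with hy
  have hvN : v ≤ N * (y + 1) := by
    have h1 := Nat.div_add_mod v N
    have h2 := Nat.mod_lt v (show 0 < N by omega)
    rw [hy]
    nlinarith
  -- `3 v / n ≤ 1 / r ^ 2`
  have h3v : 3 * (v : ℝ) / n ≤ 1 / r ^ 2 := by
    rw [div_le_div_iff₀ hn0 (by positivity)]
    have h1 : (3 * (v : ℝ)) ^ 2 ≤ n := by
      have h2 : 9 * v ^ 2 ≤ n := le_trans (by nlinarith [Nat.pow_le_pow_left hv 2]) hR
      have h3 : (9 : ℝ) * (v : ℝ) ^ 2 ≤ n := by exact_mod_cast h2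
      nlinarith
    have h4 : 3 * (v : ℝ) ≤ r ^ 2 := by
      rw [hr2]
      exact Real.le_sqrt_of_sq_le h1
    have h5 : (0 : ℝ) ≤ r ^ 2 := by positivity
    calc 3 * (v : ℝ) * r ^ 2 ≤ r ^ 2 * r ^ 2 := mul_le_mul_of_nonneg_right h4 h5
      _ = 1 * n := by rw [one_mul, ← hr4]; ring
  have h3v0 : 0 ≤ 3 * (v : ℝ) / n := by positivity
  -- `(2 a) ^ (2 N) ≤ r ^ 2`
  have hNr : (2 * a) ^ (2 * N) ≤ r ^ 2 := by
    have h1 : ((2 * a) ^ (2 * N)) ^ 2 ≤ (r ^ 2) ^ 2 := by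
      calc ((2 * a) ^ (2 * N)) ^ 2 = (2 * a) ^ (4 * N) := by
            rw [← pow_mul]; congr 1; ring
        _ ≤ n := hN
        _ = (r ^ 2) ^ 2 := by rw [← hr4]; ring
    exact le_of_sq_le_sq h1 (by positivity)
  have h2a : (1 : ℝ) ≤ 2 * a := by linarith
  -- `(2 a) ^ v ≤ r ^ (2 y + 1)`
  have hkey : (2 * a) ^ v ≤ r ^ (2 * y + 1) := by
    have h1 : ((2 * a) ^ v) ^ 2 ≤ (r ^ (2 * y + 1)) ^ 2 := by
      calc ((2 * a) ^ v) ^ 2 = (2 * a) ^ (2 * v) := by rw [← pow_mul]; congr 1; ring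
        _ ≤ (2 * a) ^ (2 * N * (y + 1)) := pow_le_pow_right₀ h2a (by nlinarith)
        _ = ((2 * a) ^ (2 * N)) ^ (y + 1) := by rw [pow_mul]
        _ ≤ (r ^ 2) ^ (y + 1) := pow_le_pow_left₀ (by positivity) hNr _
        _ ≤ (r ^ 2) ^ (2 * y + 1) :=
            pow_le_pow_right₀ (one_le_pow₀ (by linarith)) (by omega)
        _ = (r ^ (2 * y + 1)) ^ 2 := by rw [← pow_mul, ← pow_mul]; congr 1; ring
    exact le_of_sq_le_sq h1 (by positivity)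
  have hpow : (9 * (Δ : ℝ)) ^ (3 * v) = a ^ v := by rw [ha, ← pow_mul]
  rw [hpow]
  have hstep : (3 * (v : ℝ) / n) ^ (y + 1) ≤ (1 / r ^ 2) ^ (y + 1) :=
    pow_le_pow_left₀ h3v0 h3v _
  calc a ^ v * (3 * (v : ℝ) / n) ^ (y + 1) ≤ a ^ v * (1 / r ^ 2) ^ (y + 1) :=
        mul_le_mul_of_nonneg_left hstep (by positivity)
    _ = ((2 * a) ^ v / r ^ (2 * y + 1)) * (1 / r) * (1 / 2) ^ v := by
        have e1 : (1 / r ^ 2) ^ (y + 1) = 1 / (r ^ (2 * y + 1) * r) := by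
          rw [one_div_pow, ← pow_mul, ← pow_succ]
          congr 2
        have e2 : (2 * a) ^ v * (1 / 2) ^ v = a ^ v := by
          rw [← mul_pow]; congr 1; ring
        rw [e1, ← e2]
        have hr' : r ^ (2 * y + 1) ≠ 0 := by positivity
        field_simp
    _ ≤ 1 * (1 / 8) * (1 / 2) ^ v := by
        refine mul_le_mul_of_nonneg_right ?_ (by positivity)
        refine mul_le_mul ?_ ?_ (by positivity) (by norm_num)
        · rw [div_le_one (by positivity)]; exact hkey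
        · exact one_div_le_one_div_of_le (by norm_num) hr8
    _ = (1 / 8) * (1 / 2) ^ v := by ring

end SpSumAux

open SpSumAux

theorem sp_sum (n Δ R N : ℕ) (hn : 4096 ≤ n) (hN1 : 1 ≤ N) (hR : 9 * R ^ 2 ≤ n)
    (hN : (2 * (9 * (Δ : ℝ)) ^ 3) ^ (4 * N) ≤ n) (hΔ : 1 ≤ Δ) :
    ∑ v ∈ Finset.Icc 1 R, (v : ℝ) * ((9 * (Δ : ℝ)) ^ (3 * v) *
      (3 * (v : ℝ) / n) ^ (v / N + 1)) ≤ 1 / 4 := by
  have h1 : ∀ v ∈ Finset.Icc 1 R, (v : ℝ) * ((9 * (Δ : ℝ)) ^ (3 * v) *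
      (3 * (v : ℝ) / n) ^ (v / N + 1)) ≤ (1 / 8) * ((v : ℝ) * (1 / 2) ^ v) := by
    intro v hv
    have hvR := (Finset.mem_Icc.mp hv).2
    have h2 := term n Δ R N v hn hN1 hR hN hΔ hvR
    calc (v : ℝ) * ((9 * (Δ : ℝ)) ^ (3 * v) * (3 * (v : ℝ) / n) ^ (v / N + 1))
        ≤ (v : ℝ) * ((1 / 8) * (1 / 2) ^ v) := mul_le_mul_of_nonneg_left h2 (by positivity)
      _ = (1 / 8) * ((v : ℝ) * (1 / 2) ^ v) := by ring
  refine (Finset.sum_le_sum h1).trans ?_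
  rw [← Finset.mul_sum, sum_two]
  have : 0 ≤ ((R : ℝ) + 2) * (1 / 2) ^ R := by positivity
  linarith

end Pool.Agent.Lib.P325L
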