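import Pool.Agent.Lib.P325L.Defs
import Pool.Agent.Lib.P325L.Cnt
import Pool.Agent.Lib.P325L.SpSum

/-!
Module Sel (2.8h; uses cnt, sp_sum). A sparse bipartite graph with few short cycles.
The graph bg f on V = Fin n ⊕ Fin n with edges e = (i, j): src = inl i, tgt = inr (f e). For an edge
set C: |verts C| = |C.image fst| + |C.image f|.
PROOF. (1) Bad1 f = nonempty C with |C| <= g and |verts C| <= |C|. With A = C.image fst, B = C.image f,
|A| + |B| <= m := |C|, C ∈ Bad1 injects into the union of triples n Δ a b m f over m <= g,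
a, b >= 1, a + b <= m (fewer than m^2 pairs). By cnt, ∑_f |Bad1 f| <= n^(nΔ) ∑_{m=1..g} m^2 (9Δ)^m
<= n^(nΔ) g^3 (9Δ)^g (m/n <= 1 as g <= n; power of a number <= 1). (2) Bad2 f = the set of all triples
(A,B,C) in triples n Δ a b m f with v = a + b in [1,R], a, b >= 1 and m = v + v/N + 1. m <= 3v.
∑_f |Bad2 f| <= n^(nΔ) ∑_v v (9Δ)^(3v) (3v/n)^(v/N+1) <= n^(nΔ)/4 (cnt: (9Δ)^m <= (9Δ)^(3v),
m/n <= 3v/n, exponent m - v = v/N + 1; sp_sum). (3) So ∑_f (|Bad1 f| / (2 g^3 (9Δ)^g) + |Bad2 f|)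
<= (3/4) n^(nΔ) < number of f's; hence some f has Bad2 f = ∅ and |Bad1 f| < 2 g^3 (9Δ)^g (g >= 1).
(4) Del: choose one edge from every member of Bad1 f: |Del| <= |Bad1 f|, 2|Del| <= 4 g^3 (9Δ)^g <= nΔ.
If H is disjoint from Del, nonempty, |H| <= g, then H ∉ Bad1, so |H| < |verts H|. (5) Sparsity for any H
with v = |verts H| <= R: if N|H| > (N+1) v then |H| >= v + v/N + 1 (natural division), v >= 1; take C ⊆ H
with exactly v + v/N + 1 elements, A = H.image fst, B = H.image f, |A| + |B| = v: a triple in Bad2 f,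
contradiction.
-/

open scoped BigOperators

namespace Pool.Agent.Lib.P325L

/-- The bipartite graph of the map `f`: the edge `(i, j)` joins `i` on the left to `f (i, j)` on the
right. -/
def bg {n Δ : ℕ} (f : Fin n × Fin Δ → Fin n) : Gr (Fin n ⊕ Fin n) (Fin n × Fin Δ) where
  src := fun e => Sum.inl e.1
  tgt := fun e => Sum.inr (f e)
  ne := fun _ h => by cases h

namespace SelAux

theorem verts_card {n Δ : ℕ} (f : Fin n × Fin Δ → Fin n) (C : Finset (Fin n × Fin Δ)) :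
    ((bg f).verts C).card = (C.image Prod.fst).card + (C.image f).card := by
  have h1 : (bg f).verts C = (C.image Prod.fst).image Sum.inl ∪ (C.image f).image Sum.inr := by
    unfold Gr.verts bg
    rw [Finset.image_image, Finset.image_image]
    rfl
  rw [h1, Finset.card_union_of_disjoint, Finset.card_image_of_injective _ Sum.inl_injective,
    Finset.card_image_of_injective _ Sum.inr_injective]
  rw [Finset.disjoint_left]
  intro x hx hy
  simp only [Finset.mem_image] at hx hy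
  obtain ⟨a, -, rfl⟩ := hx
  obtain ⟨b, -, hb⟩ := hy
  cases hb

/-- The nonempty sets of at most `g` edges that touch at most as many vertices. -/
def Bad1 {n Δ : ℕ} (g : ℕ) (f : Fin n × Fin Δ → Fin n) : Finset (Finset (Fin n × Fin Δ)) :=
  Finset.univ.filter (fun C => C.Nonempty ∧ C.card ≤ g ∧
    (C.image Prod.fst).card + (C.image f).card ≤ C.card)

/-- index set for the short dense sets -/
def I1 (g : ℕ) : Finset (ℕ × ℕ × ℕ) :=
  (Finset.Icc 1 g ×ˢ Finset.Icc 1 g ×ˢ Finset.Icc 1 g).filter (fun q => q.2.1 + q.2.2 ≤ q.1)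

theorem I1_card (g : ℕ) : (I1 g).card ≤ g ^ 3 := by
  refine (Finset.card_filter_le _ _).trans ?_
  simp only [Finset.card_product, Nat.card_Icc, Nat.add_sub_cancel]
  exact le_of_eq (by ring)

theorem bad1_le {n Δ : ℕ} (g : ℕ) (f : Fin n × Fin Δ → Fin n) :
    (Bad1 g f).card ≤ ∑ q ∈ I1 g, (triples n Δ q.2.1 q.2.2 q.1 f).card := by
  have hsub : Bad1 g f ⊆ ((I1 g).biUnion (fun q => triples n Δ q.2.1 q.2.2 q.1 f)).image
      (fun T => T.2.2) := by
    intro C hC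
    simp only [Bad1, Finset.mem_filter, Finset.mem_univ, true_and] at hC
    obtain ⟨hne, hg, hle⟩ := hC
    rw [Finset.mem_image]
    refine ⟨(C.image Prod.fst, C.image f, C), ?_, rfl⟩
    rw [Finset.mem_biUnion]
    have hA : 1 ≤ (C.image Prod.fst).card := (hne.image _).card_pos
    have hB : 1 ≤ (C.image f).card := (hne.image _).card_pos
    refine ⟨(C.card, (C.image Prod.fst).card, (C.image f).card), ?_, ?_⟩
    · simp only [I1, Finset.mem_filter, Finset.mem_product, Finset.mem_Icc]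
      refine ⟨⟨⟨by omega, hg⟩, ⟨hA, by omega⟩, ⟨hB, by omega⟩⟩, hle⟩
    · simp only [triples, Finset.mem_filter, Finset.mem_univ, true_and]
      exact ⟨fun e he => Finset.mem_image_of_mem _ he, fun e he => Finset.mem_image_of_mem _ he⟩
  calc (Bad1 g f).card ≤ _ := Finset.card_le_card hsub
    _ ≤ _ := Finset.card_image_le
    _ ≤ _ := Finset.card_biUnion_le

theorem sum_bad1 (n Δ g : ℕ) (hn : 1 ≤ n) (hg1 : 1 ≤ g) (hgn : g ≤ n) (hΔ : 1 ≤ Δ) :
    (∑ f : Fin n × Fin Δ → Fin n, ((Bad1 g f).card : ℝ)) ≤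
      (n : ℝ) ^ (n * Δ) * ((g : ℝ) ^ 3 * (9 * (Δ : ℝ)) ^ g) := by
  have hΔr : (1 : ℝ) ≤ (Δ : ℝ) := by exact_mod_cast hΔ
  have h9 : (1 : ℝ) ≤ 9 * (Δ : ℝ) := by linarith
  have hnr : (1 : ℝ) ≤ (n : ℝ) := by exact_mod_cast hn
  have hpow : (0 : ℝ) ≤ (n : ℝ) ^ (n * Δ) := by positivity
  have step1 : (∑ f : Fin n × Fin Δ → Fin n, ((Bad1 g f).card : ℝ)) ≤
      ∑ f : Fin n × Fin Δ → Fin n, ∑ q ∈ I1 g, ((triples n Δ q.2.1 q.2.2 q.1 f).card : ℝ) := by
    refine Finset.sum_le_sum (fun f _ => ?_)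
    have := bad1_le g f
    calc ((Bad1 g f).card : ℝ) ≤ ((∑ q ∈ I1 g, (triples n Δ q.2.1 q.2.2 q.1 f).card : ℕ) : ℝ) := by
          exact_mod_cast this
      _ = _ := by push_cast; rfl
  have step2 : (∑ f : Fin n × Fin Δ → Fin n, ∑ q ∈ I1 g,
      ((triples n Δ q.2.1 q.2.2 q.1 f).card : ℝ)) ≤
      ∑ q ∈ I1 g, (n : ℝ) ^ (n * Δ) * (9 * (Δ : ℝ)) ^ g := by
    rw [Finset.sum_comm]
    refine Finset.sum_le_sum (fun q hq => ?_)
    simp only [I1, Finset.mem_filter, Finset.mem_product, Finset.mem_Icc] at hq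
    obtain ⟨⟨⟨hm1, hmg⟩, ⟨ha, -⟩, ⟨hb, -⟩⟩, hab⟩ := hq
    refine (cnt n Δ q.2.1 q.2.2 q.1 hn ha hb hab).trans ?_
    refine mul_le_mul_of_nonneg_left ?_ hpow
    have e1 : (9 * (Δ : ℝ)) ^ q.1 ≤ (9 * (Δ : ℝ)) ^ g := pow_le_pow_right₀ h9 hmg
    have e2 : ((q.1 : ℝ) / n) ^ (q.1 - (q.2.1 + q.2.2)) ≤ 1 := by
      refine pow_le_one₀ (by positivity) ?_
      rw [div_le_one (by linarith)]
      exact_mod_cast hmg.trans hgn
    calc (9 * (Δ : ℝ)) ^ q.1 * ((q.1 : ℝ) / n) ^ (q.1 - (q.2.1 + q.2.2))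
        ≤ (9 * (Δ : ℝ)) ^ q.1 * 1 := mul_le_mul_of_nonneg_left e2 (by positivity)
      _ ≤ _ := by rw [mul_one]; exact e1
  have step3 : (∑ q ∈ I1 g, (n : ℝ) ^ (n * Δ) * (9 * (Δ : ℝ)) ^ g) ≤
      (n : ℝ) ^ (n * Δ) * ((g : ℝ) ^ 3 * (9 * (Δ : ℝ)) ^ g) := by
    rw [Finset.sum_const, nsmul_eq_mul]
    have : ((I1 g).card : ℝ) ≤ (g : ℝ) ^ 3 := by exact_mod_cast I1_card g
    calc ((I1 g).card : ℝ) * ((n : ℝ) ^ (n * Δ) * (9 * (Δ : ℝ)) ^ g)
        ≤ (g : ℝ) ^ 3 * ((n : ℝ) ^ (n * Δ) * (9 * (Δ : ℝ)) ^ g) :=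
          mul_le_mul_of_nonneg_right this (by positivity)
      _ = _ := by ring
  exact step1.trans (step2.trans step3)

/-- number of dense triples with few vertices -/
def B2 {n Δ : ℕ} (R N : ℕ) (f : Fin n × Fin Δ → Fin n) : ℕ :=
  ∑ v ∈ Finset.Icc 1 R, ∑ a ∈ Finset.Icc 1 (v - 1), (triples n Δ a (v - a) (v + v / N + 1) f).card

theorem sum_B2 (n Δ R N : ℕ) (hn : 4096 ≤ n) (hN1 : 1 ≤ N) (hR : 9 * R ^ 2 ≤ n)
    (hN : (2 * (9 * (Δ : ℝ)) ^ 3) ^ (4 * N) ≤ n) (hΔ : 1 ≤ Δ) :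
    (∑ f : Fin n × Fin Δ → Fin n, ((B2 R N f : ℕ) : ℝ)) ≤ (n : ℝ) ^ (n * Δ) * (1 / 4) := by
  have hΔr : (1 : ℝ) ≤ (Δ : ℝ) := by exact_mod_cast hΔ
  have h9 : (1 : ℝ) ≤ 9 * (Δ : ℝ) := by linarith
  have hnr : (0 : ℝ) < (n : ℝ) := by
    have : (4096 : ℝ) ≤ (n : ℝ) := by exact_mod_cast hn
    linarith
  have hpow : (0 : ℝ) ≤ (n : ℝ) ^ (n * Δ) := by positivity
  have step1 : (∑ f : Fin n × Fin Δ → Fin n, ((B2 R N f : ℕ) : ℝ)) =
      ∑ v ∈ Finset.Icc 1 R, ∑ a ∈ Finset.Icc 1 (v - 1), ∑ f : Fin n × Fin Δ → Fin n,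
        ((triples n Δ a (v - a) (v + v / N + 1) f).card : ℝ) := by
    unfold B2
    push_cast
    rw [Finset.sum_comm]
    refine Finset.sum_congr rfl (fun v _ => ?_)
    rw [Finset.sum_comm]
  rw [step1]
  have step2 : ∀ v ∈ Finset.Icc 1 R, (∑ a ∈ Finset.Icc 1 (v - 1), ∑ f : Fin n × Fin Δ → Fin n,
        ((triples n Δ a (v - a) (v + v / N + 1) f).card : ℝ)) ≤
      (n : ℝ) ^ (n * Δ) * ((v : ℝ) * ((9 * (Δ : ℝ)) ^ (3 * v) *
        (3 * (v : ℝ) / n) ^ (v / N + 1))) := by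
    intro v hv
    rw [Finset.mem_Icc] at hv
    have hdiv : v / N ≤ v := Nat.div_le_self v N
    have hm3 : v + v / N + 1 ≤ 3 * v := by omega
    have hterm : ∀ a ∈ Finset.Icc 1 (v - 1), (∑ f : Fin n × Fin Δ → Fin n,
        ((triples n Δ a (v - a) (v + v / N + 1) f).card : ℝ)) ≤
        (n : ℝ) ^ (n * Δ) * ((9 * (Δ : ℝ)) ^ (3 * v) * (3 * (v : ℝ) / n) ^ (v / N + 1)) := by
      intro a ha
      rw [Finset.mem_Icc] at ha
      have hb : 1 ≤ v - a := by omega
      have hab : a + (v - a) ≤ v + v / N + 1 := by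
        have h0 : a + (v - a) = v := by omega
        rw [h0, Nat.add_assoc]
        exact Nat.le_add_right _ _
      refine (cnt n Δ a (v - a) (v + v / N + 1) (by omega) ha.1 hb hab).trans ?_
      refine mul_le_mul_of_nonneg_left ?_ hpow
      have hexp : v + v / N + 1 - (a + (v - a)) = v / N + 1 := by
        have h0 : a + (v - a) = v := by omega
        rw [h0, Nat.add_assoc, Nat.add_sub_cancel_left]
      rw [hexp]
      have e1 : (9 * (Δ : ℝ)) ^ (v + v / N + 1) ≤ (9 * (Δ : ℝ)) ^ (3 * v) :=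
        pow_le_pow_right₀ h9 hm3
      have e2 : (((v + v / N + 1 : ℕ) : ℝ) / n) ^ (v / N + 1) ≤
          (3 * (v : ℝ) / n) ^ (v / N + 1) := by
        refine pow_le_pow_left₀ (by positivity) ?_ _
        refine div_le_div_of_nonneg_right ?_ hnr.le
        exact_mod_cast hm3
      exact mul_le_mul e1 e2 (by positivity) (by positivity)
    refine (Finset.sum_le_sum hterm).trans ?_
    rw [Finset.sum_const, nsmul_eq_mul, Nat.card_Icc]
    have hc : (((v - 1 + 1 - 1 : ℕ)) : ℝ) ≤ (v : ℝ) := by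
      exact_mod_cast (by omega : v - 1 + 1 - 1 ≤ v)
    calc (((v - 1 + 1 - 1 : ℕ)) : ℝ) * ((n : ℝ) ^ (n * Δ) * ((9 * (Δ : ℝ)) ^ (3 * v) *
          (3 * (v : ℝ) / n) ^ (v / N + 1)))
        ≤ (v : ℝ) * ((n : ℝ) ^ (n * Δ) * ((9 * (Δ : ℝ)) ^ (3 * v) *
          (3 * (v : ℝ) / n) ^ (v / N + 1))) := mul_le_mul_of_nonneg_right hc (by positivity)
      _ = _ := by ring
  refine (Finset.sum_le_sum step2).trans ?_
  rw [← Finset.mul_sum]
  exact mul_le_mul_of_nonneg_left (sp_sum n Δ R N hn hN1 hR hN hΔ) hpow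

end SelAux

theorem sel (n Δ g R N : ℕ) (hn : 4096 ≤ n) (hN1 : 1 ≤ N) (hR : 9 * R ^ 2 ≤ n) (hg1 : 1 ≤ g)
    (hgn : g ≤ n) (hΔ : 1 ≤ Δ)
    (hN : (2 * (9 * (Δ : ℝ)) ^ 3) ^ (4 * N) ≤ n)
    (hg : 4 * (g : ℝ) ^ 3 * (9 * (Δ : ℝ)) ^ g ≤ (n : ℝ) * Δ) :
    ∃ (f : Fin n × Fin Δ → Fin n) (Del : Finset (Fin n × Fin Δ)), 2 * Del.card ≤ n * Δ ∧
      (∀ H : Finset (Fin n × Fin Δ), Disjoint H Del → H.Nonempty → H.card ≤ g →
        H.card < ((bg f).verts H).card) ∧
      ∀ H : Finset (Fin n × Fin Δ), ((bg f).verts H).card ≤ R →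
        N * H.card ≤ (N + 1) * ((bg f).verts H).card := by
  classical
  have hnr : (4096 : ℝ) ≤ (n : ℝ) := by exact_mod_cast hn
  have hΔr : (1 : ℝ) ≤ (Δ : ℝ) := by exact_mod_cast hΔ
  have hgr : (1 : ℝ) ≤ (g : ℝ) := by exact_mod_cast hg1
  set K : ℝ := (g : ℝ) ^ 3 * (9 * (Δ : ℝ)) ^ g with hK
  have hKpos : 0 < K := by positivity
  have hPpos : (0 : ℝ) < (n : ℝ) ^ (n * Δ) := by positivity
  -- a good map
  obtain ⟨f, hf1, hf2⟩ : ∃ f : Fin n × Fin Δ → Fin n, ((SelAux.Bad1 g f).card : ℝ) < 2 * K ∧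
      SelAux.B2 R N f = 0 := by
    by_contra hcon
    push Not at hcon
    have hall : ∀ f : Fin n × Fin Δ → Fin n, (1 : ℝ) ≤
        ((SelAux.Bad1 g f).card : ℝ) / (2 * K) + ((SelAux.B2 R N f : ℕ) : ℝ) := by
      intro f
      by_cases h : ((SelAux.Bad1 g f).card : ℝ) < 2 * K
      · have h2 : 1 ≤ SelAux.B2 R N f := Nat.one_le_iff_ne_zero.mpr (hcon f h)
        have h3 : (1 : ℝ) ≤ ((SelAux.B2 R N f : ℕ) : ℝ) := by exact_mod_cast h2
        have h4 : 0 ≤ ((SelAux.Bad1 g f).card : ℝ) / (2 * K) := by positivity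
        linarith
      · have h2 : 1 ≤ ((SelAux.Bad1 g f).card : ℝ) / (2 * K) := by
          rw [le_div_iff₀ (by positivity)]
          linarith [not_lt.mp h]
        have h4 : (0 : ℝ) ≤ ((SelAux.B2 R N f : ℕ) : ℝ) := by positivity
        linarith
    have hsum : (n : ℝ) ^ (n * Δ) ≤ ∑ f : Fin n × Fin Δ → Fin n,
        (((SelAux.Bad1 g f).card : ℝ) / (2 * K) + ((SelAux.B2 R N f : ℕ) : ℝ)) := by
      calc (n : ℝ) ^ (n * Δ) = ∑ _f : Fin n × Fin Δ → Fin n, (1 : ℝ) := by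
            rw [Finset.sum_const, nsmul_eq_mul, mul_one, Finset.card_univ, Fintype.card_fun,
              Fintype.card_prod, Fintype.card_fin, Fintype.card_fin]
            push_cast
            ring
        _ ≤ _ := Finset.sum_le_sum (fun f _ => hall f)
    rw [Finset.sum_add_distrib, ← Finset.sum_div] at hsum
    have hb1 := SelAux.sum_bad1 n Δ g (by omega) hg1 hgn hΔ
    have hb2 := SelAux.sum_B2 n Δ R N hn hN1 hR hN hΔ
    have hb3 : (∑ f : Fin n × Fin Δ → Fin n, ((SelAux.Bad1 g f).card : ℝ)) / (2 * K) ≤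
        (n : ℝ) ^ (n * Δ) / 2 := by
      rw [div_le_iff₀ (by positivity)]
      calc _ ≤ (n : ℝ) ^ (n * Δ) * K := hb1
        _ = _ := by ring
    linarith
  -- deletion of one edge of every bad set
  have : Nonempty (Fin n × Fin Δ) := ⟨(⟨0, by omega⟩, ⟨0, by omega⟩)⟩
  have hch : ∀ C : Finset (Fin n × Fin Δ), ∃ e : Fin n × Fin Δ, C.Nonempty → e ∈ C := by
    intro C
    by_cases h : C.Nonempty
    · exact ⟨h.choose, fun _ => h.choose_spec⟩
    · exact ⟨Classical.arbitrary _, fun h' => absurd h' h⟩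
  choose c hc using hch
  refine ⟨f, (SelAux.Bad1 g f).image c, ?_, ?_, ?_⟩
  · have h1 : ((SelAux.Bad1 g f).image c).card ≤ (SelAux.Bad1 g f).card := Finset.card_image_le
    have h2 : (((SelAux.Bad1 g f).image c).card : ℝ) ≤ ((SelAux.Bad1 g f).card : ℝ) := by
      exact_mod_cast h1
    have h3 : (2 * (((SelAux.Bad1 g f).image c).card : ℝ)) ≤ (n : ℝ) * Δ := by
      have : 4 * K ≤ (n : ℝ) * Δ := by
        calc 4 * K = 4 * (g : ℝ) ^ 3 * (9 * (Δ : ℝ)) ^ g := by rw [hK]; ring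
          _ ≤ _ := hg
      linarith
    exact_mod_cast h3
  · intro H hdisj hne hHg
    by_contra hlt
    have hle : ((bg f).verts H).card ≤ H.card := not_lt.mp hlt
    rw [SelAux.verts_card] at hle
    have hmem : H ∈ SelAux.Bad1 g f := by
      simp only [SelAux.Bad1, Finset.mem_filter, Finset.mem_univ, true_and]
      exact ⟨hne, hHg, hle⟩
    exact Finset.disjoint_left.mp hdisj (hc H hne) (Finset.mem_image_of_mem c hmem)
  · intro H hHR
    by_contra hlt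
    have hlt' : (N + 1) * ((bg f).verts H).card < N * H.card := not_le.mp hlt
    rw [SelAux.verts_card] at hlt' hHR
    set v : ℕ := (H.image Prod.fst).card + (H.image f).card with hv
    have hne : H.Nonempty := by
      rw [← Finset.card_pos]
      by_contra h0
      have : H.card = 0 := by omega
      rw [this] at hlt'
      omega
    have hA : 1 ≤ (H.image Prod.fst).card := (hne.image _).card_pos
    have hB : 1 ≤ (H.image f).card := (hne.image _).card_pos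
    have hcard : v + v / N + 1 ≤ H.card := by
      by_contra h
      have h1 : H.card ≤ v + v / N := by omega
      have h2 : N * H.card ≤ N * (v + v / N) := Nat.mul_le_mul_left N h1
      have h3 : N * (v / N) ≤ v := Nat.mul_div_le v N
      have h4 : N * (v + v / N) = N * v + N * (v / N) := by ring
      have h5 : (N + 1) * v = N * v + v := by ring
      omega
    obtain ⟨C, hCH, hCc⟩ := Finset.exists_subset_card_eq hcard
    have hmem : (H.image Prod.fst, H.image f, C) ∈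
        triples n Δ (H.image Prod.fst).card (v - (H.image Prod.fst).card) (v + v / N + 1) f := by
      simp only [triples, Finset.mem_filter, Finset.mem_univ, true_and]
      refine ⟨by omega, hCc, fun e he => Finset.mem_image_of_mem _ (hCH he),
        fun e he => Finset.mem_image_of_mem _ (hCH he)⟩
    have hz : ∀ v' ∈ Finset.Icc 1 R, ∑ a ∈ Finset.Icc 1 (v' - 1),
        (triples n Δ a (v' - a) (v' + v' / N + 1) f).card = 0 := by
      have := hf2
      unfold SelAux.B2 at this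
      exact Finset.sum_eq_zero_iff.mp this
    have hz1 := hz v (Finset.mem_Icc.mpr ⟨by omega, hHR⟩)
    have hz2 := Finset.sum_eq_zero_iff.mp hz1 (H.image Prod.fst).card
      (Finset.mem_Icc.mpr ⟨hA, by omega⟩)
    rw [Finset.card_eq_zero] at hz2
    rw [hz2] at hmem
    exact absurd hmem (Finset.notMem_empty _)

end Pool.Agent.Lib.P325L
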