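import Pool.Agent.Lib.P325L.Defs

/-!
Module Sound (2h). Random shifts have small value.
PROOF. J = Fin n × Fin Δ, |J| = nΔ. Let m0 = ⌊d nΔ/2⌋ + 1, so m0 > d nΔ/2 >= 4.5 n. For fixed labels x, y
the number of b : J → ZMod k that satisfy at least m0 edges is at most choose (nΔ) m0 * k^(nΔ - m0)
(choose m0 satisfied edges, on them b is determined, b e = y (f e) - x e.1). Union over k^(2n) labelings:
it suffices that k^(2n) choose (nΔ) m0 < k^(m0). If m0 > nΔ the count is zero. Otherwise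
choose (nΔ) m0 <= (e nΔ/m0)^m0 <= (2e/d)^m0 <= (6/d)^m0 and (6/d)^2 <= k, so (choose)^2 <= k^m0, and
(k^(2n) choose)^2 <= k^(4n + m0) < k^(2 m0) since 4 n < m0 and k >= 36 > 1. So some b has fewer than m0,
i.e. at most d nΔ/2, satisfied edges for all labelings (the number is an integer < m0).
(choose M m <= M^m/m! and m! >= (m/e)^m.)
-/

open scoped BigOperators

namespace Pool.Agent.Lib.P325L

namespace SoundAux

lemma choose_bound {N m : ℕ} {d : ℝ} (hd : 0 < d) (hm0 : 0 < m) (hm : d / 2 * (N : ℝ) ≤ m) :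
    ((N.choose m : ℕ) : ℝ) ≤ (6 / d) ^ m := by
  have h1 : ((N.choose m : ℕ) : ℝ) ≤ (N : ℝ) ^ m / (m.factorial : ℝ) :=
    Nat.choose_le_pow_div m N
  have hmr : (0 : ℝ) < m := by exact_mod_cast hm0
  have hf : (0 : ℝ) < m.factorial := by exact_mod_cast Nat.factorial_pos m
  have h2 : (m : ℝ) ^ m / (m.factorial : ℝ) ≤ Real.exp m :=
    Real.pow_div_factorial_le_exp (m : ℝ) hmr.le m
  have h3 : Real.exp (m : ℝ) ≤ 3 ^ m := by
    rw [← Real.exp_one_pow]
    exact pow_le_pow_left₀ (Real.exp_pos _).le (by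
      have := Real.exp_one_lt_d9
      linarith) m
  have h4 : (N : ℝ) ≤ 2 / d * m := by
    rw [div_mul_eq_mul_div, le_div_iff₀ hd]
    linarith
  calc ((N.choose m : ℕ) : ℝ) ≤ (N : ℝ) ^ m / (m.factorial : ℝ) := h1
    _ ≤ (2 / d * m) ^ m / (m.factorial : ℝ) :=
        div_le_div_of_nonneg_right (pow_le_pow_left₀ (Nat.cast_nonneg _) h4 m) hf.le
    _ = (2 / d) ^ m * ((m : ℝ) ^ m / (m.factorial : ℝ)) := by rw [mul_pow, mul_div_assoc]
    _ ≤ (2 / d) ^ m * 3 ^ m := mul_le_mul_of_nonneg_left (h2.trans h3) (by positivity)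
    _ = (6 / d) ^ m := by rw [← mul_pow]; congr 1; ring

end SoundAux

open SoundAux in
theorem sound (n Δ k : ℕ) [NeZero k] (d : ℝ) (hn : 1 ≤ n) (hd : 0 < d) (hd1 : d ≤ 1)
    (hk : 36 ≤ (k : ℝ) * d ^ 2) (hΔ : 9 ≤ d * Δ) (f : Fin n × Fin Δ → Fin n) :
    ∃ b : Fin n × Fin Δ → ZMod k, ∀ x y : Fin n → ZMod k,
      ((Finset.univ.filter (fun e : Fin n × Fin Δ => y (f e) = x e.1 + b e)).card : ℝ) ≤
        d / 2 * ((n : ℝ) * Δ) := by
  classical
  by_contra hcon
  push Not at hcon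
  have hnr : (1 : ℝ) ≤ n := by exact_mod_cast hn
  set m0 : ℕ := ⌊d / 2 * ((n : ℝ) * Δ)⌋₊ + 1 with hm0
  have hm : d / 2 * ((n : ℝ) * Δ) < m0 := by
    rw [hm0]
    push_cast
    exact Nat.lt_floor_add_one _
  have hd2 : d ^ 2 ≤ 1 := by nlinarith
  have hk36 : (36 : ℝ) ≤ k := by nlinarith [Nat.cast_nonneg (α := ℝ) k]
  have hk1 : (1 : ℝ) < k := by linarith
  have hk0 : (0 : ℝ) < k := by linarith
  have hkN : 0 < k := by exact_mod_cast hk0
  -- the cover
  let A : (Fin n → ZMod k) × (Fin n → ZMod k) × Finset (Fin n × Fin Δ) →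
      Finset ((Fin n × Fin Δ) → ZMod k) := fun t =>
    Fintype.piFinset (fun e => if e ∈ t.2.2 then {t.2.1 (f e) - t.1 e.1} else Finset.univ)
  let I : Finset ((Fin n → ZMod k) × (Fin n → ZMod k) × Finset (Fin n × Fin Δ)) :=
    Finset.univ ×ˢ (Finset.univ ×ˢ (Finset.powersetCard m0 Finset.univ))
  have hcover : (Finset.univ : Finset ((Fin n × Fin Δ) → ZMod k)) ⊆ I.biUnion A := by
    intro b _
    obtain ⟨x, y, hxy⟩ := hcon b
    have h1 : m0 ≤ (Finset.univ.filter (fun e : Fin n × Fin Δ => y (f e) = x e.1 + b e)).card := by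
      rw [hm0, Nat.succ_le_iff]
      exact (Nat.floor_lt (by positivity)).mpr hxy
    obtain ⟨S, hS1, hS2⟩ := Finset.exists_subset_card_eq h1
    rw [Finset.mem_biUnion]
    refine ⟨(x, y, S), ?_, ?_⟩
    · simp only [I, Finset.mem_product, Finset.mem_univ, true_and, Finset.mem_powersetCard]
      exact ⟨Finset.subset_univ _, hS2⟩
    · simp only [A, Fintype.mem_piFinset]
      intro e
      by_cases he : e ∈ S
      · rw [if_pos he, Finset.mem_singleton]
        have := (Finset.mem_filter.mp (hS1 he)).2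
        rw [this]
        ring
      · rw [if_neg he]
        exact Finset.mem_univ _
  have hA : ∀ t ∈ I, (A t).card = k ^ (n * Δ - m0) := by
    intro t ht
    simp only [I, Finset.mem_product, Finset.mem_univ, true_and, Finset.mem_powersetCard] at ht
    simp only [A, Fintype.card_piFinset]
    have h1 : ∀ e : Fin n × Fin Δ, (if e ∈ t.2.2 then
        ({t.2.1 (f e) - t.1 e.1} : Finset (ZMod k)) else Finset.univ).card =
        if e ∈ t.2.2 then 1 else k := by
      intro e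
      split_ifs
      · simp
      · rw [Finset.card_univ, ZMod.card]
    simp only [h1]
    rw [Finset.prod_ite]
    simp only [Finset.prod_const_one, one_mul, Finset.prod_const]
    congr 1
    have h2 : (Finset.univ.filter fun e : Fin n × Fin Δ => e ∉ t.2.2) = Finset.univ \ t.2.2 := by
      ext e
      simp
    rw [h2, Finset.card_sdiff_of_subset (Finset.subset_univ _), ht.2]
    simp
  have hcard : k ^ (n * Δ) ≤ (k ^ n * (k ^ n * (n * Δ).choose m0)) * k ^ (n * Δ - m0) := by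
    have h1 := (Finset.card_le_card hcover).trans (Finset.card_biUnion_le)
    rw [Finset.sum_congr rfl hA, Finset.sum_const, smul_eq_mul] at h1
    simp only [I, Finset.card_product, Finset.card_powersetCard, Finset.card_univ,
      Fintype.card_pi, ZMod.card, Finset.prod_const, Fintype.card_prod, Fintype.card_fin] at h1
    exact h1
  -- the case distinction
  by_cases hle : m0 ≤ n * Δ
  · have h2 : k ^ m0 ≤ k ^ n * (k ^ n * (n * Δ).choose m0) := by
      have h3 : k ^ (n * Δ) = k ^ m0 * k ^ (n * Δ - m0) := by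
        rw [← pow_add]
        congr 1
        omega
      rw [h3] at hcard
      exact Nat.le_of_mul_le_mul_right hcard (pow_pos hkN _)
    have h3 : (k : ℝ) ^ m0 ≤ (k : ℝ) ^ (2 * n) * (((n * Δ).choose m0 : ℕ) : ℝ) := by
      have : (k : ℝ) ^ m0 ≤ (k : ℝ) ^ n * ((k : ℝ) ^ n * (((n * Δ).choose m0 : ℕ) : ℝ)) := by
        exact_mod_cast h2
      calc (k : ℝ) ^ m0 ≤ (k : ℝ) ^ n * ((k : ℝ) ^ n * (((n * Δ).choose m0 : ℕ) : ℝ)) := this
        _ = _ := by rw [two_mul, pow_add]; ring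
    have hcb : (((n * Δ).choose m0 : ℕ) : ℝ) ≤ (6 / d) ^ m0 := by
      refine choose_bound hd (by omega) ?_
      push_cast
      exact hm.le
    have h6 : (6 / d) ^ 2 ≤ (k : ℝ) := by
      rw [div_pow, div_le_iff₀ (by positivity)]
      linarith
    have h7 : (((n * Δ).choose m0 : ℕ) : ℝ) ^ 2 ≤ (k : ℝ) ^ m0 := by
      calc (((n * Δ).choose m0 : ℕ) : ℝ) ^ 2 ≤ ((6 / d) ^ m0) ^ 2 :=
            pow_le_pow_left₀ (Nat.cast_nonneg _) hcb 2
        _ = ((6 / d) ^ 2) ^ m0 := by rw [← pow_mul, ← pow_mul, mul_comm]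
        _ ≤ (k : ℝ) ^ m0 := pow_le_pow_left₀ (by positivity) h6 m0
    have h8 : (k : ℝ) ^ (2 * m0) ≤ (k : ℝ) ^ (4 * n + m0) := by
      calc (k : ℝ) ^ (2 * m0) = ((k : ℝ) ^ m0) ^ 2 := by rw [← pow_mul]; ring_nf
        _ ≤ ((k : ℝ) ^ (2 * n) * (((n * Δ).choose m0 : ℕ) : ℝ)) ^ 2 :=
            pow_le_pow_left₀ (by positivity) h3 2
        _ = (k : ℝ) ^ (4 * n) * (((n * Δ).choose m0 : ℕ) : ℝ) ^ 2 := by
            rw [mul_pow, ← pow_mul]; ring_nf
        _ ≤ (k : ℝ) ^ (4 * n) * (k : ℝ) ^ m0 := mul_le_mul_of_nonneg_left h7 (by positivity)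
        _ = _ := (pow_add _ _ _).symm
    have h9 : 2 * m0 ≤ 4 * n + m0 := (pow_le_pow_iff_right₀ hk1).mp h8
    have h10 : (m0 : ℝ) ≤ 4 * n := by
      have : m0 ≤ 4 * n := by omega
      exact_mod_cast this
    have h11 : 9 / 2 * (n : ℝ) ≤ d / 2 * ((n : ℝ) * Δ) := by nlinarith
    linarith
  · push Not at hle
    rw [Nat.choose_eq_zero_of_lt hle] at hcard
    simp only [mul_zero, zero_mul, Nat.le_zero] at hcard
    exact (pow_pos hkN _).ne' hcard

end Pool.Agent.Lib.P325L
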