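import Pool.Agent.Lib.P325L.Defs
import Pool.Agent.Lib.P325L.LagI

/-!
Module TagEx (2.5h; uses lag_two). Existence of a tag space with the moment conditions.
PROOF. k = card Γ (>= 1, Γ is a group). Let x, w be from lag_two N. Let
Lx = Fin (m+1) × Γ × Bool and X = Option (Lx × Fin (N+3)).
For l = (r, a0, s): φ_l i a = ([i = r] + [i = rev r]) * sg (a - a0) if s = true and
([i = r] - [i = rev r]) * sg (a - a0) if s = false (rev r = m - r), and the sign
λ_l = -1/(4k) if s = true, 1/(4k) if s = false. Then (*) sum_l λ_l φ_l i a φ_l j a' =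
gg m i j * sg (a - a'): sum over r of ([i=r]+[i=rev r])([j=r]+[j=rev r]) -
([i=r]-[i=rev r])([j=r]-[j=rev r]) = 2 sum_r ([i=r][j=rev r] + [i=rev r][j=r]) = 4 [i+j=m], and
sum_{a0} sg (a-a0) sg (a'-a0) = k sg (a-a') (expand sg z = k [z=0] - 1).
Put T i a none = 0, T i a (some (l, c)) = x c * φ_l i a, μ (some (l,c)) = λ_l * w c, μ none =
1 - sum of the others, pt = none. lab: sum_a sg (a - a0) = 0.
w1: the term τ = none vanishes (T = 0). The term with l: λ_l φ_l i a * sum_c w c * x c *
prod_s (p s + x c * Q s) with Q s = sum_{j,b} q s j b φ_l j b; the polynomial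
X * prod_s (C (p s) + C (Q s) * X) has degree <= N + 1, its coefficient of X^2 is the coefficient of
X^1 in prod_s (C (p s) + C (Q s) X), which is sum_s Q s * prod_{s' ≠ s} p s' (induction on n, or
derivative at 0). Then use (*).
w2: T T' = (x c)^2 φ φ', the polynomial X^2 * prod_s (..) has degree <= N + 2 and coefficient of X^2
equal to prod_s p s. Then use (*).
-/

open scoped BigOperators

namespace Pool.Agent.Lib.P325L

section

variable {Γ : Type} [Fintype Γ] [AddCommGroup Γ] [DecidableEq Γ]

private theorem sg_sub (a b : Γ) :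
    sg (a - b) = (if b = a then (Fintype.card Γ : ℝ) else 0) - 1 := by
  unfold sg
  by_cases h : b = a
  · subst h; simp
  · have : ¬ (a - b = 0) := fun h' => h (sub_eq_zero.1 h').symm
    simp [h, this]

private theorem sum_sg_left (b : Γ) : ∑ a : Γ, sg (a - b) = 0 := by
  simp only [sg_sub, Finset.sum_sub_distrib, Finset.sum_ite_eq, Finset.mem_univ, if_true]
  simp

private theorem sum_sg_mul (a a' : Γ) :
    ∑ b : Γ, sg (a - b) * sg (a' - b) = (Fintype.card Γ : ℝ) * sg (a - a') := by
  have h : ∀ b : Γ, sg (a - b) * sg (a' - b) =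
      (if b = a then (Fintype.card Γ : ℝ) * ((if a = a' then (Fintype.card Γ : ℝ) else 0) - 1)
        else 0) - (if b = a' then (Fintype.card Γ : ℝ) else 0) + 1 := by
    intro b
    rw [sg_sub, sg_sub]
    by_cases h1 : b = a
    · subst h1
      by_cases h2 : b = a'
      · simp [h2]; ring
      · simp [h2]; ring
    · by_cases h2 : b = a'
      · have h3 : ¬ (a' = a) := fun h' => h1 (h2.trans h')
        simp [h2, h3]; ring
      · simp [h1, h2]
  simp only [h, Finset.sum_add_distrib, Finset.sum_sub_distrib, Finset.sum_ite_eq',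
    Finset.mem_univ, if_true]
  rw [sg_sub]
  have h3 : (if a' = a then (Fintype.card Γ : ℝ) else 0) =
      (if a = a' then (Fintype.card Γ : ℝ) else 0) := by
    by_cases h : a = a'
    · simp [h]
    · have : ¬ (a' = a) := fun h' => h h'.symm
      simp [h, this]
  rw [h3]
  simp

end

private theorem coeff0_prod {n : ℕ} (p Q : Fin n → ℝ) (S : Finset (Fin n)) :
    (∏ s ∈ S, (Polynomial.C (p s) + Polynomial.C (Q s) * Polynomial.X)).coeff 0 =
      ∏ s ∈ S, p s := by
  rw [Polynomial.coeff_zero_prod]
  apply Finset.prod_congr rfl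
  intro s _
  simp

private theorem coeff1_prod {n : ℕ} (p Q : Fin n → ℝ) (S : Finset (Fin n)) :
    (∏ s ∈ S, (Polynomial.C (p s) + Polynomial.C (Q s) * Polynomial.X)).coeff 1 =
      ∑ s ∈ S, Q s * ∏ s' ∈ S.erase s, p s' := by
  classical
  induction S using Finset.induction_on with
  | empty => simp [Polynomial.coeff_one]
  | insert a S ha ih =>
    rw [Finset.prod_insert ha, Finset.sum_insert ha, Finset.erase_insert ha]
    have h1 : ((Polynomial.C (p a) + Polynomial.C (Q a) * Polynomial.X) *
        ∏ s ∈ S, (Polynomial.C (p s) + Polynomial.C (Q s) * Polynomial.X)).coeff 1 =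
        p a * (∏ s ∈ S, (Polynomial.C (p s) + Polynomial.C (Q s) * Polynomial.X)).coeff 1 +
        Q a * (∏ s ∈ S, (Polynomial.C (p s) + Polynomial.C (Q s) * Polynomial.X)).coeff 0 := by
      rw [add_mul, Polynomial.coeff_add, Polynomial.coeff_C_mul, mul_assoc,
        Polynomial.coeff_C_mul, Polynomial.coeff_X_mul]
    rw [h1, ih, coeff0_prod, Finset.mul_sum, add_comm]
    congr 1
    apply Finset.sum_congr rfl
    intro s hs
    have hne : s ≠ a := fun h => ha (h ▸ hs)
    rw [Finset.erase_insert_of_ne hne.symm, Finset.prod_insert]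
    · ring
    · exact fun h => ha (Finset.mem_of_mem_erase h)

private theorem natDegree_prod_lin {n : ℕ} (p Q : Fin n → ℝ) :
    (∏ s, (Polynomial.C (p s) + Polynomial.C (Q s) * Polynomial.X)).natDegree ≤ n := by
  refine (Polynomial.natDegree_prod_le _ _).trans ?_
  have : ∀ s ∈ (Finset.univ : Finset (Fin n)),
      (Polynomial.C (p s) + Polynomial.C (Q s) * Polynomial.X).natDegree ≤ 1 := by
    intro s _
    rw [add_comm]
    exact Polynomial.natDegree_linear_le
  refine (Finset.sum_le_sum this).trans ?_
  simp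

private theorem lag1 {N n : ℕ} (hn : n ≤ N) (x w : Fin (N + 3) → ℝ)
    (hl : ∀ P : Polynomial ℝ, P.natDegree ≤ N + 2 → ∑ i, w i * P.eval (x i) = P.coeff 2)
    (p Q : Fin n → ℝ) :
    ∑ c, w c * (x c * ∏ s, (p s + x c * Q s)) =
      ∑ s, Q s * ∏ s' ∈ Finset.univ.erase s, p s' := by
  have h := hl (Polynomial.X * ∏ s, (Polynomial.C (p s) + Polynomial.C (Q s) * Polynomial.X)) (by
    refine (Polynomial.natDegree_mul_le).trans ?_
    have := natDegree_prod_lin p Q
    have := Polynomial.natDegree_X_le (R := ℝ)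
    omega)
  rw [Polynomial.coeff_X_mul, coeff1_prod] at h
  rw [← h]
  apply Finset.sum_congr rfl
  intro c _
  rw [Polynomial.eval_mul, Polynomial.eval_X, Polynomial.eval_prod]
  congr 2
  apply Finset.prod_congr rfl
  intro s _
  simp
  ring

private theorem lag2 {N n : ℕ} (hn : n ≤ N) (x w : Fin (N + 3) → ℝ)
    (hl : ∀ P : Polynomial ℝ, P.natDegree ≤ N + 2 → ∑ i, w i * P.eval (x i) = P.coeff 2)
    (p Q : Fin n → ℝ) :
    ∑ c, w c * (x c * x c * ∏ s, (p s + x c * Q s)) = ∏ s, p s := by
  have h := hl (Polynomial.X * (Polynomial.X *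
    ∏ s, (Polynomial.C (p s) + Polynomial.C (Q s) * Polynomial.X))) (by
    refine (Polynomial.natDegree_mul_le).trans ?_
    have h3 := (Polynomial.natDegree_mul_le (p := (Polynomial.X : Polynomial ℝ))
      (q := ∏ s, (Polynomial.C (p s) + Polynomial.C (Q s) * Polynomial.X)))
    have := natDegree_prod_lin p Q
    have := Polynomial.natDegree_X_le (R := ℝ)
    omega)
  rw [Polynomial.coeff_X_mul, Polynomial.coeff_X_mul, coeff0_prod] at h
  rw [← h]
  apply Finset.sum_congr rfl
  intro c _
  rw [Polynomial.eval_mul, Polynomial.eval_mul, Polynomial.eval_X, Polynomial.eval_prod]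
  rw [← mul_assoc (x c)]
  congr 2
  apply Finset.prod_congr rfl
  intro s _
  simp
  ring

section

variable {Γ : Type} [Fintype Γ] [AddCommGroup Γ] [DecidableEq Γ]

private noncomputable def phi (m : ℕ) (l : Fin (m + 1) × Γ × Bool) (i : Fin (m + 1)) (a : Γ) :
    ℝ :=
  ((if i = l.1 then 1 else 0) + (if l.2.2 then 1 else -1) * (if i = l.1.rev then 1 else 0)) *
    sg (a - l.2.1)

private noncomputable def lam (m : ℕ) (l : Fin (m + 1) × Γ × Bool) : ℝ :=
  if l.2.2 then -1 / (4 * (Fintype.card Γ : ℝ)) else 1 / (4 * (Fintype.card Γ : ℝ))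

private theorem star (m : ℕ) (i j : Fin (m + 1)) (a a' : Γ) :
    ∑ l : Fin (m + 1) × Γ × Bool, lam m l * (phi m l i a * phi m l j a') =
      gg m i j * sg (a - a') := by
  have hk : (Fintype.card Γ : ℝ) ≠ 0 := by
    have : Nonempty Γ := ⟨0⟩
    have := Fintype.card_pos (α := Γ)
    positivity
  have e1 : ∀ r : Fin (m + 1), ∀ b : Γ,
      ∑ s : Bool, lam m (r, b, s) * (phi m (r, b, s) i a * phi m (r, b, s) j a') =
      (-1 / (2 * (Fintype.card Γ : ℝ)) * ((if i = r then 1 else 0) * (if j = r.rev then 1 else 0) +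
        (if i = r.rev then 1 else 0) * (if j = r then 1 else 0))) *
        (sg (a - b) * sg (a' - b)) := by
    intro r b
    rw [Fintype.sum_bool]
    simp only [lam, phi, if_true, Bool.false_eq_true, if_false]
    field_simp
    ring
  rw [Fintype.sum_prod_type]
  simp only [Fintype.sum_prod_type, e1]
  simp only [← Finset.mul_sum, sum_sg_mul, ← Finset.sum_mul]
  have e2 : ∑ r : Fin (m + 1), (((if i = r then (1 : ℝ) else 0) * (if j = r.rev then 1 else 0) +
        (if i = r.rev then 1 else 0) * (if j = r then 1 else 0))) =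
      if i.val + j.val = m then 2 else 0 := by
    have h1 : ∀ r : Fin (m + 1), ((if i = r then (1 : ℝ) else 0) * (if j = r.rev then 1 else 0) +
        (if i = r.rev then 1 else 0) * (if j = r then 1 else 0)) =
        (if i = r then (if j = i.rev then 1 else 0) else 0) +
        (if j = r then (if i = j.rev then 1 else 0) else 0) := by
      intro r
      congr 1
      · by_cases h : i = r
        · subst h; simp
        · simp [h]
      · by_cases h : j = r
        · subst h; simp
        · simp [h]
    simp only [h1, Finset.sum_add_distrib, Finset.sum_ite_eq, Finset.mem_univ, if_true]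
    have h2 : (j = i.rev) ↔ i.val + j.val = m := by
      rw [Fin.ext_iff, Fin.val_rev]
      omega
    have h3 : (i = j.rev) ↔ i.val + j.val = m := by
      rw [Fin.ext_iff, Fin.val_rev]
      omega
    by_cases h : i.val + j.val = m
    · simp [h2, h3, h]; norm_num
    · simp [h2, h3, h]
  rw [e2]
  unfold gg
  by_cases h : i.val + j.val = m
  · simp only [h, if_true]
    field_simp
  · simp [h]

end

theorem tag_ex (Γ : Type) [Fintype Γ] [AddCommGroup Γ] [DecidableEq Γ] (m N : ℕ) :
    ∃ (X : Type) (_ : Fintype X) (_ : DecidableEq X) (D : TagSpace m Γ X), D.Good N := by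
  obtain ⟨x, w, hl⟩ := lag_two N
  let X := Option ((Fin (m + 1) × Γ × Bool) × Fin (N + 3))
  let M : (Fin (m + 1) × Γ × Bool) × Fin (N + 3) → ℝ := fun u => lam m u.1 * w u.2
  let D : TagSpace m Γ X :=
    { μ := fun τ => match τ with
        | none => 1 - ∑ u, M u
        | some u => M u
      T := fun i a τ => match τ with
        | none => 0
        | some u => x u.2 * phi m u.1 i a
      pt := none }
  have hQ : ∀ (u : (Fin (m + 1) × Γ × Bool) × Fin (N + 3)) (q : Fin (m + 1) → Γ → ℝ),
      ∑ l, ∑ b, q l b * D.T l b (some u) = x u.2 * ∑ l, ∑ b, q l b * phi m u.1 l b := by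
    intro u q
    simp only [D, Finset.mul_sum]
    apply Finset.sum_congr rfl
    intro l _
    apply Finset.sum_congr rfl
    intro b _
    ring
  refine ⟨X, inferInstance, inferInstance, D, ⟨?_, ?_, ?_, ?_, ?_⟩⟩
  · rw [Fintype.sum_option]
    simp only [D]
    ring
  · intro i a
    rfl
  · intro i τ
    cases τ with
    | none => simp [D]
    | some u =>
      simp only [D, phi, ← Finset.mul_sum, sum_sg_left, mul_zero]
  · intro i a n hn p q
    rw [Fintype.sum_option]
    have h0 : D.T i a none = 0 := rfl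
    rw [h0]
    simp only [hQ]
    rw [Fintype.sum_prod_type]
    have e1 : ∀ l : Fin (m + 1) × Γ × Bool,
        ∑ c : Fin (N + 3), D.μ (some (l, c)) * (D.T i a (some (l, c)) *
          ∏ s, (p s + x c * ∑ j, ∑ b, q s j b * phi m l j b)) =
        lam m l * phi m l i a * ∑ s, (∑ j, ∑ b, q s j b * phi m l j b) *
          ∏ s' ∈ Finset.univ.erase s, p s' := by
      intro l
      rw [← lag1 hn x w hl p (fun s => ∑ j, ∑ b, q s j b * phi m l j b), Finset.mul_sum]
      apply Finset.sum_congr rfl
      intro c _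
      simp only [D, M]
      ring
    simp only [e1]
    rw [zero_mul, mul_zero, zero_add]
    simp only [Finset.mul_sum, Finset.sum_mul]
    rw [Finset.sum_comm]
    apply Finset.sum_congr rfl
    intro s _
    rw [Finset.sum_comm]
    apply Finset.sum_congr rfl
    intro j _
    rw [Finset.sum_comm]
    apply Finset.sum_congr rfl
    intro b _
    rw [← star m i j a b, Finset.mul_sum, Finset.sum_mul]
    apply Finset.sum_congr rfl
    intro l _
    ring
  · intro i a j a' n hn p q
    rw [Fintype.sum_option]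
    have h0 : D.T i a none = 0 := rfl
    rw [h0]
    simp only [hQ]
    rw [Fintype.sum_prod_type]
    have e1 : ∀ l : Fin (m + 1) × Γ × Bool,
        ∑ c : Fin (N + 3), D.μ (some (l, c)) * (D.T i a (some (l, c)) * D.T j a' (some (l, c)) *
          ∏ s, (p s + x c * ∑ j, ∑ b, q s j b * phi m l j b)) =
        lam m l * (phi m l i a * phi m l j a') * ∏ s, p s := by
      intro l
      rw [← lag2 hn x w hl p (fun s => ∑ j, ∑ b, q s j b * phi m l j b), Finset.mul_sum]
      apply Finset.sum_congr rfl
      intro c _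
      simp only [D, M]
      ring
    simp only [e1]
    rw [zero_mul, zero_mul, mul_zero, zero_add, ← Finset.sum_mul, star]

end Pool.Agent.Lib.P325L
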