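import Pool.Agent.Lib.P325L.Defs
import Pool.Agent.Lib.P325x.Defs
import Pool.Agent.Lib.P325L.Fam
import Pool.Agent.Lib.P325L.ExtL
import Pool.Agent.Lib.P325L.Coef
import Pool.Agent.Lib.P325L.TagEx
import Pool.Agent.Lib.P325L.CSum
import Pool.Agent.Lib.P325L.Sel
import Pool.Agent.Lib.P325L.Sound
import Pool.Agent.Lib.P325L.Par

/-!
Module Main (2.5h; black boxes fam, ext_local, coef, tag_ex, csum, sel, sound, par). Assembly.
PROOF. u = s^(1/8) ∈ (0,1), u^8 = s, Δ = ⌈9/d⌉, k >= 36/d^2 >= 144 (NeZero). Let α = u^8/(1-u^8),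
ε = (u^2 - u^4)/α > 0, m0 from csum (t = u^4). Constants a, b0 chosen so that for every v0 >= 1, m, g:
4 v0 δ <= v0 (a (u^4)^m v0 + b0 (m+1) ((u^4)^m v0^2 + v0 u^g)), where δ is as in fam (Ab = α v0/(u(1-u)),
Cb = v0 u^g/(1-u)): a = 8 α k * α/(u(1-u)), b0 = 4 k^2 u^2 (α^2/(u(1-u))^2 + 1/(1-u)) work. par gives n0;
for n >= n0 take m, g, l0, r, v0; R = 2 v0, N0 = 20 (m+3). coef m: c, p; hQ by csum. sel with R, N0:
f, Del. ι = {e // e ∉ Del}; G = the restriction of bg f: Girth g and Sparse R N0 (map subsets of ι to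
Finset (Fin n × Fin Δ) by Subtype.val; verts and card are preserved, the image is disjoint from Del).
sound: b. tag_ex (ZMod k) m (card ι + 1). fam (note Hsm) + ext_local: E, an IsLocalExpectation of
degree r with E (1[z (tgt e) = z (src e) + b e]) = (1 + s (k-1))/k >= s. The game I: U = W = Fin n,
src e = e.1.1, dst e = f e.1, perm e = Equiv.addRight (b e) (x ↦ x + b e). Value: for all labelings the
number of satisfied edges of ι is at most the number in Fin n × Fin Δ, <= d/2 nΔ <= d |ι| as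
|ι| = nΔ - |Del| >= nΔ/2 > 0; so satFrac <= d and value <= d (ciSup_le). E (satFrac) =
(1/|ι|) ∑_e E (indicator) >= s, by linearity (satFrac = (∑_e indicator)/|ι| as functions).
-/

open scoped BigOperators

namespace Pool.Agent.Lib.P325L

namespace MainAux

/-- the restriction of the graph to the edges outside `Del` -/
def rg {n Δ : ℕ} (f : Fin n × Fin Δ → Fin n) (Del : Finset (Fin n × Fin Δ)) :
    Gr (Fin n ⊕ Fin n) {e : Fin n × Fin Δ // e ∉ Del} where
  src := fun e => Sum.inl e.1.1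
  tgt := fun e => Sum.inr (f e.1)
  ne := fun _ h => by cases h

theorem verts_map {n Δ : ℕ} (f : Fin n × Fin Δ → Fin n) (Del : Finset (Fin n × Fin Δ))
    (H : Finset {e : Fin n × Fin Δ // e ∉ Del}) :
    (bg f).verts (H.map (Function.Embedding.subtype _)) = (rg f Del).verts H := by
  unfold Gr.verts
  rw [Finset.map_eq_image, Finset.image_image, Finset.image_image]
  rfl

theorem disj {n Δ : ℕ} (Del : Finset (Fin n × Fin Δ))
    (H : Finset {e : Fin n × Fin Δ // e ∉ Del}) :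
    Disjoint (H.map (Function.Embedding.subtype _)) Del := by
  rw [Finset.disjoint_left]
  intro e he
  rw [Finset.mem_map] at he
  obtain ⟨e', _, rfl⟩ := he
  exact e'.2

theorem small {α u k v0 g' m' q : ℝ} (hα : 0 < α) (hu0 : 0 < u) (hu1 : u < 1)
    (hv : 0 ≤ v0) (hg : 0 ≤ g') (hm : 0 ≤ m') (hq : 0 ≤ q)
    (h : v0 * ((8 * α * k * (α / (u * (1 - u)))) * q * v0 +
      (4 * k ^ 2 * u ^ 2 * (α ^ 2 / (u * (1 - u)) ^ 2 + 1 / (1 - u))) * (m' + 1) *
        (q * v0 ^ 2 + v0 * g')) ≤ 1) :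
    4 * v0 * (2 * α * k * q * (α * v0 / (u * (1 - u))) +
      k ^ 2 * ((m' + 1) * u ^ 2) * (q * (α * v0 / (u * (1 - u))) ^ 2 +
        v0 * g' / (1 - u))) ≤ 1 := by
  refine le_trans ?_ h
  have h1 : 0 < 1 - u := by linarith
  have h2 : 0 < u * (1 - u) := mul_pos hu0 h1
  set A : ℝ := α / (u * (1 - u)) with hA
  have e1 : α * v0 / (u * (1 - u)) = A * v0 := by rw [hA]; ring
  have e2 : α ^ 2 / (u * (1 - u)) ^ 2 = A ^ 2 := by rw [hA, div_pow]
  have e3 : v0 * g' / (1 - u) = v0 * g' * (1 / (1 - u)) := by ring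
  rw [e1, e2, e3]
  set B : ℝ := 1 / (1 - u) with hB
  have hA0 : 0 ≤ A := (div_pos hα h2).le
  have hB0 : 0 ≤ B := (one_div_pos.2 h1).le
  have key : (q * (A * v0) ^ 2 + v0 * g' * B) ≤ (A ^ 2 + B) * (q * v0 ^ 2 + v0 * g') := by
    have h3 : 0 ≤ A ^ 2 * (v0 * g') := by positivity
    have h4 : 0 ≤ B * (q * v0 ^ 2) := by positivity
    nlinarith
  have h5 : 0 ≤ 4 * v0 * (k ^ 2 * ((m' + 1) * u ^ 2)) := by positivity
  have h6 := mul_le_mul_of_nonneg_left key h5
  nlinarith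

theorem card_sub {n Δ : ℕ} (Del : Finset (Fin n × Fin Δ)) (hDel : 2 * Del.card ≤ n * Δ) :
    (Fintype.card {e : Fin n × Fin Δ // e ∉ Del} : ℝ) = (n : ℝ) * Δ - Del.card := by
  have h1 : Fintype.card {e : Fin n × Fin Δ // e ∉ Del} = n * Δ - Del.card := by
    rw [Fintype.card_subtype_compl (fun e => e ∈ Del)]
    simp
  rw [h1, Nat.cast_sub (by omega)]
  push_cast
  ring

theorem sat_eq {n Δ k : ℕ} (f : Fin n × Fin Δ → Fin n) (Del : Finset (Fin n × Fin Δ))
    (b : Fin n × Fin Δ → ZMod k) (x y : Fin n → ZMod k) :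
    (Pool.Agent.Lib.P325x.Game.mk (fun e : {e : Fin n × Fin Δ // e ∉ Del} => e.1.1)
      (fun e => f e.1) (fun e => Equiv.addRight (b e.1))).satFrac x y =
    (∑ e : {e : Fin n × Fin Δ // e ∉ Del}, if x e.1.1 + b e.1 = y (f e.1) then (1 : ℝ) else 0) /
      (Fintype.card {e : Fin n × Fin Δ // e ∉ Del} : ℝ) := by
  unfold Pool.Agent.Lib.P325x.Game.satFrac
  rw [Finset.card_filter]
  push_cast
  congr 1

theorem val_le {n Δ k : ℕ} [NeZero k] (f : Fin n × Fin Δ → Fin n) (Del : Finset (Fin n × Fin Δ))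
    (b : Fin n × Fin Δ → ZMod k) (d : ℝ) (hd : 0 ≤ d) (hDel : 2 * Del.card ≤ n * Δ)
    (hpos : (0 : ℝ) < (Fintype.card {e : Fin n × Fin Δ // e ∉ Del} : ℝ))
    (hb : ∀ x y : Fin n → ZMod k,
      ((Finset.univ.filter (fun e : Fin n × Fin Δ => y (f e) = x e.1 + b e)).card : ℝ) ≤
        d / 2 * ((n : ℝ) * Δ)) :
    (Pool.Agent.Lib.P325x.Game.mk (fun e : {e : Fin n × Fin Δ // e ∉ Del} => e.1.1)
      (fun e => f e.1) (fun e => Equiv.addRight (b e.1))).value ≤ d := by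
  refine ciSup_le fun q => ?_
  rw [sat_eq, div_le_iff₀ hpos, card_sub Del hDel]
  have hDel' : 2 * (Del.card : ℝ) ≤ (n : ℝ) * Δ := by exact_mod_cast hDel
  have h4 : d / 2 * ((n : ℝ) * Δ) ≤ d * ((n : ℝ) * Δ - Del.card) := by nlinarith
  refine le_trans (le_trans ?_ (hb q.1 q.2)) h4
  rw [Finset.card_filter]
  push_cast
  have h5 : ∑ e : {e : Fin n × Fin Δ // e ∉ Del},
      (if q.1 e.1.1 + b e.1 = q.2 (f e.1) then (1 : ℝ) else 0) =
      ∑ e ∈ Finset.univ.filter (fun e => e ∉ Del),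
        (if q.2 (f e) = q.1 e.1 + b e then (1 : ℝ) else 0) := by
    rw [Finset.sum_subtype (Finset.univ.filter (fun e => e ∉ Del)) (p := fun e => e ∉ Del)
      (by simp)]
    refine Finset.sum_congr rfl fun e _ => if_congr eq_comm rfl rfl
  rw [h5]
  refine Finset.sum_le_sum_of_subset_of_nonneg (Finset.filter_subset _ _) fun e _ _ => ?_
  split_ifs <;> norm_num

end MainAux

open MainAux

theorem main (s d : ℝ) (hd : 0 < d) (hd2 : d ≤ 1 / 2) (hds : d ≤ s) (hs : s < 1) (k : ℕ)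
    (hk : 36 ≤ (k : ℝ) * d ^ 2) :
    ∃ n0 : ℕ, ∀ n ≥ n0, ∃ (ι : Type) (_ : Fintype ι) (src dst : ι → Fin n)
      (b : ι → ZMod k) (r : ℕ)
      (E : ((Fin n ⊕ Fin n → ZMod k) → ℝ) →ₗ[ℝ] ℝ), Nonempty ι ∧
      (2 * (n : ℝ)) ^ (Real.log (1 / s) / Real.log (1 / d) / 20000) ≤ r ∧
      (Pool.Agent.Lib.P325x.Game.mk src dst (fun e => Equiv.addRight (b e))).value ≤ d ∧
      Pool.Agent.Lib.P325h.IsLocalExpectation r E ∧
      (∀ e, s ≤ E (fun z => if z (Sum.inl (src e)) + b e = z (Sum.inr (dst e)) then 1 else 0)) ∧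
      s ≤ E (fun z => (Pool.Agent.Lib.P325x.Game.mk src dst (fun e => Equiv.addRight (b e))).satFrac
        (fun u => z (Sum.inl u)) (fun w => z (Sum.inr w))) := by
  classical
  have hs0 : 0 < s := hd.trans_le hds
  have hk0 : k ≠ 0 := by
    rintro rfl
    norm_num at hk
  have : NeZero k := ⟨hk0⟩
  have hkpos : (0 : ℝ) < k := by exact_mod_cast Nat.pos_of_ne_zero hk0
  set u : ℝ := s ^ (1 / 8 : ℝ) with hu
  have hu0 : 0 < u := Real.rpow_pos_of_pos hs0 _
  have hu1 : u < 1 := Real.rpow_lt_one hs0.le hs (by norm_num)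
  have hu8 : u ^ 8 = s := by
    rw [hu, ← Real.rpow_natCast, ← Real.rpow_mul hs0.le]
    norm_num
  have h1u : 0 < 1 - u := by linarith
  have hα8 : 0 < 1 - u ^ 8 := by rw [hu8]; linarith
  set α : ℝ := u ^ 8 / (1 - u ^ 8) with hα
  have hα0 : 0 < α := div_pos (by positivity) hα8
  have hu42 : u ^ 4 < u ^ 2 := pow_lt_pow_right_of_lt_one₀ hu0 hu1 (by norm_num)
  have hε : 0 < (u ^ 2 - u ^ 4) / α := div_pos (by linarith) hα0
  obtain ⟨m0, hm0⟩ := csum (u ^ 4) _ (by positivity) (pow_lt_one₀ hu0.le hu1 (by norm_num)) hε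
  have hu1u : 0 < u * (1 - u) := mul_pos hu0 h1u
  have ha : 0 < 8 * α * k * (α / (u * (1 - u))) := by positivity
  have hb : 0 < 4 * (k : ℝ) ^ 2 * u ^ 2 * (α ^ 2 / (u * (1 - u)) ^ 2 + 1 / (1 - u)) := by
    positivity
  obtain ⟨n0, hn0⟩ := par s d _ _ hd hd2 hds hs ha hb m0
  refine ⟨n0, fun n hn => ?_⟩
  obtain ⟨m, g, l0, r, v0, c1, c2, c3, c4, c5, c6, c7, c8, c9, c10, c11, c12, c13, c14, c15⟩ :=
    hn0 n hn
  rw [← hu] at c13 c14
  set Δ : ℕ := ⌈9 / d⌉₊ with hΔ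
  have hΔ9 : 9 ≤ d * (Δ : ℝ) := by
    have h1 : 9 / d ≤ (Δ : ℝ) := Nat.le_ceil _
    rw [div_le_iff₀ hd] at h1
    linarith
  have hΔ1 : 1 ≤ Δ := by
    by_contra h
    have h0 : Δ = 0 := by omega
    rw [h0] at hΔ9
    norm_num at hΔ9
  obtain ⟨c, p, hcp⟩ := coef m
  have hQ : u ^ 4 + u ^ 8 / (1 - u ^ 8) * ∑ j ∈ Finset.range (m + 1), c j * (u ^ 4) ^ j ≤
      u ^ 2 := by
    have h1 := hm0 m c2 c hcp.nonneg hcp.le
    rw [le_div_iff₀ hα0] at h1
    rw [← hα]
    nlinarith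
  obtain ⟨f, Del, hDel, hgir, hspa⟩ := sel n Δ g (2 * v0) (20 * (m + 3)) c1 (by omega) c10 c5 c6
    hΔ1 c11 c12
  obtain ⟨b, hb'⟩ := sound n Δ k d (by omega) hd (by linarith) hk hΔ9 f
  have hG : (rg f Del).Girth g := by
    intro H hH hc
    have h1 := hgir (H.map (Function.Embedding.subtype _)) (disj Del H) (by simpa using hH)
      (by rw [Finset.card_map]; exact hc)
    rw [verts_map, Finset.card_map] at h1
    exact h1
  have hS : (rg f Del).Sparse (2 * v0) (20 * (m + 3)) := by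
    intro H hH
    have h1 := hspa (H.map (Function.Embedding.subtype _)) (by rw [verts_map]; exact hH)
    rw [verts_map, Finset.card_map] at h1
    exact h1
  obtain ⟨X, _, _, D, hD⟩ := tag_ex (ZMod k) m
    (Fintype.card {e : Fin n × Fin Δ // e ∉ Del} + 1)
  have hcard : (Fintype.card (ZMod k) : ℝ) = k := by rw [ZMod.card]
  obtain ⟨L, L1, L2, L3, L4⟩ := fam D hD (rg f Del) (fun e => b e.1) c p hcp g (2 * v0)
    (20 * (m + 3)) r l0 v0 hG hS le_rfl c9 c4 c3 rfl c7 c8 u hu0 hu1 c13 hQ _ _ _ rfl rfl rfl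
    (by
      rw [hcard]
      exact small hα0 hu0 hu1 (Nat.cast_nonneg _) (by positivity) (Nat.cast_nonneg _)
        (by positivity) c14)
  obtain ⟨E, hE, hEL⟩ := ext_local r L L1 L2 L3
  have hedge : ∀ e : {e : Fin n × Fin Δ // e ∉ Del},
      s ≤ E (fun z => if z (Sum.inl e.1.1) + b e.1 = z (Sum.inr (f e.1)) then 1 else 0) := by
    intro e
    have h1 : (fun z : Fin n ⊕ Fin n → ZMod k =>
        if z (Sum.inl e.1.1) + b e.1 = z (Sum.inr (f e.1)) then (1 : ℝ) else 0) =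
        fun z => if z ((rg f Del).tgt e) = z ((rg f Del).src e) + b e.1 then 1 else 0 := by
      funext z
      exact if_congr eq_comm rfl rfl
    rw [h1, hEL {(rg f Del).src e, (rg f Del).tgt e} _ (Finset.card_le_two.trans c4) ?_, L4 e,
      hu8, hcard]
    · rw [le_div_iff₀ hkpos]
      nlinarith
    · intro x y hxy
      have h2 := hxy ((rg f Del).src e) (by simp)
      have h3 := hxy ((rg f Del).tgt e) (by simp)
      simp only [h2, h3]
  have hnΔ : (0 : ℝ) < (n : ℝ) * Δ := by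
    have h1 : 0 < n := by omega
    have h2 : (0 : ℝ) < n := by exact_mod_cast h1
    have h3 : (0 : ℝ) < Δ := by exact_mod_cast hΔ1
    positivity
  have hcpos : (0 : ℝ) < (Fintype.card {e : Fin n × Fin Δ // e ∉ Del} : ℝ) := by
    have hDel' : 2 * (Del.card : ℝ) ≤ (n : ℝ) * Δ := by exact_mod_cast hDel
    rw [card_sub Del hDel]
    linarith
  refine ⟨{e : Fin n × Fin Δ // e ∉ Del}, inferInstance, fun e => e.1.1, fun e => f e.1,
    fun e => b e.1, r, E, ?_, c15, ?_, hE, hedge, ?_⟩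
  · rw [← Fintype.card_pos_iff]
    exact_mod_cast hcpos
  · exact val_le f Del b d hd.le hDel hcpos hb'
  · have h1 : (fun z : Fin n ⊕ Fin n → ZMod k =>
        (Pool.Agent.Lib.P325x.Game.mk (fun e : {e : Fin n × Fin Δ // e ∉ Del} => e.1.1)
          (fun e => f e.1) (fun e => Equiv.addRight (b e.1))).satFrac
          (fun u => z (Sum.inl u)) (fun w => z (Sum.inr w))) =
        (1 / (Fintype.card {e : Fin n × Fin Δ // e ∉ Del} : ℝ)) •
          ∑ e : {e : Fin n × Fin Δ // e ∉ Del}, (fun z : Fin n ⊕ Fin n → ZMod k =>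
            if z (Sum.inl e.1.1) + b e.1 = z (Sum.inr (f e.1)) then (1 : ℝ) else 0) := by
      funext z
      rw [Pi.smul_apply, Finset.sum_apply, smul_eq_mul, sat_eq]
      ring
    rw [h1, map_smul, map_sum, smul_eq_mul, one_div, inv_mul_eq_div, le_div_iff₀ hcpos]
    have h2 : ∑ _e : {e : Fin n × Fin Δ // e ∉ Del}, s ≤
        ∑ e : {e : Fin n × Fin Δ // e ∉ Del}, E (fun z : Fin n ⊕ Fin n → ZMod k =>
            if z (Sum.inl e.1.1) + b e.1 = z (Sum.inr (f e.1)) then (1 : ℝ) else 0) :=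
      Finset.sum_le_sum fun e _ => hedge e
    rw [Finset.sum_const, Finset.card_univ, nsmul_eq_mul] at h2
    linarith

end Pool.Agent.Lib.P325L
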